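import Pool.Agent.Lib.MP_568bdc_nt.ThreeSq

/-! Basic reductions. -/

namespace Pool.Agent.Lib.MP_568bdc_nt

def RepN (m n : ℕ) : Prop :=
  ∃ x y z : ℕ, n = x * (x + 1) / 2 / m + y * (y + 1) / 2 / m + z * (z + 1) / 2 / m

def AllBad (m s M : ℤ) : Prop :=
  ∀ x y z : ℤ, x * x + y * y + z * z = M → x * x / 8 % m + y * y / 8 % m + z * z / 8 % m ≠ s

theorem sq_odd {x : ℤ} (hx : x % 2 = 1) : x * x = 8 * (x * x / 8) + 1 := by
  obtain ⟨k, hk⟩ : ∃ k, x = 2 * k + 1 := ⟨x / 2, by omega⟩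
  obtain ⟨t, ht⟩ := Int.even_mul_succ_self k
  have : x * x = 8 * t + 1 := by rw [hk]; linear_combination 4 * ht
  omega

theorem sq_even {x : ℤ} (hx : x % 2 = 0) : x * x % 4 = 0 := by
  obtain ⟨k, hk⟩ : ∃ k, x = 2 * k := ⟨x / 2, by omega⟩
  have : x * x = 4 * (k * k) := by rw [hk]; ring
  omega

theorem all_odd {x y z : ℤ} (h : (x * x + y * y + z * z) % 8 = 3) :
    x % 2 = 1 ∧ y % 2 = 1 ∧ z % 2 = 1 := by
  rcases Int.emod_two_eq_zero_or_one x with hx | hx <;>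
    rcases Int.emod_two_eq_zero_or_one y with hy | hy <;>
    rcases Int.emod_two_eq_zero_or_one z with hz | hz <;>
    first
    | exact ⟨hx, hy, hz⟩
    | (exfalso
       first | have h1 := sq_even hx | have h1 := sq_odd hx
       first | have h2 := sq_even hy | have h2 := sq_odd hy
       first | have h3 := sq_even hz | have h3 := sq_odd hz
       omega)

theorem odd_tri {x : ℤ} (hx : x % 2 = 1) : ∃ a : ℕ, ((a * (a + 1) / 2 : ℕ) : ℤ) = x * x / 8 := by
  obtain ⟨a, ha⟩ : ∃ a : ℕ, x.natAbs = 2 * a + 1 := ⟨x.natAbs / 2, by omega⟩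
  refine ⟨a, ?_⟩
  have h1 : x * x = ((2 * a + 1 : ℕ) : ℤ) * ((2 * a + 1 : ℕ) : ℤ) := by
    rw [← ha, Int.natAbs_mul_self']
  obtain ⟨t, ht⟩ := Nat.even_mul_succ_self a
  have h2 : a * (a + 1) / 2 = t := by omega
  have h3 : ((a : ℤ) * (a + 1)) = t + t := by exact_mod_cast ht
  have : x * x = 8 * t + 1 := by rw [h1]; push_cast; linear_combination 4 * h3
  rw [h2]; omega

theorem allBad_of_not_rep {m n s : ℕ} (hm : 0 < m) (h : ¬ RepN m n) :
    AllBad m s (8 * (m * n + s) + 3) := by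
  intro x y z hM hs
  obtain ⟨hx, hy, hz⟩ := all_odd (x := x) (y := y) (z := z) (by omega)
  obtain ⟨a, ha⟩ := odd_tri hx
  obtain ⟨b, hb⟩ := odd_tri hy
  obtain ⟨c, hc⟩ := odd_tri hz
  have h1 := sq_odd hx
  have h2 := sq_odd hy
  have h3 := sq_odd hz
  rw [← ha] at h1 hs
  rw [← hb] at h2 hs
  rw [← hc] at h3 hs
  apply h
  refine ⟨a, b, c, ?_⟩
  generalize a * (a + 1) / 2 = A at *
  generalize b * (b + 1) / 2 = B at *
  generalize c * (c + 1) / 2 = C at *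
  have e1 : A + B + C = m * n + s := by
    have : (A : ℤ) + B + C = m * n + s := by omega
    exact_mod_cast this
  have e2 : A % m + B % m + C % m = s := by exact_mod_cast hs
  have d1 := Nat.div_add_mod A m
  have d2 := Nat.div_add_mod B m
  have d3 := Nat.div_add_mod C m
  have : m * n = m * (A / m + B / m + C / m) := by rw [mul_add, mul_add]; omega
  exact Nat.eq_of_mul_eq_mul_left hm this

theorem tri_succ (x : ℕ) : (x + 1) * (x + 1 + 1) / 2 = x * (x + 1) / 2 + (x + 1) := by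
  have : (x + 1) * (x + 1 + 1) = x * (x + 1) + 2 * (x + 1) := by ring
  omega

theorem ivt_step {m : ℕ} (hm : 0 < m) (x k : ℕ) (hx : x + 1 ≤ m * k) :
    (x + 1) * (x + 1 + 1) / 2 / m ≤ x * (x + 1) / 2 / m + k := by
  rw [tri_succ, ← Nat.add_mul_div_left _ _ hm]
  exact Nat.div_le_div_right (by omega)

theorem ivt {m : ℕ} (hm : 0 < m) (k N v : ℕ) (hN : N ≤ m * k) (hv : v < N * (N + 1) / 2 / m) :
    ∃ x, x * (x + 1) / 2 / m ≤ v ∧ v < x * (x + 1) / 2 / m + k := by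
  induction N with
  | zero => simp at hv
  | succ N ih =>
    by_cases h : v < N * (N + 1) / 2 / m
    · exact ih (by omega) h
    · have := ivt_step hm N k hN
      exact ⟨N, by omega, by omega⟩

theorem one_val {m : ℕ} (hm : 0 < m) (v : ℕ) (hv : 2 * v ≤ m + 1) : ∃ x, x * (x + 1) / 2 / m = v := by
  have h0 : (m + 1) / 2 ≤ m * (m + 1) / 2 / m := by
    rw [Nat.le_div_iff_mul_le hm, Nat.le_div_iff_mul_le (by norm_num)]
    have : (m + 1) / 2 * 2 ≤ m + 1 := Nat.div_mul_le_self _ _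
    nlinarith
  by_cases h : v < m * (m + 1) / 2 / m
  · obtain ⟨x, h1, h2⟩ := ivt hm 1 m v (by omega) h
    exact ⟨x, by omega⟩
  · have h1 : m * (m + 1) / 2 / m ≤ (m + 1) / 2 := by
      rw [Nat.div_div_eq_div_mul, mul_comm 2 m, ← Nat.div_div_eq_div_mul, Nat.mul_div_cancel_left _ hm]
    exact ⟨m, by omega⟩

theorem rep_small {m n : ℕ} (hm : 2 ≤ m) (h : 2 * n ≤ m * m * m) : RepN m n := by
  have hm0 : 0 < m := by omega
  have h1 : n < (m * m) * (m * m + 1) / 2 / m := by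
    rw [Nat.lt_iff_add_one_le, Nat.le_div_iff_mul_le hm0, Nat.le_div_iff_mul_le (by norm_num)]
    nlinarith [Nat.mul_le_mul_right m h, Nat.mul_le_mul_right m hm]
  obtain ⟨x, h2, h3⟩ := ivt hm0 m (m * m) n le_rfl h1
  obtain ⟨y, hy⟩ := one_val hm0 ((n - x * (x + 1) / 2 / m) / 2) (by omega)
  obtain ⟨z, hz⟩ := one_val hm0 ((n - x * (x + 1) / 2 / m + 1) / 2) (by omega)
  exact ⟨x, y, z, by omega⟩

theorem big_of_not_rep {m n s : ℕ} (hm : 2 ≤ m) (h : ¬ RepN m n) :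
    4 * ((m : ℤ) * m * m * m) < 8 * (m * n + s) + 3 := by
  have h1 : m * m * m < 2 * n := by
    by_contra h2
    exact h (rep_small hm (by omega))
  have h2 : (m : ℤ) * m * m < 2 * n := by exact_mod_cast h1
  have h3 : (0 : ℤ) < m := by exact_mod_cast (by omega : 0 < m)
  have h4 : (0 : ℤ) ≤ s := by positivity
  nlinarith

theorem rep_one (n : ℕ) : RepN 1 n := by
  by_contra h
  have hb := allBad_of_not_rep (s := 0) one_pos h
  obtain ⟨x, y, z, -, -, -, hM, -⟩ := three_sq_prim (8 * n + 3) (by omega)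
  exact hb x y z (by rw [hM]; push_cast; ring) (by simp)

theorem five_move {x y z M : ℤ} (hM : x * x + y * y + z * z = M) (h8 : M % 8 = 3)
    (h5 : (3 * y + 4 * z) % 5 = 0) :
    ∃ y' z' : ℤ, x * x + y' * y' + z' * z' = M ∧ (y' * y' / 8 + y * y / 8) % 2 = 1 ∧
      (z' * z' / 8 + z * z / 8) % 2 = 1 := by
  obtain ⟨-, hy, hz⟩ := all_odd (x := x) (y := y) (z := z) (by omega)
  obtain ⟨a, ha⟩ : ∃ a, 3 * y + 4 * z = 5 * a := ⟨(3 * y + 4 * z) / 5, by omega⟩
  obtain ⟨b, hb⟩ : ∃ b, 4 * y - 3 * z = 5 * b := ⟨(4 * y - 3 * z) / 5, by omega⟩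
  have key : ∀ u v : ℤ, v % 2 = 1 → (u + v) % 8 = 4 → (u * u / 8 + v * v / 8) % 2 = 1 := by
    intro u v hv huv
    obtain ⟨k, hk⟩ : ∃ k, u = 8 * k + 4 - v := ⟨(u + v) / 8, by omega⟩
    obtain ⟨w, hw⟩ : ∃ w, v = 2 * w + 1 := ⟨v / 2, by omega⟩
    have h1 := sq_odd hv
    have : u * u = v * v + 16 * (4 * k * k + 4 * k - k * v - w) + 8 := by rw [hk, hw]; ring
    omega
  have e25 : 25 * (a * a + b * b) = 25 * (y * y + z * z) := by
    linear_combination (-(3 * y + 4 * z + 5 * a)) * ha - (4 * y - 3 * z + 5 * b) * hb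
  refine ⟨a, b, by linarith, key _ _ hy (by omega), ?_⟩
  have := key b (-z) (by omega) (by omega)
  rwa [neg_mul_neg] at this

theorem two_aux {x y z M s : ℤ} (hb : AllBad 2 s M) (hM : x * x + y * y + z * z = M) (hs : s = 1 ∨ s = 2)
    (h8 : M % 16 = (8 * s + 3) % 16) (h5 : (y * y + z * z) % 5 = 0) : False := by
  have h0 := hb x y z hM
  obtain ⟨hx, hy, hz⟩ := all_odd (x := x) (y := y) (z := z) (by omega)
  have h1 := sq_odd hx
  have h2 := sq_odd hy
  have h3 := sq_odd hz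
  have hc : (3 * y + 4 * z) % 5 = 0 ∨ (3 * y + 4 * (-z)) % 5 = 0 := by
    have : (5 : ℤ) ∣ (3 * y + 4 * z) * (3 * y + 4 * (-z)) := by
      have e : (3 * y + 4 * z) * (3 * y + 4 * (-z)) = 9 * (y * y + z * z) - 25 * (z * z) := by ring
      rw [e]; omega
    rcases (Int.prime_ofNat_iff.mpr (by norm_num : Nat.Prime 5)).dvd_or_dvd this with h | h
    · left; omega
    · right; omega
  rcases hc with hc | hc
  · obtain ⟨y', z', e1, e2, e3⟩ := five_move hM (by omega) hc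
    have := hb x y' z' e1
    omega
  · obtain ⟨y', z', e1, e2, e3⟩ := five_move (x := x) (y := y) (z := -z) (M := M) (by rw [neg_mul_neg]; exact hM)
      (by omega) hc
    have := hb x y' z' e1
    rw [neg_mul_neg] at e3
    omega

theorem sq_mod5 (x : ℤ) : x * x % 5 = 0 ∨ x * x % 5 = 1 ∨ x * x % 5 = 4 := by
  have : x % 5 = 0 ∨ x % 5 = 1 ∨ x % 5 = 2 ∨ x % 5 = 3 ∨ x % 5 = 4 := by omega
  rcases this with h | h | h | h | h <;> simp [Int.mul_emod, h]

theorem rep_two (n : ℕ) : RepN 2 n := by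
  by_contra h
  obtain ⟨s, hs, h5⟩ : ∃ s : ℕ, (s = 1 ∨ s = 2) ∧ (8 * (2 * n + s) + 3) % 5 ≠ 2 ∧
      (8 * (2 * n + s) + 3) % 5 ≠ 3 := by
    by_cases h1 : (8 * (2 * n + 1) + 3) % 5 ≠ 2 ∧ (8 * (2 * n + 1) + 3) % 5 ≠ 3
    · exact ⟨1, Or.inl rfl, h1⟩
    · exact ⟨2, Or.inr rfl, by omega⟩
  have hb := allBad_of_not_rep (s := s) two_pos h
  obtain ⟨x, y, z, -, -, -, hM, -⟩ := three_sq_prim (8 * (2 * n + s) + 3) (by omega)
  push_cast at hM hb
  have hs' : (s : ℤ) = 1 ∨ (s : ℤ) = 2 := by omega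
  have a1 := sq_mod5 x
  have a2 := sq_mod5 y
  have a3 := sq_mod5 z
  have : (y * y + z * z) % 5 = 0 ∨ (x * x + z * z) % 5 = 0 ∨ (x * x + y * y) % 5 = 0 := by omega
  rcases this with h1 | h1 | h1
  · exact two_aux hb hM hs' (by omega) h1
  · exact two_aux hb (x := y) (y := x) (z := z) (by linarith) hs' (by omega) h1
  · exact two_aux hb (x := z) (y := x) (z := y) (by linarith) hs' (by omega) h1

end Pool.Agent.Lib.MP_568bdc_nt
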