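import Pool.Agent.Lib.MP_568bdc_nt.ContBox

/-! Annotated cycles: transport of the annotation and the final contradiction. -/

namespace Pool.Agent.Lib.MP_568bdc_nt

noncomputable def Ch (x : ℕ) : S6 :=
  if x % 1024 = 0 then V3.outer ⟨aF x 10, aF x 34, aF x 58⟩
  else ⟨aF x 10, aF x 34, aF x 58, aF x 82, aF x 106, aF x 130⟩

theorem aK_eq {x : ℕ} {k : K6} (h : aK x k = true) :
    k (Ch x).a (Ch x).b (Ch x).c (Ch x).d (Ch x).e (Ch x).f = true := by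
  rw [aK, br_true, nbeq, nbeqf] at h
  unfold Ch
  rcases h with ⟨h1, h⟩ | ⟨h1, h⟩
  · rw [if_neg (show ¬ x % 1024 = 0 from h1)]; exact h
  · rw [if_pos (show x % 1024 = 0 from h1)]; simp only [imul_eq] at h; exact h

def App (k : SK) (C : S6) : Prop :=
  ∃ st a a' b b' c c' d d' e e' f f' z z' : ℕ,
    C = ⟨(a : ℤ) - a', (b : ℤ) - b', (c : ℤ) - c', (d : ℤ) - d', (e : ℤ) - e', (f : ℤ) - f'⟩ ∧
      k st a a' b b' c c' d d' e e' f f' z z' = true

theorem App.gn {k C} (h : App (gn k) C) : App k C.neg := by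
  obtain ⟨st, a, a', b, b', c, c', d, d', e, e', f, f', z, z', rfl, h⟩ := h
  exact ⟨_, _, _, _, _, _, _, _, _, _, _, _, _, _, _, by simp [S6.neg], h⟩

theorem App.act {k} (h : ℕ) : ∀ C, App (wF h SK g01 g12 Pool.Agent.Lib.MP_568bdc_nt.gn k) C →
    ∃ C', wF h S6 S6.s01 S6.s12 S6.neg C' = C ∧ App k C' := by
  refine wF_ind h (fun F => ∀ C, App (F SK g01 g12 Pool.Agent.Lib.MP_568bdc_nt.gn k) C →
    ∃ C', F S6 S6.s01 S6.s12 S6.neg C' = C ∧ App k C') (fun C h => ⟨C, rfl, h⟩) ?_ ?_ ?_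
  · rintro F hF C ⟨st, a, a', b, b', c, c', d, d', e, e', f, f', z, z', rfl, h⟩
    obtain ⟨C', h1, h2⟩ := hF _ ⟨_, _, _, _, _, _, _, _, _, _, _, _, _, _, _, rfl, h⟩
    exact ⟨C', by beta_reduce; rw [h1]; rfl, h2⟩
  · rintro F hF C ⟨st, a, a', b, b', c, c', d, d', e, e', f, f', z, z', rfl, h⟩
    obtain ⟨C', h1, h2⟩ := hF _ ⟨_, _, _, _, _, _, _, _, _, _, _, _, _, _, _, rfl, h⟩
    exact ⟨C', by beta_reduce; rw [h1]; rfl, h2⟩
  · intro F hF C h
    obtain ⟨C', h1, h2⟩ := hF _ h.gn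
    exact ⟨C', by beta_reduce; rw [h1]; simp [S6.neg], h2⟩

theorem App.flp {l k C} (h : App (flp l k) C) : App k (C.fl l) := by
  obtain ⟨st, a, a', b, b', c, c', d, d', e, e', f, f', z, z', rfl, h⟩ := h
  rcases flp_cases h with ⟨rfl, h⟩ | ⟨rfl, h⟩ | ⟨h1, h2, h⟩ <;>
    refine ⟨_, _, _, _, _, _, _, _, _, _, _, _, _, _, _, ?_, h⟩ <;> simp [S6.fl, S6.d0, *]

theorem app_toK {k} {C : S6} (h : toK k C.a C.b C.c C.d C.e C.f = true) : App k C :=
  ⟨_, _, _, _, _, _, _, _, _, _, _, _, _, _, _, by simp only [ip_sub_im], h⟩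

theorem App.eq6 {p q r x y u C} (h : App (eq6 p q r x y u) C) : C.sm 9 = ⟨p, q, r, x, y, u⟩ := by
  obtain ⟨st, a, a', b, b', c, c', d, d', e, e', f, f', z, z', rfl, h⟩ := h
  simp only [Pool.Agent.Lib.MP_568bdc_nt.eq6, and2_eq, and3_eq, beqI_eq, imul_eq, nsb_eq] at h
  obtain ⟨⟨rfl, rfl, rfl⟩, rfl, rfl, rfl⟩ := h
  rfl

theorem edge_sound {x y l h r} (hh : edge x y l h r = true) : x % 1024 = y % 1024 ∧
    ∃ C : S6, C.sm 9 = ((Ch x).fl l).tm.sub (r.D.sm (9 * aD x)) ∧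
      (wF h S6 S6.s01 S6.s12 S6.neg C = Ch y ∨ (y % 1024 = 0 ∧ wF h S6 S6.s01 S6.s12 S6.neg C.neg = Ch y)) := by
  rw [edge, and2_eq, nbeq] at hh
  refine ⟨hh.1, ?_⟩
  obtain ⟨st, a, a', b, b', c, c', d, d', e, e', f, f', z, z', h1, h2⟩ := (app_toK (aK_eq hh.2)).flp
  rw [h1]
  have key : ∀ {C : S6} {p q s u v w : ℤ}, C.sm 9 = ⟨p, q, s, u, v, w⟩ → (⟨p, q, s, u, v, w⟩ : S6) =
      (S6.tm ⟨(a : ℤ) - a', (b : ℤ) - b', (c : ℤ) - c', (d : ℤ) - d', (e : ℤ) - e', (f : ℤ) - f'⟩).sub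
        (r.D.sm (9 * aD x)) → C.sm 9 = _ := fun h1 h2 => h1.trans h2
  simp only [tmK] at h2
  rw [edge1, br_or, and2_eq, nbeq] at h2
  rcases h2 with h2 | ⟨h3, h2⟩
  · obtain ⟨C, h3, h4⟩ := App.act h _ (app_toK (aK_eq h2))
    refine ⟨C, key h4.eq6 ?_, Or.inl h3⟩
    simp only [S6.ext_iff, S6.tm, S6.sub, S6.sm, Rc.D, isub_eq, imul_eq, nsb_eq, nadd, nmul, iof]
    push_cast
    refine ⟨by ring, by ring, by ring, by ring, by ring, by ring⟩
  · obtain ⟨C, h5, h4⟩ := App.act h _ (app_toK (aK_eq h2))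
    refine ⟨C.neg, key h4.gn.eq6 ?_, Or.inr ⟨h3, by simpa [S6.neg] using h5⟩⟩
    simp only [S6.ext_iff, S6.tm, S6.sub, S6.sm, Rc.D, isub_eq, imul_eq, nsb_eq, nadd, nmul, iof]
    push_cast
    refine ⟨by ring, by ring, by ring, by ring, by ring, by ring⟩

def Vx.A (D : ℤ) (C : S6) (V : Vx) : S6 := (V.lam.sm D).sub C

theorem step_fl {V : Vx} {K K' : S6} {l : ℕ} {t : ℤ} (ht : 3 * t = (V.fl l).X.x + (V.fl l).X.y + (V.fl l).X.z)
    (hK : K'.sm 9 = (K.fl l).tm) : Step V.X K ((V.fl l).X.rf t) K' := by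
  unfold Vx.fl at ht ⊢
  unfold S6.fl at hK
  split_ifs at ht hK ⊢
  · exact Step.base V.X K t K' ht hK
  · simp only [Vx.f1] at ht
    refine Step.p01 (Step.q01 (Step.base V.X.s01 K.s01 t K'.s01 (by simp only [V3.s01]; omega) ?_))
    simp only [S6.ext_iff, S6.sm, S6.tm, S6.s01, S6.d0] at hK ⊢
    omega
  · simp only [Vx.f2] at ht
    refine Step.p12 (Step.p01 (Step.q12 (Step.q01 (Step.base V.X.s12.s01 K.s12.s01 t K'.s12.s01
      (by simp only [V3.s01, V3.s12]; omega) ?_))))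
    simp only [S6.ext_iff, S6.sm, S6.tm, S6.s01, S6.s12, S6.d0] at hK ⊢
    omega

theorem step_act {X K D} (h : ℕ) {C : S6} {W : Vx} (hs : Step X K W.X (W.A D C)) :
    Step X K (W.act h).X ((W.act h).A D (wF h S6 S6.s01 S6.s12 S6.neg C)) := by
  refine wF_rel (fun C (W : Vx) => Step X K W.X (W.A D C)) ?_ ?_ ?_ h hs <;> intro C W hs
  · exact hs.q01
  · exact hs.q12
  · have : W.neg.A D C.neg = (W.A D C).neg := by
      simp only [S6.ext_iff, Vx.A, Vx.lam, Vx.neg, S6.neg, S6.sm, S6.sub]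
      refine ⟨by ring, by ring, by ring, by ring, by ring, by ring⟩
    rw [this]; exact hs.nk

section
variable {m κ M : ℤ} {V W : Vx}

theorem edge_step (hm : 0 < m) (hV : Ok m κ M V) (hW : Ok m κ M W) {l : ℕ} (hA : Adj (V.fl l) W) {x y h}
    (hh : edge x y l h (recOf (V.fl l) W) = true) :
    Step V.X (V.A (aD x) (Ch x)) (W.act h).X ((W.act h).A (aD y) (Ch y)) := by
  obtain ⟨h1, C, h2, h3⟩ := edge_sound hh
  have e : aD y = aD x := congrArg Int.ofNat h1.symm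
  have h4 := adj_lam hm (hV.fl l) hW hA
  obtain ⟨-, t, h5, h6⟩ := hA
  have hs : Step V.X (V.A (aD x) (Ch x)) W.X (W.A (aD x) C) := by
    rw [h6]
    refine step_fl h5 ?_
    generalize (recOf (V.fl l) W).D = D at h2 h4
    generalize aD x = k at h2 ⊢
    generalize Ch x = C0 at h2 ⊢
    unfold Vx.fl at h4
    unfold S6.fl at h2 ⊢
    split_ifs at h2 h4 ⊢ <;>
      simp only [S6.ext_iff, Vx.A, Vx.lam, S6.sm, S6.sub, S6.tm, S6.d0, Vx.f0, Vx.f1, Vx.f2] at h2 h4 ⊢ <;>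
      obtain ⟨a1, a2, a3, a4, a5, a6⟩ := h2 <;> obtain ⟨b1, b2, b3, b4, b5, b6⟩ := h4 <;>
      exact ⟨by linear_combination k * b1 - a1, by linear_combination k * b2 - a2,
        by linear_combination k * b3 - a3, by linear_combination k * b4 - a4, by linear_combination k * b5 - a5,
        by linear_combination k * b6 - a6⟩
  rw [e]
  rcases h3 with h3 | ⟨h0, h3⟩
  · rw [← h3]; exact step_act h hs
  · rw [← h3]
    have e0 : aD x = 0 := congrArg Int.ofNat (h1.trans h0)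
    refine step_act h ?_
    have : W.A (aD x) C.neg = (W.A (aD x) C).neg := by
      simp [e0, Vx.A, S6.neg, S6.sm, S6.sub]
    rw [this]; exact hs.nk

end

theorem rig_int {x y z k β a1 a2 a3 b1 b2 : ℤ} (hp : V3.Prim ⟨x, y, z⟩) (h3 : (x * x + y * y + z * z) % 3 = 2)
    (hk : k ≠ 0) (e1 : k * a1 = β * (x * y)) (e2 : k * a2 = β * (x * z)) (e3 : k * a3 = β * (y * z))
    (e4 : k * (24 * b1) = β * (x * x - y * y)) (e5 : k * (24 * b2) = β * (x * x - z * z)) :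
    ∃ γ, a1 = 3 * γ * (x * y) ∧ 24 * b1 = 3 * γ * (x * x - y * y) ∧ 24 * b2 = 3 * γ * (x * x - z * z) := by
  obtain ⟨u, v, w, hp⟩ := hp
  simp only at hp
  obtain ⟨σ, hσ⟩ : k ∣ β := by
    refine ⟨u ^ 3 * (x * (24 * b1) + y * a1) + v ^ 3 * (x * a1 - y * (24 * b1)) + w ^ 3 * (x * a2 - z * (24 * b2))
      + a1 * (3 * u ^ 2 * v * x + 3 * u * v ^ 2 * y + 6 * u * v * w * z) + a2 * (3 * u ^ 2 * w * x + 3 * u * w ^ 2 * z)
      + a3 * (3 * v ^ 2 * w * y + 3 * v * w ^ 2 * z), ?_⟩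
    linear_combination (-β * ((u * x + v * y + w * z) ^ 2 + (u * x + v * y + w * z) + 1)) * hp
      - (u ^ 3 * y + v ^ 3 * x + (3 * u ^ 2 * v * x + 3 * u * v ^ 2 * y + 6 * u * v * w * z)) * e1
      - (w ^ 3 * x + (3 * u ^ 2 * w * x + 3 * u * w ^ 2 * z)) * e2 - (3 * v ^ 2 * w * y + 3 * v * w ^ 2 * z) * e3
      - (u ^ 3 * x - v ^ 3 * y) * e4 + (w ^ 3 * z) * e5
  subst hσ
  have f1 : a1 = σ * (x * y) := mul_left_cancel₀ hk (by linear_combination e1)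
  have f4 : 24 * b1 = σ * (x * x - y * y) := mul_left_cancel₀ hk (by linear_combination e4)
  have f5 : 24 * b2 = σ * (x * x - z * z) := mul_left_cancel₀ hk (by linear_combination e5)
  obtain ⟨γ, rfl⟩ : 3 ∣ σ := by
    have h1 := sq_mod3 x
    have h2 := sq_mod3 y
    have h4 := sq_mod3 z
    rcases Int.prime_three.dvd_or_dvd (show 3 ∣ σ * (x * x - y * y) by omega) with h | h
    · exact h
    rcases Int.prime_three.dvd_or_dvd (show 3 ∣ σ * (x * x - z * z) by omega) with h' | h'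
    · exact h'
    omega
  exact ⟨γ, f1, f4, f5⟩

theorem abs_small {g t v B : ℤ} (hg : g ≠ 0) (h : 1350 * g * t = v) (h1 : -(1350 * B) ≤ v) (h2 : v ≤ 1350 * B) :
    |t| ≤ B := by
  have a1 : |g * t| ≤ B := abs_le.mpr ⟨by linarith, by linarith⟩
  rw [abs_mul] at a1
  have a2 : 1 ≤ |g| := Int.one_le_abs hg
  nlinarith [abs_nonneg t]

theorem nrm_small {x y z B : ℤ} (h1 : |x * y| ≤ B) (h2 : |x * x - y * y| ≤ B) (h3 : |x * x - z * z| ≤ B) :
    x * x + y * y + z * z ≤ 8 * B := by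
  rw [abs_mul] at h1
  rw [abs_le] at h2 h3
  have a1 := abs_mul_abs_self x
  have a2 := abs_mul_abs_self y
  rcases le_total |x| |y| with h | h
  · have := mul_le_mul_of_nonneg_left h (abs_nonneg x)
    linarith
  · have := mul_le_mul_of_nonneg_right h (abs_nonneg y)
    linarith

theorem g_ne {m η D γ : ℤ} (hm : 507 ≤ m) (hη : η = 1 ∨ η = -1) (h1 : 0 < D) (h2 : D ≤ 506) :
    η * D - m * γ ≠ 0 := by
  intro h
  rcases lt_trichotomy γ 0 with h3 | rfl | h3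
  · rcases hη with rfl | rfl <;> nlinarith
  · rcases hη with rfl | rfl <;> omega
  · rcases hη with rfl | rfl <;> nlinarith

theorem lin_bd {m D : ℤ} (hm : 507 ≤ m) (h1 : 0 < D) (h2 : D ≤ 506) (v : ℤ) (a1 : -(248 * m) ≤ v)
    (a2 : v ≤ 248 * m) (c : ℤ) (a3 : -16777216 ≤ c) (a4 : c ≤ 16777216) :
    -(1350 * (13000 * m)) ≤ D * v + m * c ∧ D * v + m * c ≤ 1350 * (13000 * m) := by
  constructor <;> nlinarith

theorem aF_bd (x s : ℕ) : -8388608 ≤ aF x s ∧ aF x s ≤ 8388608 := by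
  rw [aF, nsb_eq]
  generalize Nat.shiftRight x s = y
  simp only [nmod]
  omega

theorem ann_false {m κ M : ℤ} {V : Vx} (hm : 507 ≤ m) (hκ : 27 * |κ| ≤ 4 * m) (hM : M % 3 = 2)
    (hbig : 4 * (m * m * m * m) < 25 * M) (hV : Ok m κ M V) (he : V.e = 1) {r : Rc} (hc : Cen r V) {x : ℕ}
    (h : annOK x r = true) {α β : ℤ} (hr : (V.A (aD x) (Ch x)).comb (2 * V.X.nrm * V.X.nrm) α β V.X = S6.zero) :
    False := by
  have hM0 : V.X.nrm ≠ 0 := by rw [hV.rep.1]; omega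
  have hk : 2 * V.X.nrm * V.X.nrm ≠ 0 := mul_ne_zero (mul_ne_zero two_ne_zero hM0) hM0
  have hm3 : 507 * 507 * 507 ≤ m * m * m :=
    mul_le_mul (mul_le_mul hm hm (by norm_num) (by omega)) hm (by norm_num) (by positivity)
  have hm4 : 507 * 507 * 507 * m ≤ m * m * m * m := mul_le_mul_of_nonneg_right hm3 (by omega)
  have h1 := aK_eq h
  rw [br_true, nbeq, nbeqf] at h1
  rcases h1 with ⟨h0, h1⟩ | ⟨h0, h1⟩
  swap
  · change x % 1024 = 0 at h0
    have e0 : aD x = 0 := congrArg Int.ofNat h0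
    simp only [Ch, h0, if_true, and2_eq, isNeg_eq, ineg_eq, iadd_eq, isub_eq, V3.outer, iof] at h1
    rw [e0, Ch, if_pos h0] at hr
    have := axis_le (Y := ⟨aF x 10, aF x 34, aF x 58⟩) (α := α) (β := β) (neg_ne_zero.mpr hk) (by
      rw [← hr]; simp [S6.comb, Vx.A, S6.sm, S6.sub]) hV.rep.2 (by simp only [V3.nrm]; omega)
    rw [hV.rep.1] at this
    simp only [V3.nrm] at this
    omega
  change x % 1024 ≠ 0 at h0
  rw [and3_eq, and3_eq, and2_eq, nble, dv_eq (by norm_num), dv_eq (by norm_num), dv_eq (by norm_num),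
    dv_eq (by norm_num), dv_eq (by norm_num)] at h1
  simp only [iadd_eq, isub_eq, imul_eq, iof, hc.1, hc.2.1, hc.2.2, nmod] at h1
  push_cast at h1
  have hD : 0 < aD x ∧ aD x ≤ 506 := by
    have : aD x = ((x % 1024 : ℕ) : ℤ) := rfl
    omega
  have hC : (-8388608 ≤ (Ch x).a ∧ (Ch x).a ≤ 8388608) ∧ (-8388608 ≤ (Ch x).b ∧ (Ch x).b ≤ 8388608) ∧
      (-8388608 ≤ (Ch x).c ∧ (Ch x).c ≤ 8388608) ∧ (-8388608 ≤ (Ch x).d ∧ (Ch x).d ≤ 8388608) := by
    rw [Ch, if_neg h0]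
    exact ⟨aF_bd _ _, aF_bd _ _, aF_bd _ _, aF_bd _ _⟩
  generalize aD x = D at *
  generalize Ch x = C at *
  obtain ⟨⟨-, ⟨j1, i1⟩, ⟨j2, i2⟩⟩, ⟨j3, i3⟩, ⟨j4, i4⟩, ⟨j5, i5⟩⟩ := h1
  obtain ⟨k0, g0⟩ := hV.g0
  obtain ⟨k1, g1⟩ := hV.g1
  obtain ⟨k2, g2⟩ := hV.g2
  simp only [S6.ext_iff, S6.comb, Vx.A, Vx.lam, S6.sm, S6.sub, S6.zero] at hr
  obtain ⟨r1, r2, r3, r4, r5, r6⟩ := hr
  generalize 2 * V.X.nrm * V.X.nrm = k at *
  obtain ⟨γ, c1, c2, c3⟩ := rig_int (x := V.X.x) (y := V.X.y) (z := V.X.z) (k := 450 * k) (β := β)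
    (a1 := j3 + D * (13 * V.p2 - 9 * V.n0 - 16 * V.n1 - 25 * k0))
    (a2 := j4 + D * (13 * V.p1 - 9 * V.n0 - 16 * V.n2 - 25 * k1))
    (a3 := j5 + D * (13 * V.p0 - 9 * V.n1 - 16 * V.n2 - 25 * k2))
    (b1 := j1 + D * (7 * V.p2 - 5 * V.n0 - 9 * V.n1 - 14 * k0))
    (b2 := j2 + D * (7 * V.p1 - 5 * V.n0 - 9 * V.n2 - 14 * k1)) hV.rep.2
    (by have := hV.rep.1; simp only [V3.nrm] at this; omega) (by omega)
    (by linear_combination r4 - k * i3 + 225 * k * D * g0) (by linear_combination r5 - k * i4 + 225 * k * D * g1)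
    (by linear_combination r6 - k * i5 + 225 * k * D * g2)
    (by linear_combination r1 - r2 - k * i1 + 3024 * k * D * g0)
    (by linear_combination r1 - r3 - k * i2 + 3024 * k * D * g1)
  have hg := g_ne (γ := γ) hm hV.hη hD.1 hD.2
  have t1 := (hV.tr_bd hκ he).2
  have ca := hV.ca
  have cb := hV.cb
  have cc := hV.cc
  obtain ⟨p1, p2, p3, p4⟩ := hV.p01
  rw [he] at ca cb cc p1 p2 p3 p4
  have bd := lin_bd hm hD.1 hD.2
  have s1 := bd (V.E m).d (by linarith) (by linarith) C.d (by omega) (by omega)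
  have s2 := bd ((V.E m).a - (V.E m).b) (by linarith) (by linarith) (C.a - C.b) (by omega) (by omega)
  have s3 := bd ((V.E m).a - (V.E m).c) (by linarith) (by linarith) (C.a - C.c) (by omega) (by omega)
  have := nrm_small (x := V.X.x) (y := V.X.y) (z := V.X.z)
    (abs_small hg (by simp only [Vx.E]; linear_combination (450 * m) * c1 + m * i3 - 225 * m * D * g0) s1.1 s1.2)
    (abs_small hg (by simp only [Vx.E]; linear_combination (450 * m) * c2 + m * i1 - 3024 * m * D * g0) s2.1 s2.2)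
    (abs_small hg (by simp only [Vx.E]; linear_combination (450 * m) * c3 + m * i2 - 3024 * m * D * g1) s3.1 s3.2)
  have hn := hV.rep.1
  simp only [V3.nrm] at hn
  omega

end Pool.Agent.Lib.MP_568bdc_nt
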