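import Pool.Agent.Lib.MP_568bdc_nt.ContAnn

/-! Soundness of the automaton for large moduli. -/

namespace Pool.Agent.Lib.MP_568bdc_nt

structure Gd (T : Tb) : Prop where
  h1 : ∀ i, i < 37 → l1OK T i = true
  hB : ∀ r, r < 183 → boxOK T r = true
  h2 : ∀ i, i < 2196 → l2OK T i = true
  hE : ∀ a, a < 5904 → entOK T a = true
  h3 : ∀ r, r < 183 → l3OK T r = true
  hS : ∀ i, i < 15324 → stOK T i = true

structure Cx (m κ M : ℤ) : Prop where
  hm : 507 ≤ m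
  hκ : 27 * |κ| ≤ 4 * m
  hM : M % 3 = 2
  big : 4 * (m * m * m * m) < 25 * M
  ex : ∀ X η, PRep M X → η = 1 ∨ η = -1 → ∃ V, Ok m κ M V ∧ V.X = X ∧ V.η = η

def Back (m κ M : ℤ) (T : Tb) (V : Vx) (b : ℕ) : Prop :=
  b < 5904 ∧ Ok m κ M V ∧ ∃ W, Ok m κ M W ∧ Adj V W ∧ ent T b = recOf V W

def Tr (m κ M : ℤ) (T : Tb) (l f : ℕ) (V U : Vx) : Prop :=
  f < 5904 ∧ ∃ W, Ok m κ M W ∧ Adj (V.fl l) W ∧ ent T f = recOf (V.fl l) W ∧ U = W.act (eH T f)

inductive InO : ℕ → ℕ → Prop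
  | here (O : ℕ) : InO O (O % 32768)
  | there (O t : ℕ) : InO (O / 32768) t → InO O t

inductive Hs (m κ M : ℤ) (T : Tb) : Vx → ℕ → Prop
  | back (V : Vx) (H : ℕ) : 24576 ≤ H % 32768 → Back m κ M T V (H % 8192) → Hs m κ M T V H
  | step (V U : Vx) (H : ℕ) : H % 32768 < 24576 → Hs m κ M T V (H / 32768) →
      Tr m κ M T (H % 32768 / 8192) (H % 8192) V U → Hs m κ M T U H

theorem memO_sound (t : ℕ) : ∀ O, memO t O = true → InO O t := by
  unfold memO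
  generalize nat_lit 50 = fuel
  refine nrec_ind (fun F : ℕ → Bool => ∀ O, F O = true → InO O t) ?_ ?_ fuel
  · intro O h; exact absurd h Bool.false_ne_true
  · intro n ih hih O h
    rw [br_or, nbeq] at h
    rcases h with h | h
    · exact h ▸ InO.here O
    · exact InO.there _ _ (hih _ h)

theorem InO.zero {O t : ℕ} (h : InO O t) : O = 0 → t = 0 := by
  induction h with
  | here O => omega
  | there O t _ ih => omega

theorem ky_eq {x y x' y' : ℤ} (h1 : 12 ∣ x - x') (h2 : 4 ∣ y - y') : ky x y = ky x' y' := by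
  have a1 := imod_eq x (n := 12) (by norm_num)
  have a2 := imod_eq x' (n := 12) (by norm_num)
  have a3 := imod_eq y (n := 4) (by norm_num)
  have a4 := imod_eq y' (n := 4) (by norm_num)
  change imod x 12 * 4 + imod y 4 = imod x' 12 * 4 + imod y' 4
  omega

theorem fl_cen (l : ℕ) (V : Vx) : (V.fl l).η = V.η ∧ (V.fl l).e = V.e ∧ (V.fl l).d0 = V.d0 ∧ (V.fl l).d1 = V.d1 ∧
    (V.fl l).d2 = V.d2 := by
  unfold Vx.fl; split_ifs <;> exact ⟨rfl, rfl, rfl, rfl, rfl⟩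

theorem cur_back {T H} (h : 24576 ≤ H % 32768) : cur T H = H % 8192 := by
  rw [cur, show Nat.ble (nat_lit 24576) (Nat.mod H (nat_lit 32768)) = true from (nble _ _).mpr h]; rfl

theorem cur_step {T H} (h : H % 32768 < 24576) : cur T H = eTo T (H % 8192) := by
  rw [cur, show Nat.ble (nat_lit 24576) (Nat.mod H (nat_lit 32768)) = false from (nblef _ _).mpr h]; rfl

theorem digits (H : ℕ) {l f : ℕ} (hl : l < 3) (hf : f < 5904) : (H * 32768 + (l * 8192 + f)) % 32768 < 24576 ∧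
    (H * 32768 + (l * 8192 + f)) / 32768 = H ∧ (H * 32768 + (l * 8192 + f)) % 32768 / 8192 = l ∧
    (H * 32768 + (l * 8192 + f)) % 8192 = f := by
  rw [Nat.mul_comm H]
  omega

section
variable {m κ M : ℤ} {T : Tb} {V U : Vx}

theorem ent_spec (G : Gd T) {a : ℕ} (ha : a < 5904) :
    (eR T a < 183 ∧ rS T (eR T a) ≤ a ∧ a < rS T (eR T a) + rN T (eR T a)) ∧
    ((ent T a).d0 = (cenR T (eR T a)).d0 ∧ (ent T a).d1 = (cenR T (eR T a)).d1 ∧
      (ent T a).d2 = (cenR T (eR T a)).d2) ∧ eTo T a < 5904 ∧ ent T (eTo T a) = (ent T a).rev.act (eH T a) := by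
  have h := G.hE a ha
  rw [entOK, and3_eq, and3_eq, and3_eq, and2_eq, nblt, nble, nblt, beqI_eq, beqI_eq, beqI_eq, nblt] at h
  exact ⟨h.1, h.2.1, h.2.2.1, eqRc_eq h.2.2.2⟩

theorem ent_e {a : ℕ} {W : Vx} (h : ent T a = recOf V W) : V.e = 1 := (congrArg Rc.e h).symm

theorem tr_back (G : Gd T) (hV : Ok m κ M V) {l f : ℕ} (h : Tr m κ M T l f V U) : Back m κ M T U (eTo T f) := by
  obtain ⟨h1, W, h2, h3, h4, rfl⟩ := h
  obtain ⟨-, -, h5, h6⟩ := ent_spec G h1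
  exact ⟨h5, h2.act _, _, (hV.fl l).act _, h3.symm.act _, by rw [h6, h4, ← recOf_rev, recOf_act]⟩

theorem Hs.cur (G : Gd T) {H : ℕ} (h : Hs m κ M T V H) : Back m κ M T V (cur T H) := by
  induction h with
  | back V H h1 h2 => rw [cur_back h1]; exact h2
  | step V U H h1 _ h3 ih => rw [cur_step h1]; exact tr_back G ih.2.1 h3

theorem l3_pair (C : Cx m κ M) (G : Gd T) {l b f : ℕ} (hl : l < 3) (hV : Ok m κ M V) {Wb Wf : Vx}
    (hWb : Ok m κ M Wb) (hWf : Ok m κ M Wf) (hAb : Adj V Wb) (hAf : Adj (V.fl l) Wf) (hb : ent T b = recOf V Wb)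
    (hf : ent T f = recOf (V.fl l) Wf) {r : ℕ} (hr : r < 183) (h1 : rS T r ≤ f) (h2 : f ≤ b)
    (h3 : b < rS T r + rN T r) : InO (T.o b) (l * 8192 + f + 1) ∧ InO (T.o f) (l * 8192 + b + 1) := by
  have hm : 0 < m := by have := C.hm; omega
  have sd : ∀ b f, Sd (l3B T b f) ((Nat.beq (k0 T f) (n0 T b) = true → ∃ a, l3A T 0 b f a = true) ∧
      (Nat.beq (k1 T f) (n1 T b) = true → ∃ a, l3A T 1 b f a = true) ∧
      (Nat.beq (k2 T f) (n2 T b) = true → ∃ a, l3A T 2 b f a = true)) := fun b f =>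
    (cond_sd (ask_sd _) _).comp ((cond_sd (ask_sd _) _).comp (cond_sd (ask_sd _) _))
  have h4 := G.h3 r hr
  rw [l3OK, force_eq, l3C] at h4
  have h5 := (lp_sd (fun j => lp_sd (fun i => sd (rS T r + j) (rS T r + i)) (j + 1)) _ _ _ h4).1
    (b - rS T r) (by omega) (f - rS T r) (by omega)
  rw [show rS T r + (b - rS T r) = b by omega, show rS T r + (f - rS T r) = f by omega, nbeq, nbeq, nbeq] at h5
  have g0 := hV.g0
  have g1 := hV.g1
  have g2 := hV.g2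
  have : ∃ a, l3A T l b f a = true := by
    have : l = 0 ∨ l = 1 ∨ l = 2 := by omega
    rcases this with rfl | rfl | rfl
    · refine h5.1 (ky_eq ?_ ?_) <;> simp only [hb, hf, recOf, isub_eq, Vx.fl, Vx.f0, if_true] <;> omega
    · refine h5.2.1 (ky_eq ?_ ?_) <;>
        simp only [hb, hf, recOf, isub_eq, iadd_eq, ineg_eq, Vx.fl, Vx.f1, if_true, if_false, one_ne_zero] <;> omega
    · refine h5.2.2 (ky_eq ?_ ?_) <;>
        simp only [hb, hf, recOf, isub_eq, ineg_eq, Vx.fl, Vx.f2, if_false, OfNat.ofNat_ne_zero,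
          OfNat.ofNat_ne_one] <;> omega
  obtain ⟨a, ha⟩ := this
  rw [l3A, br_true, and2_eq, hb, hf] at ha
  rcases ha with ⟨-, ha⟩ | ⟨-, h6, h7⟩
  · exact (cert_sound (fun ω μ => fwd_sound hm hV hWf hAf (back_sound hm C.hκ hV (ent_e hb) hWb hAb ω μ) ω μ)
      ha).elim
  · exact ⟨memO_sound _ _ h6, memO_sound _ _ h7⟩

theorem next (C : Cx m κ M) (G : Gd T) {b : ℕ} (hb : Back m κ M T V b) :
    ∃ l f U, l < 3 ∧ Tr m κ M T l f V U ∧ InO (T.o b) (l * 8192 + f + 1) := by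
  have hm : 0 < m := by have := C.hm; omega
  obtain ⟨h1, hV, Wb, hWb, hAb, h2⟩ := hb
  obtain ⟨⟨r1, r2, r3⟩, c1, -⟩ := ent_spec G h1
  obtain ⟨l, hl, h3⟩ : ∃ l, l < 3 ∧ ((V.fl l).X.x + (V.fl l).X.y + (V.fl l).X.z) % 3 = 0 := by
    obtain ⟨-, t, ht, -⟩ := hAb
    rcases dirs (X := V.X) (by rw [hV.rep.1]; exact C.hM) with ⟨-, h | h | h⟩ | ⟨h, -⟩ | ⟨h, -⟩
    · exact ⟨0, by omega, h⟩
    · exact ⟨1, by omega, by change (V.X.x + -V.X.y + V.X.z) % 3 = 0; omega⟩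
    · exact ⟨2, by omega, by change (V.X.x + V.X.y + -V.X.z) % 3 = 0; omega⟩
    · omega
    · omega
  have ht : 3 * (((V.fl l).X.x + (V.fl l).X.y + (V.fl l).X.z) / 3) =
      (V.fl l).X.x + (V.fl l).X.y + (V.fl l).X.z := by omega
  obtain ⟨Wf, hWf, e1, e2⟩ := C.ex _ _ ((hV.fl l).rep.rf C.hM ht) (hV.fl l).hη
  have hAf : Adj (V.fl l) Wf := ⟨e2, _, ht, e1⟩
  obtain ⟨-, a2, a3, a4, a5⟩ := fl_cen l V
  rw [h2] at c1
  obtain ⟨f, f1, f2, f3⟩ := l2_sound hm C.hκ G.h1 G.hB G.h2 (hV.fl l) (a2.trans (ent_e h2)) r1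
    ⟨c1.1.symm.trans a3.symm, c1.2.1.symm.trans a4.symm, c1.2.2.symm.trans a5.symm⟩ hWf hAf
  obtain ⟨⟨-, s2, s3⟩, -⟩ := ent_spec G f1
  rw [f2] at s2 s3
  refine ⟨l, f, _, hl, ⟨f1, Wf, hWf, hAf, f3, rfl⟩, ?_⟩
  rcases le_total f b with h | h
  · exact (l3_pair C G hl hV hWb hWf hAb hAf h2 f3 r1 s2 h r3).1
  · exact (l3_pair C G hl (hV.fl l) hWf hWb hAf (by rw [Vx.fl_fl]; exact hAb) f3 (by rw [Vx.fl_fl]; exact h2)
      r1 r2 h s3).2

theorem sfx_sound (G : Gd T) : ∀ H H', sfx T H H' = true → ∀ V, Hs m κ M T V H → Hs m κ M T V H' := by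
  unfold sfx
  generalize nat_lit 5 = fuel
  refine nrec_ind (fun F : ℕ → ℕ → Bool => ∀ H H', F H H' = true → ∀ V, Hs m κ M T V H → Hs m κ M T V H')
    ?_ ?_ fuel
  · intro _ _ h; exact absurd h Bool.false_ne_true
  · intro n ih hih H H' h V hV
    rw [br_true, and2_eq, nbeq, nbeq, nble, nblef] at h
    simp only [nmod, ndiv] at h
    rcases h with ⟨h1, h2, h3⟩ | ⟨h1, h2⟩
    · cases hV with
      | back _ _ h4 _ => omega
      | step V0 _ _ h4 h5 h6 =>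
        refine Hs.step V0 _ _ h1 (hih _ _ h3 _ h5) ?_
        rwa [← h2, show H' % 8192 = H % 8192 by omega]
    · exact Hs.back _ _ h1 (h2 ▸ hV.cur G)

theorem win_sound (C : Cx m κ M) (G : Gd T) (ω μ : ℕ) :
    ∀ H V, Hs m κ M T V H → Ref 1 m (V.E m) (win T ω μ H) := by
  have hm : 0 < m := by have := C.hm; omega
  unfold win
  generalize nat_lit 6 = fuel
  refine nrec_ind (fun F : ℕ → SK => ∀ H V, Hs m κ M T V H → Ref 1 m (V.E m) (F H)) ?_ ?_ fuel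
  · intro _ _ _ _ _ _ _ _ _ _ _ _ _ _ _ _ _ _ _ h; exact absurd h Bool.false_ne_true
  · intro n ih hih H V hV st a a' b b' c c' d d' e e' f f' z z' h0 h
    beta_reduce at h
    rw [force_eq, br_true, nble, nblef] at h
    simp only [nmod, ndiv] at h
    cases hV with
    | back _ _ h1 h2 =>
      obtain ⟨-, h3, W, h4, h5, h6⟩ := h2
      rcases h with ⟨h, -⟩ | ⟨-, h⟩
      · omega
      · rw [h6] at h
        exact back_sound hm C.hκ h3 (ent_e h6) h4 h5 ω μ _ _ _ _ _ _ _ _ _ _ _ _ _ _ _ h0 h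
    | step V0 _ _ h1 h2 h3 =>
      obtain ⟨-, W, h4, h5, h6, rfl⟩ := h3
      rcases h with ⟨-, h⟩ | ⟨h, -⟩
      · rw [h6] at h
        exact act_sound _ (fwd_sound hm (h2.cur G).2.1 h4 h5 (hih _ _ h2) ω μ) _ _ _ _ _ _ _ _ _ _ _ _ _ _ _ h0 h
      · omega

theorem compat {l b f : ℕ} (hl : l < 3) (hb : Back m κ M T V b) (ht : Tr m κ M T l f V U) :
    3 ∣ V.p0 - inn l (ent T b) (ent T f) ∧ 3 ∣ U.p0 - out2 T l b f := by
  obtain ⟨-, -, Wb, -, -, h2⟩ := hb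
  obtain ⟨-, W, -, -, h3, rfl⟩ := ht
  have key : ∀ c : Rc, 3 ∣ W.p0 - c.u0 ∧ 3 ∣ W.p1 - c.u1 ∧ 3 ∣ W.p2 - c.u2 →
      3 ∣ (W.act (eH T f)).p0 - (c.act (eH T f)).u0 := by
    intro c hc
    refine (wF_rel (fun (c : Rc) (W : Vx) => 3 ∣ W.p0 - c.u0 ∧ 3 ∣ W.p1 - c.u1 ∧ 3 ∣ W.p2 - c.u2)
      ?_ ?_ ?_ _ hc).1 <;> intro c W h <;>
      simp only [Rc.s01, Rc.s12, Rc.neg, Vx.s01, Vx.s12, Vx.neg, ineg_eq] <;> omega
  rw [out2, out1, h2, h3]
  have : l = 0 ∨ l = 1 ∨ l = 2 := by omega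
  rcases this with rfl | rfl | rfl <;> refine ⟨?_, key _ ?_⟩ <;>
    simp only [inn, sg, Nat.beq, recOf, isub_eq, iadd_eq, ineg_eq, Vx.fl, Vx.f0, Vx.f1, Vx.f2, if_true, if_false,
      one_ne_zero, OfNat.ofNat_ne_zero, OfNat.ofNat_ne_one] <;> omega

theorem stL_sound (x b : ℕ) : ∀ O st, stL T x b O st = true → ∀ t, InO O (t + 1) → ∃ a, stA T x b t a = true := by
  unfold stL
  generalize nat_lit 50 = fuel
  refine nrec_ind (fun F : ℕ → NK => ∀ O st, F O st = true → ∀ t, InO O (t + 1) → ∃ a, stA T x b t a = true)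
    ?_ ?_ fuel
  · intro _ _ h; exact absurd h Bool.false_ne_true
  · intro n ih hih O st h t ht
    rcases bn_cases h with ⟨-, h⟩ | ⟨h, -⟩
    · rw [force_eq] at h
      obtain ⟨h1, st', h2⟩ := ask_sd _ _ _ h
      generalize e : t + 1 = s at ht
      cases ht with
      | here => rwa [show Nat.sub (Nat.mod O (nat_lit 32768)) (nat_lit 1) = t by
          change O % 32768 - 1 = t; omega] at h1
      | there _ _ h3 => exact hih _ _ h2 t (e ▸ h3)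
    · rw [nbeq] at h
      exact absurd (ht.zero h) (by omega)

theorem st_spec (G : Gd T) {i : ℕ} (hi : i < 15324) : (i < 5904 → sH (T.s i) = 24576 + i) ∧
    (sA (T.s i) ≠ 0 → annOK (T.a (sA (T.s i))) (ent T (cur T (sH (T.s i)))) = true) ∧
    stL T (T.s i) (cur T (sH (T.s i))) (T.o (cur T (sH (T.s i)))) (T.x i) = true := by
  have h := G.hS i hi
  rw [stOK, force_eq, force_eq, and3_eq, br_or, br_or, nble, nbeq, nbeq] at h
  exact ⟨fun h1 => h.1.resolve_left (Nat.not_le.mpr h1), h.2.1.resolve_left, h.2.2⟩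

theorem adv (C : Cx m κ M) (G : Gd T) {i : ℕ} (hi : i < 15324) (hV : Hs m κ M T V (sH (T.s i))) :
    ∃ j l f U, j < 15324 ∧ Tr m κ M T l f V U ∧ Hs m κ M T U (sH (T.s j)) ∧
      (sR (T.s j) < sR (T.s i) ∨ (sR (T.s i) = sR (T.s j) ∧ 1 ≤ sA (T.s i) ∧ 1 ≤ sA (T.s j) ∧
        edge (T.a (sA (T.s i))) (T.a (sA (T.s j))) l (eH T f) (ent T f) = true)) := by
  have hb := hV.cur G
  obtain ⟨l, f, U, hl, ht, ho⟩ := next C G hb
  obtain ⟨a, ha⟩ := stL_sound _ _ _ _ (st_spec G hi).2.2 _ ho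
  have hf := ht.1
  generalize T.s i = x at *
  have e1 : (l * 8192 + f) / 8192 = l := by omega
  have e2 : (l * 8192 + f) % 8192 = f := by omega
  have hU : Hs m κ M T U (sH x * 32768 + (l * 8192 + f)) := by
    obtain ⟨d1, d2, d3, d4⟩ := digits (sH x) hl hf
    refine Hs.step V U _ d1 ?_ ?_
    · rwa [d2]
    · rwa [d3, d4]
  rw [stA, br_true, br_true, and2_eq, nble, nblt, nbeqf] at ha
  rcases ha with ⟨h0, ⟨-, ha⟩ | ⟨h1, ha⟩⟩ | ⟨-, h1, ha⟩
  · exact (cert_sound (fun ω μ => win_sound C G ω μ _ _ hU) ha).elim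
  · rw [go, and2_eq, br_or, and3_eq, and3_eq, nblt, nbeq, nble, nble] at ha
    simp only [ndiv, nmod, e1, e2] at ha
    refine ⟨a - 1, l, f, U, by change a ≠ 0 at h0; change a ≤ 15324 at h1; omega, ht, sfx_sound G _ _ ha.1 _ hU, ?_⟩
    rcases ha.2 with h | ⟨⟨h2, h3, h4⟩, -, h5⟩
    · exact Or.inl h
    · exact Or.inr ⟨h2, h3, h4, h5⟩
  · exfalso
    simp only [ndiv, nmod, e1, e2] at ha h1
    generalize sH x = H at *
    cases hV with
    | back _ _ h2 _ => omega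
    | step V0 _ _ _ h3 h4 =>
      have c1 := (compat (by omega) (h3.cur G) h4).2
      have c2 := (compat hl hb ht).1
      have c3 : dv 3 (isub (outH T H) (inn l (ent T (cur T H)) (ent T f))) = true := by
        rw [dv_eq (by norm_num), isub_eq]
        change 3 ∣ out2 T (H % 32768 / 8192) (cur T (H / 32768)) (H % 8192) - _
        omega
      rw [c3] at ha
      exact absurd ha Bool.false_ne_true

theorem no_state (C : Cx m κ M) (G : Gd T) (ρ : ℕ) :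
    ∀ i, i < 15324 → sR (T.s i) = ρ → ∀ V, Hs m κ M T V (sH (T.s i)) → False := by
  have hm : 0 < m := by have := C.hm; omega
  induction ρ using Nat.strong_induction_on with
  | _ ρ ih =>
    have one : ∀ i, i < 15324 → sR (T.s i) = ρ → ∀ V, Hs m κ M T V (sH (T.s i)) → 1 ≤ sA (T.s i) ∧
        ∃ j U, j < 15324 ∧ sR (T.s j) = ρ ∧ Hs m κ M T U (sH (T.s j)) ∧
          Step V.X (V.A (aD (T.a (sA (T.s i)))) (Ch (T.a (sA (T.s i))))) U.X
            (U.A (aD (T.a (sA (T.s j)))) (Ch (T.a (sA (T.s j))))) := by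
      intro i hi hr V hV
      obtain ⟨j, l, f, U, h1, ⟨-, W, h2, h3, h4, rfl⟩, h5, h6 | ⟨h6, h7, -, h8⟩⟩ := adv C G hi hV
      · exact (ih _ (by omega) j h1 rfl _ h5).elim
      · rw [h4] at h8
        exact ⟨h7, j, _, h1, by omega, h5, edge_step hm (hV.cur G).2.1 h2 h3 h8⟩
    intro i hi hr V hV
    obtain ⟨α, β, h⟩ := rigid (fun X A => ∃ i V, i < 15324 ∧ sR (T.s i) = ρ ∧ Hs m κ M T V (sH (T.s i)) ∧ X = V.X ∧
        A = V.A (aD (T.a (sA (T.s i)))) (Ch (T.a (sA (T.s i))))) (by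
      rintro X A ⟨i, V, h1, h2, h3, rfl, rfl⟩
      obtain ⟨-, j, U, h4, h5, h6, h7⟩ := one i h1 h2 V h3
      exact ⟨_, _, h7, j, U, h4, h5, h6, rfl, rfl⟩) (by
      rintro X A ⟨i, V, -, -, h3, rfl, -⟩
      rw [(h3.cur G).2.1.rep.1]; exact C.hM) ⟨i, V, hi, hr, hV, rfl, rfl⟩
    obtain ⟨-, h1, W, -, -, h2⟩ := hV.cur G
    have h3 := (st_spec G hi).2.1 (by have := (one i hi hr V hV).1; omega)
    rw [h2] at h3
    exact ann_false C.hm C.hκ C.hM C.big h1 (ent_e h2) ⟨rfl, rfl, rfl⟩ h3 h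

theorem no_rep (C : Cx m κ M) (G : Gd T) {X : V3} (hX : PRep M X) : False := by
  have hm : 0 < m := by have := C.hm; omega
  obtain ⟨Y, hY, h3⟩ : ∃ Y, PRep M Y ∧ (Y.x + Y.y + Y.z) % 3 = 0 := by
    rcases dirs (X := X) (by rw [hX.1]; exact C.hM) with ⟨h, -⟩ | ⟨-, h, -⟩ | ⟨-, -, h, -⟩
    · exact ⟨X, hX, h⟩
    · exact ⟨X.f0, hX.f0, h⟩
    · exact ⟨X.s01.f0, hX.s01.f0, h⟩
  obtain ⟨V, hV, e1, he⟩ : ∃ V, Ok m κ M V ∧ V.X = Y ∧ V.e = 1 := by
    obtain ⟨V, hV, e1, -⟩ := C.ex Y 1 hY (Or.inl rfl)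
    rcases hV.he with he | he
    · exact ⟨V, hV, e1, he⟩
    · exact ⟨V.neg, hV.neg, e1, by simp only [Vx.neg, he]; rfl⟩
  have ht : 3 * ((Y.x + Y.y + Y.z) / 3) = Y.x + Y.y + Y.z := by omega
  obtain ⟨W, hW, e2, e3⟩ := C.ex _ _ (hY.rf C.hM ht) hV.hη
  have hA : Adj V W := ⟨e3, _, by rw [e1]; exact ht, by rw [e1]; exact e2⟩
  obtain ⟨h, r, a1, a2, a3⟩ := l1_sound hm C.hκ G.h1 hV he
  obtain ⟨b, b1, -, b3⟩ := l2_sound hm C.hκ G.h1 G.hB G.h2 (hV.act h) (((act_inv a1).1 V).trans he) a2 a3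
    (hW.act h) (hA.act h)
  refine no_state C G _ b (by omega) rfl (V.act h) ?_
  rw [(st_spec G (by omega)).1 b1]
  refine Hs.back _ _ (by omega) ?_
  rw [show (24576 + b) % 8192 = b by omega]
  exact ⟨b1, hV.act h, _, hW.act h, hA.act h, b3⟩

end

theorem large_of_gd {T : Tb} (G : Gd T) {m : ℕ} (hm : 507 ≤ m) (n : ℕ) : RepN m n := by
  by_contra hn
  obtain ⟨s, q, h1, h2, h3⟩ : ∃ s q : ℕ, 23 * m ≤ 54 * s ∧ 54 * s ≤ 31 * m ∧
      8 * (m * n + (m + s)) + 3 = 25 * (24 * q + 11) := by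
    generalize m * n = k
    refine ⟨(23 * m + 53) / 54 + (34 + 74 * (k + m + (23 * m + 53) / 54)) % 75,
      (k + m + (23 * m + 53) / 54 + (34 + 74 * (k + m + (23 * m + 53) / 54)) % 75) / 75, ?_, ?_, ?_⟩ <;> omega
  have hb := allBad_of_not_rep (s := m + s) (by omega) hn
  have hbig := big_of_not_rep (s := m + s) (by omega) hn
  have e : (25 : ℤ) * (24 * q + 11 : ℕ) = 8 * (m * n + (m + s : ℕ)) + 3 := by exact_mod_cast h3.symm
  obtain ⟨x, y, z, a, b, c, e1, e2⟩ := three_sq_prim (24 * q + 11) (by omega)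
  refine no_rep (m := m) (κ := 2 * s - m) (M := (24 * q + 11 : ℕ)) ⟨by omega, ?_, by omega, ?_, fun X η h1 h2 =>
    exists_vx (by omega) (by omega) e (e ▸ hb) h1 h2⟩ G (X := ⟨x, y, z⟩) ⟨e1, a, b, c, e2⟩
  · have : |2 * (s : ℤ) - m| = 2 * s - m ∨ |2 * (s : ℤ) - m| = -(2 * s - m) := abs_choice _
    omega
  · rw [e]; exact_mod_cast hbig

theorem allR_sound {f : ℕ → Bool} {lo n : ℕ} (h : allR f lo n = true) : ∀ i, lo ≤ i → i < lo + n → f i = true := by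
  intro i h1 h2
  have := allLt_sound h (i - lo) (by omega)
  rwa [force_eq, show Nat.add lo (i - lo) = i by change lo + (i - lo) = i; omega] at this

end Pool.Agent.Lib.MP_568bdc_nt
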