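import Pool.Agent.Lib.MP_568bdc_nt.ContCert

/-! Soundness of the enumeration of centres, boxes and adjacent pairs. -/

namespace Pool.Agent.Lib.MP_568bdc_nt

def Sd (F : NK → NK) (P : Prop) : Prop := ∀ k st, F k st = true → P ∧ ∃ st', k st' = true

theorem ask_sd (p : ℕ → Bool) : Sd (ask p) (∃ a, p a = true) := by
  intro k st h
  rw [ask, br_and] at h
  exact ⟨⟨_, h.1⟩, _, h.2⟩

theorem lp_sd {F : ℕ → NK → NK} {P : ℕ → Prop} (hF : ∀ i, Sd (F i) (P i)) (n : ℕ) :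
    Sd (fun k => lp F k n) (∀ i, i < n → P i) := by
  induction n with
  | zero => intro k st h; exact ⟨fun i hi => absurd hi (by omega), st, h⟩
  | succ n ih =>
    intro k st h
    obtain ⟨h1, st1, h2⟩ := hF n (lp F k n) st h
    obtain ⟨h3, h4⟩ := ih k st1 h2
    refine ⟨fun i hi => ?_, h4⟩
    rcases Nat.lt_succ_iff_lt_or_eq.mp hi with h5 | rfl
    · exact h3 i h5
    · exact h1

theorem bn_cases {k F : NK} {c : Bool} {st : ℕ} (h : Bool.rec (motive := fun _ => NK) k F c st = true) :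
    (c = false ∧ k st = true) ∨ (c = true ∧ F st = true) := by
  cases c
  · exact Or.inl ⟨rfl, h⟩
  · exact Or.inr ⟨rfl, h⟩

theorem cond_sd {F : NK → NK} {P : Prop} (hF : Sd F P) (c : Bool) :
    Sd (fun k => Bool.rec (motive := fun _ => NK) k (F k) c) (c = true → P) := by
  intro k st h
  rcases bn_cases h with ⟨h1, h2⟩ | ⟨-, h2⟩
  · exact ⟨fun h => absurd (h1 ▸ h) Bool.false_ne_true, st, h2⟩
  · exact ⟨fun _ => (hF k st h2).1, (hF k st h2).2⟩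

theorem Sd.comp {F G : NK → NK} {P Q : Prop} (hF : Sd F P) (hG : Sd G Q) : Sd (fun k => F (G k)) (P ∧ Q) := by
  intro k st h
  obtain ⟨h1, st1, h2⟩ := hF _ _ h
  obtain ⟨h3, h4⟩ := hG _ _ h2
  exact ⟨⟨h1, h3⟩, h4⟩

theorem rng_sd {lo wd ρ : ℕ} {body : ℕ → NK → NK} {P : ℕ → Prop} (hb : ∀ U, Sd (body U) (P U)) :
    Sd (rng lo wd ρ body) (∀ U, lo ≤ U → U ≤ lo + wd → (U - lo) % 400 = ρ % 400 → P U) := by
  intro k
  have step : ∀ ih : ℕ → NK,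
      (∀ t st, ih t st = true → (∀ U, lo + t ≤ U → U ≤ lo + wd → (U - lo - t) % 400 = 0 → P U) ∧
        ∃ st', k st' = true) →
      ∀ t st, rngB lo wd body k ih t st = true →
        (∀ U, lo + t ≤ U → U ≤ lo + wd → (U - lo - t) % 400 = 0 → P U) ∧ ∃ st', k st' = true := by
    intro ih hih t st h
    rcases bn_cases h with ⟨h1, h2⟩ | ⟨-, h2⟩
    · rw [nblef] at h1
      exact ⟨fun U _ _ _ => by omega, st, h2⟩
    · obtain ⟨h3, st1, h4⟩ := hb _ _ _ h2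
      obtain ⟨h5, h6⟩ := hih (t + 400) st1 h4
      refine ⟨fun U a1 a2 a3 => ?_, h6⟩
      by_cases hU : U = lo + t
      · rw [hU]; exact h3
      · exact h5 U (by omega) a2 (by omega)
  intro st h
  obtain ⟨h1, h2⟩ := step _ (step _ (step (fun _ _ => false) fun _ _ h => absurd h Bool.false_ne_true))
    (ρ % 400) st h
  exact ⟨fun U a1 a2 a3 => h1 U (by omega) a2 (by omega), h2⟩

theorem eqRc_eq {r s : Rc} (h : eqRc r s = true) : r = s := by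
  cases r; cases s
  simp only [eqRc, and3_eq, and2_eq, beqI_eq] at h
  simp only [Rc.mk.injEq]
  tauto

def Cen (c : Rc) (V : Vx) : Prop := c.d0 = V.d0 ∧ c.d1 = V.d1 ∧ c.d2 = V.d2

theorem Cen.act {c V} (h : ℕ) (hc : Cen c V) : Cen (c.act h) (V.act h) := by
  refine wF_rel Cen ?_ ?_ ?_ h hc <;> rintro c V ⟨h1, h2, h3⟩ <;>
    simp only [Cen, Rc.s01, Rc.s12, Rc.neg, Vx.s01, Vx.s12, Vx.neg, ineg_eq, h1, h2, h3, and_self]

theorem act_inv {h : ℕ} (hh : h < 6) : (∀ V : Vx, (V.act h).e = V.e) ∧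
    ∃ g, g < 6 ∧ (∀ V : Vx, (V.act h).act g = V) ∧ ∀ V : Vx, V.act (g + 6) = (V.act g).neg := by
  have : h = 0 ∨ h = 1 ∨ h = 2 ∨ h = 3 ∨ h = 4 ∨ h = 5 := by omega
  rcases this with rfl | rfl | rfl | rfl | rfl | rfl <;> refine ⟨fun _ => rfl, ?_⟩
  · exact ⟨0, by omega, fun _ => rfl, fun _ => rfl⟩
  · exact ⟨1, by omega, Vx.s01_s01, fun _ => rfl⟩
  · exact ⟨2, by omega, Vx.s12_s12, fun _ => rfl⟩
  · refine ⟨3, by omega, fun V => ?_, fun _ => rfl⟩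
    change V.s01.s12.s01.s01.s12.s01 = V
    rw [Vx.s01_s01, Vx.s12_s12, Vx.s01_s01]
  · refine ⟨5, by omega, fun V => ?_, fun _ => rfl⟩
    change V.s01.s12.s12.s01 = V
    rw [Vx.s12_s12, Vx.s01_s01]
  · refine ⟨4, by omega, fun V => ?_, fun _ => rfl⟩
    change V.s12.s01.s01.s12 = V
    rw [Vx.s01_s01, Vx.s12_s12]

def In (m : ℤ) (i : Iv) (v : ℤ) : Prop :=
  i.lo ≤ 1024 ∧ i.hi ≤ 1024 ∧ 27 * m * (i.lo - 512) ≤ v ∧ v ≤ 27 * m * (i.hi - 512)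

theorem In.ng {m i v w} (h : In m i v) (hw : w = -v) : In m i.ng w := by
  obtain ⟨h1, h2, h3, h4⟩ := h
  have e1 : ((i.ng.lo : ℕ) : ℤ) = 1024 - i.hi := by simp only [Iv.ng, nsub]; omega
  have e2 : ((i.ng.hi : ℕ) : ℤ) = 1024 - i.lo := by simp only [Iv.ng, nsub]; omega
  refine ⟨by omega, by omega, ?_, ?_⟩
  · rw [e1]; linarith
  · rw [e2]; linarith

structure BoxOK (m : ℤ) (B : Bx) (V : Vx) : Prop where
  e : B.e = V.e
  d0 : B.d0 = V.d0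
  d1 : B.d1 = V.d1
  d2 : B.d2 = V.d2
  a0 : In m B.a0 (12 * (V.E m).a + 24 * (V.E m).f)
  a1 : In m B.a1 (12 * (V.E m).b + 24 * (V.E m).e)
  a2 : In m B.a2 (12 * (V.E m).c + 24 * (V.E m).d)
  b0 : In m B.b0 (-6 * (V.E m).a + 6 * (V.E m).b + 24 * (V.E m).f - 24 * (V.E m).e)
  b1 : In m B.b1 (-6 * (V.E m).a + 6 * (V.E m).c + 24 * (V.E m).f - 24 * (V.E m).d)
  b2 : In m B.b2 (-6 * (V.E m).b + 6 * (V.E m).c + 24 * (V.E m).e - 24 * (V.E m).d)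
  c0 : In m B.c0 (18 * (V.E m).a - 18 * (V.E m).b)
  c1 : In m B.c1 (18 * (V.E m).a - 18 * (V.E m).c)
  c2 : In m B.c2 (18 * (V.E m).b - 18 * (V.E m).c)

theorem BoxOK.act {m B V} (h : ℕ) (hB : BoxOK m B V) :
    BoxOK m (wF h Bx Bx.s01 Bx.s12 Bx.neg B) (V.act h) := by
  refine wF_rel (BoxOK m) ?_ ?_ ?_ h hB <;> rintro B V ⟨e, d0, d1, d2, a0, a1, a2, b0, b1, b2, c0, c1, c2⟩
  · refine ⟨e, (ineg_eq _).trans (congrArg _ d0), d2, d1, ?_, ?_, ?_, ?_, ?_, ?_, ?_, ?_, ?_⟩ <;> rw [Vx.E_s01]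
    exacts [a1, a0, a2, b0.ng (by simp only [S6.s01]; ring), b2, b1, c0.ng (by simp only [S6.s01]; ring), c2, c1]
  · refine ⟨e, d1, d0, (ineg_eq _).trans (congrArg _ d2), ?_, ?_, ?_, ?_, ?_, ?_, ?_, ?_, ?_⟩ <;> rw [Vx.E_s12]
    exacts [a0, a2, a1, b1, b0, b2.ng (by simp only [S6.s12]; ring), c1, c0, c2.ng (by simp only [S6.s12]; ring)]
  · refine ⟨(ineg_eq _).trans (congrArg _ e), (ineg_eq _).trans (congrArg _ d0), (ineg_eq _).trans (congrArg _ d1),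
      (ineg_eq _).trans (congrArg _ d2), ?_, ?_, ?_, ?_, ?_, ?_, ?_, ?_, ?_⟩ <;> rw [Vx.E_neg]
    exacts [a0.ng (by simp only [S6.neg]; ring), a1.ng (by simp only [S6.neg]; ring),
      a2.ng (by simp only [S6.neg]; ring), b0.ng (by simp only [S6.neg]; ring), b1.ng (by simp only [S6.neg]; ring),
      b2.ng (by simp only [S6.neg]; ring), c0.ng (by simp only [S6.neg]; ring), c1.ng (by simp only [S6.neg]; ring),
      c2.ng (by simp only [S6.neg]; ring)]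

theorem iv_sum {m u v v' : ℤ} {x x' : Iv} (hm : 0 < m) (h : In m x v) (h' : In m x' v')
    (hu : 216 * m * u = v + v') : (x.lo : ℤ) + x'.lo ≤ 8 * u + 1024 ∧ 8 * u + 1024 ≤ x.hi + x'.hi := by
  obtain ⟨-, -, h1, h2⟩ := h
  obtain ⟨-, -, h3, h4⟩ := h'
  constructor <;> refine le_of_mul_le_mul_left ?_ (show 0 < 27 * m by omega) <;> linarith

theorem In.le {m x v} (hm : 0 < m) (h : In m x v) : x.lo ≤ x.hi := by
  obtain ⟨-, -, h1, h2⟩ := h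
  have : (x.lo : ℤ) - 512 ≤ x.hi - 512 := le_of_mul_le_mul_left (h1.trans h2) (show 0 < 27 * m by omega)
  omega

theorem rs_eq (s : ℤ) (β lo : ℕ) : (rs s β lo : ℤ) = (8 * s + β - lo) % 400 := by
  rw [rs, imod_eq _ (by norm_num), iadd_eq, imul_eq, nsb_eq, add_sub_assoc]; rfl

theorem coord {m u v v' s s' : ℤ} {x x' : Iv} (hm : 0 < m) (h : In m x v) (h' : In m x' v')
    (hu : 216 * m * u = v + v') (hs : 50 ∣ u - (s + s')) :
    ∃ U : ℕ, (U : ℤ) = 8 * u + 1024 ∧ x.lo + x'.lo ≤ U ∧ U ≤ x.lo + x'.lo + (x.hi - x.lo + (x'.hi - x'.lo)) ∧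
      (U - (x.lo + x'.lo)) % 400 = (rs s 1024 x.lo + rs s' 0 x'.lo) % 400 := by
  obtain ⟨h1, h2⟩ := iv_sum hm h h' hu
  have h3 := h.le hm
  have h4 := h'.le hm
  have h5 := rs_eq s 1024 x.lo
  have h6 := rs_eq s' 0 x'.lo
  refine ⟨(8 * u + 1024).toNat, by omega, by omega, by omega, by omega⟩

theorem uI_eq {U : ℕ} {u : ℤ} (h : (U : ℤ) = 8 * u + 1024) : uI U = u := by
  rw [uI, nsb_eq]; simp only [ndiv]; omega

section
variable {m κ M : ℤ} {V W : Vx} {T : Tb}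

theorem l1_sound (hm : 0 < m) (hκ : 27 * |κ| ≤ 4 * m) (h1 : ∀ i, i < 37 → l1OK T i = true) (hV : Ok m κ M V)
    (he : V.e = 1) : ∃ h r, h < 6 ∧ r < 183 ∧ Cen (cenR T r) (V.act h) := by
  obtain ⟨b0, b1, b2⟩ := hV.d_bd hm hκ he
  have g0 := hV.g0
  have g1 := hV.g1
  have g2 := hV.g2
  obtain ⟨i, hi⟩ : ∃ i : ℕ, V.d0 = i - 18 := ⟨(V.d0 + 18).toNat, by omega⟩
  obtain ⟨j, hj⟩ : ∃ j : ℕ, V.d1 = j - 18 := ⟨(V.d1 + 18).toNat, by omega⟩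
  obtain ⟨k, hk⟩ : ∃ k : ℕ, V.d2 = k - 18 := ⟨(V.d2 + 18).toNat, by omega⟩
  have := (lp_sd (fun j => lp_sd (fun k => cond_sd (ask_sd (l1A T i j k)) _) 37) 37 _ _
    (h1 i (by omega))).1 j (by omega) k (by omega)
    (by rw [nbeq]; change (i + k + 57 - j) % 25 = 0; omega)
  obtain ⟨a, ha⟩ := this
  have hc : Cen ⟨1, nsb i 18, nsb j 18, nsb k 18, 0, 0, 0, 0, 0, 0, 0, 0, 0⟩ V := by
    simp only [Cen, nsb_eq]; omega
  rw [l1A, br_true, nblt] at ha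
  rcases ha with ⟨-, ha⟩ | ⟨h2, ha⟩
  · exact (cert_sound (terms_ok hV he hc.1 hc.2.1 hc.2.2 (fin_ok hm hκ hV he)) ha).elim
  · simp only [and3_eq, beqI_eq] at ha
    have hc' := hc.act (a % 6)
    change a < 1098 at h2
    exact ⟨a % 6, a / 6, by omega, by omega, ha.1.symm.trans hc'.1, ha.2.1.symm.trans hc'.2.1,
      ha.2.2.symm.trans hc'.2.2⟩

theorem bnd_sound (hm : 0 < m) (hκ : 27 * |κ| ≤ 4 * m) (hV : Ok m κ M V) (he : V.e = 1) {p : Rc} (hc : Cen p V)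
    {a b c d e f z : ℤ} {i : ℕ} (h : bnd T p a b c d e f z i = true) :
    a * (V.E m).a + b * (V.E m).b + c * (V.E m).c + 2 * (d * (V.E m).d + e * (V.E m).e + f * (V.E m).f) +
      m * z < 0 := by
  by_contra h0
  rw [bnd, bnd1] at h
  refine terms_ok hV he hc.1 hc.2.1 hc.2.2 (fin_ok hm hκ hV he) _ _ _ _ _ _ _ _ _ _ _ _ _ _ _ _ _ ?_ h
  generalize Nat.land _ _ = s
  simp only [Val, nmul, Nat.cast_mul, ← mul_sub, ip_sub_im]
  exact (mul_nonneg (Int.natCast_nonneg s) (not_lt.mp h0)).trans_eq (by ring)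

theorem bnd2_sd (hm : 0 < m) (hκ : 27 * |κ| ≤ 4 * m) (hV : Ok m κ M V) (he : V.e = 1) {p : Rc} (hc : Cen p V)
    (a b c d e f : ℤ) (x s : ℕ) : Sd (bnd2 T p a b c d e f (iF x s)) (In m (iF x s) (a * (V.E m).a +
      b * (V.E m).b + c * (V.E m).c + 2 * (d * (V.E m).d + e * (V.E m).e + f * (V.E m).f))) := by
  intro k st h
  obtain ⟨⟨⟨i, h1⟩, j, h2⟩, h3⟩ := (ask_sd _).comp (ask_sd _) k st h
  have h4 := bnd_sound hm hκ hV he hc h1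
  have h5 := bnd_sound hm hκ hV he hc h2
  simp only [ineg_eq, imul_eq, nsb_eq, iof] at h4 h5
  push_cast at h4 h5
  exact ⟨⟨(Nat.mod_lt _ (by norm_num)).le, (Nat.mod_lt _ (by norm_num)).le, by linarith, by linarith⟩, h3⟩

theorem In.cast {m i v w} (h : In m i v) (e : v = w) : In m i w := e ▸ h

theorem box_sound (hm : 0 < m) (hκ : 27 * |κ| ≤ 4 * m) {r : ℕ} (h : boxOK T r = true) (hV : Ok m κ M V)
    (he : V.e = 1) (hc : Cen (cenR T r) V) : BoxOK m (box T r) V := by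
  have s := bnd2_sd (T := T) hm hκ hV he hc
  rw [boxOK] at h
  obtain ⟨a0, _, h⟩ := s _ _ _ _ _ _ (T.r r) 40 _ _ h
  obtain ⟨a1, _, h⟩ := s _ _ _ _ _ _ (T.r r) 60 _ _ h
  obtain ⟨a2, _, h⟩ := s _ _ _ _ _ _ (T.r r) 80 _ _ h
  obtain ⟨b0, _, h⟩ := s _ _ _ _ _ _ (T.r r) 100 _ _ h
  obtain ⟨b1, _, h⟩ := s _ _ _ _ _ _ (T.r r) 120 _ _ h
  obtain ⟨b2, _, h⟩ := s _ _ _ _ _ _ (T.r r) 140 _ _ h
  obtain ⟨c0, _, h⟩ := s _ _ _ _ _ _ (T.r r) 160 _ _ h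
  obtain ⟨c1, _, h⟩ := s _ _ _ _ _ _ (T.r r) 180 _ _ h
  obtain ⟨c2, -⟩ := s _ _ _ _ _ _ (T.r r) 200 _ _ h
  simp only [iof, Int.negSucc_eq] at a0 a1 a2 b0 b1 b2 c0 c1 c2
  push_cast at a0 a1 a2 b0 b1 b2 c0 c1 c2
  exact ⟨he.symm, hc.1, hc.2.1, hc.2.2, a0.cast (by ring), a1.cast (by ring), a2.cast (by ring), b0.cast (by ring),
    b1.cast (by ring), b2.cast (by ring), c0.cast (by ring), c1.cast (by ring), c2.cast (by ring)⟩

theorem qbox (hm : 0 < m) (hκ : 27 * |κ| ≤ 4 * m) (h1 : ∀ i, i < 37 → l1OK T i = true)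
    (hB : ∀ r, r < 183 → boxOK T r = true) (hW : Ok m κ M W) :
    ∃ i, i < 2196 ∧ BoxOK m (wF (i % 12) Bx Bx.s01 Bx.s12 Bx.neg (box T (i / 12))) W := by
  rcases hW.he with he | he
  · obtain ⟨h, r, a1, a2, a3⟩ := l1_sound hm hκ h1 hW he
    obtain ⟨a4, g, a5, a6, -⟩ := act_inv a1
    have := (box_sound hm hκ (hB r a2) (hW.act h) ((a4 W).trans he) a3).act g
    rw [a6] at this
    refine ⟨12 * r + g, by omega, ?_⟩
    rwa [show (12 * r + g) % 12 = g by omega, show (12 * r + g) / 12 = r by omega]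
  · have he' : W.neg.e = 1 := by simp only [Vx.neg, he]; rfl
    obtain ⟨h, r, a1, a2, a3⟩ := l1_sound hm hκ h1 hW.neg he'
    obtain ⟨a4, g, a5, a6, a7⟩ := act_inv a1
    have := (box_sound hm hκ (hB r a2) (hW.neg.act h) ((a4 _).trans he') a3).act (g + 6)
    rw [a7, a6, Vx.neg_neg'] at this
    refine ⟨12 * r + (g + 6), by omega, ?_⟩
    rwa [show (12 * r + (g + 6)) % 12 = g + 6 by omega, show (12 * r + (g + 6)) / 12 = r by omega]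

theorem cand_sd (r : ℕ) (R Q : Hf) (U0 U1 U2 W1 W2 : ℕ) : Sd (cand T r R Q U0 U1 U2 W1 W2)
    (R.l5 + Q.l5 + W1 ≤ W2 + 1024 → W2 + 1024 ≤ R.h5 + Q.h5 + W1 → R.l6 + Q.l6 + U1 ≤ W1 + U0 →
      W1 + U0 ≤ R.h6 + Q.h6 + U1 → R.l7 + Q.l7 + U2 ≤ W2 + U0 → W2 + U0 ≤ R.h7 + Q.h7 + U2 →
      R.l8 + Q.l8 + W1 + U2 ≤ W2 + U1 + 1024 → W2 + U1 + 1024 ≤ R.h8 + Q.h8 + W1 + U2 →
      ∃ a, l2A T r ⟨R.e, R.d0, R.d1, R.d2, Q.e, Q.d0, Q.d1, Q.d2, uI U0, uI U1, uI U2, uI W1, uI W2⟩ a = true) := by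
  intro k st h
  obtain ⟨h1, h2⟩ := cond_sd (cond_sd (cond_sd (cond_sd (cond_sd (cond_sd (cond_sd (cond_sd (ask_sd _)
    _) _) _) _) _) _) _) _ k st h
  simp only [nble] at h1
  exact ⟨h1, h2⟩

theorem adj_id (hA : Adj V W) :
    (216 * m * (recOf V W).u0 = -(12 * (V.E m).a + 24 * (V.E m).f) + (12 * (W.E m).a + 24 * (W.E m).f) ∧
     216 * m * (recOf V W).u1 = -(12 * (V.E m).b + 24 * (V.E m).e) + (12 * (W.E m).b + 24 * (W.E m).e) ∧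
     216 * m * (recOf V W).u2 = -(12 * (V.E m).c + 24 * (V.E m).d) + (12 * (W.E m).c + 24 * (W.E m).d)) ∧
    216 * m * (recOf V W).w1 = (-6 * (V.E m).a + 6 * (V.E m).b + 24 * (V.E m).f - 24 * (V.E m).e) +
      -(18 * (W.E m).a - 18 * (W.E m).b) ∧
    216 * m * (recOf V W).w2 = (-6 * (V.E m).a + 6 * (V.E m).c + 24 * (V.E m).f - 24 * (V.E m).d) +
      -(18 * (W.E m).a - 18 * (W.E m).c) := by
  obtain ⟨h1, t, h2, h3⟩ := hA
  simp only [Vx.E, recOf, h1, h3, V3.rf]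
  have hx : V.X.x = 3 * t - V.X.y - V.X.z := by omega
  rw [hx]
  refine ⟨⟨by ring, by ring, by ring⟩, by ring, by ring⟩

theorem adj_res (hm : 0 < m) (hV : Ok m κ M V) (hW : Ok m κ M W) (hA : Adj V W) :
    50 ∣ (recOf V W).u0 - ((6 * V.d0 + 6 * V.d1 + 25 * V.d2 + -4 * V.e) +
      (4 * W.e + -6 * W.d0 + -6 * W.d1 + -25 * W.d2)) ∧
    50 ∣ (recOf V W).u1 - ((38 * V.d0 + 31 * V.d1 + -4 * V.e) + (4 * W.e + -38 * W.d0 + -31 * W.d1)) ∧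
    50 ∣ (recOf V W).u2 - ((31 * V.d0 + 38 * V.d1 + -4 * V.e) + (4 * W.e + -31 * W.d0 + -38 * W.d1)) ∧
    50 ∣ (recOf V W).w1 - ((25 * V.d2 + 25 * V.d1 + -16 * V.d0) + 2 * W.d0) ∧
    50 ∣ (recOf V W).w2 - ((25 * V.d2 + 25 * V.d0 + -16 * V.d1) + 2 * W.d1) := by
  have hs := sum_n hm hV hW hA
  obtain ⟨a0, g0⟩ := hV.g0
  obtain ⟨a1, g1⟩ := hV.g1
  obtain ⟨a2, g2⟩ := hV.g2
  obtain ⟨b0, k0⟩ := hW.g0
  obtain ⟨b1, k1⟩ := hW.g1
  obtain ⟨b2, k2⟩ := hW.g2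
  simp only [recOf]
  rw [show V.d0 = 50 * a0 - 25 * V.p2 + 18 * V.n0 + 32 * V.n1 by omega,
    show V.d1 = 50 * a1 - 25 * V.p1 + 18 * V.n0 + 32 * V.n2 by omega,
    show V.d2 = 50 * a2 - 25 * V.p0 + 18 * V.n1 + 32 * V.n2 by omega,
    show W.d0 = 50 * b0 - 25 * W.p2 + 18 * W.n0 + 32 * W.n1 by omega,
    show W.d1 = 50 * b1 - 25 * W.p1 + 18 * W.n0 + 32 * W.n2 by omega,
    show W.d2 = 50 * b2 - 25 * W.p0 + 18 * W.n1 + 32 * W.n2 by omega,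
    show W.e = V.e + 2 * (V.n0 + V.n1 + V.n2 - W.n0 - W.n1 - W.n2) by omega]
  clear hs g0 g1 g2 k0 k1 k2
  refine ⟨by omega, by omega, by omega, by omega, by omega⟩

theorem pair_sound (hm : 0 < m) (hV : Ok m κ M V) (hW : Ok m κ M W) (hA : Adj V W) {B B' : Bx}
    (hB : BoxOK m B V) (hB' : BoxOK m B' W) (r : ℕ) :
    Sd (pair T r (mkR B) (mkQ B')) (∃ a, l2A T r (recOf V W) a = true) := by
  intro k st h
  obtain ⟨h1, h2⟩ := rng_sd (fun U0 => rng_sd fun U1 => rng_sd fun U2 => rng_sd fun W1 => rng_sd fun W2 =>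
    cand_sd r (mkR B) (mkQ B') U0 U1 U2 W1 W2) k st h
  refine ⟨?_, h2⟩
  obtain ⟨⟨i0, i1, i2⟩, i3, i4⟩ := adj_id (m := m) hA
  obtain ⟨-, j3, j4⟩ := adj_id (m := m) hA.symm
  obtain ⟨r0, r1, r2, r3, r4⟩ := adj_res hm hV hW hA
  rw [← hB.e, ← hB.d0, ← hB.d1, ← hB'.e, ← hB'.d0, ← hB'.d1] at r1 r2
  rw [← hB.e, ← hB.d0, ← hB.d1, ← hB.d2, ← hB'.e, ← hB'.d0, ← hB'.d1, ← hB'.d2] at r0
  rw [← hB.d0, ← hB.d1, ← hB.d2, ← hB'.d0] at r3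
  rw [← hB.d0, ← hB.d1, ← hB.d2, ← hB'.d1] at r4
  obtain ⟨U0, e0, x0, y0, z0⟩ := coord hm (hB.a0.ng rfl) hB'.a0 i0 r0
  obtain ⟨U1, e1, x1, y1, z1⟩ := coord hm (hB.a1.ng rfl) hB'.a1 i1 r1
  obtain ⟨U2, e2, x2, y2, z2⟩ := coord hm (hB.a2.ng rfl) hB'.a2 i2 r2
  obtain ⟨W1, e3, x3, y3, z3⟩ := coord hm hB.b0 (hB'.c0.ng rfl) i3 r3
  obtain ⟨W2, e4, x4, y4, z4⟩ := coord hm hB.b1 (hB'.c1.ng rfl) i4 r4
  have t5 := iv_sum (u := (recOf V W).w2 - (recOf V W).w1) hm hB.b2 (hB'.c2.ng rfl) (by linear_combination i4 - i3)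
  have t6 := iv_sum (u := (recOf W V).w1) hm (hB.c0.ng rfl) hB'.b0 (by linear_combination j3)
  have t7 := iv_sum (u := (recOf W V).w2) hm (hB.c1.ng rfl) hB'.b1 (by linear_combination j4)
  have t8 := iv_sum (u := (recOf W V).w2 - (recOf W V).w1) hm (hB.c2.ng rfl) hB'.b2
    (by linear_combination j4 - j3)
  rw [recOf_rev V W] at t6 t7 t8
  simp only [Rc.rev, iadd_eq, isub_eq] at t6 t7 t8
  have h3 := h1 U0 x0 y0 (by simp only [mkR, mkQ, mkH, iadd_eq, imul_eq, nadd]; exact z0)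
    U1 x1 y1 (by simp only [mkR, mkQ, mkH, iadd_eq, imul_eq, nadd]; exact z1)
    U2 x2 y2 (by simp only [mkR, mkQ, mkH, iadd_eq, imul_eq, nadd]; exact z2)
    W1 x3 y3 (by simp only [mkR, mkQ, mkH, iadd_eq, imul_eq, nadd]; exact z3)
    W2 x4 y4 (by simp only [mkR, mkQ, mkH, iadd_eq, imul_eq, nadd]; exact z4)
  rw [uI_eq e0, uI_eq e1, uI_eq e2, uI_eq e3, uI_eq e4] at h3
  simp only [mkR, mkQ, mkH, hB.e, hB.d0, hB.d1, hB.d2, hB'.e, hB'.d0, hB'.d1, hB'.d2] at h3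
  exact h3 (by omega) (by omega) (by omega) (by omega) (by omega) (by omega) (by omega) (by omega)

theorem l2_sound (hm : 0 < m) (hκ : 27 * |κ| ≤ 4 * m) (h1 : ∀ i, i < 37 → l1OK T i = true)
    (hB : ∀ r, r < 183 → boxOK T r = true) (h2 : ∀ i, i < 2196 → l2OK T i = true) (hV : Ok m κ M V)
    (he : V.e = 1) {r : ℕ} (hr : r < 183) (hc : Cen (cenR T r) V) (hW : Ok m κ M W) (hA : Adj V W) :
    ∃ a, a < 5904 ∧ eR T a = r ∧ ent T a = recOf V W := by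
  obtain ⟨i, hi, hq⟩ := qbox hm hκ h1 hB hW
  have : ∀ r', Sd (pair T r' (hR T r') (hQ T i)) (r' = r → ∃ a, l2A T r (recOf V W) a = true) := by
    intro r' k st h
    by_cases e : r' = r
    · subst e
      obtain ⟨h3, h4⟩ := pair_sound hm hV hW hA (box_sound hm hκ (hB r' hr) hV he hc) hq r' k st h
      exact ⟨fun _ => h3, h4⟩
    · exact ⟨fun h => absurd h e, (rng_sd (fun U0 => rng_sd fun U1 => rng_sd fun U2 => rng_sd fun W1 =>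
        rng_sd fun W2 => cand_sd r' _ _ U0 U1 U2 W1 W2) k st h).2⟩
  obtain ⟨a, ha⟩ := (lp_sd this 183 _ _ (h2 i hi)).1 r hr rfl
  rw [l2A, br_true, nblt, and2_eq, nbeq] at ha
  rcases ha with ⟨-, ha⟩ | ⟨h3, h4, h5⟩
  · exact (cert_sound (back_sound hm hκ hV he hW hA) ha).elim
  · exact ⟨a, h3, h4, eqRc_eq h5⟩

end

end Pool.Agent.Lib.MP_568bdc_nt
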