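import Pool.Agent.Lib.MP_568bdc_nt.ContV

/-! Soundness of the linear certificates. -/

namespace Pool.Agent.Lib.MP_568bdc_nt

def Val (σ m : ℤ) (K : S6) (a a' b b' c c' d d' e e' f f' z z' : ℕ) : Prop :=
  0 ≤ σ * (((a : ℤ) - a') * K.a + ((b : ℤ) - b') * K.b + ((c : ℤ) - c') * K.c +
    2 * (((d : ℤ) - d') * K.d + ((e : ℤ) - e') * K.e + ((f : ℤ) - f') * K.f) + m * ((z : ℤ) - z'))

def Rf (σ m : ℤ) (K : S6) (k : K14) : Prop :=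
  ∀ a a' b b' c c' d d' e e' f f' z z', Val σ m K a a' b b' c c' d d' e e' f f' z z' →
    k a a' b b' c c' d d' e e' f f' z z' = true → False

def Ref (σ m : ℤ) (K : S6) (k : SK) : Prop := ∀ st, Rf σ m K (k st)

def S6.fl (l : ℕ) (K : S6) : S6 :=
  if l = 0 then K.d0 else if l = 1 then ⟨K.a, K.b, K.c, -K.d, K.e, -K.f⟩ else ⟨K.a, K.b, K.c, K.d, -K.e, -K.f⟩

theorem Vx.E_fl (m l V) : (Vx.fl l V).E m = (V.E m).fl l := by
  unfold Vx.fl S6.fl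
  split_ifs
  · exact Vx.E_f0 m V
  · simp only [S6.ext_iff, Vx.E, Vx.f1]
    refine ⟨trivial, by ring, trivial, by ring, trivial, by ring⟩
  · simp only [S6.ext_iff, Vx.E, Vx.f2]
    refine ⟨trivial, trivial, by ring, trivial, by ring, by ring⟩

section
variable {σ m : ℤ} {K : S6}

theorem pr4_sound {A B D δ R : ℤ} (hP : Pr m σ A B D δ) {j l a a' b b' d d' z z' y y' : ℕ}
    (hy : (y : ℤ) - y' = 216 * δ) {k}
    (h0 : 0 ≤ σ * (((a : ℤ) - a') * A + ((b : ℤ) - b') * B + 2 * (((d : ℤ) - d') * D) + m * ((z : ℤ) - z') + R))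
    (h : pr4 j l a a' b b' d d' z z' y y' k = true) :
    ∃ a a' b b' d d' z z' : ℕ,
      0 ≤ σ * (((a : ℤ) - a') * A + ((b : ℤ) - b') * B + 2 * (((d : ℤ) - d') * D) + m * ((z : ℤ) - z') + R) ∧
      k a a' b b' d d' z z' = true := by
  obtain ⟨h1, h2, h3, h4⟩ := hP
  have hl : (0 : ℤ) ≤ l := Int.natCast_nonneg l
  rw [pr4, br_true, br_true, br_true] at h
  rcases h with ⟨-, ⟨-, h⟩ | ⟨-, h⟩⟩ | ⟨-, ⟨-, h⟩ | ⟨-, h⟩⟩ <;> refine ⟨_, _, _, _, _, _, _, _, ?_, h⟩ <;>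
    simp only [nadd, nmul] <;> push_cast
  · exact (add_nonneg h0 (mul_nonneg hl h4)).trans_eq (by linear_combination (σ * l * m) * hy)
  · exact (add_nonneg h0 (mul_nonneg hl h3)).trans_eq (by linear_combination (-σ * l * m) * hy)
  · exact (add_nonneg h0 (mul_nonneg hl h2)).trans_eq (by linear_combination (σ * l * m) * hy)
  · exact (add_nonneg h0 (mul_nonneg hl h1)).trans_eq (by linear_combination (-σ * l * m) * hy)

structure Cons (σ m : ℤ) (K : S6) (u u' v v' w w' : ℕ) : Prop where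
  ca : 0 ≤ σ * K.a
  cb : 0 ≤ σ * K.b
  cc : 0 ≤ σ * K.c
  p0 : ∃ δ, Pr m σ K.a K.b K.d δ ∧ (u : ℤ) - u' = 216 * δ
  p1 : ∃ δ, Pr m σ K.a K.c K.e δ ∧ (v : ℤ) - v' = 216 * δ
  p2 : ∃ δ, Pr m σ K.b K.c K.f δ ∧ (w : ℤ) - w' = 216 * δ

theorem addT_sound {u u' v v' w w' : ℕ} (hC : Cons σ m K u u' v v' w w') {k} (hk : Rf σ m K k) (j l : ℕ) :
    Rf σ m K (addT j l u u' v v' w w' k) := by
  intro a a' b b' c c' d d' e e' f f' z z' h0 h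
  have hl : (0 : ℤ) ≤ l := Int.natCast_nonneg l
  rw [addT, br_true, br_true, br_true, br_true, br_true] at h
  rcases h with ⟨-, ⟨-, h⟩ | ⟨-, h⟩⟩ | ⟨-, ⟨-, h⟩ | ⟨-, ⟨-, ⟨-, h⟩ | ⟨-, h⟩⟩ | ⟨-, h⟩⟩⟩
  · obtain ⟨δ, h1, h2⟩ := hC.p2
    obtain ⟨_, _, _, _, _, _, _, _, h3, h4⟩ := pr4_sound
      (R := ((a : ℤ) - a') * K.a + 2 * (((d : ℤ) - d') * K.d + ((e : ℤ) - e') * K.e)) h1 h2
      (h0.trans_eq (by ring)) h
    exact hk _ _ _ _ _ _ _ _ _ _ _ _ _ _ (h3.trans_eq (by ring)) h4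
  · obtain ⟨δ, h1, h2⟩ := hC.p1
    obtain ⟨_, _, _, _, _, _, _, _, h3, h4⟩ := pr4_sound
      (R := ((b : ℤ) - b') * K.b + 2 * (((d : ℤ) - d') * K.d + ((f : ℤ) - f') * K.f)) h1 h2
      (h0.trans_eq (by ring)) h
    exact hk _ _ _ _ _ _ _ _ _ _ _ _ _ _ (h3.trans_eq (by ring)) h4
  · obtain ⟨δ, h1, h2⟩ := hC.p0
    obtain ⟨_, _, _, _, _, _, _, _, h3, h4⟩ := pr4_sound
      (R := ((c : ℤ) - c') * K.c + 2 * (((e : ℤ) - e') * K.e + ((f : ℤ) - f') * K.f)) h1 h2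
      (h0.trans_eq (by ring)) h
    exact hk _ _ _ _ _ _ _ _ _ _ _ _ _ _ (h3.trans_eq (by ring)) h4
  · refine hk _ _ _ _ _ _ _ _ _ _ _ _ _ _ ?_ h
    simp only [Val, nadd, nmul]; push_cast
    exact (add_nonneg h0 (mul_nonneg (mul_nonneg (by norm_num : (0 : ℤ) ≤ 25) hl) hC.cc)).trans_eq (by ring)
  · refine hk _ _ _ _ _ _ _ _ _ _ _ _ _ _ ?_ h
    simp only [Val, nadd, nmul]; push_cast
    exact (add_nonneg h0 (mul_nonneg (mul_nonneg (by norm_num : (0 : ℤ) ≤ 25) hl) hC.cb)).trans_eq (by ring)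
  · refine hk _ _ _ _ _ _ _ _ _ _ _ _ _ _ ?_ h
    simp only [Val, nadd, nmul]; push_cast
    exact (add_nonneg h0 (mul_nonneg (mul_nonneg (by norm_num : (0 : ℤ) ≤ 25) hl) hC.ca)).trans_eq (by ring)

theorem nrec_ind {α : Type} (P : α → Prop) {z : α} {s : ℕ → α → α} (hz : P z) (hs : ∀ n x, P x → P (s n x))
    (n : ℕ) : P (Nat.rec (motive := fun _ => α) z s n) := by
  induction n with
  | zero => exact hz
  | succ n ih => exact hs n _ ih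

theorem terms_sound {u u' v v' w w' : ℕ} (hC : Cons σ m K u u' v v' w w') {k} (hk : Ref σ m K k) (ω μ : ℕ) :
    Ref σ m K (terms ω μ u u' v v' w w' k) := by
  unfold terms
  generalize nat_lit 8 = fuel
  refine nrec_ind (Ref σ m K) ?_ ?_ fuel
  · intro st a a' b b' c c' d d' e e' f f' z z' _ h; exact absurd h Bool.false_ne_true
  · intro n ih hih st a a' b b' c c' d d' e e' f f' z z' h0 h
    rw [br_true] at h
    rcases h with ⟨-, h⟩ | ⟨-, h⟩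
    · exact addT_sound hC (hih _) _ _ _ _ _ _ _ _ _ _ _ _ _ _ _ _ h0 h
    · exact hk _ _ _ _ _ _ _ _ _ _ _ _ _ _ _ h0 h

theorem sw_sound {k} (hk : Ref σ m K k) : Ref (-σ) m K (sw k) :=
  fun _ _ _ _ _ _ _ _ _ _ _ _ _ _ _ h0 h => hk _ _ _ _ _ _ _ _ _ _ _ _ _ _ _ (h0.trans_eq (by ring)) h

theorem termsE_sound {u u' v v' w w' : ℕ} (hσ : σ = 1 ∨ σ = -1) (hC : Cons σ m K u u' v v' w w') {k}
    (hk : Ref 1 m K k) (ω μ : ℕ) : Ref 1 m K (termsE σ ω μ u u' v v' w w' k) := by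
  rcases hσ with rfl | rfl
  · exact terms_sound hC hk ω μ
  · exact sw_sound (terms_sound hC (sw_sound hk) ω μ)

theorem g01_sound {k} (hk : Ref σ m K k) : Ref σ m K.s01 (g01 k) :=
  fun _ _ _ _ _ _ _ _ _ _ _ _ _ _ _ h0 h =>
    hk _ _ _ _ _ _ _ _ _ _ _ _ _ _ _ (h0.trans_eq (by simp only [S6.s01]; ring)) h

theorem g12_sound {k} (hk : Ref σ m K k) : Ref σ m K.s12 (g12 k) :=
  fun _ _ _ _ _ _ _ _ _ _ _ _ _ _ _ h0 h =>
    hk _ _ _ _ _ _ _ _ _ _ _ _ _ _ _ (h0.trans_eq (by simp only [S6.s12]; ring)) h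

theorem gn_sound {k} (hk : Ref σ m K k) : Ref σ m K.neg (gn k) :=
  fun _ _ _ _ _ _ _ _ _ _ _ _ _ _ _ h0 h =>
    hk _ _ _ _ _ _ _ _ _ _ _ _ _ _ _ (h0.trans_eq (by simp only [S6.neg]; ring)) h

theorem flp_cases {l k st a a' b b' c c' d d' e e' f f' z z'}
    (h : flp l k st a a' b b' c c' d d' e e' f f' z z' = true) :
    (l = 0 ∧ k st a a' b b' c c' d' d e' e f f' z z' = true) ∨
    (l = 1 ∧ k st a a' b b' c c' d' d e e' f' f z z' = true) ∨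
    (l ≠ 0 ∧ l ≠ 1 ∧ k st a a' b b' c c' d d' e' e f' f z z' = true) := by
  rw [flp, br_true, br_true, nbeq, nbeq, nbeqf, nbeqf] at h
  rcases h with ⟨h1, ⟨h2, h⟩ | ⟨h2, h⟩⟩ | ⟨h1, h⟩
  · exact Or.inr (Or.inr ⟨h1, h2, h⟩)
  · exact Or.inr (Or.inl ⟨h2, h⟩)
  · exact Or.inl ⟨h1, h⟩

theorem flp_sound (l : ℕ) {k} (hk : Ref σ m K k) : Ref σ m (K.fl l) (flp l k) := by
  intro st a a' b b' c c' d d' e e' f f' z z' h0 h
  rcases flp_cases h with ⟨rfl, h⟩ | ⟨rfl, h⟩ | ⟨h1, h2, h⟩ <;>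
    refine hk _ _ _ _ _ _ _ _ _ _ _ _ _ _ _ (h0.trans_eq ?_) h
  · simp only [S6.fl, S6.d0, if_true]; ring
  · simp only [S6.fl, one_ne_zero, if_true, if_false]; ring
  · simp only [S6.fl, h1, h2, if_false]; ring

theorem push_sound {K' : S6} {r : Rc} (hK : K.tm = (K'.sm 9).sub (r.D.sm (9 * m))) {k} (hk : Ref 1 m K k) :
    Ref 1 m K' (push r k) := by
  intro st a a' b b' c c' d d' e e' f f' z z' h0 h
  refine hk _ _ _ _ _ _ _ _ _ _ _ _ _ _ _ ?_ h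
  have hA : r.A = (r.Ap : ℤ) - r.An := (ip_sub_im _).symm
  have hB : r.B = (r.Bp : ℤ) - r.Bn := (ip_sub_im _).symm
  have hC : r.C = (r.Cp : ℤ) - r.Cn := (ip_sub_im _).symm
  have h1 : r.u0 = (r.u0p : ℤ) - r.u0n := (ip_sub_im _).symm
  have h2 : r.u1 = (r.u1p : ℤ) - r.u1n := (ip_sub_im _).symm
  have h3 : r.u2 = (r.u2p : ℤ) - r.u2n := (ip_sub_im _).symm
  simp only [S6.ext_iff, S6.tm, S6.sm, S6.sub, Rc.D] at hK
  rw [hA, hB, hC, h1, h2, h3] at hK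
  obtain ⟨g1, g2, g3, g4, g5, g6⟩ := hK
  simp only [Val, nadd, nmul]; push_cast
  refine (mul_nonneg (by norm_num : (0 : ℤ) ≤ 9) h0).trans_eq ?_
  linear_combination (-((a : ℤ) - a')) * g1 - ((b : ℤ) - b') * g2 - ((c : ℤ) - c') * g3 - 2 * ((d : ℤ) - d') * g4
    - 2 * ((e : ℤ) - e') * g5 - 2 * ((f : ℤ) - f') * g6

theorem fin_sound (hm : 0 < m) (h1 : 184 * m ≤ K.a + K.b + K.c) (h2 : K.a + K.b + K.c ≤ 248 * m) :
    Ref 1 m K fin := by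
  intro st a a' b b' c c' d d' e e' f f' z z' h0 h
  simp only [fin, and3_eq, and2_eq, br_true, nbeq, nblt, nble, nblef, nadd, nmul] at h
  obtain ⟨⟨e1, e2, rfl⟩, ⟨rfl, rfl⟩, h⟩ := h
  have e3 : (b : ℤ) - b' = a - a' := by omega
  have e4 : (c : ℤ) - c' = a - a' := by omega
  rw [Val, e3, e4] at h0
  rcases h with ⟨h3, h4⟩ | ⟨h3, h4⟩
  · have a1 : 0 ≤ ((a' : ℤ) - a) * (K.a + K.b + K.c - 184 * m) := mul_nonneg (by omega) (by omega)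
    have a2 : 0 < m * (184 * a' + z' - (184 * a + z)) := mul_pos hm (by omega)
    linarith
  · have a1 : 0 ≤ ((a : ℤ) - a') * (248 * m - (K.a + K.b + K.c)) := mul_nonneg (by omega) (by omega)
    have a2 : 0 < m * (248 * a' + z' - (248 * a + z)) := mul_pos hm (by omega)
    linarith

theorem addK_sound (hf : Ref 1 m K fin) {p p' q q' r r' x x' y y' u u' v v'}
    (h1 : Val 1 m K p p' q q' r r' x x' y y' u u' v v') : Ref 1 m K (addK p p' q q' r r' x x' y y' u u' v v') := by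
  intro st a a' b b' c c' d d' e e' f f' z z' h0 h
  refine hf _ _ _ _ _ _ _ _ _ _ _ _ _ _ _ ?_ h
  simp only [Val, nadd]; push_cast
  exact (add_nonneg h0 h1).trans_eq (by ring)

theorem val_zero : Val σ m K 0 0 0 0 0 0 0 0 0 0 0 0 0 0 := by simp [Val]

theorem cert_sound {F x} (hF : ∀ ω μ, Ref 1 m K (F ω μ)) (h : cert F x = true) : False :=
  hF _ _ _ _ _ _ _ _ _ _ _ _ _ _ _ _ _ val_zero h

end

theorem pn216 (a : ℤ) : ((Nat.mul (nat_lit 216) (ip a) : ℕ) : ℤ) - (Nat.mul (nat_lit 216) (im a) : ℕ) = 216 * a := by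
  have := ip_sub_im a
  simp only [nmul]; omega

section
variable {m κ M : ℤ} {V W : Vx}

theorem cons_d (hV : Ok m κ M V) {r : Rc} (h0 : r.d0 = V.d0) (h1 : r.d1 = V.d1) (h2 : r.d2 = V.d2) :
    Cons V.e m (V.E m) r.d0p r.d0n r.d1p r.d1n r.d2p r.d2n :=
  ⟨hV.ca, hV.cb, hV.cc, ⟨_, hV.p01, h0 ▸ pn216 _⟩, ⟨_, hV.p02, h1 ▸ pn216 _⟩, ⟨_, hV.p12, h2 ▸ pn216 _⟩⟩

theorem cons_q (hW : Ok m κ M W) : Cons W.e m (W.E m) (recOf V W).q0p (recOf V W).q0n (recOf V W).q1p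
    (recOf V W).q1n (recOf V W).q2p (recOf V W).q2n :=
  ⟨hW.ca, hW.cb, hW.cc, ⟨_, hW.p01, pn216 _⟩, ⟨_, hW.p02, pn216 _⟩, ⟨_, hW.p12, pn216 _⟩⟩

theorem fin_ok (hm : 0 < m) (hκ : 27 * |κ| ≤ 4 * m) (hV : Ok m κ M V) (he : V.e = 1) : Ref 1 m (V.E m) fin :=
  fin_sound hm (hV.tr_bd hκ he).1 (hV.tr_bd hκ he).2

theorem terms_ok (hV : Ok m κ M V) (he : V.e = 1) {r : Rc} (h0 : r.d0 = V.d0) (h1 : r.d1 = V.d1)
    (h2 : r.d2 = V.d2) {k} (hk : Ref 1 m (V.E m) k) (ω μ : ℕ) :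
    Ref 1 m (V.E m) (terms ω μ r.d0p r.d0n r.d1p r.d1n r.d2p r.d2n k) :=
  terms_sound (he ▸ cons_d hV h0 h1 h2) hk ω μ

theorem back_sound (hm : 0 < m) (hκ : 27 * |κ| ≤ 4 * m) (hV : Ok m κ M V) (he : V.e = 1) (hW : Ok m κ M W)
    (hA : Adj V W) (ω μ : ℕ) : Ref 1 m (V.E m) (back (recOf V W) ω μ) :=
  terms_ok hV he rfl rfl rfl (fun _ _ _ _ _ _ _ _ _ _ _ _ _ _ _ h0 h =>
    termsE_sound hW.he (cons_q hW) (push_sound (adj_E hm hV hW hA) (addK_sound (fin_ok hm hκ hV he) h0)) ω μ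
      _ _ _ _ _ _ _ _ _ _ _ _ _ _ _ val_zero h) ω μ

theorem fwd_sound (hm : 0 < m) (hV : Ok m κ M V) (hW : Ok m κ M W) {l : ℕ} (hA : Adj (V.fl l) W) {k}
    (hk : Ref 1 m (V.E m) k) (ω μ : ℕ) : Ref 1 m (W.E m) (fwd (recOf (V.fl l) W) l ω μ k) :=
  termsE_sound hW.he (cons_q hW) (push_sound (adj_E hm (hV.fl l) hW hA) (Vx.E_fl m l V ▸ flp_sound l hk)) ω μ

theorem act_sound (h : ℕ) {k} (hk : Ref 1 m (V.E m) k) : Ref 1 m ((V.act h).E m) (wF h SK g01 g12 gn k) :=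
  wF_rel (fun k (V : Vx) => Ref 1 m (V.E m) k) (fun _ _ h => Vx.E_s01 m _ ▸ g01_sound h)
    (fun _ _ h => Vx.E_s12 m _ ▸ g12_sound h) (fun _ _ h => Vx.E_neg m _ ▸ gn_sound h) h hk

end

end Pool.Agent.Lib.MP_568bdc_nt
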