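import Pool.Agent.Lib.MP_568bdc_nt.DiscDef

/-! The certificate checker used for large moduli. -/

namespace Pool.Agent.Lib.MP_568bdc_nt

abbrev K6 := Int → Int → Int → Int → Int → Int → Bool
abbrev K12 := Nat → Nat → Nat → Nat → Nat → Nat → Nat → Nat → Nat → Nat → Nat → Nat → Bool
abbrev K14 := Nat → Nat → K12
abbrev SK := Nat → K14
abbrev NK := Nat → Bool

structure Rc where
  (e d0 d1 d2 g q0 q1 q2 u0 u1 u2 w1 w2 : Int)

structure Iv where
  (lo hi : Nat)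

structure Bx where
  (e d0 d1 d2 : Int)
  (a0 a1 a2 b0 b1 b2 c0 c1 c2 : Iv)

structure Hf where
  (e d0 d1 d2 : Int)
  (l0 w0 r0 l1 w1 r1 l2 w2 r2 l3 w3 r3 l4 w4 r4 l5 h5 l6 h6 l7 h7 l8 h8 : Nat)

structure Tb where
  (e r c o s a x l1 b l2 l3 : Nat → Nat)

noncomputable section

def wP (p : Nat) (α : Type) (a b : α → α) (x : α) : α :=
  Bool.rec (motive := fun _ => α)
    (Bool.rec (motive := fun _ => α) (Bool.rec (motive := fun _ => α) (a (b x)) (b (a x)) (Nat.beq p (nat_lit 4))) (a (b (a x))) (Nat.beq p (nat_lit 3)))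
    (Bool.rec (motive := fun _ => α) (Bool.rec (motive := fun _ => α) (b x) (a x) (Nat.beq p (nat_lit 1))) x (Nat.beq p (nat_lit 0))) (Nat.ble p (nat_lit 2))

def wF (h : Nat) (α : Type) (a b n : α → α) (x : α) : α :=
  Bool.rec (motive := fun _ => α) (n (wP (Nat.sub h (nat_lit 6)) α a b x)) (wP h α a b x) (Nat.ble h (nat_lit 5))

def nsb (m n : Nat) : Int := Bool.rec (motive := fun _ => Int) (Int.negSucc (Nat.sub (Nat.sub n m) (nat_lit 1))) (Int.ofNat (Nat.sub m n)) (Nat.ble n m)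

def nng (n : Nat) : Int := Nat.rec (motive := fun _ => Int) (Int.ofNat (nat_lit 0)) (fun k _ => Int.negSucc k) n

def iadd (a b : Int) : Int :=
  Int.rec (motive := fun _ => Int) (fun m => Int.rec (motive := fun _ => Int) (fun n => Int.ofNat (Nat.add m n)) (fun n => nsb m (Nat.succ n)) b)
    (fun m => Int.rec (motive := fun _ => Int) (fun n => nsb n (Nat.succ m)) (fun n => Int.negSucc (Nat.succ (Nat.add m n))) b) a

def isub (a b : Int) : Int :=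
  Int.rec (motive := fun _ => Int) (fun m => Int.rec (motive := fun _ => Int) (fun n => nsb m n) (fun n => Int.ofNat (Nat.succ (Nat.add m n))) b)
    (fun m => Int.rec (motive := fun _ => Int) (fun n => Int.negSucc (Nat.add m n)) (fun n => nsb n m) b) a

def ineg (a : Int) : Int := Int.rec (motive := fun _ => Int) (fun n => nng n) (fun n => Int.ofNat (Nat.succ n)) a

def imul (a b : Int) : Int :=
  Int.rec (motive := fun _ => Int) (fun m => Int.rec (motive := fun _ => Int) (fun n => Int.ofNat (Nat.mul m n)) (fun n => nng (Nat.mul m (Nat.succ n))) b)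
    (fun m => Int.rec (motive := fun _ => Int) (fun n => nng (Nat.mul (Nat.succ m) n)) (fun n => Int.ofNat (Nat.mul (Nat.succ m) (Nat.succ n))) b) a

def ip (a : Int) : Nat := Int.rec (motive := fun _ => Nat) (fun n => n) (fun _ => nat_lit 0) a
def im (a : Int) : Nat := Int.rec (motive := fun _ => Nat) (fun _ => nat_lit 0) (fun n => Nat.succ n) a

def imod (a : Int) (n : Nat) : Nat :=
  Int.rec (motive := fun _ => Nat) (fun k => (Nat.mod k n)) (fun k => (Nat.sub (Nat.sub n (nat_lit 1)) (Nat.mod k n))) a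

def beqI (a b : Int) : Bool :=
  Int.rec (motive := fun _ => Bool)
    (fun m => Int.rec (motive := fun _ => Bool) (fun n => Nat.beq m n) (fun _ => false) b)
    (fun m => Int.rec (motive := fun _ => Bool) (fun _ => false) (fun n => Nat.beq m n) b) a

def isNeg (a : Int) : Bool := Int.rec (motive := fun _ => Bool) (fun _ => false) (fun _ => true) a

def and2 (a b : Bool) : Bool := Bool.rec (motive := fun _ => Bool) false b a

def Rc.s01 (r : Rc) : Rc :=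
  ⟨r.e, (ineg r.d0), r.d2, r.d1, r.g, (ineg r.q0), r.q2, r.q1, r.u1, r.u0, r.u2, (ineg r.w1), (isub r.w2 r.w1)⟩
def Rc.s12 (r : Rc) : Rc :=
  ⟨r.e, r.d1, r.d0, (ineg r.d2), r.g, r.q1, r.q0, (ineg r.q2), r.u0, r.u2, r.u1, r.w2, r.w1⟩
def Rc.neg (r : Rc) : Rc :=
  ⟨(ineg r.e), (ineg r.d0), (ineg r.d1), (ineg r.d2), (ineg r.g), (ineg r.q0), (ineg r.q1), (ineg r.q2), (ineg r.u0), (ineg r.u1), (ineg r.u2), (ineg r.w1), (ineg r.w2)⟩
def Rc.rev (r : Rc) : Rc :=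
  ⟨r.g, r.q0, r.q1, r.q2, r.e, r.d0, r.d1, r.d2, (ineg r.u0), (ineg r.u1), (ineg r.u2), (isub (iadd r.w1 r.u0) r.u1), (isub (iadd r.w2 r.u0) r.u2)⟩
def Rc.act (h : Nat) (r : Rc) : Rc := wF h Rc Rc.s01 Rc.s12 Rc.neg r
def Rc.A (r : Rc) : Int := (isub (isub (imul (Int.ofNat (nat_lit 18)) (isub r.g r.e)) r.w1) r.w2)
def Rc.B (r : Rc) : Int := (iadd r.A (imul (Int.ofNat (nat_lit 3)) r.w1))
def Rc.C (r : Rc) : Int := (iadd r.A (imul (Int.ofNat (nat_lit 3)) r.w2))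
def Rc.Ap (r : Rc) : Nat := ip r.A
def Rc.An (r : Rc) : Nat := im r.A
def Rc.Bp (r : Rc) : Nat := ip r.B
def Rc.Bn (r : Rc) : Nat := im r.B
def Rc.Cp (r : Rc) : Nat := ip r.C
def Rc.Cn (r : Rc) : Nat := im r.C
def Rc.u0p (r : Rc) : Nat := ip r.u0
def Rc.u0n (r : Rc) : Nat := im r.u0
def Rc.u1p (r : Rc) : Nat := ip r.u1
def Rc.u1n (r : Rc) : Nat := im r.u1
def Rc.u2p (r : Rc) : Nat := ip r.u2
def Rc.u2n (r : Rc) : Nat := im r.u2
def Rc.d0p (r : Rc) : Nat := (Nat.mul (nat_lit 216) (ip r.d0))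
def Rc.d0n (r : Rc) : Nat := (Nat.mul (nat_lit 216) (im r.d0))
def Rc.d1p (r : Rc) : Nat := (Nat.mul (nat_lit 216) (ip r.d1))
def Rc.d1n (r : Rc) : Nat := (Nat.mul (nat_lit 216) (im r.d1))
def Rc.d2p (r : Rc) : Nat := (Nat.mul (nat_lit 216) (ip r.d2))
def Rc.d2n (r : Rc) : Nat := (Nat.mul (nat_lit 216) (im r.d2))
def Rc.q0p (r : Rc) : Nat := (Nat.mul (nat_lit 216) (ip r.q0))
def Rc.q0n (r : Rc) : Nat := (Nat.mul (nat_lit 216) (im r.q0))
def Rc.q1p (r : Rc) : Nat := (Nat.mul (nat_lit 216) (ip r.q1))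
def Rc.q1n (r : Rc) : Nat := (Nat.mul (nat_lit 216) (im r.q1))
def Rc.q2p (r : Rc) : Nat := (Nat.mul (nat_lit 216) (ip r.q2))
def Rc.q2n (r : Rc) : Nat := (Nat.mul (nat_lit 216) (im r.q2))

def eqRc (r s : Rc) : Bool :=
  and3 (and3 (and2 (beqI r.e s.e) (beqI r.d0 s.d0)) (beqI r.d1 s.d1) (beqI r.d2 s.d2))
    (and3 (and2 (beqI r.g s.g) (beqI r.q0 s.q0)) (beqI r.q1 s.q1) (beqI r.q2 s.q2))
    (and3 (and3 (beqI r.u0 s.u0) (beqI r.u1 s.u1) (beqI r.u2 s.u2)) (beqI r.w1 s.w1) (beqI r.w2 s.w2))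

def sF (x s m b : Nat) : Int := nsb (Nat.land (Nat.shiftRight x s) m) b

def dec (x : Nat) : Rc :=
  ⟨(Int.ofNat (nat_lit 1)), (sF x (nat_lit 0) (nat_lit 63) (nat_lit 32)), (sF x (nat_lit 6) (nat_lit 63) (nat_lit 32)), (sF x (nat_lit 12) (nat_lit 63) (nat_lit 32)), (sF x (nat_lit 36) (nat_lit 3) (nat_lit 1)), (sF x (nat_lit 18) (nat_lit 63) (nat_lit 32)),
    (sF x (nat_lit 24) (nat_lit 63) (nat_lit 32)), (sF x (nat_lit 30) (nat_lit 63) (nat_lit 32)), (sF x (nat_lit 38) (nat_lit 255) (nat_lit 128)), (sF x (nat_lit 46) (nat_lit 255) (nat_lit 128)),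
    (sF x (nat_lit 54) (nat_lit 255) (nat_lit 128)), (sF x (nat_lit 62) (nat_lit 255) (nat_lit 128)), (sF x (nat_lit 70) (nat_lit 255) (nat_lit 128))⟩

def ent (T : Tb) (a : Nat) : Rc := dec (T.e a)
def eH (T : Tb) (a : Nat) : Nat := (Nat.land (Nat.shiftRight (T.e a) (nat_lit 78)) (nat_lit 15))
def eTo (T : Tb) (a : Nat) : Nat := (Nat.land (Nat.shiftRight (T.e a) (nat_lit 82)) (nat_lit 8191))
def eR (T : Tb) (a : Nat) : Nat := (Nat.shiftRight (T.e a) (nat_lit 95))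
def rS (T : Tb) (r : Nat) : Nat := (Nat.land (Nat.shiftRight (T.r r) (nat_lit 18)) (nat_lit 8191))
def rN (T : Tb) (r : Nat) : Nat := (Nat.land (Nat.shiftRight (T.r r) (nat_lit 31)) (nat_lit 511))

def pr4 (j l a a' b b' d d' z z' y y' : Nat) (k : Nat → Nat → Nat → Nat → Nat → Nat → Nat → Nat → Bool) : Bool :=
  Bool.rec (motive := fun _ => Bool) (Bool.rec (motive := fun _ => Bool) (k (Nat.add a (Nat.mul (nat_lit 16) l)) a' (Nat.add b (Nat.mul (nat_lit 9) l)) b' (Nat.add d (Nat.mul (nat_lit 12) l)) d' (Nat.add z (Nat.mul l y')) (Nat.add z' (Nat.mul l y))) (k (Nat.add a (Nat.mul (nat_lit 9) l)) a' (Nat.add b (Nat.mul (nat_lit 16) l)) b' d (Nat.add d' (Nat.mul (nat_lit 12) l)) (Nat.add z (Nat.mul l y)) (Nat.add z' (Nat.mul l y'))) (Nat.beq j (nat_lit 2)))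
    (Bool.rec (motive := fun _ => Bool) (k (Nat.add a (Nat.mul (nat_lit 16) l)) a' (Nat.add b (Nat.mul (nat_lit 9) l)) b' d (Nat.add d' (Nat.mul (nat_lit 12) l)) (Nat.add z (Nat.mul l y')) (Nat.add z' (Nat.mul l y))) (k (Nat.add a (Nat.mul (nat_lit 9) l)) a' (Nat.add b (Nat.mul (nat_lit 16) l)) b' (Nat.add d (Nat.mul (nat_lit 12) l)) d' (Nat.add z (Nat.mul l y)) (Nat.add z' (Nat.mul l y'))) (Nat.beq j (nat_lit 0)))
    (Nat.ble j (nat_lit 1))

def addT (j l u u' v v' w w' : Nat) (k : K14) (a a' b b' c c' d d' e e' f f' z z' : Nat) : Bool :=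
  Bool.rec (motive := fun _ => Bool) (Bool.rec (motive := fun _ => Bool) (pr4 (Nat.sub j (nat_lit 12)) l b b' c c' f f' z z' w w' fun b b' c c' f f' z z' => k a a' b b' c c' d d' e e' f f' z z')
      (pr4 (Nat.sub j (nat_lit 8)) l a a' c c' e e' z z' v v' fun a a' c c' e e' z z' => k a a' b b' c c' d d' e e' f f' z z') (Nat.ble j (nat_lit 11)))
    (Bool.rec (motive := fun _ => Bool) (pr4 (Nat.sub j (nat_lit 4)) l a a' b b' d d' z z' u u' fun a a' b b' d d' z z' => k a a' b b' c c' d d' e e' f f' z z')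
      (Bool.rec (motive := fun _ => Bool) (Bool.rec (motive := fun _ => Bool) (k a a' b b' (Nat.add c (Nat.mul (nat_lit 25) l)) c' d d' e e' f f' z z') (k a a' (Nat.add b (Nat.mul (nat_lit 25) l)) b' c c' d d' e e' f f' z z') (Nat.beq j (nat_lit 2)))
        (k (Nat.add a (Nat.mul (nat_lit 25) l)) a' b b' c c' d d' e e' f f' z z') (Nat.beq j (nat_lit 1)))
      (Nat.ble j (nat_lit 3)))
    (Nat.ble j (nat_lit 7))

def terms (ω μ u u' v v' w w' : Nat) (k : SK) : SK :=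
  Nat.rec (motive := fun _ => SK) (fun _ _ _ _ _ _ _ _ _ _ _ _ _ _ _ => false)
    (fun _ ih st a a' b b' c c' d d' e e' f f' z z' =>
      Bool.rec (motive := fun _ => Bool) (addT (Nat.land st (nat_lit 15)) (Nat.land (Nat.shiftRight st (nat_lit 4)) μ) u u' v v' w w' (ih (Nat.shiftRight st ω)) a a' b b' c c' d d' e e' f f' z z')
        (k (Nat.shiftRight st (nat_lit 4)) a a' b b' c c' d d' e e' f f' z z') (Nat.beq (Nat.land st (nat_lit 15)) (nat_lit 0))) (nat_lit 8)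

def sw (k : SK) (st a a' b b' c c' d d' e e' f f' z z' : Nat) : Bool := k st a' a b' b c' c d' d e' e f' f z' z

def termsE (g : Int) (ω μ u u' v v' w w' : Nat) (k : SK) : SK :=
  Bool.rec (motive := fun _ => SK) (terms ω μ u u' v v' w w' k) (sw (terms ω μ u u' v v' w w' (sw k))) (isNeg g)

def tmK (k : K12) (a a' b b' c c' d d' e e' f f' : Nat) : Bool :=
  (fun x x' y y' z z' : Nat => (fun t t' : Nat => (fun u u' v v' w w' : Nat =>
    k (Nat.add (Nat.add (Nat.mul (nat_lit 9) a) u) u) (Nat.add (Nat.add (Nat.mul (nat_lit 9) a') u') u') (Nat.add (Nat.add (Nat.mul (nat_lit 9) b) v) v) (Nat.add (Nat.add (Nat.mul (nat_lit 9) b') v') v') (Nat.add (Nat.add (Nat.mul (nat_lit 9) c) w) w) (Nat.add (Nat.add (Nat.mul (nat_lit 9) c') w') w') (Nat.add (Nat.add (Nat.mul (nat_lit 9) d) u) v) (Nat.add (Nat.add (Nat.mul (nat_lit 9) d') u') v') (Nat.add (Nat.add (Nat.mul (nat_lit 9) e) u) w) (Nat.add (Nat.add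 (Nat.mul (nat_lit 9) e') u') w') (Nat.add (Nat.add (Nat.mul (nat_lit 9) f) v) w) (Nat.add (Nat.add (Nat.mul (nat_lit 9) f') v') w'))
    (Nat.add t (Nat.mul (nat_lit 6) x')) (Nat.add t' (Nat.mul (nat_lit 6) x)) (Nat.add t (Nat.mul (nat_lit 6) y')) (Nat.add t' (Nat.mul (nat_lit 6) y)) (Nat.add t (Nat.mul (nat_lit 6) z')) (Nat.add t' (Nat.mul (nat_lit 6) z))) (Nat.mul (nat_lit 2) (Nat.add (Nat.add x y) z)) (Nat.mul (nat_lit 2) (Nat.add (Nat.add x' y') z'))) (Nat.add (Nat.add a d) e) (Nat.add (Nat.add a' d') e') (Nat.add (Nat.add b d) f) (Nat.add (Nat.add b' d') f') (Nat.add (Nat.add c e) f) (Nat.add (Nat.add c' e') f')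

def dotD (r : Rc) (k : Nat → Nat → Bool) (d d' e e' f f' z z' u u' v v' w w' : Nat) : Bool :=
  k (Nat.mul (nat_lit 9) (Nat.add (Nat.add z (Nat.mul (nat_lit 4) (Nat.add (Nat.add (Nat.add (Nat.mul u r.Ap) (Nat.mul u' r.An)) (Nat.add (Nat.mul v r.Bp) (Nat.mul v' r.Bn))) (Nat.add (Nat.mul w r.Cp) (Nat.mul w' r.Cn))))) (Nat.mul (nat_lit 18) (Nat.add (Nat.add (Nat.add (Nat.mul d r.u2p) (Nat.mul d' r.u2n)) (Nat.add (Nat.mul e r.u1p) (Nat.mul e' r.u1n))) (Nat.add (Nat.mul f r.u0p) (Nat.mul f' r.u0n)))))) (Nat.mul (nat_lit 9) (Nat.add (Nat.add z' (Nat.mul (nat_lit 4) (Nat.add (Nat.add (Nat.add (Nat.mul u r.An) (Nat.mul u' r.Ap)) (Nat.add (Nat.mul v r.Bn) (Nat.mul v' r.Bp))) (Nat.add (Nat.mul w r.Cn) (Nat.mul w' r.Cp))))) (Nat.mul (nat_lit 18) (Nat.add (Nat.add (Nat.add (Nat.mul d r.u2n) (Nat.mul d' r.u2p)) (Nat.add (Nat.mul e r.u1n) (Nat.mul e' r.u1p))) (Nat.add (Nat.mul f r.u0n) (Nat.mul f' r.u0p))))))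

def push (r : Rc) (k : SK) (st a a' b b' c c' d d' e e' f f' z z' : Nat) : Bool :=
  dotD r (fun z z' => tmK (fun a a' b b' c c' d d' e e' f f' => k st a a' b b' c c' d d' e e' f f' z z') a a' b b' c c' d d' e e' f f')
    d d' e e' f f' z z' (Nat.add a f') (Nat.add a' f) (Nat.add b e') (Nat.add b' e) (Nat.add c d') (Nat.add c' d)

def flp (l : Nat) (k : SK) (st a a' b b' c c' d d' e e' f f' z z' : Nat) : Bool :=
  Bool.rec (motive := fun _ => Bool) (Bool.rec (motive := fun _ => Bool) (k st a a' b b' c c' d d' e' e f' f z z') (k st a a' b b' c c' d' d e e' f' f z z') (Nat.beq l (nat_lit 1)))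
    (k st a a' b b' c c' d' d e' e f f' z z') (Nat.beq l (nat_lit 0))

def g01 (k : SK) (st a a' b b' c c' d d' e e' f f' z z' : Nat) : Bool := k st b b' a a' c c' d d' f f' e e' z z'
def g12 (k : SK) (st a a' b b' c c' d d' e e' f f' z z' : Nat) : Bool := k st a a' c c' b b' e e' d d' f f' z z'
def gn (k : SK) (st a a' b b' c c' d d' e e' f f' z z' : Nat) : Bool := k st a' a b' b c' c d' d e' e f' f z z'

def fin (_ a a' b b' c c' d d' e e' f f' z z' : Nat) : Bool :=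
  and3 (and3 (Nat.beq (Nat.add a b') (Nat.add b a')) (Nat.beq (Nat.add a c') (Nat.add c a')) (Nat.beq d d')) (and2 (Nat.beq e e') (Nat.beq f f'))
    (Bool.rec (motive := fun _ => Bool) (Nat.blt (Nat.add (Nat.mul (nat_lit 184) a) z) (Nat.add (Nat.mul (nat_lit 184) a') z')) (Nat.blt (Nat.add (Nat.mul (nat_lit 248) a) z) (Nat.add (Nat.mul (nat_lit 248) a') z')) (Nat.ble a' a))

def addK (p p' q q' r r' x x' y y' u u' v v' st a a' b b' c c' d d' e e' f f' z z' : Nat) : Bool :=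
  fin st (Nat.add a p) (Nat.add a' p') (Nat.add b q) (Nat.add b' q') (Nat.add c r) (Nat.add c' r') (Nat.add d x) (Nat.add d' x') (Nat.add e y) (Nat.add e' y') (Nat.add f u) (Nat.add f' u') (Nat.add z v) (Nat.add z' v')

def back (r : Rc) (ω μ : Nat) : SK :=
  terms ω μ r.d0p r.d0n r.d1p r.d1n r.d2p r.d2n fun st a a' b b' c c' d d' e e' f f' z z' =>
    termsE r.g ω μ r.q0p r.q0n r.q1p r.q1n r.q2p r.q2n (push r (addK a a' b b' c c' d d' e e' f f' z z')) st (nat_lit 0) (nat_lit 0) (nat_lit 0) (nat_lit 0) (nat_lit 0) (nat_lit 0) (nat_lit 0) (nat_lit 0) (nat_lit 0) (nat_lit 0) (nat_lit 0) (nat_lit 0) (nat_lit 0) (nat_lit 0)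

def fwd (r : Rc) (l ω μ : Nat) (k : SK) : SK :=
  termsE r.g ω μ r.q0p r.q0n r.q1p r.q1n r.q2p r.q2n (push r (flp l k))

def cert (F : Nat → Nat → SK) (x : Nat) : Bool :=
  F (Nat.add (Nat.land x (nat_lit 63)) (nat_lit 4)) (Nat.sub (Nat.pow (nat_lit 2) (Nat.land x (nat_lit 63))) (nat_lit 1)) (Nat.shiftRight x (nat_lit 6)) (nat_lit 0) (nat_lit 0) (nat_lit 0) (nat_lit 0) (nat_lit 0) (nat_lit 0) (nat_lit 0) (nat_lit 0) (nat_lit 0) (nat_lit 0) (nat_lit 0) (nat_lit 0) (nat_lit 0) (nat_lit 0)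

def win (T : Tb) (ω μ : Nat) : Nat → SK :=
  Nat.rec (motive := fun _ => Nat → SK) (fun _ _ _ _ _ _ _ _ _ _ _ _ _ _ _ _ => false)
    (fun _ ih H st a a' b b' c c' d d' e e' f f' z z' => force (Nat.mod H (nat_lit 8192)) fun i =>
      Bool.rec (motive := fun _ => Bool) (wF (eH T i) SK g01 g12 gn (fwd (ent T i) (Nat.div (Nat.mod H (nat_lit 32768)) (nat_lit 8192)) ω μ (ih (Nat.div H (nat_lit 32768)))) st a a' b b' c c' d d' e e' f f' z z')
        (back (ent T i) ω μ st a a' b b' c c' d d' e e' f f' z z') (Nat.ble (nat_lit 24576) (Nat.mod H (nat_lit 32768)))) (nat_lit 6)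

def lp (F : Nat → NK → NK) (k : NK) (n : Nat) : NK :=
  Nat.rec (motive := fun _ => NK) k (fun i ih => F i ih) n

def ask (p : Nat → Bool) (k : NK) (st : Nat) : Bool := Bool.rec (motive := fun _ => Bool) false (k (Nat.shiftRight st (nat_lit 16))) (p (Nat.land st (nat_lit 65535)))

def done (_ : Nat) : Bool := true

def cenR (T : Tb) (r : Nat) : Rc := dec (T.r r)

def l1A (T : Tb) (i j k a : Nat) : Bool :=
  (fun c : Rc => Bool.rec (motive := fun _ => Bool) (cert (fun ω μ => terms ω μ c.d0p c.d0n c.d1p c.d1n c.d2p c.d2n fin) (T.c (Nat.sub a (nat_lit 1098))))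
      ((fun c' : Rc => and3 (beqI c'.d0 (cenR T (Nat.div a (nat_lit 6))).d0) (beqI c'.d1 (cenR T (Nat.div a (nat_lit 6))).d1) (beqI c'.d2 (cenR T (Nat.div a (nat_lit 6))).d2))
        (c.act (Nat.mod a (nat_lit 6)))) (Nat.blt a (nat_lit 1098)))
    ⟨(Int.ofNat (nat_lit 1)), (nsb i (nat_lit 18)), (nsb j (nat_lit 18)), (nsb k (nat_lit 18)), (Int.ofNat (nat_lit 0)), (Int.ofNat (nat_lit 0)), (Int.ofNat (nat_lit 0)), (Int.ofNat (nat_lit 0)), (Int.ofNat (nat_lit 0)), (Int.ofNat (nat_lit 0)), (Int.ofNat (nat_lit 0)), (Int.ofNat (nat_lit 0)), (Int.ofNat (nat_lit 0))⟩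

def l1B (T : Tb) (i j k : Nat) (ih : NK) : NK := Bool.rec (motive := fun _ => NK) ih (ask (l1A T i j k) ih) (Nat.beq (Nat.mod (Nat.sub (Nat.add (Nat.add i k) (nat_lit 57)) j) (nat_lit 25)) (nat_lit 0))

def l1OK (T : Tb) (i : Nat) : Bool := lp (fun j ih => lp (l1B T i j) ih (nat_lit 37)) done (nat_lit 37) (T.l1 i)

def Iv.ng (i : Iv) : Iv := ⟨(Nat.sub (nat_lit 1024) i.hi), (Nat.sub (nat_lit 1024) i.lo)⟩
def Bx.s01 (B : Bx) : Bx := ⟨B.e, (ineg B.d0), B.d2, B.d1, B.a1, B.a0, B.a2, B.b0.ng, B.b2, B.b1, B.c0.ng, B.c2, B.c1⟩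
def Bx.s12 (B : Bx) : Bx := ⟨B.e, B.d1, B.d0, (ineg B.d2), B.a0, B.a2, B.a1, B.b1, B.b0, B.b2.ng, B.c1, B.c0, B.c2.ng⟩
def Bx.neg (B : Bx) : Bx :=
  ⟨(ineg B.e), (ineg B.d0), (ineg B.d1), (ineg B.d2), B.a0.ng, B.a1.ng, B.a2.ng, B.b0.ng, B.b1.ng, B.b2.ng, B.c0.ng, B.c1.ng, B.c2.ng⟩

def iF (x s : Nat) : Iv := ⟨(Nat.mod (Nat.shiftRight x s) (nat_lit 1024)), (Nat.mod (Nat.shiftRight x (Nat.add s (nat_lit 10))) (nat_lit 1024))⟩

def box (T : Tb) (r : Nat) : Bx :=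
  ⟨(Int.ofNat (nat_lit 1)), (cenR T r).d0, (cenR T r).d1, (cenR T r).d2, (iF (T.r r) (nat_lit 40)), (iF (T.r r) (nat_lit 60)), (iF (T.r r) (nat_lit 80)),
    (iF (T.r r) (nat_lit 100)), (iF (T.r r) (nat_lit 120)), (iF (T.r r) (nat_lit 140)), (iF (T.r r) (nat_lit 160)), (iF (T.r r) (nat_lit 180)), (iF (T.r r) (nat_lit 200))⟩

def bnd1 (p : Rc) (a b c d e f z : Int) (ω μ st : Nat) : Bool :=
  (fun s : Nat => terms ω μ p.d0p p.d0n p.d1p p.d1n p.d2p p.d2n fin (Nat.shiftRight st (Nat.sub ω (nat_lit 4))) (Nat.mul s (ip a)) (Nat.mul s (im a))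
    (Nat.mul s (ip b)) (Nat.mul s (im b)) (Nat.mul s (ip c)) (Nat.mul s (im c)) (Nat.mul s (ip d)) (Nat.mul s (im d)) (Nat.mul s (ip e)) (Nat.mul s (im e))
    (Nat.mul s (ip f)) (Nat.mul s (im f)) (Nat.mul s (ip z)) (Nat.mul s (im z))) (Nat.land st μ)

def bnd (T : Tb) (p : Rc) (a b c d e f z : Int) (i : Nat) : Bool :=
  bnd1 p a b c d e f z (Nat.add (Nat.land (T.c i) (nat_lit 63)) (nat_lit 4)) (Nat.sub (Nat.pow (nat_lit 2) (Nat.land (T.c i) (nat_lit 63))) (nat_lit 1)) (Nat.shiftRight (T.c i) (nat_lit 6))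

def bnd2 (T : Tb) (p : Rc) (a b c d e f : Int) (v : Iv) (k : NK) : NK :=
  ask (bnd T p (ineg a) (ineg b) (ineg c) (ineg d) (ineg e) (ineg f) (imul (Int.ofNat (nat_lit 27)) (nsb v.lo (nat_lit 512))))
    (ask (bnd T p a b c d e f (imul (Int.ofNat (nat_lit 27)) (nsb (nat_lit 512) v.hi))) k)

def boxOK (T : Tb) (r : Nat) : Bool :=
  bnd2 T (cenR T r) (Int.ofNat (nat_lit 12)) (Int.ofNat (nat_lit 0)) (Int.ofNat (nat_lit 0)) (Int.ofNat (nat_lit 0)) (Int.ofNat (nat_lit 0)) (Int.ofNat (nat_lit 12)) (box T r).a0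
    (bnd2 T (cenR T r) (Int.ofNat (nat_lit 0)) (Int.ofNat (nat_lit 12)) (Int.ofNat (nat_lit 0)) (Int.ofNat (nat_lit 0)) (Int.ofNat (nat_lit 12)) (Int.ofNat (nat_lit 0)) (box T r).a1
    (bnd2 T (cenR T r) (Int.ofNat (nat_lit 0)) (Int.ofNat (nat_lit 0)) (Int.ofNat (nat_lit 12)) (Int.ofNat (nat_lit 12)) (Int.ofNat (nat_lit 0)) (Int.ofNat (nat_lit 0)) (box T r).a2
    (bnd2 T (cenR T r) (Int.negSucc (nat_lit 5)) (Int.ofNat (nat_lit 6)) (Int.ofNat (nat_lit 0)) (Int.ofNat (nat_lit 0)) (Int.negSucc (nat_lit 11)) (Int.ofNat (nat_lit 12)) (box T r).b0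
    (bnd2 T (cenR T r) (Int.negSucc (nat_lit 5)) (Int.ofNat (nat_lit 0)) (Int.ofNat (nat_lit 6)) (Int.negSucc (nat_lit 11)) (Int.ofNat (nat_lit 0)) (Int.ofNat (nat_lit 12)) (box T r).b1
    (bnd2 T (cenR T r) (Int.ofNat (nat_lit 0)) (Int.negSucc (nat_lit 5)) (Int.ofNat (nat_lit 6)) (Int.negSucc (nat_lit 11)) (Int.ofNat (nat_lit 12)) (Int.ofNat (nat_lit 0)) (box T r).b2
    (bnd2 T (cenR T r) (Int.ofNat (nat_lit 18)) (Int.negSucc (nat_lit 17)) (Int.ofNat (nat_lit 0)) (Int.ofNat (nat_lit 0)) (Int.ofNat (nat_lit 0)) (Int.ofNat (nat_lit 0)) (box T r).c0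
    (bnd2 T (cenR T r) (Int.ofNat (nat_lit 18)) (Int.ofNat (nat_lit 0)) (Int.negSucc (nat_lit 17)) (Int.ofNat (nat_lit 0)) (Int.ofNat (nat_lit 0)) (Int.ofNat (nat_lit 0)) (box T r).c1
    (bnd2 T (cenR T r) (Int.ofNat (nat_lit 0)) (Int.ofNat (nat_lit 18)) (Int.negSucc (nat_lit 17)) (Int.ofNat (nat_lit 0)) (Int.ofNat (nat_lit 0)) (Int.ofNat (nat_lit 0)) (box T r).c2 done)))))))) (T.b r)

def rs (al : Int) (β lo : Nat) : Nat := imod (iadd (imul (Int.ofNat (nat_lit 8)) al) (nsb β lo)) (nat_lit 400)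

def mkH (B : Bx) (β : Nat) (x0 x1 x2 x3 x4 y0 y1 y2 y3 : Iv) (s0 s1 s2 s3 s4 : Int) : Hf :=
  ⟨B.e, B.d0, B.d1, B.d2, x0.lo, (Nat.sub x0.hi x0.lo), rs s0 β x0.lo, x1.lo, (Nat.sub x1.hi x1.lo), rs s1 β x1.lo,
    x2.lo, (Nat.sub x2.hi x2.lo), rs s2 β x2.lo, x3.lo, (Nat.sub x3.hi x3.lo), rs s3 β x3.lo, x4.lo, (Nat.sub x4.hi x4.lo), rs s4 β x4.lo,
    y0.lo, y0.hi, y1.lo, y1.hi, y2.lo, y2.hi, y3.lo, y3.hi⟩

def mkR (B : Bx) : Hf :=
  mkH B (nat_lit 1024) B.a0.ng B.a1.ng B.a2.ng B.b0 B.b1 B.b2 B.c0.ng B.c1.ng B.c2.ng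
    (iadd (iadd (iadd (imul (Int.ofNat (nat_lit 6)) B.d0) (imul (Int.ofNat (nat_lit 6)) B.d1)) (imul (Int.ofNat (nat_lit 25)) B.d2)) (imul (Int.negSucc (nat_lit 3)) B.e)) (iadd (iadd (imul (Int.ofNat (nat_lit 38)) B.d0) (imul (Int.ofNat (nat_lit 31)) B.d1)) (imul (Int.negSucc (nat_lit 3)) B.e)) (iadd (iadd (imul (Int.ofNat (nat_lit 31)) B.d0) (imul (Int.ofNat (nat_lit 38)) B.d1)) (imul (Int.negSucc (nat_lit 3)) B.e))
    (iadd (iadd (imul (Int.ofNat (nat_lit 25)) B.d2) (imul (Int.ofNat (nat_lit 25)) B.d1)) (imul (Int.negSucc (nat_lit 15)) B.d0)) (iadd (iadd (imul (Int.ofNat (nat_lit 25)) B.d2) (imul (Int.ofNat (nat_lit 25)) B.d0)) (imul (Int.negSucc (nat_lit 15)) B.d1))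

def mkQ (B : Bx) : Hf :=
  mkH B (nat_lit 0) B.a0 B.a1 B.a2 B.c0.ng B.c1.ng B.c2.ng B.b0 B.b1 B.b2
    (iadd (iadd (iadd (imul (Int.ofNat (nat_lit 4)) B.e) (imul (Int.negSucc (nat_lit 5)) B.d0)) (imul (Int.negSucc (nat_lit 5)) B.d1)) (imul (Int.negSucc (nat_lit 24)) B.d2)) (iadd (iadd (imul (Int.ofNat (nat_lit 4)) B.e) (imul (Int.negSucc (nat_lit 37)) B.d0)) (imul (Int.negSucc (nat_lit 30)) B.d1)) (iadd (iadd (imul (Int.ofNat (nat_lit 4)) B.e) (imul (Int.negSucc (nat_lit 30)) B.d0)) (imul (Int.negSucc (nat_lit 37)) B.d1))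
    (imul (Int.ofNat (nat_lit 2)) B.d0) (imul (Int.ofNat (nat_lit 2)) B.d1)

def hR (T : Tb) (r : Nat) : Hf := mkR (box T r)
def hQ (T : Tb) (i : Nat) : Hf := mkQ (wF (Nat.mod i (nat_lit 12)) Bx Bx.s01 Bx.s12 Bx.neg (box T (Nat.div i (nat_lit 12))))

def rngB (lo wd : Nat) (body : Nat → NK → NK) (k : NK) (ih : Nat → NK) (t : Nat) : NK :=
  Bool.rec (motive := fun _ => NK) k (body (Nat.add lo t) (ih (Nat.add t (nat_lit 400)))) (Nat.ble t wd)

def rng (lo wd ρ : Nat) (body : Nat → NK → NK) (k : NK) : NK :=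
  rngB lo wd body k (rngB lo wd body k (rngB lo wd body k fun _ _ => false)) (Nat.mod ρ (nat_lit 400))

def l2A (T : Tb) (r : Nat) (c : Rc) (a : Nat) : Bool :=
  Bool.rec (motive := fun _ => Bool) (cert (back c) (T.c (Nat.sub a (nat_lit 5904)))) (and2 (Nat.beq (eR T a) r) (eqRc (ent T a) c)) (Nat.blt a (nat_lit 5904))

def uI (U : Nat) : Int := nsb (Nat.div U (nat_lit 8)) (nat_lit 128)

def cand (T : Tb) (r : Nat) (R Q : Hf) (U0 U1 U2 W1 W2 : Nat) (k : NK) : NK :=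
  Bool.rec (motive := fun _ => NK) k (Bool.rec (motive := fun _ => NK) k (Bool.rec (motive := fun _ => NK) k (Bool.rec (motive := fun _ => NK) k (Bool.rec (motive := fun _ => NK) k (Bool.rec (motive := fun _ => NK) k (Bool.rec (motive := fun _ => NK) k (Bool.rec (motive := fun _ => NK) k
    (ask (l2A T r ⟨R.e, R.d0, R.d1, R.d2, Q.e, Q.d0, Q.d1, Q.d2, uI U0, uI U1, uI U2, uI W1, uI W2⟩) k)
    (Nat.ble (Nat.add (Nat.add W2 U1) (nat_lit 1024)) (Nat.add (Nat.add (Nat.add R.h8 Q.h8) W1) U2))) (Nat.ble (Nat.add (Nat.add (Nat.add R.l8 Q.l8) W1) U2) (Nat.add (Nat.add W2 U1) (nat_lit 1024))))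
    (Nat.ble (Nat.add W2 U0) (Nat.add (Nat.add R.h7 Q.h7) U2))) (Nat.ble (Nat.add (Nat.add R.l7 Q.l7) U2) (Nat.add W2 U0)))
    (Nat.ble (Nat.add W1 U0) (Nat.add (Nat.add R.h6 Q.h6) U1))) (Nat.ble (Nat.add (Nat.add R.l6 Q.l6) U1) (Nat.add W1 U0)))
    (Nat.ble (Nat.add W2 (nat_lit 1024)) (Nat.add (Nat.add R.h5 Q.h5) W1))) (Nat.ble (Nat.add (Nat.add R.l5 Q.l5) W1) (Nat.add W2 (nat_lit 1024)))

def pair (T : Tb) (r : Nat) (R Q : Hf) (k : NK) : NK :=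
  rng (Nat.add R.l0 Q.l0) (Nat.add R.w0 Q.w0) (Nat.add R.r0 Q.r0) (fun U0 =>
    rng (Nat.add R.l1 Q.l1) (Nat.add R.w1 Q.w1) (Nat.add R.r1 Q.r1) fun U1 =>
    rng (Nat.add R.l2 Q.l2) (Nat.add R.w2 Q.w2) (Nat.add R.r2 Q.r2) fun U2 =>
    rng (Nat.add R.l3 Q.l3) (Nat.add R.w3 Q.w3) (Nat.add R.r3 Q.r3) fun W1 =>
    rng (Nat.add R.l4 Q.l4) (Nat.add R.w4 Q.w4) (Nat.add R.r4 Q.r4) fun W2 => cand T r R Q U0 U1 U2 W1 W2) k

def l2OK (T : Tb) (i : Nat) : Bool := lp (fun r => pair T r (hR T r) (hQ T i)) done (nat_lit 183) (T.l2 i)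

def entOK (T : Tb) (a : Nat) : Bool :=
  and3 (and3 (Nat.blt (eR T a) (nat_lit 183)) (Nat.ble (rS T (eR T a)) a) (Nat.blt a (Nat.add (rS T (eR T a)) (rN T (eR T a)))))
    (and3 (beqI (ent T a).d0 (cenR T (eR T a)).d0) (beqI (ent T a).d1 (cenR T (eR T a)).d1)
      (beqI (ent T a).d2 (cenR T (eR T a)).d2))
    (and2 (Nat.blt (eTo T a) (nat_lit 5904)) (eqRc (ent T (eTo T a)) ((ent T a).rev.act (eH T a))))

def ky (x y : Int) : Nat := (Nat.add (Nat.mul (imod x (nat_lit 12)) (nat_lit 4)) (imod y (nat_lit 4)))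
def k0 (T : Tb) (a : Nat) : Nat := (fun r : Rc => ky (isub r.w2 r.w1) (isub r.w1 r.d2)) (ent T a)
def k1 (T : Tb) (a : Nat) : Nat := (fun r : Rc => ky r.w2 (isub (isub r.w2 r.w1) r.d1)) (ent T a)
def k2 (T : Tb) (a : Nat) : Nat := (fun r : Rc => ky r.w1 (isub r.w2 r.d0)) (ent T a)
def n0 (T : Tb) (a : Nat) : Nat := (fun r : Rc => ky (isub r.w1 r.w2) (isub r.d2 r.w1)) (ent T a)
def n1 (T : Tb) (a : Nat) : Nat := (fun r : Rc => ky (ineg r.w2) (isub (iadd r.d1 r.w1) r.w2)) (ent T a)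
def n2 (T : Tb) (a : Nat) : Nat := (fun r : Rc => ky (ineg r.w1) (isub r.d0 r.w2)) (ent T a)

def memO (t : Nat) : Nat → Bool :=
  Nat.rec (motive := fun _ => Nat → Bool) (fun _ => false)
    (fun _ ih O => Bool.rec (motive := fun _ => Bool) (ih (Nat.div O (nat_lit 32768))) true (Nat.beq (Nat.mod O (nat_lit 32768)) t)) (nat_lit 50)

def l3A (T : Tb) (l b f a : Nat) : Bool :=
  Bool.rec (motive := fun _ => Bool) (cert (fun ω μ => fwd (ent T f) l ω μ (back (ent T b) ω μ)) (T.c (Nat.sub a (nat_lit 1))))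
    (and2 (memO (Nat.add (Nat.add (Nat.mul l (nat_lit 8192)) f) (nat_lit 1)) (T.o b)) (memO (Nat.add (Nat.add (Nat.mul l (nat_lit 8192)) b) (nat_lit 1)) (T.o f))) (Nat.beq a (nat_lit 0))

def l3S (T : Tb) (l b f : Nat) (c : Bool) (k : NK) : NK := Bool.rec (motive := fun _ => NK) k (ask (l3A T l b f) k) c

def l3B (T : Tb) (b f : Nat) (k : NK) : NK :=
  l3S T (nat_lit 0) b f (Nat.beq (k0 T f) (n0 T b)) (l3S T (nat_lit 1) b f (Nat.beq (k1 T f) (n1 T b))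
    (l3S T (nat_lit 2) b f (Nat.beq (k2 T f) (n2 T b)) k))

def l3C (T : Tb) (s : Nat) (n : Nat) (st : Nat) : Bool :=
  lp (fun j ih => lp (fun i => l3B T (Nat.add s j) (Nat.add s i)) ih (Nat.succ j)) done n st

def l3OK (T : Tb) (r : Nat) : Bool := force (rS T r) fun s => l3C T s (rN T r) (T.l3 r)

def cur (T : Tb) (H : Nat) : Nat :=
  Bool.rec (motive := fun _ => Nat) (eTo T (Nat.mod H (nat_lit 8192))) (Nat.mod H (nat_lit 8192)) (Nat.ble (nat_lit 24576) (Nat.mod H (nat_lit 32768)))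

def sfx (T : Tb) : Nat → Nat → Bool :=
  Nat.rec (motive := fun _ => Nat → Nat → Bool) (fun _ _ => false)
    (fun _ ih H G => Bool.rec (motive := fun _ => Bool) (and2 (Nat.beq (Nat.mod H (nat_lit 32768)) (Nat.mod G (nat_lit 32768))) (ih (Nat.div H (nat_lit 32768)) (Nat.div G (nat_lit 32768))))
      (Nat.beq (cur T H) (Nat.mod G (nat_lit 8192))) (Nat.ble (nat_lit 24576) (Nat.mod G (nat_lit 32768)))) (nat_lit 5)

def inn (l : Nat) (b f : Rc) : Int :=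
  Bool.rec (motive := fun _ => Int) (Bool.rec (motive := fun _ => Int) (isub b.w2 f.w2) (isub b.w1 f.w1) (Nat.beq l (nat_lit 1)))
    (iadd b.w1 f.w1) (Nat.beq l (nat_lit 0))

def sg (l i : Nat) (x : Int) : Int := Bool.rec (motive := fun _ => Int) (ineg x) x (Nat.beq l i)

def out1 (l h : Nat) (b f : Rc) (p : Int) : Int :=
  (Rc.act h ⟨p, p, p, p, p, p, p, p, isub (sg l (nat_lit 0) p) f.u0, isub (sg l (nat_lit 1) (iadd p b.w1)) f.u1,
    isub (sg l (nat_lit 2) (iadd p b.w2)) f.u2, p, p⟩).u0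

def out2 (T : Tb) (l b f : Nat) : Int := out1 l (eH T f) (ent T b) (ent T f) (inn l (ent T b) (ent T f))

def outH (T : Tb) (H : Nat) : Int := out2 T (Nat.div (Nat.mod H (nat_lit 32768)) (nat_lit 8192)) (cur T (Nat.div H (nat_lit 32768))) (Nat.mod H (nat_lit 8192))

def aD (x : Nat) : Int := Int.ofNat (Nat.mod x (nat_lit 1024))
def aF (x s : Nat) : Int := nsb (Nat.mod (Nat.shiftRight x s) (nat_lit 16777216)) (nat_lit 8388608)

def aK (x : Nat) (k : K6) : Bool :=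
  (fun a b c : Int => Bool.rec (motive := fun _ => Bool) (k a b c (aF x (nat_lit 82)) (aF x (nat_lit 106)) (aF x (nat_lit 130)))
    (k (imul a a) (imul b b) (imul c c) (imul a b) (imul a c) (imul b c)) (Nat.beq (Nat.mod x (nat_lit 1024)) (nat_lit 0))) (aF x (nat_lit 10)) (aF x (nat_lit 34)) (aF x (nat_lit 58))

def dv (n : Nat) (x : Int) : Bool := (Nat.beq (imod x n) (nat_lit 0))

def annOK (x : Nat) (r : Rc) : Bool :=
  aK x fun a b c d e f =>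
    Bool.rec (motive := fun _ => Bool) (and3 (and3 (Nat.ble (Nat.mod x (nat_lit 1024)) (nat_lit 506)) (dv (nat_lit 10800) (iadd (isub (imul (imul (Int.ofNat (nat_lit 3024)) (aD x)) r.d0) a) b)) (dv (nat_lit 10800) (iadd (isub (imul (imul (Int.ofNat (nat_lit 3024)) (aD x)) r.d1) a) c)))
        (dv (nat_lit 450) (isub (imul (imul (Int.ofNat (nat_lit 225)) (aD x)) r.d0) d)) (and2 (dv (nat_lit 450) (isub (imul (imul (Int.ofNat (nat_lit 225)) (aD x)) r.d1) e)) (dv (nat_lit 450) (isub (imul (imul (Int.ofNat (nat_lit 225)) (aD x)) r.d2) f))))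
      (and2 (isNeg (ineg (iadd (iadd a b) c))) (isNeg (isub (iadd (iadd a b) c) (Int.ofNat (nat_lit 1000000))))) (Nat.beq (Nat.mod x (nat_lit 1024)) (nat_lit 0))

def eq6 (p q r x y u : Int) (_ a a' b b' c c' d d' e e' f f' _ _ : Nat) : Bool :=
  and2 (and3 (beqI (imul (Int.ofNat (nat_lit 9)) (nsb a a')) p) (beqI (imul (Int.ofNat (nat_lit 9)) (nsb b b')) q) (beqI (imul (Int.ofNat (nat_lit 9)) (nsb c c')) r))
    (and3 (beqI (imul (Int.ofNat (nat_lit 9)) (nsb d d')) x) (beqI (imul (Int.ofNat (nat_lit 9)) (nsb e e')) y) (beqI (imul (Int.ofNat (nat_lit 9)) (nsb f f')) u))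

def toK (k : SK) (a b c d e f : Int) : Bool :=
  k (nat_lit 0) (ip a) (im a) (ip b) (im b) (ip c) (im c) (ip d) (im d) (ip e) (im e) (ip f) (im f) (nat_lit 0) (nat_lit 0)

def edge1 (h y : Nat) (k : SK) : Bool :=
  Bool.rec (motive := fun _ => Bool) (and2 (Nat.beq (Nat.mod y (nat_lit 1024)) (nat_lit 0)) (aK y (toK (wF h SK g01 g12 gn (gn k))))) true (aK y (toK (wF h SK g01 g12 gn k)))

def edge (x y l h : Nat) (r : Rc) : Bool :=
  and2 (Nat.beq (Nat.mod x (nat_lit 1024)) (Nat.mod y (nat_lit 1024))) (aK x (toK (flp l fun _ a a' b b' c c' d d' e e' f f' _ _ =>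
    tmK (fun a a' b b' c c' d d' e e' f f' => edge1 h y
      (eq6 (isub (nsb a a') (imul (imul (Int.ofNat (nat_lit 36)) (aD x)) r.A)) (isub (nsb b b') (imul (imul (Int.ofNat (nat_lit 36)) (aD x)) r.B)) (isub (nsb c c') (imul (imul (Int.ofNat (nat_lit 36)) (aD x)) r.C))
        (isub (nsb d d') (imul (imul (Int.ofNat (nat_lit 9)) (aD x)) (isub (imul (Int.ofNat (nat_lit 9)) r.u2) (imul (Int.ofNat (nat_lit 2)) r.C)))) (isub (nsb e e') (imul (imul (Int.ofNat (nat_lit 9)) (aD x)) (isub (imul (Int.ofNat (nat_lit 9)) r.u1) (imul (Int.ofNat (nat_lit 2)) r.B))))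
        (isub (nsb f f') (imul (imul (Int.ofNat (nat_lit 9)) (aD x)) (isub (imul (Int.ofNat (nat_lit 9)) r.u0) (imul (Int.ofNat (nat_lit 2)) r.A)))))) a a' b b' c c' d d' e e' f f')))

def sH (x : Nat) : Nat := (Nat.mod x (nat_lit 1152921504606846976))
def sR (x : Nat) : Nat := (Nat.land (Nat.shiftRight x (nat_lit 60)) (nat_lit 16383))
def sA (x : Nat) : Nat := (Nat.shiftRight x (nat_lit 74))

def go (T : Tb) (x t y : Nat) : Bool :=
  and2 (sfx T (Nat.add (Nat.mul (sH x) (nat_lit 32768)) t) (sH y))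
    (Bool.rec (motive := fun _ => Bool) (and3 (and3 (Nat.beq (sR x) (sR y)) (Nat.ble (nat_lit 1) (sA x)) (Nat.ble (nat_lit 1) (sA y))) true
      (edge (T.a (sA x)) (T.a (sA y)) (Nat.div t (nat_lit 8192)) (eH T (Nat.mod t (nat_lit 8192))) (ent T (Nat.mod t (nat_lit 8192))))) true (Nat.blt (sR y) (sR x)))

def stA (T : Tb) (x b t a : Nat) : Bool :=
  Bool.rec (motive := fun _ => Bool) (Bool.rec (motive := fun _ => Bool) (cert (fun ω μ => win T ω μ (Nat.add (Nat.mul (sH x) (nat_lit 32768)) t)) (T.c (Nat.sub a (nat_lit 15325)))) (go T x t (T.s (Nat.sub a (nat_lit 1)))) (Nat.ble a (nat_lit 15324)))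
    (and2 (Nat.blt (Nat.mod (sH x) (nat_lit 32768)) (nat_lit 24576))
      (Bool.rec (motive := fun _ => Bool) true false (dv (nat_lit 3) (isub (outH T (sH x)) (inn (Nat.div t (nat_lit 8192)) (ent T b) (ent T (Nat.mod t (nat_lit 8192))))))))
    (Nat.beq a (nat_lit 0))

def stL (T : Tb) (x b : Nat) : Nat → NK :=
  Nat.rec (motive := fun _ => Nat → NK) (fun _ _ => false)
    (fun _ ih O => Bool.rec (motive := fun _ => NK) (fun st => force (Nat.sub (Nat.mod O (nat_lit 32768)) (nat_lit 1)) fun t => ask (stA T x b t) (ih (Nat.div O (nat_lit 32768))) st) done (Nat.beq O (nat_lit 0))) (nat_lit 50)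

def stOK (T : Tb) (i : Nat) : Bool :=
  force (T.s i) fun x => force (cur T (sH x)) fun b =>
    and3 (Bool.rec (motive := fun _ => Bool) (Nat.beq (sH x) (Nat.add (nat_lit 24576) i)) true (Nat.ble (nat_lit 5904) i)) (Bool.rec (motive := fun _ => Bool) (annOK (T.a (sA x)) (ent T b)) true (Nat.beq (sA x) (nat_lit 0)))
      (stL T x b (T.o b) (T.x i))

def allR (f : Nat → Bool) (lo n : Nat) : Bool := allLt (fun i => force (Nat.add lo i) f) n

end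

end Pool.Agent.Lib.MP_568bdc_nt
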