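import Pool.Agent.Lib.MP_568bdc_nt.DiscCore
import Pool.Agent.Lib.MP_568bdc_nt.ContDef

/-! Vertices of the walk together with their integer part data. -/

namespace Pool.Agent.Lib.MP_568bdc_nt

@[ext] structure Vx where
  η : ℤ
  e : ℤ
  X : V3
  n0 : ℤ
  n1 : ℤ
  n2 : ℤ
  p0 : ℤ
  p1 : ℤ
  p2 : ℤ
  d0 : ℤ
  d1 : ℤ
  d2 : ℤ

def Vx.E (m : ℤ) (V : Vx) : S6 :=
  ⟨1350 * V.η * (V.X.x * V.X.x) - 54 * V.η - m * (432 * V.n0),
   1350 * V.η * (V.X.y * V.X.y) - 54 * V.η - m * (432 * V.n1),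
   1350 * V.η * (V.X.z * V.X.z) - 54 * V.η - m * (432 * V.n2),
   1350 * V.η * (V.X.x * V.X.y) - m * (225 * V.p2),
   1350 * V.η * (V.X.x * V.X.z) - m * (225 * V.p1),
   1350 * V.η * (V.X.y * V.X.z) - m * (225 * V.p0)⟩

def Pr (m e a b d δ : ℤ) : Prop :=
  0 ≤ e * (9 * a + 16 * b + 24 * d + 216 * m * δ) ∧ 0 ≤ e * (16 * a + 9 * b - 24 * d - 216 * m * δ) ∧
  0 ≤ e * (9 * a + 16 * b - 24 * d + 216 * m * δ) ∧ 0 ≤ e * (16 * a + 9 * b + 24 * d - 216 * m * δ)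

structure Ok (m κ M : ℤ) (V : Vx) : Prop where
  hη : V.η = 1 ∨ V.η = -1
  he : V.e = 1 ∨ V.e = -1
  rep : PRep M V.X
  ca : 0 ≤ V.e * (V.E m).a
  cb : 0 ≤ V.e * (V.E m).b
  cc : 0 ≤ V.e * (V.E m).c
  p01 : Pr m V.e (V.E m).a (V.E m).b (V.E m).d V.d0
  p02 : Pr m V.e (V.E m).a (V.E m).c (V.E m).e V.d1
  p12 : Pr m V.e (V.E m).b (V.E m).c (V.E m).f V.d2
  tr : (V.E m).a + (V.E m).b + (V.E m).c = 216 * (V.η * κ + V.e * m)
  g0 : 50 ∣ V.d0 + 25 * V.p2 - 18 * V.n0 - 32 * V.n1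
  g1 : 50 ∣ V.d1 + 25 * V.p1 - 18 * V.n0 - 32 * V.n2
  g2 : 50 ∣ V.d2 + 25 * V.p0 - 18 * V.n1 - 32 * V.n2

namespace Vx
def s01 (V : Vx) : Vx := ⟨V.η, V.e, V.X.s01, V.n1, V.n0, V.n2, V.p1, V.p0, V.p2, -V.d0, V.d2, V.d1⟩
def s12 (V : Vx) : Vx := ⟨V.η, V.e, V.X.s12, V.n0, V.n2, V.n1, V.p0, V.p2, V.p1, V.d1, V.d0, -V.d2⟩
def neg (V : Vx) : Vx := ⟨-V.η, -V.e, V.X, -V.n0, -V.n1, -V.n2, -V.p0, -V.p1, -V.p2, -V.d0, -V.d1, -V.d2⟩
def f0 (V : Vx) : Vx := ⟨V.η, V.e, V.X.f0, V.n0, V.n1, V.n2, V.p0, -V.p1, -V.p2, V.d0, V.d1, V.d2⟩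
def f1 (V : Vx) : Vx :=
  ⟨V.η, V.e, ⟨V.X.x, -V.X.y, V.X.z⟩, V.n0, V.n1, V.n2, -V.p0, V.p1, -V.p2, V.d0, V.d1, V.d2⟩
def f2 (V : Vx) : Vx :=
  ⟨V.η, V.e, ⟨V.X.x, V.X.y, -V.X.z⟩, V.n0, V.n1, V.n2, -V.p0, -V.p1, V.p2, V.d0, V.d1, V.d2⟩
def fl (l : ℕ) (V : Vx) : Vx := if l = 0 then V.f0 else if l = 1 then V.f1 else V.f2
noncomputable def act (h : ℕ) (V : Vx) : Vx := wF h Vx s01 s12 neg V

theorem E_s01 (m V) : (s01 V).E m = (V.E m).s01 := by
  simp only [S6.ext_iff, E, s01, S6.s01, V3.s01]; simp [mul_comm]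
theorem E_s12 (m V) : (s12 V).E m = (V.E m).s12 := by
  simp only [S6.ext_iff, E, s12, S6.s12, V3.s12]; simp [mul_comm]
theorem E_neg (m V) : (neg V).E m = (V.E m).neg := by
  simp only [S6.ext_iff, E, neg, S6.neg]
  refine ⟨by ring, by ring, by ring, by ring, by ring, by ring⟩
theorem E_f0 (m V) : (f0 V).E m = (V.E m).d0 := by
  simp only [S6.ext_iff, E, f0, S6.d0, V3.f0]
  refine ⟨by ring, trivial, trivial, by ring, by ring, trivial⟩
theorem f1_eq (V) : f1 V = V.s01.f0.s01 := by simp [f1, s01, f0, V3.s01, V3.f0]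
theorem f2_eq (V) : f2 V = V.s12.f1.s12 := by simp [f1, s12, f2, V3.s12]
theorem s01_s01 (V) : s01 (s01 V) = V := by simp [s01, V3.s01]
theorem s12_s12 (V) : s12 (s12 V) = V := by simp [s12, V3.s12]
theorem neg_neg' (V) : neg (neg V) = V := by simp [neg]
theorem fl_fl (l V) : fl l (fl l V) = V := by
  unfold fl; split_ifs <;> simp [f0, f1, f2, V3.f0]
end Vx

theorem Pr.swap {m e a b d δ} (h : Pr m e a b d δ) : Pr m e b a d (-δ) := by
  obtain ⟨h1, h2, h3, h4⟩ := h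
  refine ⟨?_, ?_, ?_, ?_⟩ <;> linarith

theorem Pr.neg {m e a b d δ} (h : Pr m e a b d δ) : Pr m (-e) (-a) (-b) (-d) (-δ) := by
  obtain ⟨h1, h2, h3, h4⟩ := h
  refine ⟨?_, ?_, ?_, ?_⟩ <;> linarith

theorem Pr.flip {m e a b d δ} (h : Pr m e a b d δ) : Pr m e a b (-d) δ := by
  obtain ⟨h1, h2, h3, h4⟩ := h
  refine ⟨?_, ?_, ?_, ?_⟩ <;> linarith

section
variable {m κ M : ℤ} {V W : Vx}

theorem Ok.s01 (h : Ok m κ M V) : Ok m κ M V.s01 := by
  have g0 := h.g0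
  have tr := h.tr
  refine ⟨h.hη, h.he, h.rep.s01, ?_, ?_, ?_, ?_, ?_, ?_, ?_, ?_, h.g2, h.g1⟩ <;> try rw [Vx.E_s01]
  exacts [h.cb, h.ca, h.cc, h.p01.swap, h.p12, h.p02, by simp only [S6.s01, Vx.s01]; linarith,
    by simp only [Vx.s01]; omega]

theorem Ok.s12 (h : Ok m κ M V) : Ok m κ M V.s12 := by
  have g2 := h.g2
  have tr := h.tr
  refine ⟨h.hη, h.he, h.rep.s12, ?_, ?_, ?_, ?_, ?_, ?_, ?_, h.g1, h.g0, ?_⟩ <;> try rw [Vx.E_s12]
  exacts [h.ca, h.cc, h.cb, h.p02, h.p01, h.p12.swap, by simp only [S6.s12, Vx.s12]; linarith,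
    by simp only [Vx.s12]; omega]

theorem Ok.neg (h : Ok m κ M V) : Ok m κ M V.neg := by
  obtain ⟨h1, h2, h3, ca, cb, cc, p01, p02, p12, tr, g0, g1, g2⟩ := h
  refine ⟨?_, ?_, h3, ?_, ?_, ?_, ?_, ?_, ?_, ?_, ?_, ?_, ?_⟩ <;> try rw [Vx.E_neg]
  exacts [by simp only [Vx.neg]; omega, by simp only [Vx.neg]; omega, by simp only [S6.neg, Vx.neg]; linarith,
    by simp only [S6.neg, Vx.neg]; linarith, by simp only [S6.neg, Vx.neg]; linarith, p01.neg, p02.neg, p12.neg,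
    by simp only [S6.neg, Vx.neg]; linarith, by simp only [Vx.neg]; omega, by simp only [Vx.neg]; omega,
    by simp only [Vx.neg]; omega]

theorem Ok.f0 (h : Ok m κ M V) : Ok m κ M V.f0 := by
  obtain ⟨h1, h2, h3, ca, cb, cc, p01, p02, p12, tr, g0, g1, g2⟩ := h
  refine ⟨h1, h2, h3.f0, ?_, ?_, ?_, ?_, ?_, ?_, ?_, ?_, ?_, g2⟩ <;> try rw [Vx.E_f0]
  exacts [ca, cb, cc, p01.flip, p02.flip, p12, tr, by simp only [Vx.f0]; omega, by simp only [Vx.f0]; omega]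

theorem Ok.fl (l : ℕ) (h : Ok m κ M V) : Ok m κ M (V.fl l) := by
  unfold Vx.fl
  split_ifs
  · exact h.f0
  · rw [Vx.f1_eq]; exact h.s01.f0.s01
  · rw [Vx.f2_eq, Vx.f1_eq]; exact h.s12.s01.f0.s01.s12

end

abbrev Wd : Type 1 := ∀ α : Type, (α → α) → (α → α) → (α → α) → α → α

theorem wF_ind (h : ℕ) (P : Wd → Prop) (h0 : P fun _ _ _ _ x => x)
    (ha : ∀ W, P W → P fun α a b n x => a (W α a b n x)) (hb : ∀ W, P W → P fun α a b n x => b (W α a b n x))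
    (hn : ∀ W, P W → P fun α a b n x => n (W α a b n x)) : P (wF h) := by
  have key : ∀ p, P fun α a b _ x => wP p α a b x := by
    intro p
    unfold wP
    cases Nat.ble p (nat_lit 2) <;> cases Nat.beq p (nat_lit 0) <;> cases Nat.beq p (nat_lit 1) <;>
      cases Nat.beq p (nat_lit 3) <;> cases Nat.beq p (nat_lit 4) <;>
      first
      | exact h0
      | exact ha _ h0
      | exact hb _ h0
      | exact ha _ (hb _ h0)
      | exact hb _ (ha _ h0)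
      | exact ha _ (hb _ (ha _ h0))
  have e : wF h = fun α a b n x => Bool.rec (motive := fun _ => α) (n (wP (Nat.sub h (nat_lit 6)) α a b x))
    (wP h α a b x) (Nat.ble h (nat_lit 5)) := rfl
  rw [e]
  cases Nat.ble h (nat_lit 5)
  · exact hn _ (key _)
  · exact key _

theorem wF_rel {α β : Type} (R : α → β → Prop) {a b n : α → α} {a' b' n' : β → β}
    (ha : ∀ x y, R x y → R (a x) (a' y)) (hb : ∀ x y, R x y → R (b x) (b' y))
    (hn : ∀ x y, R x y → R (n x) (n' y)) (h : ℕ) {x y} (hr : R x y) : R (wF h α a b n x) (wF h β a' b' n' y) :=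
  wF_ind h (fun W => R (W α a b n x) (W β a' b' n' y)) hr (fun _ => ha _ _) (fun _ => hb _ _) (fun _ => hn _ _)

theorem Ok.act {m κ M V} (h : ℕ) (hV : Ok m κ M V) : Ok m κ M (V.act h) :=
  wF_ind h (fun W => Ok m κ M (W Vx Vx.s01 Vx.s12 Vx.neg V)) hV (fun _ => Ok.s01) (fun _ => Ok.s12)
    (fun _ => Ok.neg)

def Adj (V W : Vx) : Prop := W.η = V.η ∧ ∃ t, 3 * t = V.X.x + V.X.y + V.X.z ∧ W.X = V.X.rf t

theorem Adj.symm {V W} (h : Adj V W) : Adj W V := by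
  obtain ⟨h1, t, h2, h3⟩ := h
  refine ⟨h1.symm, -t, by rw [h3]; simp only [V3.rf]; omega, ?_⟩
  rw [h3]; simp [V3.rf]

theorem Adj.act {V W} (h : ℕ) (hA : Adj V W) : Adj (V.act h) (W.act h) := by
  refine wF_rel Adj ?_ ?_ ?_ h hA
  · rintro V W ⟨h1, t, h2, h3⟩
    exact ⟨h1, t, by simp only [Vx.s01, V3.s01]; omega, by simp only [Vx.s01, h3]; rfl⟩
  · rintro V W ⟨h1, t, h2, h3⟩
    exact ⟨h1, t, by simp only [Vx.s12, V3.s12]; omega, by simp only [Vx.s12, h3]; rfl⟩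
  · rintro V W ⟨h1, t, h2, h3⟩
    exact ⟨by simp only [Vx.neg, h1], t, h2, h3⟩

theorem nsb_eq (m n : ℕ) : nsb m n = (m : ℤ) - n := by
  unfold nsb
  cases h : Nat.ble n m
  · rw [nblef] at h; simp only [nsub, Int.negSucc_eq]; omega
  · rw [nble] at h; simp only [nsub, Int.ofNat_eq_natCast]; omega

theorem nng_eq (n : ℕ) : nng n = -(n : ℤ) := by cases n <;> rfl

theorem iadd_eq (a b : ℤ) : iadd a b = a + b := by
  cases a <;> cases b <;> simp only [iadd, nsb_eq, nadd, Int.negSucc_eq, Int.ofNat_eq_natCast] <;> omega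

theorem isub_eq (a b : ℤ) : isub a b = a - b := by
  cases a <;> cases b <;> simp only [isub, nsb_eq, nadd, Int.negSucc_eq, Int.ofNat_eq_natCast] <;> omega

theorem ineg_eq (a : ℤ) : ineg a = -a := by
  cases a <;> simp only [ineg, nng_eq, Int.negSucc_eq, Int.ofNat_eq_natCast] <;> omega

theorem imul_eq (a b : ℤ) : imul a b = a * b := by
  cases a <;> cases b <;> simp only [imul, nng_eq, nmul, Int.negSucc_eq, Int.ofNat_eq_natCast] <;>
    (push_cast; ring)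

theorem ip_sub_im (a : ℤ) : (ip a : ℤ) - im a = a := by
  cases a <;> simp only [ip, im, Int.negSucc_eq, Int.ofNat_eq_natCast] <;> omega

theorem imod_eq (a : ℤ) {n : ℕ} (hn : 0 < n) : (imod a n : ℤ) = a % n := by
  cases a with
  | ofNat k => simp [imod, nmod]
  | negSucc k =>
    have h1 := Nat.mod_lt k hn
    have e : imod (Int.negSucc k) n = n - 1 - k % n := rfl
    rw [e, Int.negSucc_emod k (by exact_mod_cast hn)]
    push_cast [Nat.cast_sub (show k % n ≤ n - 1 by omega), Nat.cast_sub (show 1 ≤ n by omega)]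
    ring

theorem beqI_eq (a b : ℤ) : beqI a b = true ↔ a = b := by
  cases a <;> cases b <;> simp [beqI]

theorem isNeg_eq (a : ℤ) : isNeg a = true ↔ a < 0 := by
  cases a <;> simp [isNeg, Int.negSucc_lt_zero]

theorem and2_eq (a b : Bool) : and2 a b = true ↔ a = true ∧ b = true := by
  cases a <;> cases b <;> simp [and2]

theorem iof (n : ℕ) : Int.ofNat n = (n : ℤ) := rfl

theorem dv_eq {n : ℕ} (hn : 0 < n) (x : ℤ) : dv n x = true ↔ (n : ℤ) ∣ x := by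
  rw [dv, nbeq, Int.dvd_iff_emod_eq_zero, ← imod_eq x hn]
  change imod x n = 0 ↔ _
  omega

def recOf (V W : Vx) : Rc :=
  ⟨V.e, V.d0, V.d1, V.d2, W.e, W.d0, W.d1, W.d2, 25 * (V.p0 - W.p0) + 24 * (V.n0 - W.n0),
    25 * (V.p1 - W.p1) + 24 * (V.n1 - W.n1), 25 * (V.p2 - W.p2) + 24 * (V.n2 - W.n2),
    -25 * (V.p0 - V.p1) + 12 * (V.n0 - V.n1) + 36 * (W.n0 - W.n1),
    -25 * (V.p0 - V.p2) + 12 * (V.n0 - V.n2) + 36 * (W.n0 - W.n2)⟩

theorem recOf_rev (V W : Vx) : recOf W V = (recOf V W).rev := by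
  simp only [recOf, Rc.rev, ineg_eq, iadd_eq, isub_eq, Rc.mk.injEq, true_and]
  omega

theorem recOf_act (h : ℕ) (V W : Vx) : recOf (V.act h) (W.act h) = (recOf V W).act h := by
  refine wF_ind h (fun F => recOf (F Vx Vx.s01 Vx.s12 Vx.neg V) (F Vx Vx.s01 Vx.s12 Vx.neg W) =
    F Rc Rc.s01 Rc.s12 Rc.neg (recOf V W)) rfl ?_ ?_ ?_ <;> intro F hF <;> beta_reduce <;> rw [← hF] <;>
    simp only [recOf, Rc.s01, Rc.s12, Rc.neg, Vx.s01, Vx.s12, Vx.neg, ineg_eq, isub_eq, Rc.mk.injEq, true_and] <;>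
    omega

theorem Rc.A_eq (r : Rc) : r.A = 18 * (r.g - r.e) - r.w1 - r.w2 := by
  simp only [Rc.A, isub_eq, imul_eq]; rfl
theorem Rc.B_eq (r : Rc) : r.B = r.A + 3 * r.w1 := by simp only [Rc.B, iadd_eq, imul_eq]; rfl
theorem Rc.C_eq (r : Rc) : r.C = r.A + 3 * r.w2 := by simp only [Rc.C, iadd_eq, imul_eq]; rfl

noncomputable def Rc.D (r : Rc) : S6 :=
  ⟨4 * r.A, 4 * r.B, 4 * r.C, 9 * r.u2 - 2 * r.C, 9 * r.u1 - 2 * r.B, 9 * r.u0 - 2 * r.A⟩

def S6.sub (J K : S6) : S6 := ⟨J.a - K.a, J.b - K.b, J.c - K.c, J.d - K.d, J.e - K.e, J.f - K.f⟩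

def Vx.lam (V : Vx) : S6 := ⟨432 * V.n0, 432 * V.n1, 432 * V.n2, 225 * V.p2, 225 * V.p1, 225 * V.p0⟩

section
variable {m κ M : ℤ} {V W : Vx}

theorem sum_n (hm : 0 < m) (hV : Ok m κ M V) (hW : Ok m κ M W) (hA : Adj V W) :
    W.e - V.e = 2 * (V.n0 + V.n1 + V.n2 - W.n0 - W.n1 - W.n2) := by
  have h1 := hV.tr
  have h2 := hW.tr
  have h3 := hV.rep.1
  have h4 := hW.rep.1
  simp only [Vx.E, V3.nrm] at h1 h2 h3 h4
  rw [hA.1] at h2
  have : m * (216 * (W.e - V.e)) = m * (216 * (2 * (V.n0 + V.n1 + V.n2 - W.n0 - W.n1 - W.n2))) := by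
    linear_combination h1 - h2 + 1350 * V.η * h4 - 1350 * V.η * h3
  have := mul_left_cancel₀ hm.ne' this
  omega

theorem adj_lam (hm : 0 < m) (hV : Ok m κ M V) (hW : Ok m κ M W) (hA : Adj V W) :
    W.lam.sm 9 = V.lam.tm.sub ((recOf V W).D.sm 9) := by
  have := sum_n hm hV hW hA
  simp only [S6.ext_iff, Vx.lam, S6.sm, S6.tm, S6.sub, Rc.D, Rc.B_eq, Rc.C_eq, Rc.A_eq, recOf]
  omega

theorem adj_E (hm : 0 < m) (hV : Ok m κ M V) (hW : Ok m κ M W) (hA : Adj V W) :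
    (V.E m).tm = ((W.E m).sm 9).sub ((recOf V W).D.sm (9 * m)) := by
  have h := adj_lam hm hV hW hA
  obtain ⟨h1, t, h2, h3⟩ := hA
  generalize (recOf V W).D = D at h
  simp only [S6.ext_iff, Vx.lam, S6.sm, S6.tm, S6.sub] at h
  obtain ⟨g1, g2, g3, g4, g5, g6⟩ := h
  simp only [S6.ext_iff, Vx.E, S6.sm, S6.tm, S6.sub, h1, h3, V3.rf]
  have hx : V.X.x = 3 * t - V.X.y - V.X.z := by omega
  rw [hx]
  refine ⟨by linear_combination m * g1, by linear_combination m * g2, by linear_combination m * g3,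
    by linear_combination m * g4, by linear_combination m * g5, by linear_combination m * g6⟩

theorem Ok.tr_bd (hκ : 27 * |κ| ≤ 4 * m) (hV : Ok m κ M V) (he : V.e = 1) :
    184 * m ≤ (V.E m).a + (V.E m).b + (V.E m).c ∧ (V.E m).a + (V.E m).b + (V.E m).c ≤ 248 * m := by
  have h1 := le_abs_self κ
  have h2 := neg_abs_le κ
  rw [hV.tr, he]
  rcases hV.hη with h | h <;> rw [h] <;> constructor <;> linarith

theorem pr_bd {a b d δ : ℤ} (hm : 0 < m) (h : Pr m 1 a b d δ) (ha : 0 ≤ a) (hb : 0 ≤ b) (hs : a + b ≤ 248 * m) :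
    -18 ≤ δ ∧ δ ≤ 18 := by
  obtain ⟨h1, h2, h3, h4⟩ := h
  constructor <;> by_contra hc <;> nlinarith

theorem Ok.d_bd (hm : 0 < m) (hκ : 27 * |κ| ≤ 4 * m) (hV : Ok m κ M V) (he : V.e = 1) :
    (-18 ≤ V.d0 ∧ V.d0 ≤ 18) ∧ (-18 ≤ V.d1 ∧ V.d1 ≤ 18) ∧ (-18 ≤ V.d2 ∧ V.d2 ≤ 18) := by
  have h1 := (hV.tr_bd hκ he).2
  have ca := hV.ca
  have cb := hV.cb
  have cc := hV.cc
  have p01 := hV.p01
  have p02 := hV.p02
  have p12 := hV.p12
  rw [he] at ca cb cc p01 p02 p12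
  exact ⟨pr_bd hm p01 (by omega) (by omega) (by omega), pr_bd hm p02 (by omega) (by omega) (by omega),
    pr_bd hm p12 (by omega) (by omega) (by omega)⟩

end

theorem pair_data {m e x y n0 n1 N3 N5 r0 r1 r3 r4 r5 r6 : ℤ} (h0 : 5 * x * (5 * x) = 8 * (m * n0 + r0) + 1)
    (h1 : 5 * y * (5 * y) = 8 * (m * n1 + r1) + 1)
    (h3 : (3 * x + 4 * y) * (3 * x + 4 * y) = 8 * (m * N3 + r3) + 1)
    (h5 : (3 * x - 4 * y) * (3 * x - 4 * y) = 8 * (m * N5 + r5) + 1) (e4 : r3 + r4 = r0 + r1)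
    (e6 : r5 + r6 = r0 + r1) (s3 : 0 ≤ e * r3) (s4 : 0 ≤ e * r4) (s5 : 0 ≤ e * r5) (s6 : 0 ≤ e * r6) :
    Pr m e (1350 * 1 * (x * x) - 54 * 1 - m * (432 * n0)) (1350 * 1 * (y * y) - 54 * 1 - m * (432 * n1))
      (1350 * 1 * (x * y) - m * (225 * (N3 - N5))) (18 * n0 + 32 * n1 - 25 * (N3 + N5)) := by
  have a3 : 9 * (1350 * 1 * (x * x) - 54 * 1 - m * (432 * n0)) + 16 * (1350 * 1 * (y * y) - 54 * 1 - m * (432 * n1))
      + 24 * (1350 * 1 * (x * y) - m * (225 * (N3 - N5))) + 216 * m * (18 * n0 + 32 * n1 - 25 * (N3 + N5))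
      = 10800 * r3 := by linear_combination 1350 * h3
  have a4 : 16 * (1350 * 1 * (x * x) - 54 * 1 - m * (432 * n0)) + 9 * (1350 * 1 * (y * y) - 54 * 1 - m * (432 * n1))
      - 24 * (1350 * 1 * (x * y) - m * (225 * (N3 - N5))) - 216 * m * (18 * n0 + 32 * n1 - 25 * (N3 + N5))
      = 10800 * r4 := by linear_combination 1350 * h0 + 1350 * h1 - 1350 * h3 - 10800 * e4
  have a5 : 9 * (1350 * 1 * (x * x) - 54 * 1 - m * (432 * n0)) + 16 * (1350 * 1 * (y * y) - 54 * 1 - m * (432 * n1))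
      - 24 * (1350 * 1 * (x * y) - m * (225 * (N3 - N5))) + 216 * m * (18 * n0 + 32 * n1 - 25 * (N3 + N5))
      = 10800 * r5 := by linear_combination 1350 * h5
  have a6 : 16 * (1350 * 1 * (x * x) - 54 * 1 - m * (432 * n0)) + 9 * (1350 * 1 * (y * y) - 54 * 1 - m * (432 * n1))
      + 24 * (1350 * 1 * (x * y) - m * (225 * (N3 - N5))) - 216 * m * (18 * n0 + 32 * n1 - 25 * (N3 + N5))
      = 10800 * r6 := by linear_combination 1350 * h0 + 1350 * h1 - 1350 * h5 - 10800 * e6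
  rw [Pr, a3, a4, a5, a6]
  refine ⟨?_, ?_, ?_, ?_⟩ <;> linarith

theorem exists_vx {m s : ℕ} {n M : ℤ} (hm : 0 < m) (hs : s < m) (hM : 25 * M = 8 * (m * n + (m + s : ℕ)) + 3)
    (hb : AllBad m (m + s : ℕ) (25 * M)) {X : V3} (hX : PRep M X) {η : ℤ} (hη : η = 1 ∨ η = -1) :
    ∃ V, Ok m (2 * s - m) M V ∧ V.X = X ∧ V.η = η := by
  suffices h : ∃ V, Ok m (2 * s - m) M V ∧ V.X = X ∧ V.η = 1 by
    obtain ⟨V, h1, h2, h3⟩ := h
    rcases hη with rfl | rfl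
    · exact ⟨V, h1, h2, h3⟩
    · exact ⟨V.neg, h1.neg, h2, by simp only [Vx.neg, h3]⟩
  have hm' : (0 : ℤ) < m := by exact_mod_cast hm
  have tri : ∀ a b c : ℤ, a * a + b * b + c * c = 25 * M →
      (a * a = 8 * (m * (a * a / 8 / m) + a * a / 8 % m) + 1 ∧ b * b = 8 * (m * (b * b / 8 / m) + b * b / 8 % m) + 1 ∧
        c * c = 8 * (m * (c * c / 8 / m) + c * c / 8 % m) + 1) ∧
      (a * a / 8 % m + b * b / 8 % m + c * c / 8 % m = s ∨
        a * a / 8 % m + b * b / 8 % m + c * c / 8 % m = s + 2 * m) := by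
    intro a b c h
    obtain ⟨⟨o1, o2, o3⟩, k, hk⟩ := sum_res (X := ⟨a, b, c⟩) hm (h.trans hM)
    have hne := hb a b c h
    simp only at o1 o2 o3 hk
    rw [Int.mul_ediv_add_emod, Int.mul_ediv_add_emod, Int.mul_ediv_add_emod]
    refine ⟨⟨sq_odd o1, sq_odd o2, sq_odd o3⟩, ?_⟩
    have a1 := Int.emod_nonneg (a * a / 8) hm'.ne'
    have a2 := Int.emod_lt_of_pos (a * a / 8) hm'
    have a3 := Int.emod_nonneg (b * b / 8) hm'.ne'
    have a4 := Int.emod_lt_of_pos (b * b / 8) hm'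
    have a5 := Int.emod_nonneg (c * c / 8) hm'.ne'
    have a6 := Int.emod_lt_of_pos (c * c / 8) hm'
    push_cast at hk hne
    have : k ≤ -2 ∨ k = -1 ∨ k = 0 ∨ k = 1 ∨ 2 ≤ k := by omega
    rcases this with h0 | rfl | rfl | rfl | h0
    · exfalso; nlinarith
    · left; omega
    · omega
    · right; omega
    · exfalso; nlinarith
  obtain ⟨x, y, z⟩ := X
  have hn := hX.1
  simp only [V3.nrm] at hn
  have bd : ∀ a : ℤ, 0 ≤ a * a / 8 % m ∧ a * a / 8 % m < m := fun a =>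
    ⟨Int.emod_nonneg _ hm'.ne', Int.emod_lt_of_pos _ hm'⟩
  obtain ⟨⟨a1, a2, a3⟩, t0⟩ := tri (5 * x) (5 * y) (5 * z) (by linear_combination 25 * hn)
  obtain ⟨⟨b1, -, -⟩, t1⟩ := tri (3 * x + 4 * y) (4 * x - 3 * y) (5 * z) (by linear_combination 25 * hn)
  obtain ⟨⟨b2, -, -⟩, t2⟩ := tri (3 * x - 4 * y) (4 * x + 3 * y) (5 * z) (by linear_combination 25 * hn)
  obtain ⟨⟨b3, -, -⟩, t3⟩ := tri (3 * x + 4 * z) (4 * x - 3 * z) (5 * y) (by linear_combination 25 * hn)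
  obtain ⟨⟨b4, -, -⟩, t4⟩ := tri (3 * x - 4 * z) (4 * x + 3 * z) (5 * y) (by linear_combination 25 * hn)
  obtain ⟨⟨b5, -, -⟩, t5⟩ := tri (3 * y + 4 * z) (4 * y - 3 * z) (5 * x) (by linear_combination 25 * hn)
  obtain ⟨⟨b6, -, -⟩, t6⟩ := tri (3 * y - 4 * z) (4 * y + 3 * z) (5 * x) (by linear_combination 25 * hn)
  have c0 := bd (5 * x)
  have c1 := bd (5 * y)
  have c2 := bd (5 * z)
  have c3 := bd (3 * x + 4 * y)
  have c4 := bd (4 * x - 3 * y)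
  have c5 := bd (3 * x - 4 * y)
  have c6 := bd (4 * x + 3 * y)
  have c7 := bd (3 * x + 4 * z)
  have c8 := bd (4 * x - 3 * z)
  have c9 := bd (3 * x - 4 * z)
  have c10 := bd (4 * x + 3 * z)
  have c11 := bd (3 * y + 4 * z)
  have c12 := bd (4 * y - 3 * z)
  have c13 := bd (3 * y - 4 * z)
  have c14 := bd (4 * y + 3 * z)
  generalize 5 * x * (5 * x) / 8 / m = n0 at *
  generalize 5 * y * (5 * y) / 8 / m = n1 at *
  generalize 5 * z * (5 * z) / 8 / m = n2 at *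
  generalize (3 * x + 4 * y) * (3 * x + 4 * y) / 8 / m = N3 at *
  generalize (3 * x - 4 * y) * (3 * x - 4 * y) / 8 / m = N5 at *
  generalize (3 * x + 4 * z) * (3 * x + 4 * z) / 8 / m = N7 at *
  generalize (3 * x - 4 * z) * (3 * x - 4 * z) / 8 / m = N9 at *
  generalize (3 * y + 4 * z) * (3 * y + 4 * z) / 8 / m = N11 at *
  generalize (3 * y - 4 * z) * (3 * y - 4 * z) / 8 / m = N13 at *
  generalize 5 * x * (5 * x) / 8 % m = r0 at *
  generalize 5 * y * (5 * y) / 8 % m = r1 at *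
  generalize 5 * z * (5 * z) / 8 % m = r2 at *
  generalize (3 * x + 4 * y) * (3 * x + 4 * y) / 8 % m = r3 at *
  generalize (4 * x - 3 * y) * (4 * x - 3 * y) / 8 % m = r4 at *
  generalize (3 * x - 4 * y) * (3 * x - 4 * y) / 8 % m = r5 at *
  generalize (4 * x + 3 * y) * (4 * x + 3 * y) / 8 % m = r6 at *
  generalize (3 * x + 4 * z) * (3 * x + 4 * z) / 8 % m = r7 at *
  generalize (4 * x - 3 * z) * (4 * x - 3 * z) / 8 % m = r8 at *
  generalize (3 * x - 4 * z) * (3 * x - 4 * z) / 8 % m = r9 at *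
  generalize (4 * x + 3 * z) * (4 * x + 3 * z) / 8 % m = r10 at *
  generalize (3 * y + 4 * z) * (3 * y + 4 * z) / 8 % m = r11 at *
  generalize (4 * y - 3 * z) * (4 * y - 3 * z) / 8 % m = r12 at *
  generalize (3 * y - 4 * z) * (3 * y - 4 * z) / 8 % m = r13 at *
  generalize (4 * y + 3 * z) * (4 * y + 3 * z) / 8 % m = r14 at *
  have key : ∀ e o : ℤ, (e = 1 ∨ e = -1) → 2 * o = 1 - e → (∀ r : ℤ, 0 ≤ r ∧ r < m → 0 ≤ e * (r - m * o)) →
      r0 + r1 + r2 = s + 2 * (m * o) → r3 + r4 = r0 + r1 → r5 + r6 = r0 + r1 → r7 + r8 = r0 + r2 →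
      r9 + r10 = r0 + r2 → r11 + r12 = r1 + r2 → r13 + r14 = r1 + r2 →
      ∃ V, Ok m (2 * s - m) M V ∧ V.X = ⟨x, y, z⟩ ∧ V.η = 1 := by
    intro e o he ho hs e0 e1 e2 e3 e4 e5 e6
    have ea : 1350 * 1 * (x * x) - 54 * 1 - m * (432 * (n0 + o)) = 432 * (r0 - m * o) := by
      linear_combination 54 * a1
    have eb : 1350 * 1 * (y * y) - 54 * 1 - m * (432 * (n1 + o)) = 432 * (r1 - m * o) := by
      linear_combination 54 * a2
    have ec : 1350 * 1 * (z * z) - 54 * 1 - m * (432 * (n2 + o)) = 432 * (r2 - m * o) := by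
      linear_combination 54 * a3
    refine ⟨⟨1, e, ⟨x, y, z⟩, n0 + o, n1 + o, n2 + o, (N11 + o) - (N13 + o), (N7 + o) - (N9 + o), (N3 + o) - (N5 + o),
      18 * (n0 + o) + 32 * (n1 + o) - 25 * ((N3 + o) + (N5 + o)),
      18 * (n0 + o) + 32 * (n2 + o) - 25 * ((N7 + o) + (N9 + o)),
      18 * (n1 + o) + 32 * (n2 + o) - 25 * ((N11 + o) + (N13 + o))⟩,
      ⟨Or.inl rfl, he, hX, ?_, ?_, ?_, ?_, ?_, ?_, ?_, ?_, ?_, ?_⟩, rfl, rfl⟩
    · simp only [Vx.E]; rw [ea]; linarith [hs r0 c0]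
    · simp only [Vx.E]; rw [eb]; linarith [hs r1 c1]
    · simp only [Vx.E]; rw [ec]; linarith [hs r2 c2]
    · exact pair_data (r0 := r0 - m * o) (r1 := r1 - m * o) (by linear_combination a1) (by linear_combination a2)
        (by linear_combination b1) (by linear_combination b2) (by linear_combination e1)
        (by linear_combination e2) (hs r3 c3) (hs r4 c4) (hs r5 c5) (hs r6 c6)
    · exact pair_data (r0 := r0 - m * o) (r1 := r2 - m * o) (by linear_combination a1) (by linear_combination a3)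
        (by linear_combination b3) (by linear_combination b4) (by linear_combination e3)
        (by linear_combination e4) (hs r7 c7) (hs r8 c8) (hs r9 c9) (hs r10 c10)
    · exact pair_data (r0 := r1 - m * o) (r1 := r2 - m * o) (by linear_combination a2) (by linear_combination a3)
        (by linear_combination b5) (by linear_combination b6) (by linear_combination e5)
        (by linear_combination e6) (hs r11 c11) (hs r12 c12) (hs r13 c13) (hs r14 c14)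
    · simp only [Vx.E]; rw [ea, eb, ec]; linear_combination 432 * e0 - 216 * m * ho
    · simp only; omega
    · simp only; omega
    · simp only; omega
  rcases t0 with t0 | t0
  · exact key 1 0 (Or.inl rfl) rfl (fun r h => by omega) (by omega) (by omega) (by omega) (by omega) (by omega)
      (by omega) (by omega)
  · exact key (-1) 1 (Or.inr rfl) rfl (fun r h => by omega) (by omega) (by omega) (by omega) (by omega) (by omega)
      (by omega) (by omega)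

end Pool.Agent.Lib.MP_568bdc_nt
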