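import Pool.Agent.Lib.MP_568bdc_nt.Basic

/-! Three-adic descent along an infinite non-backtracking walk. -/

namespace Pool.Agent.Lib.MP_568bdc_nt

@[ext] structure V3 where
  x : ℤ
  y : ℤ
  z : ℤ

@[ext] structure S6 where
  a : ℤ
  b : ℤ
  c : ℤ
  d : ℤ
  e : ℤ
  f : ℤ

namespace V3
def nrm (X : V3) : ℤ := X.x * X.x + X.y * X.y + X.z * X.z
def s01 (X : V3) : V3 := ⟨X.y, X.x, X.z⟩
def s12 (X : V3) : V3 := ⟨X.x, X.z, X.y⟩
def neg (X : V3) : V3 := ⟨-X.x, -X.y, -X.z⟩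
def Prim (X : V3) : Prop := ∃ a b c : ℤ, a * X.x + b * X.y + c * X.z = 1
end V3

namespace S6
def sm (k : ℤ) (K : S6) : S6 := ⟨k * K.a, k * K.b, k * K.c, k * K.d, k * K.e, k * K.f⟩
def s01 (K : S6) : S6 := ⟨K.b, K.a, K.c, K.d, K.f, K.e⟩
def s12 (K : S6) : S6 := ⟨K.a, K.c, K.b, K.e, K.d, K.f⟩
def neg (K : S6) : S6 := ⟨-K.a, -K.b, -K.c, -K.d, -K.e, -K.f⟩
def d0 (K : S6) : S6 := ⟨K.a, K.b, K.c, -K.d, -K.e, K.f⟩
def tm (K : S6) : S6 :=
  ⟨K.a + 4 * K.b + 4 * K.c - 4 * K.d - 4 * K.e + 8 * K.f,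
   4 * K.a + K.b + 4 * K.c - 4 * K.d + 8 * K.e - 4 * K.f,
   4 * K.a + 4 * K.b + K.c + 8 * K.d - 4 * K.e - 4 * K.f,
   -2 * K.a - 2 * K.b + 4 * K.c + 5 * K.d + 2 * K.e + 2 * K.f,
   -2 * K.a + 4 * K.b - 2 * K.c + 2 * K.d + 5 * K.e + 2 * K.f,
   4 * K.a - 2 * K.b - 2 * K.c + 2 * K.d + 2 * K.e + 5 * K.f⟩
def dot (J K : S6) : ℤ :=
  J.a * K.a + J.b * K.b + J.c * K.c + 2 * (J.d * K.d + J.e * K.e + J.f * K.f)
def tr (K : S6) : ℤ := K.a + K.b + K.c
def quad (K : S6) (X : V3) : ℤ :=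
  K.a * X.x * X.x + K.b * X.y * X.y + K.c * X.z * X.z
    + 2 * (K.d * X.x * X.y + K.e * X.x * X.z + K.f * X.y * X.z)
def comb (k α β : ℤ) (A : S6) (X : V3) : S6 :=
  ⟨k * A.a - α - β * (X.x * X.x), k * A.b - α - β * (X.y * X.y), k * A.c - α - β * (X.z * X.z),
   k * A.d - β * (X.x * X.y), k * A.e - β * (X.x * X.z), k * A.f - β * (X.y * X.z)⟩
def zero : S6 := ⟨0, 0, 0, 0, 0, 0⟩
end S6

inductive Step : V3 → S6 → V3 → S6 → Prop
  | base (X : V3) (K : S6) (t : ℤ) (K' : S6) : 3 * t = -X.x + X.y + X.z → K'.sm 9 = K.d0.tm →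
      Step X K ⟨-X.x - 2 * t, X.y - 2 * t, X.z - 2 * t⟩ K'
  | p01 {X K X' K'} : Step X.s01 K.s01 X' K' → Step X K X' K'
  | p12 {X K X' K'} : Step X.s12 K.s12 X' K' → Step X K X' K'
  | q01 {X K X' K'} : Step X K X' K' → Step X K X'.s01 K'.s01
  | q12 {X K X' K'} : Step X K X' K' → Step X K X'.s12 K'.s12
  | nx {X K X' K'} : Step X K X' K' → Step X K X'.neg K'
  | nk {X K X' K'} : Step X K X' K' → Step X K X' K'.neg

def Pred (X : V3) (K : S6) : Prop := (X.x + X.y + X.z) % 3 = 0 ∧ ∃ J : S6, K.tm = J.sm 9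

theorem Pred.s01 {X K} (h : Pred X K) : Pred X.s01 K.s01 := by
  obtain ⟨h1, J, h2⟩ := h
  refine ⟨by simp only [V3.s01]; omega, J.s01, ?_⟩
  simp only [S6.ext_iff, S6.tm, S6.sm, S6.s01] at *
  omega

theorem Pred.s12 {X K} (h : Pred X K) : Pred X.s12 K.s12 := by
  obtain ⟨h1, J, h2⟩ := h
  refine ⟨by simp only [V3.s12]; omega, J.s12, ?_⟩
  simp only [S6.ext_iff, S6.tm, S6.sm, S6.s12] at *
  omega

theorem Step.pred {X K X' K'} (h : Step X K X' K') : Pred X' K' := by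
  induction h with
  | base X K t K' h1 h2 =>
    refine ⟨by simp only; omega, K.d0, ?_⟩
    simp only [S6.ext_iff, S6.tm, S6.sm, S6.d0] at *
    omega
  | p01 _ ih => exact ih
  | p12 _ ih => exact ih
  | q01 _ ih => exact ih.s01
  | q12 _ ih => exact ih.s12
  | nx _ ih => exact ⟨by have := ih.1; simp only [V3.neg]; omega, ih.2⟩
  | nk _ ih =>
    obtain ⟨h1, J, h2⟩ := ih
    refine ⟨h1, J.neg, ?_⟩
    simp only [S6.ext_iff, S6.tm, S6.sm, S6.neg] at *
    omega

theorem Step.norm {X K X' K'} (h : Step X K X' K') : K'.dot K' = K.dot K := by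
  induction h with
  | base X K t K' h1 h2 =>
    have e1 : (K'.sm 9).dot (K'.sm 9) = 81 * K'.dot K' := by simp only [S6.dot, S6.sm]; ring
    have e2 : (K.d0.tm).dot (K.d0.tm) = 81 * K.dot K := by simp only [S6.dot, S6.tm, S6.d0]; ring
    rw [h2, e2] at e1
    omega
  | p01 _ ih => rw [ih]; simp only [S6.dot, S6.s01]; ring
  | p12 _ ih => rw [ih]; simp only [S6.dot, S6.s12]; ring
  | q01 _ ih => rw [← ih]; simp only [S6.dot, S6.s01]; ring
  | q12 _ ih => rw [← ih]; simp only [S6.dot, S6.s12]; ring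
  | nx _ ih => exact ih
  | nk _ ih => rw [← ih]; simp only [S6.dot, S6.neg]; ring

theorem Step.scale {X K0 X' K0'} (h : Step X K0 X' K0') :
    ∀ K K' : S6, K0 = K.sm 3 → K0' = K'.sm 3 → Step X K X' K' := by
  induction h with
  | base X K0 t K0' h1 h2 =>
    intro K K' e1 e2
    subst e1 e2
    refine Step.base X K t K' h1 ?_
    simp only [S6.ext_iff, S6.tm, S6.sm, S6.d0] at *
    omega
  | p01 _ ih => intro K K' e1 e2; subst e1; exact Step.p01 (ih _ _ rfl e2)
  | p12 _ ih => intro K K' e1 e2; subst e1; exact Step.p12 (ih _ _ rfl e2)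
  | q01 _ ih =>
    intro K K' e1 e2
    exact (ih K K'.s01 e1 (by simp only [S6.ext_iff, S6.sm, S6.s01] at *; omega)).q01
  | q12 _ ih =>
    intro K K' e1 e2
    exact (ih K K'.s12 e1 (by simp only [S6.ext_iff, S6.sm, S6.s12] at *; omega)).q12
  | nx _ ih => intro K K' e1 e2; exact (ih K K' e1 e2).nx
  | nk _ ih =>
    intro K K' e1 e2
    have := (ih K K'.neg e1 (by simp only [S6.ext_iff, S6.sm, S6.neg] at *; omega)).nk
    have e : K'.neg.neg = K' := by simp only [S6.ext_iff, S6.neg]; omega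
    rwa [e] at this

theorem sq_mod3 (x : ℤ) : (x % 3 = 0 ∧ x * x % 3 = 0) ∨ (x % 3 ≠ 0 ∧ x * x % 3 = 1) := by
  have : x % 3 = 0 ∨ x % 3 = 1 ∨ x % 3 = 2 := by omega
  rcases this with h | h | h <;> simp [Int.mul_emod, h]

theorem Step.loc {X K X' K'} (h : Step X K X' K') :
    Pred X K → X.nrm % 3 = 2 → K.tr = 0 → K.quad X = 0 → ∃ J : S6, K = J.sm 3 := by
  induction h with
  | base X K t K' h1 h2 =>
    rintro ⟨h3, J, h4⟩ h5 h6 h7
    obtain ⟨x, y, z⟩ := X
    obtain ⟨a, b, c, d, e, f⟩ := K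
    simp only [S6.ext_iff, S6.tm, S6.sm, S6.d0, S6.tr, S6.quad, V3.nrm] at *
    obtain ⟨x1, rfl⟩ : ∃ x1, x = 3 * x1 := ⟨x / 3, by omega⟩
    obtain ⟨w, rfl⟩ : ∃ w, z = 3 * w - y := ⟨(y + z) / 3, by omega⟩
    have hy : y * y % 3 = 1 := by
      have e1 : 3 * x1 * (3 * x1) + y * y + (3 * w - y) * (3 * w - y) =
        3 * (3 * x1 * x1 + 3 * w * w - 2 * w * y) + 2 * (y * y) := by ring
      omega
    obtain ⟨q, hq⟩ : ∃ q, y * y = 3 * q + 1 := ⟨y * y / 3, by omega⟩
    have h8 : b + c - 2 * f = 3 * (-(b + c - 2 * f) * q - (3 * a * x1 * x1 + c * (3 * w * w - 2 * w * y)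
        + 2 * (d * x1 * y + e * x1 * (3 * w - y) + f * y * w))) := by
      linear_combination h7 - (b + c - 2 * f) * hq
    generalize (-(b + c - 2 * f) * q - (3 * a * x1 * x1 + c * (3 * w * w - 2 * w * y)
        + 2 * (d * x1 * y + e * x1 * (3 * w - y) + f * y * w))) = r at h8
    obtain ⟨g1, g2, g3, -, -, -⟩ := h2
    obtain ⟨k1, k2, k3, -, -, -⟩ := h4
    have p1 : (b - a + f - e) % 3 = 0 := by clear * - k1 k2; omega
    have p2 : (c - b + e - d) % 3 = 0 := by clear * - k3 k2; omega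
    have p3 : (b - a + f + e) % 3 = 0 := by clear * - g1 g2; omega
    have p4 : (c - b - e + d) % 3 = 0 := by clear * - g3 g2; omega
    have p5 : e % 3 = 0 := by clear * - p1 p3; omega
    have p6 : (c - b) % 3 = 0 := by clear * - p2 p4; omega
    have p7 : d % 3 = 0 := by clear * - p2 p5 p6; omega
    have p8 : (f - a) % 3 = 0 := by clear * - h6 h8; omega
    have p9 : b % 3 = 0 := by clear * - p1 p5 p8; omega
    clear * - p5 p6 p7 p8 p9 h6
    refine ⟨⟨a / 3, b / 3, c / 3, d / 3, e / 3, f / 3⟩, ?_⟩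
    simp only
    omega
  | @p01 X K X' K' _ ih =>
    intro h1 h2 h3 h4
    obtain ⟨J, hJ⟩ := ih h1.s01 (by rw [← h2]; simp only [V3.nrm, V3.s01]; ring_nf)
      (by rw [← h3]; simp only [S6.tr, S6.s01]; ring) (by rw [← h4]; simp only [S6.quad, S6.s01, V3.s01]; ring)
    exact ⟨J.s01, by simp only [S6.ext_iff, S6.sm, S6.s01] at *; omega⟩
  | @p12 X K X' K' _ ih =>
    intro h1 h2 h3 h4
    obtain ⟨J, hJ⟩ := ih h1.s12 (by rw [← h2]; simp only [V3.nrm, V3.s12]; ring_nf)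
      (by rw [← h3]; simp only [S6.tr, S6.s12]; ring) (by rw [← h4]; simp only [S6.quad, S6.s12, V3.s12]; ring)
    exact ⟨J.s12, by simp only [S6.ext_iff, S6.sm, S6.s12] at *; omega⟩
  | q01 _ ih => exact ih
  | q12 _ ih => exact ih
  | nx _ ih => exact ih
  | nk _ ih => exact ih

theorem dot_self_nonneg (K : S6) : 0 ≤ K.dot K := by
  simp only [S6.dot]
  nlinarith [mul_self_nonneg K.a, mul_self_nonneg K.b, mul_self_nonneg K.c, mul_self_nonneg K.d,
    mul_self_nonneg K.e, mul_self_nonneg K.f]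

theorem dot_self_zero {K : S6} (h : K.dot K = 0) : K = S6.zero := by
  simp only [S6.dot] at h
  have h1 := mul_self_nonneg K.a
  have h2 := mul_self_nonneg K.b
  have h3 := mul_self_nonneg K.c
  have h4 := mul_self_nonneg K.d
  have h5 := mul_self_nonneg K.e
  have h6 := mul_self_nonneg K.f
  ext <;> simp only [S6.zero] <;> apply mul_self_eq_zero.mp <;> linarith

theorem descent (N : ℕ) : ∀ Q : V3 → S6 → Prop,
    (∀ X K, Q X K → ∃ X' K', Step X K X' K' ∧ Q X' K') →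
    (∀ X K, Q X K → X.nrm % 3 = 2 ∧ K.tr = 0 ∧ K.quad X = 0) →
    ∀ X K, Q X K → K.dot K < N → K = S6.zero := by
  induction N with
  | zero => intro Q _ _ X K _ h; have := dot_self_nonneg K; simp at h; omega
  | succ N ih =>
    intro Q hc hp X K hQ hN
    have div3 : ∀ X K X' K', Step X K X' K' → Q X' K' → ∃ J : S6, K' = J.sm 3 := by
      intro X K X' K' hs hq
      obtain ⟨X2, K2, hs2, -⟩ := hc _ _ hq
      obtain ⟨p1, p2, p3⟩ := hp _ _ hq
      exact hs2.loc hs.pred p1 p2 p3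
    obtain ⟨X', K', hs, hq⟩ := hc _ _ hQ
    obtain ⟨J, hJ⟩ := div3 _ _ _ _ hs hq
    have hn := hs.norm
    have e1 : K'.dot K' = 9 * J.dot J := by rw [hJ]; simp only [S6.dot, S6.sm]; ring
    by_cases h0 : K.dot K = 0
    · exact dot_self_zero h0
    · have hJ0 : J = S6.zero := by
        refine ih (fun X K => Q X (K.sm 3)) ?_ ?_ X' J (by rw [← hJ]; exact hq) ?_
        · intro Y L hY
          obtain ⟨Y', L', hs', hq'⟩ := hc _ _ hY
          obtain ⟨J', hJ'⟩ := div3 _ _ _ _ hs' hq'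
          exact ⟨Y', J', hs'.scale _ _ rfl hJ', by rw [← hJ']; exact hq'⟩
        · intro Y L hY
          obtain ⟨p1, p2, p3⟩ := hp _ _ hY
          refine ⟨p1, ?_, ?_⟩
          · simp only [S6.tr, S6.sm] at *; omega
          · have : (L.sm 3).quad Y = 3 * L.quad Y := by simp only [S6.quad, S6.sm]; ring
            omega
        · have := dot_self_nonneg J
          push_cast at hN
          omega
      apply dot_self_zero
      rw [← hn, e1, hJ0]
      simp [S6.dot, S6.zero]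

theorem Step.lin {X A X' A'} (h : Step X A X' A') :
    X'.nrm = X.nrm ∧ ∃ ε : ℤ, (ε = 1 ∨ ε = -1) ∧ A'.tr = ε * A.tr ∧ A'.quad X' = ε * A.quad X ∧
      ∀ k α β : ℤ, Step X (A.comb k α β X) X' (A'.comb k (ε * α) (ε * β) X') := by
  induction h with
  | base X A t A' h1 h2 =>
    obtain ⟨x, y, z⟩ := X
    simp only at h1
    obtain rfl : x = y + z - 3 * t := by omega
    simp only [S6.ext_iff, S6.tm, S6.sm, S6.d0] at h2
    obtain ⟨g1, g2, g3, g4, g5, g6⟩ := h2
    refine ⟨by simp only [V3.nrm]; ring, 1, Or.inl rfl, by simp only [S6.tr]; omega, ?_, ?_⟩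
    · have : 9 * A'.quad ⟨-(y + z - 3 * t) - 2 * t, y - 2 * t, z - 2 * t⟩ =
          9 * (1 * A.quad ⟨y + z - 3 * t, y, z⟩) := by
        simp only [S6.quad]
        linear_combination (t - y - z) * (t - y - z) * g1 + (y - 2 * t) * (y - 2 * t) * g2
          + (z - 2 * t) * (z - 2 * t) * g3 + 2 * (t - y - z) * (y - 2 * t) * g4
          + 2 * (t - y - z) * (z - 2 * t) * g5 + 2 * (y - 2 * t) * (z - 2 * t) * g6
      simp only at this ⊢
      omega
    · intro k α β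
      refine Step.base ⟨y + z - 3 * t, y, z⟩ _ t _ h1 ?_
      simp only [S6.ext_iff, S6.tm, S6.sm, S6.d0, S6.comb]
      refine ⟨by linear_combination k * g1, by linear_combination k * g2, by linear_combination k * g3,
        by linear_combination k * g4, by linear_combination k * g5, by linear_combination k * g6⟩
  | @p01 X A X' A' _ ih =>
    obtain ⟨h1, ε, h2, h3, h4, h5⟩ := ih
    refine ⟨by rw [h1]; simp only [V3.nrm, V3.s01]; ring, ε, h2,
      by rw [h3]; simp only [S6.tr, S6.s01]; ring, by rw [h4]; simp only [S6.quad, S6.s01, V3.s01]; ring, ?_⟩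
    intro k α β
    apply Step.p01
    have e : (A.comb k α β X).s01 = A.s01.comb k α β X.s01 := by
      simp only [S6.ext_iff, S6.comb, S6.s01, V3.s01]; simp [mul_comm]
    rw [e]; exact h5 k α β
  | @p12 X A X' A' _ ih =>
    obtain ⟨h1, ε, h2, h3, h4, h5⟩ := ih
    refine ⟨by rw [h1]; simp only [V3.nrm, V3.s12]; ring, ε, h2,
      by rw [h3]; simp only [S6.tr, S6.s12]; ring, by rw [h4]; simp only [S6.quad, S6.s12, V3.s12]; ring, ?_⟩
    intro k α β
    apply Step.p12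
    have e : (A.comb k α β X).s12 = A.s12.comb k α β X.s12 := by
      simp only [S6.ext_iff, S6.comb, S6.s12, V3.s12]; simp [mul_comm]
    rw [e]; exact h5 k α β
  | @q01 X A X' A' _ ih =>
    obtain ⟨h1, ε, h2, h3, h4, h5⟩ := ih
    refine ⟨by rw [← h1]; simp only [V3.nrm, V3.s01]; ring, ε, h2,
      by rw [← h3]; simp only [S6.tr, S6.s01]; ring, by rw [← h4]; simp only [S6.quad, S6.s01, V3.s01]; ring, ?_⟩
    intro k α β
    have e : A'.s01.comb k (ε * α) (ε * β) X'.s01 = (A'.comb k (ε * α) (ε * β) X').s01 := by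
      simp only [S6.ext_iff, S6.comb, S6.s01, V3.s01]; simp [mul_comm]
    rw [e]; exact (h5 k α β).q01
  | @q12 X A X' A' _ ih =>
    obtain ⟨h1, ε, h2, h3, h4, h5⟩ := ih
    refine ⟨by rw [← h1]; simp only [V3.nrm, V3.s12]; ring, ε, h2,
      by rw [← h3]; simp only [S6.tr, S6.s12]; ring, by rw [← h4]; simp only [S6.quad, S6.s12, V3.s12]; ring, ?_⟩
    intro k α β
    have e : A'.s12.comb k (ε * α) (ε * β) X'.s12 = (A'.comb k (ε * α) (ε * β) X').s12 := by
      simp only [S6.ext_iff, S6.comb, S6.s12, V3.s12]; simp [mul_comm]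
    rw [e]; exact (h5 k α β).q12
  | @nx X A X' A' _ ih =>
    obtain ⟨h1, ε, h2, h3, h4, h5⟩ := ih
    refine ⟨by rw [← h1]; simp only [V3.nrm, V3.neg]; ring, ε, h2, h3,
      by rw [← h4]; simp only [S6.quad, V3.neg]; ring, ?_⟩
    intro k α β
    have e : A'.comb k (ε * α) (ε * β) X'.neg = A'.comb k (ε * α) (ε * β) X' := by
      simp only [S6.ext_iff, S6.comb, V3.neg]; simp
    rw [e]; exact (h5 k α β).nx
  | @nk X A X' A' _ ih =>
    obtain ⟨h1, ε, h2, h3, h4, h5⟩ := ih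
    refine ⟨h1, -ε, by omega, by rw [neg_mul, ← h3]; simp only [S6.tr, S6.neg]; ring,
      by rw [neg_mul, ← h4]; simp only [S6.quad, S6.neg]; ring, ?_⟩
    intro k α β
    have e : A'.neg.comb k (-ε * α) (-ε * β) X' = (A'.comb k (ε * α) (ε * β) X').neg := by
      simp only [S6.ext_iff, S6.comb, S6.neg]
      refine ⟨by ring, by ring, by ring, by ring, by ring, by ring⟩
    rw [e]; exact (h5 k α β).nk

/-- Rigidity: an integral symmetric matrix transported along an infinite walk lies in the span of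
the identity and the rank one matrix of the walk. -/
theorem rigid (Q : V3 → S6 → Prop) (hc : ∀ X A, Q X A → ∃ X' A', Step X A X' A' ∧ Q X' A')
    (hp : ∀ X A, Q X A → X.nrm % 3 = 2) {X A} (hQ : Q X A) :
    ∃ α β : ℤ, A.comb (2 * X.nrm * X.nrm) α β X = S6.zero := by
  refine ⟨X.nrm * (A.tr * X.nrm - A.quad X), 3 * A.quad X - A.tr * X.nrm, ?_⟩
  refine descent ((S6.dot _ _).toNat + 1) (fun X K => ∃ A, Q X A ∧
    K = A.comb (2 * X.nrm * X.nrm) (X.nrm * (A.tr * X.nrm - A.quad X)) (3 * A.quad X - A.tr * X.nrm) X)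
    ?_ ?_ X _ ⟨A, hQ, rfl⟩ (by push_cast; exact Int.lt_add_one_iff.mpr (Int.self_le_toNat _))
  · rintro Y K ⟨B, hB, rfl⟩
    obtain ⟨Y', B', hs, hq⟩ := hc _ _ hB
    obtain ⟨h1, ε, -, h3, h4, h5⟩ := hs.lin
    refine ⟨Y', _, h5 _ _ _, B', hq, ?_⟩
    rw [h1, h3, h4]
    have e1 : ε * (Y.nrm * (B.tr * Y.nrm - B.quad Y)) = Y.nrm * (ε * B.tr * Y.nrm - ε * B.quad Y) := by ring
    have e2 : ε * (3 * B.quad Y - B.tr * Y.nrm) = 3 * (ε * B.quad Y) - ε * B.tr * Y.nrm := by ring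
    rw [e1, e2]
  · rintro Y K ⟨B, hB, rfl⟩
    refine ⟨hp _ _ hB, ?_, ?_⟩
    · simp only [S6.tr, S6.comb, V3.nrm, S6.quad]; ring
    · simp only [S6.tr, S6.comb, V3.nrm, S6.quad]; ring

def V3.outer (Y : V3) : S6 := ⟨Y.x * Y.x, Y.y * Y.y, Y.z * Y.z, Y.x * Y.y, Y.x * Y.z, Y.y * Y.z⟩

theorem axis_le {X Y : V3} {k α β : ℤ} (hk : k ≠ 0) (h : Y.outer.comb k α β X = S6.zero) (hX : X.Prim)
    (hY : Y.nrm ≠ 0) : X.nrm ≤ Y.nrm := by
  obtain ⟨x, y, z⟩ := X
  obtain ⟨u, v, w⟩ := Y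
  obtain ⟨a, b, c, hp⟩ := hX
  simp only [S6.ext_iff, S6.comb, S6.zero, V3.outer, V3.nrm] at *
  obtain ⟨g1, g2, g3, g4, g5, g6⟩ := h
  have hz : y * w - z * v = 0 ∧ z * u - x * w = 0 ∧ x * v - y * u = 0 := by
    by_cases hα : α = 0
    · subst hα
      have t1 : k * ((y * w - z * v) * (y * w - z * v)) = 0 := by
        linear_combination (z * z) * g2 + (y * y) * g3 - 2 * (y * z) * g6
      have t2 : k * ((z * u - x * w) * (z * u - x * w)) = 0 := by
        linear_combination (z * z) * g1 + (x * x) * g3 - 2 * (x * z) * g5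
      have t3 : k * ((x * v - y * u) * (x * v - y * u)) = 0 := by
        linear_combination (y * y) * g1 + (x * x) * g2 - 2 * (x * y) * g4
      exact ⟨mul_self_eq_zero.mp ((mul_eq_zero.mp t1).resolve_left hk),
        mul_self_eq_zero.mp ((mul_eq_zero.mp t2).resolve_left hk),
        mul_self_eq_zero.mp ((mul_eq_zero.mp t3).resolve_left hk)⟩
    · have t1 : α * (y * w - z * v) = 0 := by
        linear_combination (-(y * w - z * v)) * g1 - (z * u - x * w) * g4 - (x * v - y * u) * g5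
      have t2 : α * (z * u - x * w) = 0 := by
        linear_combination (-(y * w - z * v)) * g4 - (z * u - x * w) * g2 - (x * v - y * u) * g6
      have t3 : α * (x * v - y * u) = 0 := by
        linear_combination (-(y * w - z * v)) * g5 - (z * u - x * w) * g6 - (x * v - y * u) * g3
      exact ⟨(mul_eq_zero.mp t1).resolve_left hα, (mul_eq_zero.mp t2).resolve_left hα,
        (mul_eq_zero.mp t3).resolve_left hα⟩
  obtain ⟨z1, z2, z3⟩ := hz
  set q := a * u + b * v + c * w with hq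
  have hu : u = q * x := by rw [hq]; linear_combination (-u) * hp - b * z3 + c * z2
  have hv : v = q * y := by rw [hq]; linear_combination (-v) * hp + a * z3 - c * z1
  have hw : w = q * z := by rw [hq]; linear_combination (-w) * hp - a * z2 + b * z1
  clear_value q
  subst hu hv hw
  have hq0 : q ≠ 0 := by rintro rfl; simp at hY
  have : 1 ≤ q * q := by
    have := mul_self_pos.mpr hq0
    omega
  nlinarith [mul_self_nonneg x, mul_self_nonneg y, mul_self_nonneg z]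

end Pool.Agent.Lib.MP_568bdc_nt
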