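import Pool.Agent.Lib.MP_568bdc_nt.DiscMain
import Pool.Agent.Lib.MP_568bdc_nt.DiscD00
import Pool.Agent.Lib.MP_568bdc_nt.DiscD01
import Pool.Agent.Lib.MP_568bdc_nt.DiscD02
import Pool.Agent.Lib.MP_568bdc_nt.DiscD03
import Pool.Agent.Lib.MP_568bdc_nt.DiscD04
import Pool.Agent.Lib.MP_568bdc_nt.DiscD05
import Pool.Agent.Lib.MP_568bdc_nt.DiscD06
import Pool.Agent.Lib.MP_568bdc_nt.DiscD07
import Pool.Agent.Lib.MP_568bdc_nt.DiscD08
import Pool.Agent.Lib.MP_568bdc_nt.DiscD09
import Pool.Agent.Lib.MP_568bdc_nt.DiscD10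
import Pool.Agent.Lib.MP_568bdc_nt.DiscD11
import Pool.Agent.Lib.MP_568bdc_nt.DiscD12
import Pool.Agent.Lib.MP_568bdc_nt.DiscD13
import Pool.Agent.Lib.MP_568bdc_nt.DiscD14
import Pool.Agent.Lib.MP_568bdc_nt.DiscD15
import Pool.Agent.Lib.MP_568bdc_nt.DiscD16
import Pool.Agent.Lib.MP_568bdc_nt.DiscD17
import Pool.Agent.Lib.MP_568bdc_nt.DiscD18
import Pool.Agent.Lib.MP_568bdc_nt.DiscD19
import Pool.Agent.Lib.MP_568bdc_nt.DiscD20
import Pool.Agent.Lib.MP_568bdc_nt.DiscD21
import Pool.Agent.Lib.MP_568bdc_nt.DiscD22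
import Pool.Agent.Lib.MP_568bdc_nt.DiscD23
import Pool.Agent.Lib.MP_568bdc_nt.DiscD24
import Pool.Agent.Lib.MP_568bdc_nt.DiscD25
import Pool.Agent.Lib.MP_568bdc_nt.DiscD26
import Pool.Agent.Lib.MP_568bdc_nt.DiscD27
import Pool.Agent.Lib.MP_568bdc_nt.DiscD28
import Pool.Agent.Lib.MP_568bdc_nt.DiscD29
import Pool.Agent.Lib.MP_568bdc_nt.DiscD30
import Pool.Agent.Lib.MP_568bdc_nt.DiscD31

/-! All moduli below 507. -/

namespace Pool.Agent.Lib.MP_568bdc_nt

def Upto (k : ℕ) : Prop := ∀ m, 0 < m → m < k → ∀ n, RepN m n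

theorem upto_succ {k : ℕ} (h : Upto k) (h1 : ∀ n, RepN k n) : Upto (k + 1) := by
  intro m h0 hm
  rcases Nat.lt_succ_iff_lt_or_eq.mp hm with h2 | rfl
  · exact h m h0 h2
  · exact h1

theorem u1 : Upto 1 := fun m h0 h1 => absurd h1 (by omega)
theorem u2 : Upto 2 := upto_succ u1 rep_one
theorem u3 : Upto 3 := upto_succ u2 rep_two
theorem u4 : Upto 4 := upto_succ u3 (rep_of_one c3_1 rfl rfl)
theorem u5 : Upto 5 := upto_succ u4 (rep_of_three c4_0 c4_1 c4_2 rfl rfl rfl)
theorem u6 : Upto 6 := upto_succ u5 (rep_of_three c5_0 c5_1 c5_2 rfl rfl rfl)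
theorem u7 : Upto 7 := upto_succ u6 (rep_of_one c6_1 rfl rfl)
theorem u8 : Upto 8 := upto_succ u7 (rep_of_three c7_0 c7_1 c7_2 rfl rfl rfl)
theorem u9 : Upto 9 := upto_succ u8 (rep_of_three c8_0 c8_1 c8_2 rfl rfl rfl)
theorem u10 : Upto 10 := upto_succ u9 (rep_of_one c9_1 rfl rfl)
theorem u11 : Upto 11 := upto_succ u10 (rep_of_three c10_0 c10_1 c10_2 rfl rfl rfl)
theorem u12 : Upto 12 := upto_succ u11 (rep_of_three c11_0 c11_1 c11_2 rfl rfl rfl)
theorem u13 : Upto 13 := upto_succ u12 (rep_of_one c12_1 rfl rfl)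
theorem u14 : Upto 14 := upto_succ u13 (rep_of_three c13_0 c13_1 c13_2 rfl rfl rfl)
theorem u15 : Upto 15 := upto_succ u14 (rep_of_three c14_0 c14_1 c14_2 rfl rfl rfl)
theorem u16 : Upto 16 := upto_succ u15 (rep_of_one c15_1 rfl rfl)
theorem u17 : Upto 17 := upto_succ u16 (rep_of_three c16_0 c16_1 c16_2 rfl rfl rfl)
theorem u18 : Upto 18 := upto_succ u17 (rep_of_three c17_0 c17_1 c17_2 rfl rfl rfl)
theorem u19 : Upto 19 := upto_succ u18 (rep_of_one c18_1 rfl rfl)
theorem u20 : Upto 20 := upto_succ u19 (rep_of_three c19_0 c19_1 c19_2 rfl rfl rfl)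
theorem u21 : Upto 21 := upto_succ u20 (rep_of_three c20_0 c20_1 c20_2 rfl rfl rfl)
theorem u22 : Upto 22 := upto_succ u21 (rep_of_one c21_1 rfl rfl)
theorem u23 : Upto 23 := upto_succ u22 (rep_of_three c22_0 c22_1 c22_2 rfl rfl rfl)
theorem u24 : Upto 24 := upto_succ u23 (rep_of_three c23_0 c23_1 c23_2 rfl rfl rfl)
theorem u25 : Upto 25 := upto_succ u24 (rep_of_one c24_1 rfl rfl)
theorem u26 : Upto 26 := upto_succ u25 (rep_of_three c25_0 c25_1 c25_2 rfl rfl rfl)
theorem u27 : Upto 27 := upto_succ u26 (rep_of_three c26_0 c26_1 c26_2 rfl rfl rfl)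
theorem u28 : Upto 28 := upto_succ u27 (rep_of_one c27_1 rfl rfl)
theorem u29 : Upto 29 := upto_succ u28 (rep_of_three c28_0 c28_1 c28_2 rfl rfl rfl)
theorem u30 : Upto 30 := upto_succ u29 (rep_of_three c29_0 c29_1 c29_2 rfl rfl rfl)
theorem u31 : Upto 31 := upto_succ u30 (rep_of_one c30_1 rfl rfl)
theorem u32 : Upto 32 := upto_succ u31 (rep_of_three c31_0 c31_1 c31_2 rfl rfl rfl)
theorem u33 : Upto 33 := upto_succ u32 (rep_of_three c32_0 c32_1 c32_2 rfl rfl rfl)
theorem u34 : Upto 34 := upto_succ u33 (rep_of_one c33_1 rfl rfl)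
theorem u35 : Upto 35 := upto_succ u34 (rep_of_three c34_0 c34_1 c34_2 rfl rfl rfl)
theorem u36 : Upto 36 := upto_succ u35 (rep_of_three c35_0 c35_1 c35_2 rfl rfl rfl)
theorem u37 : Upto 37 := upto_succ u36 (rep_of_one c36_1 rfl rfl)
theorem u38 : Upto 38 := upto_succ u37 (rep_of_three c37_0 c37_1 c37_2 rfl rfl rfl)
theorem u39 : Upto 39 := upto_succ u38 (rep_of_three c38_0 c38_1 c38_2 rfl rfl rfl)
theorem u40 : Upto 40 := upto_succ u39 (rep_of_one c39_1 rfl rfl)
theorem u41 : Upto 41 := upto_succ u40 (rep_of_three c40_0 c40_1 c40_2 rfl rfl rfl)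
theorem u42 : Upto 42 := upto_succ u41 (rep_of_three c41_0 c41_1 c41_2 rfl rfl rfl)
theorem u43 : Upto 43 := upto_succ u42 (rep_of_one c42_1 rfl rfl)
theorem u44 : Upto 44 := upto_succ u43 (rep_of_three c43_0 c43_1 c43_2 rfl rfl rfl)
theorem u45 : Upto 45 := upto_succ u44 (rep_of_three c44_0 c44_1 c44_2 rfl rfl rfl)
theorem u46 : Upto 46 := upto_succ u45 (rep_of_one c45_1 rfl rfl)
theorem u47 : Upto 47 := upto_succ u46 (rep_of_three c46_0 c46_1 c46_2 rfl rfl rfl)
theorem u48 : Upto 48 := upto_succ u47 (rep_of_three c47_0 c47_1 c47_2 rfl rfl rfl)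
theorem u49 : Upto 49 := upto_succ u48 (rep_of_one c48_1 rfl rfl)
theorem u50 : Upto 50 := upto_succ u49 (rep_of_three c49_0 c49_1 c49_2 rfl rfl rfl)
theorem u51 : Upto 51 := upto_succ u50 (rep_of_three c50_0 c50_1 c50_2 rfl rfl rfl)
theorem u52 : Upto 52 := upto_succ u51 (rep_of_one c51_1 rfl rfl)
theorem u53 : Upto 53 := upto_succ u52 (rep_of_three c52_0 c52_1 c52_2 rfl rfl rfl)
theorem u54 : Upto 54 := upto_succ u53 (rep_of_three c53_0 c53_1 c53_2 rfl rfl rfl)
theorem u55 : Upto 55 := upto_succ u54 (rep_of_one c54_1 rfl rfl)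
theorem u56 : Upto 56 := upto_succ u55 (rep_of_three c55_0 c55_1 c55_2 rfl rfl rfl)
theorem u57 : Upto 57 := upto_succ u56 (rep_of_three c56_0 c56_1 c56_2 rfl rfl rfl)
theorem u58 : Upto 58 := upto_succ u57 (rep_of_one c57_1 rfl rfl)
theorem u59 : Upto 59 := upto_succ u58 (rep_of_three c58_0 c58_1 c58_2 rfl rfl rfl)
theorem u60 : Upto 60 := upto_succ u59 (rep_of_three c59_0 c59_1 c59_2 rfl rfl rfl)
theorem u61 : Upto 61 := upto_succ u60 (rep_of_one c60_1 rfl rfl)
theorem u62 : Upto 62 := upto_succ u61 (rep_of_three c61_0 c61_1 c61_2 rfl rfl rfl)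
theorem u63 : Upto 63 := upto_succ u62 (rep_of_three c62_0 c62_1 c62_2 rfl rfl rfl)
theorem u64 : Upto 64 := upto_succ u63 (rep_of_one c63_1 rfl rfl)
theorem u65 : Upto 65 := upto_succ u64 (rep_of_three c64_0 c64_1 c64_2 rfl rfl rfl)
theorem u66 : Upto 66 := upto_succ u65 (rep_of_three c65_0 c65_1 c65_2 rfl rfl rfl)
theorem u67 : Upto 67 := upto_succ u66 (rep_of_one c66_1 rfl rfl)
theorem u68 : Upto 68 := upto_succ u67 (rep_of_three c67_0 c67_1 c67_2 rfl rfl rfl)
theorem u69 : Upto 69 := upto_succ u68 (rep_of_three c68_0 c68_1 c68_2 rfl rfl rfl)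
theorem u70 : Upto 70 := upto_succ u69 (rep_of_one c69_1 rfl rfl)
theorem u71 : Upto 71 := upto_succ u70 (rep_of_three c70_0 c70_1 c70_2 rfl rfl rfl)
theorem u72 : Upto 72 := upto_succ u71 (rep_of_three c71_0 c71_1 c71_2 rfl rfl rfl)
theorem u73 : Upto 73 := upto_succ u72 (rep_of_one c72_1 rfl rfl)
theorem u74 : Upto 74 := upto_succ u73 (rep_of_three c73_0 c73_1 c73_2 rfl rfl rfl)
theorem u75 : Upto 75 := upto_succ u74 (rep_of_three c74_0 c74_1 c74_2 rfl rfl rfl)
theorem u76 : Upto 76 := upto_succ u75 (rep_of_one c75_1 rfl rfl)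
theorem u77 : Upto 77 := upto_succ u76 (rep_of_three c76_0 c76_1 c76_2 rfl rfl rfl)
theorem u78 : Upto 78 := upto_succ u77 (rep_of_three c77_0 c77_1 c77_2 rfl rfl rfl)
theorem u79 : Upto 79 := upto_succ u78 (rep_of_one c78_1 rfl rfl)
theorem u80 : Upto 80 := upto_succ u79 (rep_of_three c79_0 c79_1 c79_2 rfl rfl rfl)
theorem u81 : Upto 81 := upto_succ u80 (rep_of_three c80_0 c80_1 c80_2 rfl rfl rfl)
theorem u82 : Upto 82 := upto_succ u81 (rep_of_one c81_1 rfl rfl)
theorem u83 : Upto 83 := upto_succ u82 (rep_of_three c82_0 c82_1 c82_2 rfl rfl rfl)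
theorem u84 : Upto 84 := upto_succ u83 (rep_of_three c83_0 c83_1 c83_2 rfl rfl rfl)
theorem u85 : Upto 85 := upto_succ u84 (rep_of_one c84_1 rfl rfl)
theorem u86 : Upto 86 := upto_succ u85 (rep_of_three c85_0 c85_1 c85_2 rfl rfl rfl)
theorem u87 : Upto 87 := upto_succ u86 (rep_of_three c86_0 c86_1 c86_2 rfl rfl rfl)
theorem u88 : Upto 88 := upto_succ u87 (rep_of_one c87_1 rfl rfl)
theorem u89 : Upto 89 := upto_succ u88 (rep_of_three c88_0 c88_1 c88_2 rfl rfl rfl)
theorem u90 : Upto 90 := upto_succ u89 (rep_of_three c89_0 c89_1 c89_2 rfl rfl rfl)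
theorem u91 : Upto 91 := upto_succ u90 (rep_of_one c90_1 rfl rfl)
theorem u92 : Upto 92 := upto_succ u91 (rep_of_three c91_0 c91_1 c91_2 rfl rfl rfl)
theorem u93 : Upto 93 := upto_succ u92 (rep_of_three c92_0 c92_1 c92_2 rfl rfl rfl)
theorem u94 : Upto 94 := upto_succ u93 (rep_of_one c93_1 rfl rfl)
theorem u95 : Upto 95 := upto_succ u94 (rep_of_three c94_0 c94_1 c94_2 rfl rfl rfl)
theorem u96 : Upto 96 := upto_succ u95 (rep_of_three c95_0 c95_1 c95_2 rfl rfl rfl)
theorem u97 : Upto 97 := upto_succ u96 (rep_of_one c96_1 rfl rfl)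
theorem u98 : Upto 98 := upto_succ u97 (rep_of_three c97_0 c97_1 c97_2 rfl rfl rfl)
theorem u99 : Upto 99 := upto_succ u98 (rep_of_three c98_0 c98_1 c98_2 rfl rfl rfl)
theorem u100 : Upto 100 := upto_succ u99 (rep_of_one c99_1 rfl rfl)
theorem u101 : Upto 101 := upto_succ u100 (rep_of_three c100_0 c100_1 c100_2 rfl rfl rfl)
theorem u102 : Upto 102 := upto_succ u101 (rep_of_three c101_0 c101_1 c101_2 rfl rfl rfl)
theorem u103 : Upto 103 := upto_succ u102 (rep_of_one c102_1 rfl rfl)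
theorem u104 : Upto 104 := upto_succ u103 (rep_of_three c103_0 c103_1 c103_2 rfl rfl rfl)
theorem u105 : Upto 105 := upto_succ u104 (rep_of_three c104_0 c104_1 c104_2 rfl rfl rfl)
theorem u106 : Upto 106 := upto_succ u105 (rep_of_one c105_1 rfl rfl)
theorem u107 : Upto 107 := upto_succ u106 (rep_of_three c106_0 c106_1 c106_2 rfl rfl rfl)
theorem u108 : Upto 108 := upto_succ u107 (rep_of_three c107_0 c107_1 c107_2 rfl rfl rfl)
theorem u109 : Upto 109 := upto_succ u108 (rep_of_one c108_1 rfl rfl)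
theorem u110 : Upto 110 := upto_succ u109 (rep_of_three c109_0 c109_1 c109_2 rfl rfl rfl)
theorem u111 : Upto 111 := upto_succ u110 (rep_of_three c110_0 c110_1 c110_2 rfl rfl rfl)
theorem u112 : Upto 112 := upto_succ u111 (rep_of_one c111_1 rfl rfl)
theorem u113 : Upto 113 := upto_succ u112 (rep_of_three c112_0 c112_1 c112_2 rfl rfl rfl)
theorem u114 : Upto 114 := upto_succ u113 (rep_of_three c113_0 c113_1 c113_2 rfl rfl rfl)
theorem u115 : Upto 115 := upto_succ u114 (rep_of_one c114_1 rfl rfl)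
theorem u116 : Upto 116 := upto_succ u115 (rep_of_three c115_0 c115_1 c115_2 rfl rfl rfl)
theorem u117 : Upto 117 := upto_succ u116 (rep_of_three c116_0 c116_1 c116_2 rfl rfl rfl)
theorem u118 : Upto 118 := upto_succ u117 (rep_of_one c117_1 rfl rfl)
theorem u119 : Upto 119 := upto_succ u118 (rep_of_three c118_0 c118_1 c118_2 rfl rfl rfl)
theorem u120 : Upto 120 := upto_succ u119 (rep_of_three c119_0 c119_1 c119_2 rfl rfl rfl)
theorem u121 : Upto 121 := upto_succ u120 (rep_of_one c120_1 rfl rfl)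
theorem u122 : Upto 122 := upto_succ u121 (rep_of_three c121_0 c121_1 c121_2 rfl rfl rfl)
theorem u123 : Upto 123 := upto_succ u122 (rep_of_three c122_0 c122_1 c122_2 rfl rfl rfl)
theorem u124 : Upto 124 := upto_succ u123 (rep_of_one c123_1 rfl rfl)
theorem u125 : Upto 125 := upto_succ u124 (rep_of_three c124_0 c124_1 c124_2 rfl rfl rfl)
theorem u126 : Upto 126 := upto_succ u125 (rep_of_three c125_0 c125_1 c125_2 rfl rfl rfl)
theorem u127 : Upto 127 := upto_succ u126 (rep_of_one c126_1 rfl rfl)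
theorem u128 : Upto 128 := upto_succ u127 (rep_of_three c127_0 c127_1 c127_2 rfl rfl rfl)
theorem u129 : Upto 129 := upto_succ u128 (rep_of_three c128_0 c128_1 c128_2 rfl rfl rfl)
theorem u130 : Upto 130 := upto_succ u129 (rep_of_one c129_1 rfl rfl)
theorem u131 : Upto 131 := upto_succ u130 (rep_of_three c130_0 c130_1 c130_2 rfl rfl rfl)
theorem u132 : Upto 132 := upto_succ u131 (rep_of_three c131_0 c131_1 c131_2 rfl rfl rfl)
theorem u133 : Upto 133 := upto_succ u132 (rep_of_one c132_1 rfl rfl)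
theorem u134 : Upto 134 := upto_succ u133 (rep_of_three c133_0 c133_1 c133_2 rfl rfl rfl)
theorem u135 : Upto 135 := upto_succ u134 (rep_of_three c134_0 c134_1 c134_2 rfl rfl rfl)
theorem u136 : Upto 136 := upto_succ u135 (rep_of_one c135_1 rfl rfl)
theorem u137 : Upto 137 := upto_succ u136 (rep_of_three c136_0 c136_1 c136_2 rfl rfl rfl)
theorem u138 : Upto 138 := upto_succ u137 (rep_of_three c137_0 c137_1 c137_2 rfl rfl rfl)
theorem u139 : Upto 139 := upto_succ u138 (rep_of_one c138_1 rfl rfl)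
theorem u140 : Upto 140 := upto_succ u139 (rep_of_three c139_0 c139_1 c139_2 rfl rfl rfl)
theorem u141 : Upto 141 := upto_succ u140 (rep_of_three c140_0 c140_1 c140_2 rfl rfl rfl)
theorem u142 : Upto 142 := upto_succ u141 (rep_of_one c141_1 rfl rfl)
theorem u143 : Upto 143 := upto_succ u142 (rep_of_three c142_0 c142_1 c142_2 rfl rfl rfl)
theorem u144 : Upto 144 := upto_succ u143 (rep_of_three c143_0 c143_1 c143_2 rfl rfl rfl)
theorem u145 : Upto 145 := upto_succ u144 (rep_of_one c144_1 rfl rfl)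
theorem u146 : Upto 146 := upto_succ u145 (rep_of_three c145_0 c145_1 c145_2 rfl rfl rfl)
theorem u147 : Upto 147 := upto_succ u146 (rep_of_three c146_0 c146_1 c146_2 rfl rfl rfl)
theorem u148 : Upto 148 := upto_succ u147 (rep_of_one c147_1 rfl rfl)
theorem u149 : Upto 149 := upto_succ u148 (rep_of_three c148_0 c148_1 c148_2 rfl rfl rfl)
theorem u150 : Upto 150 := upto_succ u149 (rep_of_three c149_0 c149_1 c149_2 rfl rfl rfl)
theorem u151 : Upto 151 := upto_succ u150 (rep_of_one c150_1 rfl rfl)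
theorem u152 : Upto 152 := upto_succ u151 (rep_of_three c151_0 c151_1 c151_2 rfl rfl rfl)
theorem u153 : Upto 153 := upto_succ u152 (rep_of_three c152_0 c152_1 c152_2 rfl rfl rfl)
theorem u154 : Upto 154 := upto_succ u153 (rep_of_one c153_1 rfl rfl)
theorem u155 : Upto 155 := upto_succ u154 (rep_of_three c154_0 c154_1 c154_2 rfl rfl rfl)
theorem u156 : Upto 156 := upto_succ u155 (rep_of_three c155_0 c155_1 c155_2 rfl rfl rfl)
theorem u157 : Upto 157 := upto_succ u156 (rep_of_one c156_1 rfl rfl)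
theorem u158 : Upto 158 := upto_succ u157 (rep_of_three c157_0 c157_1 c157_2 rfl rfl rfl)
theorem u159 : Upto 159 := upto_succ u158 (rep_of_three c158_0 c158_1 c158_2 rfl rfl rfl)
theorem u160 : Upto 160 := upto_succ u159 (rep_of_one c159_1 rfl rfl)
theorem u161 : Upto 161 := upto_succ u160 (rep_of_three c160_0 c160_1 c160_2 rfl rfl rfl)
theorem u162 : Upto 162 := upto_succ u161 (rep_of_three c161_0 c161_1 c161_2 rfl rfl rfl)
theorem u163 : Upto 163 := upto_succ u162 (rep_of_one c162_1 rfl rfl)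
theorem u164 : Upto 164 := upto_succ u163 (rep_of_three c163_0 c163_1 c163_2 rfl rfl rfl)
theorem u165 : Upto 165 := upto_succ u164 (rep_of_three c164_0 c164_1 c164_2 rfl rfl rfl)
theorem u166 : Upto 166 := upto_succ u165 (rep_of_one c165_1 rfl rfl)
theorem u167 : Upto 167 := upto_succ u166 (rep_of_three c166_0 c166_1 c166_2 rfl rfl rfl)
theorem u168 : Upto 168 := upto_succ u167 (rep_of_three c167_0 c167_1 c167_2 rfl rfl rfl)
theorem u169 : Upto 169 := upto_succ u168 (rep_of_one c168_1 rfl rfl)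
theorem u170 : Upto 170 := upto_succ u169 (rep_of_three c169_0 c169_1 c169_2 rfl rfl rfl)
theorem u171 : Upto 171 := upto_succ u170 (rep_of_three c170_0 c170_1 c170_2 rfl rfl rfl)
theorem u172 : Upto 172 := upto_succ u171 (rep_of_one c171_1 rfl rfl)
theorem u173 : Upto 173 := upto_succ u172 (rep_of_three c172_0 c172_1 c172_2 rfl rfl rfl)
theorem u174 : Upto 174 := upto_succ u173 (rep_of_three c173_0 c173_1 c173_2 rfl rfl rfl)
theorem u175 : Upto 175 := upto_succ u174 (rep_of_one c174_1 rfl rfl)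
theorem u176 : Upto 176 := upto_succ u175 (rep_of_three c175_0 c175_1 c175_2 rfl rfl rfl)
theorem u177 : Upto 177 := upto_succ u176 (rep_of_three c176_0 c176_1 c176_2 rfl rfl rfl)
theorem u178 : Upto 178 := upto_succ u177 (rep_of_one c177_1 rfl rfl)
theorem u179 : Upto 179 := upto_succ u178 (rep_of_three c178_0 c178_1 c178_2 rfl rfl rfl)
theorem u180 : Upto 180 := upto_succ u179 (rep_of_three c179_0 c179_1 c179_2 rfl rfl rfl)
theorem u181 : Upto 181 := upto_succ u180 (rep_of_one c180_1 rfl rfl)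
theorem u182 : Upto 182 := upto_succ u181 (rep_of_three c181_0 c181_1 c181_2 rfl rfl rfl)
theorem u183 : Upto 183 := upto_succ u182 (rep_of_three c182_0 c182_1 c182_2 rfl rfl rfl)
theorem u184 : Upto 184 := upto_succ u183 (rep_of_one c183_1 rfl rfl)
theorem u185 : Upto 185 := upto_succ u184 (rep_of_three c184_0 c184_1 c184_2 rfl rfl rfl)
theorem u186 : Upto 186 := upto_succ u185 (rep_of_three c185_0 c185_1 c185_2 rfl rfl rfl)
theorem u187 : Upto 187 := upto_succ u186 (rep_of_one c186_1 rfl rfl)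
theorem u188 : Upto 188 := upto_succ u187 (rep_of_three c187_0 c187_1 c187_2 rfl rfl rfl)
theorem u189 : Upto 189 := upto_succ u188 (rep_of_three c188_0 c188_1 c188_2 rfl rfl rfl)
theorem u190 : Upto 190 := upto_succ u189 (rep_of_one c189_1 rfl rfl)
theorem u191 : Upto 191 := upto_succ u190 (rep_of_three c190_0 c190_1 c190_2 rfl rfl rfl)
theorem u192 : Upto 192 := upto_succ u191 (rep_of_three c191_0 c191_1 c191_2 rfl rfl rfl)
theorem u193 : Upto 193 := upto_succ u192 (rep_of_one c192_1 rfl rfl)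
theorem u194 : Upto 194 := upto_succ u193 (rep_of_three c193_0 c193_1 c193_2 rfl rfl rfl)
theorem u195 : Upto 195 := upto_succ u194 (rep_of_three c194_0 c194_1 c194_2 rfl rfl rfl)
theorem u196 : Upto 196 := upto_succ u195 (rep_of_one c195_1 rfl rfl)
theorem u197 : Upto 197 := upto_succ u196 (rep_of_three c196_0 c196_1 c196_2 rfl rfl rfl)
theorem u198 : Upto 198 := upto_succ u197 (rep_of_three c197_0 c197_1 c197_2 rfl rfl rfl)
theorem u199 : Upto 199 := upto_succ u198 (rep_of_one c198_1 rfl rfl)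
theorem u200 : Upto 200 := upto_succ u199 (rep_of_three c199_0 c199_1 c199_2 rfl rfl rfl)
theorem u201 : Upto 201 := upto_succ u200 (rep_of_three c200_0 c200_1 c200_2 rfl rfl rfl)
theorem u202 : Upto 202 := upto_succ u201 (rep_of_one c201_1 rfl rfl)
theorem u203 : Upto 203 := upto_succ u202 (rep_of_three c202_0 c202_1 c202_2 rfl rfl rfl)
theorem u204 : Upto 204 := upto_succ u203 (rep_of_three c203_0 c203_1 c203_2 rfl rfl rfl)
theorem u205 : Upto 205 := upto_succ u204 (rep_of_one c204_1 rfl rfl)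
theorem u206 : Upto 206 := upto_succ u205 (rep_of_three c205_0 c205_1 c205_2 rfl rfl rfl)
theorem u207 : Upto 207 := upto_succ u206 (rep_of_three c206_0 c206_1 c206_2 rfl rfl rfl)
theorem u208 : Upto 208 := upto_succ u207 (rep_of_one c207_1 rfl rfl)
theorem u209 : Upto 209 := upto_succ u208 (rep_of_three c208_0 c208_1 c208_2 rfl rfl rfl)
theorem u210 : Upto 210 := upto_succ u209 (rep_of_three c209_0 c209_1 c209_2 rfl rfl rfl)
theorem u211 : Upto 211 := upto_succ u210 (rep_of_one c210_1 rfl rfl)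
theorem u212 : Upto 212 := upto_succ u211 (rep_of_three c211_0 c211_1 c211_2 rfl rfl rfl)
theorem u213 : Upto 213 := upto_succ u212 (rep_of_three c212_0 c212_1 c212_2 rfl rfl rfl)
theorem u214 : Upto 214 := upto_succ u213 (rep_of_one c213_1 rfl rfl)
theorem u215 : Upto 215 := upto_succ u214 (rep_of_three c214_0 c214_1 c214_2 rfl rfl rfl)
theorem u216 : Upto 216 := upto_succ u215 (rep_of_three c215_0 c215_1 c215_2 rfl rfl rfl)
theorem u217 : Upto 217 := upto_succ u216 (rep_of_one c216_1 rfl rfl)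
theorem u218 : Upto 218 := upto_succ u217 (rep_of_three c217_0 c217_1 c217_2 rfl rfl rfl)
theorem u219 : Upto 219 := upto_succ u218 (rep_of_three c218_0 c218_1 c218_2 rfl rfl rfl)
theorem u220 : Upto 220 := upto_succ u219 (rep_of_one c219_1 rfl rfl)
theorem u221 : Upto 221 := upto_succ u220 (rep_of_three c220_0 c220_1 c220_2 rfl rfl rfl)
theorem u222 : Upto 222 := upto_succ u221 (rep_of_three c221_0 c221_1 c221_2 rfl rfl rfl)
theorem u223 : Upto 223 := upto_succ u222 (rep_of_one c222_1 rfl rfl)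
theorem u224 : Upto 224 := upto_succ u223 (rep_of_three c223_0 c223_1 c223_2 rfl rfl rfl)
theorem u225 : Upto 225 := upto_succ u224 (rep_of_three c224_0 c224_1 c224_2 rfl rfl rfl)
theorem u226 : Upto 226 := upto_succ u225 (rep_of_one c225_1 rfl rfl)
theorem u227 : Upto 227 := upto_succ u226 (rep_of_three c226_0 c226_1 c226_2 rfl rfl rfl)
theorem u228 : Upto 228 := upto_succ u227 (rep_of_three c227_0 c227_1 c227_2 rfl rfl rfl)
theorem u229 : Upto 229 := upto_succ u228 (rep_of_one c228_1 rfl rfl)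
theorem u230 : Upto 230 := upto_succ u229 (rep_of_three c229_0 c229_1 c229_2 rfl rfl rfl)
theorem u231 : Upto 231 := upto_succ u230 (rep_of_three c230_0 c230_1 c230_2 rfl rfl rfl)
theorem u232 : Upto 232 := upto_succ u231 (rep_of_one c231_1 rfl rfl)
theorem u233 : Upto 233 := upto_succ u232 (rep_of_three c232_0 c232_1 c232_2 rfl rfl rfl)
theorem u234 : Upto 234 := upto_succ u233 (rep_of_three c233_0 c233_1 c233_2 rfl rfl rfl)
theorem u235 : Upto 235 := upto_succ u234 (rep_of_one c234_1 rfl rfl)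
theorem u236 : Upto 236 := upto_succ u235 (rep_of_three c235_0 c235_1 c235_2 rfl rfl rfl)
theorem u237 : Upto 237 := upto_succ u236 (rep_of_three c236_0 c236_1 c236_2 rfl rfl rfl)
theorem u238 : Upto 238 := upto_succ u237 (rep_of_one c237_1 rfl rfl)
theorem u239 : Upto 239 := upto_succ u238 (rep_of_three c238_0 c238_1 c238_2 rfl rfl rfl)
theorem u240 : Upto 240 := upto_succ u239 (rep_of_three c239_0 c239_1 c239_2 rfl rfl rfl)
theorem u241 : Upto 241 := upto_succ u240 (rep_of_one c240_1 rfl rfl)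
theorem u242 : Upto 242 := upto_succ u241 (rep_of_three c241_0 c241_1 c241_2 rfl rfl rfl)
theorem u243 : Upto 243 := upto_succ u242 (rep_of_three c242_0 c242_1 c242_2 rfl rfl rfl)
theorem u244 : Upto 244 := upto_succ u243 (rep_of_one c243_1 rfl rfl)
theorem u245 : Upto 245 := upto_succ u244 (rep_of_three c244_0 c244_1 c244_2 rfl rfl rfl)
theorem u246 : Upto 246 := upto_succ u245 (rep_of_three c245_0 c245_1 c245_2 rfl rfl rfl)
theorem u247 : Upto 247 := upto_succ u246 (rep_of_one c246_1 rfl rfl)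
theorem u248 : Upto 248 := upto_succ u247 (rep_of_three c247_0 c247_1 c247_2 rfl rfl rfl)
theorem u249 : Upto 249 := upto_succ u248 (rep_of_three c248_0 c248_1 c248_2 rfl rfl rfl)
theorem u250 : Upto 250 := upto_succ u249 (rep_of_one c249_1 rfl rfl)
theorem u251 : Upto 251 := upto_succ u250 (rep_of_three c250_0 c250_1 c250_2 rfl rfl rfl)
theorem u252 : Upto 252 := upto_succ u251 (rep_of_three c251_0 c251_1 c251_2 rfl rfl rfl)
theorem u253 : Upto 253 := upto_succ u252 (rep_of_one c252_1 rfl rfl)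
theorem u254 : Upto 254 := upto_succ u253 (rep_of_three c253_0 c253_1 c253_2 rfl rfl rfl)
theorem u255 : Upto 255 := upto_succ u254 (rep_of_three c254_0 c254_1 c254_2 rfl rfl rfl)
theorem u256 : Upto 256 := upto_succ u255 (rep_of_one c255_1 rfl rfl)
theorem u257 : Upto 257 := upto_succ u256 (rep_of_three c256_0 c256_1 c256_2 rfl rfl rfl)
theorem u258 : Upto 258 := upto_succ u257 (rep_of_three c257_0 c257_1 c257_2 rfl rfl rfl)
theorem u259 : Upto 259 := upto_succ u258 (rep_of_one c258_1 rfl rfl)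
theorem u260 : Upto 260 := upto_succ u259 (rep_of_three c259_0 c259_1 c259_2 rfl rfl rfl)
theorem u261 : Upto 261 := upto_succ u260 (rep_of_three c260_0 c260_1 c260_2 rfl rfl rfl)
theorem u262 : Upto 262 := upto_succ u261 (rep_of_one c261_1 rfl rfl)
theorem u263 : Upto 263 := upto_succ u262 (rep_of_three c262_0 c262_1 c262_2 rfl rfl rfl)
theorem u264 : Upto 264 := upto_succ u263 (rep_of_three c263_0 c263_1 c263_2 rfl rfl rfl)
theorem u265 : Upto 265 := upto_succ u264 (rep_of_one c264_1 rfl rfl)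
theorem u266 : Upto 266 := upto_succ u265 (rep_of_three c265_0 c265_1 c265_2 rfl rfl rfl)
theorem u267 : Upto 267 := upto_succ u266 (rep_of_three c266_0 c266_1 c266_2 rfl rfl rfl)
theorem u268 : Upto 268 := upto_succ u267 (rep_of_one c267_1 rfl rfl)
theorem u269 : Upto 269 := upto_succ u268 (rep_of_three c268_0 c268_1 c268_2 rfl rfl rfl)
theorem u270 : Upto 270 := upto_succ u269 (rep_of_three c269_0 c269_1 c269_2 rfl rfl rfl)
theorem u271 : Upto 271 := upto_succ u270 (rep_of_one c270_1 rfl rfl)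
theorem u272 : Upto 272 := upto_succ u271 (rep_of_three c271_0 c271_1 c271_2 rfl rfl rfl)
theorem u273 : Upto 273 := upto_succ u272 (rep_of_three c272_0 c272_1 c272_2 rfl rfl rfl)
theorem u274 : Upto 274 := upto_succ u273 (rep_of_one c273_1 rfl rfl)
theorem u275 : Upto 275 := upto_succ u274 (rep_of_three c274_0 c274_1 c274_2 rfl rfl rfl)
theorem u276 : Upto 276 := upto_succ u275 (rep_of_three c275_0 c275_1 c275_2 rfl rfl rfl)
theorem u277 : Upto 277 := upto_succ u276 (rep_of_one c276_1 rfl rfl)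
theorem u278 : Upto 278 := upto_succ u277 (rep_of_three c277_0 c277_1 c277_2 rfl rfl rfl)
theorem u279 : Upto 279 := upto_succ u278 (rep_of_three c278_0 c278_1 c278_2 rfl rfl rfl)
theorem u280 : Upto 280 := upto_succ u279 (rep_of_one c279_1 rfl rfl)
theorem u281 : Upto 281 := upto_succ u280 (rep_of_three c280_0 c280_1 c280_2 rfl rfl rfl)
theorem u282 : Upto 282 := upto_succ u281 (rep_of_three c281_0 c281_1 c281_2 rfl rfl rfl)
theorem u283 : Upto 283 := upto_succ u282 (rep_of_one c282_1 rfl rfl)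
theorem u284 : Upto 284 := upto_succ u283 (rep_of_three c283_0 c283_1 c283_2 rfl rfl rfl)
theorem u285 : Upto 285 := upto_succ u284 (rep_of_three c284_0 c284_1 c284_2 rfl rfl rfl)
theorem u286 : Upto 286 := upto_succ u285 (rep_of_one c285_1 rfl rfl)
theorem u287 : Upto 287 := upto_succ u286 (rep_of_three c286_0 c286_1 c286_2 rfl rfl rfl)
theorem u288 : Upto 288 := upto_succ u287 (rep_of_three c287_0 c287_1 c287_2 rfl rfl rfl)
theorem u289 : Upto 289 := upto_succ u288 (rep_of_one c288_1 rfl rfl)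
theorem u290 : Upto 290 := upto_succ u289 (rep_of_three c289_0 c289_1 c289_2 rfl rfl rfl)
theorem u291 : Upto 291 := upto_succ u290 (rep_of_three c290_0 c290_1 c290_2 rfl rfl rfl)
theorem u292 : Upto 292 := upto_succ u291 (rep_of_one c291_1 rfl rfl)
theorem u293 : Upto 293 := upto_succ u292 (rep_of_three c292_0 c292_1 c292_2 rfl rfl rfl)
theorem u294 : Upto 294 := upto_succ u293 (rep_of_three c293_0 c293_1 c293_2 rfl rfl rfl)
theorem u295 : Upto 295 := upto_succ u294 (rep_of_one c294_1 rfl rfl)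
theorem u296 : Upto 296 := upto_succ u295 (rep_of_three c295_0 c295_1 c295_2 rfl rfl rfl)
theorem u297 : Upto 297 := upto_succ u296 (rep_of_three c296_0 c296_1 c296_2 rfl rfl rfl)
theorem u298 : Upto 298 := upto_succ u297 (rep_of_one c297_1 rfl rfl)
theorem u299 : Upto 299 := upto_succ u298 (rep_of_three c298_0 c298_1 c298_2 rfl rfl rfl)
theorem u300 : Upto 300 := upto_succ u299 (rep_of_three c299_0 c299_1 c299_2 rfl rfl rfl)
theorem u301 : Upto 301 := upto_succ u300 (rep_of_one c300_1 rfl rfl)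
theorem u302 : Upto 302 := upto_succ u301 (rep_of_three c301_0 c301_1 c301_2 rfl rfl rfl)
theorem u303 : Upto 303 := upto_succ u302 (rep_of_three c302_0 c302_1 c302_2 rfl rfl rfl)
theorem u304 : Upto 304 := upto_succ u303 (rep_of_one c303_1 rfl rfl)
theorem u305 : Upto 305 := upto_succ u304 (rep_of_three c304_0 c304_1 c304_2 rfl rfl rfl)
theorem u306 : Upto 306 := upto_succ u305 (rep_of_three c305_0 c305_1 c305_2 rfl rfl rfl)
theorem u307 : Upto 307 := upto_succ u306 (rep_of_one c306_1 rfl rfl)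
theorem u308 : Upto 308 := upto_succ u307 (rep_of_three c307_0 c307_1 c307_2 rfl rfl rfl)
theorem u309 : Upto 309 := upto_succ u308 (rep_of_three c308_0 c308_1 c308_2 rfl rfl rfl)
theorem u310 : Upto 310 := upto_succ u309 (rep_of_one c309_1 rfl rfl)
theorem u311 : Upto 311 := upto_succ u310 (rep_of_three c310_0 c310_1 c310_2 rfl rfl rfl)
theorem u312 : Upto 312 := upto_succ u311 (rep_of_three c311_0 c311_1 c311_2 rfl rfl rfl)
theorem u313 : Upto 313 := upto_succ u312 (rep_of_one c312_1 rfl rfl)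
theorem u314 : Upto 314 := upto_succ u313 (rep_of_three c313_0 c313_1 c313_2 rfl rfl rfl)
theorem u315 : Upto 315 := upto_succ u314 (rep_of_three c314_0 c314_1 c314_2 rfl rfl rfl)
theorem u316 : Upto 316 := upto_succ u315 (rep_of_one c315_1 rfl rfl)
theorem u317 : Upto 317 := upto_succ u316 (rep_of_three c316_0 c316_1 c316_2 rfl rfl rfl)
theorem u318 : Upto 318 := upto_succ u317 (rep_of_three c317_0 c317_1 c317_2 rfl rfl rfl)
theorem u319 : Upto 319 := upto_succ u318 (rep_of_one c318_1 rfl rfl)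
theorem u320 : Upto 320 := upto_succ u319 (rep_of_three c319_0 c319_1 c319_2 rfl rfl rfl)
theorem u321 : Upto 321 := upto_succ u320 (rep_of_three c320_0 c320_1 c320_2 rfl rfl rfl)
theorem u322 : Upto 322 := upto_succ u321 (rep_of_one c321_1 rfl rfl)
theorem u323 : Upto 323 := upto_succ u322 (rep_of_three c322_0 c322_1 c322_2 rfl rfl rfl)
theorem u324 : Upto 324 := upto_succ u323 (rep_of_three c323_0 c323_1 c323_2 rfl rfl rfl)
theorem u325 : Upto 325 := upto_succ u324 (rep_of_one c324_1 rfl rfl)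
theorem u326 : Upto 326 := upto_succ u325 (rep_of_three c325_0 c325_1 c325_2 rfl rfl rfl)
theorem u327 : Upto 327 := upto_succ u326 (rep_of_three c326_0 c326_1 c326_2 rfl rfl rfl)
theorem u328 : Upto 328 := upto_succ u327 (rep_of_one c327_1 rfl rfl)
theorem u329 : Upto 329 := upto_succ u328 (rep_of_three c328_0 c328_1 c328_2 rfl rfl rfl)
theorem u330 : Upto 330 := upto_succ u329 (rep_of_three c329_0 c329_1 c329_2 rfl rfl rfl)
theorem u331 : Upto 331 := upto_succ u330 (rep_of_one c330_1 rfl rfl)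
theorem u332 : Upto 332 := upto_succ u331 (rep_of_three c331_0 c331_1 c331_2 rfl rfl rfl)
theorem u333 : Upto 333 := upto_succ u332 (rep_of_three c332_0 c332_1 c332_2 rfl rfl rfl)
theorem u334 : Upto 334 := upto_succ u333 (rep_of_one c333_1 rfl rfl)
theorem u335 : Upto 335 := upto_succ u334 (rep_of_three c334_0 c334_1 c334_2 rfl rfl rfl)
theorem u336 : Upto 336 := upto_succ u335 (rep_of_three c335_0 c335_1 c335_2 rfl rfl rfl)
theorem u337 : Upto 337 := upto_succ u336 (rep_of_one c336_1 rfl rfl)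
theorem u338 : Upto 338 := upto_succ u337 (rep_of_three c337_0 c337_1 c337_2 rfl rfl rfl)
theorem u339 : Upto 339 := upto_succ u338 (rep_of_three c338_0 c338_1 c338_2 rfl rfl rfl)
theorem u340 : Upto 340 := upto_succ u339 (rep_of_one c339_1 rfl rfl)
theorem u341 : Upto 341 := upto_succ u340 (rep_of_three c340_0 c340_1 c340_2 rfl rfl rfl)
theorem u342 : Upto 342 := upto_succ u341 (rep_of_three c341_0 c341_1 c341_2 rfl rfl rfl)
theorem u343 : Upto 343 := upto_succ u342 (rep_of_one c342_1 rfl rfl)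
theorem u344 : Upto 344 := upto_succ u343 (rep_of_three c343_0 c343_1 c343_2 rfl rfl rfl)
theorem u345 : Upto 345 := upto_succ u344 (rep_of_three c344_0 c344_1 c344_2 rfl rfl rfl)
theorem u346 : Upto 346 := upto_succ u345 (rep_of_one c345_1 rfl rfl)
theorem u347 : Upto 347 := upto_succ u346 (rep_of_three c346_0 c346_1 c346_2 rfl rfl rfl)
theorem u348 : Upto 348 := upto_succ u347 (rep_of_three c347_0 c347_1 c347_2 rfl rfl rfl)
theorem u349 : Upto 349 := upto_succ u348 (rep_of_one c348_1 rfl rfl)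
theorem u350 : Upto 350 := upto_succ u349 (rep_of_three c349_0 c349_1 c349_2 rfl rfl rfl)
theorem u351 : Upto 351 := upto_succ u350 (rep_of_three c350_0 c350_1 c350_2 rfl rfl rfl)
theorem u352 : Upto 352 := upto_succ u351 (rep_of_one c351_1 rfl rfl)
theorem u353 : Upto 353 := upto_succ u352 (rep_of_three c352_0 c352_1 c352_2 rfl rfl rfl)
theorem u354 : Upto 354 := upto_succ u353 (rep_of_three c353_0 c353_1 c353_2 rfl rfl rfl)
theorem u355 : Upto 355 := upto_succ u354 (rep_of_one c354_1 rfl rfl)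
theorem u356 : Upto 356 := upto_succ u355 (rep_of_three c355_0 c355_1 c355_2 rfl rfl rfl)
theorem u357 : Upto 357 := upto_succ u356 (rep_of_three c356_0 c356_1 c356_2 rfl rfl rfl)
theorem u358 : Upto 358 := upto_succ u357 (rep_of_one c357_1 rfl rfl)
theorem u359 : Upto 359 := upto_succ u358 (rep_of_three c358_0 c358_1 c358_2 rfl rfl rfl)
theorem u360 : Upto 360 := upto_succ u359 (rep_of_three c359_0 c359_1 c359_2 rfl rfl rfl)
theorem u361 : Upto 361 := upto_succ u360 (rep_of_one c360_1 rfl rfl)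
theorem u362 : Upto 362 := upto_succ u361 (rep_of_three c361_0 c361_1 c361_2 rfl rfl rfl)
theorem u363 : Upto 363 := upto_succ u362 (rep_of_three c362_0 c362_1 c362_2 rfl rfl rfl)
theorem u364 : Upto 364 := upto_succ u363 (rep_of_one c363_1 rfl rfl)
theorem u365 : Upto 365 := upto_succ u364 (rep_of_three c364_0 c364_1 c364_2 rfl rfl rfl)
theorem u366 : Upto 366 := upto_succ u365 (rep_of_three c365_0 c365_1 c365_2 rfl rfl rfl)
theorem u367 : Upto 367 := upto_succ u366 (rep_of_one c366_1 rfl rfl)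
theorem u368 : Upto 368 := upto_succ u367 (rep_of_three c367_0 c367_1 c367_2 rfl rfl rfl)
theorem u369 : Upto 369 := upto_succ u368 (rep_of_three c368_0 c368_1 c368_2 rfl rfl rfl)
theorem u370 : Upto 370 := upto_succ u369 (rep_of_one c369_1 rfl rfl)
theorem u371 : Upto 371 := upto_succ u370 (rep_of_three c370_0 c370_1 c370_2 rfl rfl rfl)
theorem u372 : Upto 372 := upto_succ u371 (rep_of_three c371_0 c371_1 c371_2 rfl rfl rfl)
theorem u373 : Upto 373 := upto_succ u372 (rep_of_one c372_1 rfl rfl)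
theorem u374 : Upto 374 := upto_succ u373 (rep_of_three c373_0 c373_1 c373_2 rfl rfl rfl)
theorem u375 : Upto 375 := upto_succ u374 (rep_of_three c374_0 c374_1 c374_2 rfl rfl rfl)
theorem u376 : Upto 376 := upto_succ u375 (rep_of_one c375_1 rfl rfl)
theorem u377 : Upto 377 := upto_succ u376 (rep_of_three c376_0 c376_1 c376_2 rfl rfl rfl)
theorem u378 : Upto 378 := upto_succ u377 (rep_of_three c377_0 c377_1 c377_2 rfl rfl rfl)
theorem u379 : Upto 379 := upto_succ u378 (rep_of_one c378_1 rfl rfl)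
theorem u380 : Upto 380 := upto_succ u379 (rep_of_three c379_0 c379_1 c379_2 rfl rfl rfl)
theorem u381 : Upto 381 := upto_succ u380 (rep_of_three c380_0 c380_1 c380_2 rfl rfl rfl)
theorem u382 : Upto 382 := upto_succ u381 (rep_of_one c381_1 rfl rfl)
theorem u383 : Upto 383 := upto_succ u382 (rep_of_three c382_0 c382_1 c382_2 rfl rfl rfl)
theorem u384 : Upto 384 := upto_succ u383 (rep_of_three c383_0 c383_1 c383_2 rfl rfl rfl)
theorem u385 : Upto 385 := upto_succ u384 (rep_of_one c384_1 rfl rfl)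
theorem u386 : Upto 386 := upto_succ u385 (rep_of_three c385_0 c385_1 c385_2 rfl rfl rfl)
theorem u387 : Upto 387 := upto_succ u386 (rep_of_three c386_0 c386_1 c386_2 rfl rfl rfl)
theorem u388 : Upto 388 := upto_succ u387 (rep_of_one c387_1 rfl rfl)
theorem u389 : Upto 389 := upto_succ u388 (rep_of_three c388_0 c388_1 c388_2 rfl rfl rfl)
theorem u390 : Upto 390 := upto_succ u389 (rep_of_three c389_0 c389_1 c389_2 rfl rfl rfl)
theorem u391 : Upto 391 := upto_succ u390 (rep_of_one c390_1 rfl rfl)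
theorem u392 : Upto 392 := upto_succ u391 (rep_of_three c391_0 c391_1 c391_2 rfl rfl rfl)
theorem u393 : Upto 393 := upto_succ u392 (rep_of_three c392_0 c392_1 c392_2 rfl rfl rfl)
theorem u394 : Upto 394 := upto_succ u393 (rep_of_one c393_1 rfl rfl)
theorem u395 : Upto 395 := upto_succ u394 (rep_of_three c394_0 c394_1 c394_2 rfl rfl rfl)
theorem u396 : Upto 396 := upto_succ u395 (rep_of_three c395_0 c395_1 c395_2 rfl rfl rfl)
theorem u397 : Upto 397 := upto_succ u396 (rep_of_one c396_1 rfl rfl)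
theorem u398 : Upto 398 := upto_succ u397 (rep_of_three c397_0 c397_1 c397_2 rfl rfl rfl)
theorem u399 : Upto 399 := upto_succ u398 (rep_of_three c398_0 c398_1 c398_2 rfl rfl rfl)
theorem u400 : Upto 400 := upto_succ u399 (rep_of_one c399_1 rfl rfl)
theorem u401 : Upto 401 := upto_succ u400 (rep_of_three c400_0 c400_1 c400_2 rfl rfl rfl)
theorem u402 : Upto 402 := upto_succ u401 (rep_of_three c401_0 c401_1 c401_2 rfl rfl rfl)
theorem u403 : Upto 403 := upto_succ u402 (rep_of_one c402_1 rfl rfl)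
theorem u404 : Upto 404 := upto_succ u403 (rep_of_three c403_0 c403_1 c403_2 rfl rfl rfl)
theorem u405 : Upto 405 := upto_succ u404 (rep_of_three c404_0 c404_1 c404_2 rfl rfl rfl)
theorem u406 : Upto 406 := upto_succ u405 (rep_of_one c405_1 rfl rfl)
theorem u407 : Upto 407 := upto_succ u406 (rep_of_three c406_0 c406_1 c406_2 rfl rfl rfl)
theorem u408 : Upto 408 := upto_succ u407 (rep_of_three c407_0 c407_1 c407_2 rfl rfl rfl)
theorem u409 : Upto 409 := upto_succ u408 (rep_of_one c408_1 rfl rfl)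
theorem u410 : Upto 410 := upto_succ u409 (rep_of_three c409_0 c409_1 c409_2 rfl rfl rfl)
theorem u411 : Upto 411 := upto_succ u410 (rep_of_three c410_0 c410_1 c410_2 rfl rfl rfl)
theorem u412 : Upto 412 := upto_succ u411 (rep_of_one c411_1 rfl rfl)
theorem u413 : Upto 413 := upto_succ u412 (rep_of_three c412_0 c412_1 c412_2 rfl rfl rfl)
theorem u414 : Upto 414 := upto_succ u413 (rep_of_three c413_0 c413_1 c413_2 rfl rfl rfl)
theorem u415 : Upto 415 := upto_succ u414 (rep_of_one c414_1 rfl rfl)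
theorem u416 : Upto 416 := upto_succ u415 (rep_of_three c415_0 c415_1 c415_2 rfl rfl rfl)
theorem u417 : Upto 417 := upto_succ u416 (rep_of_three c416_0 c416_1 c416_2 rfl rfl rfl)
theorem u418 : Upto 418 := upto_succ u417 (rep_of_one c417_1 rfl rfl)
theorem u419 : Upto 419 := upto_succ u418 (rep_of_three c418_0 c418_1 c418_2 rfl rfl rfl)
theorem u420 : Upto 420 := upto_succ u419 (rep_of_three c419_0 c419_1 c419_2 rfl rfl rfl)
theorem u421 : Upto 421 := upto_succ u420 (rep_of_one c420_1 rfl rfl)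
theorem u422 : Upto 422 := upto_succ u421 (rep_of_three c421_0 c421_1 c421_2 rfl rfl rfl)
theorem u423 : Upto 423 := upto_succ u422 (rep_of_three c422_0 c422_1 c422_2 rfl rfl rfl)
theorem u424 : Upto 424 := upto_succ u423 (rep_of_one c423_1 rfl rfl)
theorem u425 : Upto 425 := upto_succ u424 (rep_of_three c424_0 c424_1 c424_2 rfl rfl rfl)
theorem u426 : Upto 426 := upto_succ u425 (rep_of_three c425_0 c425_1 c425_2 rfl rfl rfl)
theorem u427 : Upto 427 := upto_succ u426 (rep_of_one c426_1 rfl rfl)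
theorem u428 : Upto 428 := upto_succ u427 (rep_of_three c427_0 c427_1 c427_2 rfl rfl rfl)
theorem u429 : Upto 429 := upto_succ u428 (rep_of_three c428_0 c428_1 c428_2 rfl rfl rfl)
theorem u430 : Upto 430 := upto_succ u429 (rep_of_one c429_1 rfl rfl)
theorem u431 : Upto 431 := upto_succ u430 (rep_of_three c430_0 c430_1 c430_2 rfl rfl rfl)
theorem u432 : Upto 432 := upto_succ u431 (rep_of_three c431_0 c431_1 c431_2 rfl rfl rfl)
theorem u433 : Upto 433 := upto_succ u432 (rep_of_one c432_1 rfl rfl)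
theorem u434 : Upto 434 := upto_succ u433 (rep_of_three c433_0 c433_1 c433_2 rfl rfl rfl)
theorem u435 : Upto 435 := upto_succ u434 (rep_of_three c434_0 c434_1 c434_2 rfl rfl rfl)
theorem u436 : Upto 436 := upto_succ u435 (rep_of_one c435_1 rfl rfl)
theorem u437 : Upto 437 := upto_succ u436 (rep_of_three c436_0 c436_1 c436_2 rfl rfl rfl)
theorem u438 : Upto 438 := upto_succ u437 (rep_of_three c437_0 c437_1 c437_2 rfl rfl rfl)
theorem u439 : Upto 439 := upto_succ u438 (rep_of_one c438_1 rfl rfl)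
theorem u440 : Upto 440 := upto_succ u439 (rep_of_three c439_0 c439_1 c439_2 rfl rfl rfl)
theorem u441 : Upto 441 := upto_succ u440 (rep_of_three c440_0 c440_1 c440_2 rfl rfl rfl)
theorem u442 : Upto 442 := upto_succ u441 (rep_of_one c441_1 rfl rfl)
theorem u443 : Upto 443 := upto_succ u442 (rep_of_three c442_0 c442_1 c442_2 rfl rfl rfl)
theorem u444 : Upto 444 := upto_succ u443 (rep_of_three c443_0 c443_1 c443_2 rfl rfl rfl)
theorem u445 : Upto 445 := upto_succ u444 (rep_of_one c444_1 rfl rfl)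
theorem u446 : Upto 446 := upto_succ u445 (rep_of_three c445_0 c445_1 c445_2 rfl rfl rfl)
theorem u447 : Upto 447 := upto_succ u446 (rep_of_three c446_0 c446_1 c446_2 rfl rfl rfl)
theorem u448 : Upto 448 := upto_succ u447 (rep_of_one c447_1 rfl rfl)
theorem u449 : Upto 449 := upto_succ u448 (rep_of_three c448_0 c448_1 c448_2 rfl rfl rfl)
theorem u450 : Upto 450 := upto_succ u449 (rep_of_three c449_0 c449_1 c449_2 rfl rfl rfl)
theorem u451 : Upto 451 := upto_succ u450 (rep_of_one c450_1 rfl rfl)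
theorem u452 : Upto 452 := upto_succ u451 (rep_of_three c451_0 c451_1 c451_2 rfl rfl rfl)
theorem u453 : Upto 453 := upto_succ u452 (rep_of_three c452_0 c452_1 c452_2 rfl rfl rfl)
theorem u454 : Upto 454 := upto_succ u453 (rep_of_one c453_1 rfl rfl)
theorem u455 : Upto 455 := upto_succ u454 (rep_of_three c454_0 c454_1 c454_2 rfl rfl rfl)
theorem u456 : Upto 456 := upto_succ u455 (rep_of_three c455_0 c455_1 c455_2 rfl rfl rfl)
theorem u457 : Upto 457 := upto_succ u456 (rep_of_one c456_1 rfl rfl)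
theorem u458 : Upto 458 := upto_succ u457 (rep_of_three c457_0 c457_1 c457_2 rfl rfl rfl)
theorem u459 : Upto 459 := upto_succ u458 (rep_of_three c458_0 c458_1 c458_2 rfl rfl rfl)
theorem u460 : Upto 460 := upto_succ u459 (rep_of_one c459_1 rfl rfl)
theorem u461 : Upto 461 := upto_succ u460 (rep_of_three c460_0 c460_1 c460_2 rfl rfl rfl)
theorem u462 : Upto 462 := upto_succ u461 (rep_of_three c461_0 c461_1 c461_2 rfl rfl rfl)
theorem u463 : Upto 463 := upto_succ u462 (rep_of_one c462_1 rfl rfl)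
theorem u464 : Upto 464 := upto_succ u463 (rep_of_three c463_0 c463_1 c463_2 rfl rfl rfl)
theorem u465 : Upto 465 := upto_succ u464 (rep_of_three c464_0 c464_1 c464_2 rfl rfl rfl)
theorem u466 : Upto 466 := upto_succ u465 (rep_of_one c465_1 rfl rfl)
theorem u467 : Upto 467 := upto_succ u466 (rep_of_three c466_0 c466_1 c466_2 rfl rfl rfl)
theorem u468 : Upto 468 := upto_succ u467 (rep_of_three c467_0 c467_1 c467_2 rfl rfl rfl)
theorem u469 : Upto 469 := upto_succ u468 (rep_of_one c468_1 rfl rfl)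
theorem u470 : Upto 470 := upto_succ u469 (rep_of_three c469_0 c469_1 c469_2 rfl rfl rfl)
theorem u471 : Upto 471 := upto_succ u470 (rep_of_three c470_0 c470_1 c470_2 rfl rfl rfl)
theorem u472 : Upto 472 := upto_succ u471 (rep_of_one c471_1 rfl rfl)
theorem u473 : Upto 473 := upto_succ u472 (rep_of_three c472_0 c472_1 c472_2 rfl rfl rfl)
theorem u474 : Upto 474 := upto_succ u473 (rep_of_three c473_0 c473_1 c473_2 rfl rfl rfl)
theorem u475 : Upto 475 := upto_succ u474 (rep_of_one c474_1 rfl rfl)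
theorem u476 : Upto 476 := upto_succ u475 (rep_of_three c475_0 c475_1 c475_2 rfl rfl rfl)
theorem u477 : Upto 477 := upto_succ u476 (rep_of_three c476_0 c476_1 c476_2 rfl rfl rfl)
theorem u478 : Upto 478 := upto_succ u477 (rep_of_one c477_1 rfl rfl)
theorem u479 : Upto 479 := upto_succ u478 (rep_of_three c478_0 c478_1 c478_2 rfl rfl rfl)
theorem u480 : Upto 480 := upto_succ u479 (rep_of_three c479_0 c479_1 c479_2 rfl rfl rfl)
theorem u481 : Upto 481 := upto_succ u480 (rep_of_one c480_1 rfl rfl)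
theorem u482 : Upto 482 := upto_succ u481 (rep_of_three c481_0 c481_1 c481_2 rfl rfl rfl)
theorem u483 : Upto 483 := upto_succ u482 (rep_of_three c482_0 c482_1 c482_2 rfl rfl rfl)
theorem u484 : Upto 484 := upto_succ u483 (rep_of_one c483_1 rfl rfl)
theorem u485 : Upto 485 := upto_succ u484 (rep_of_three c484_0 c484_1 c484_2 rfl rfl rfl)
theorem u486 : Upto 486 := upto_succ u485 (rep_of_three c485_0 c485_1 c485_2 rfl rfl rfl)
theorem u487 : Upto 487 := upto_succ u486 (rep_of_one c486_1 rfl rfl)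
theorem u488 : Upto 488 := upto_succ u487 (rep_of_three c487_0 c487_1 c487_2 rfl rfl rfl)
theorem u489 : Upto 489 := upto_succ u488 (rep_of_three c488_0 c488_1 c488_2 rfl rfl rfl)
theorem u490 : Upto 490 := upto_succ u489 (rep_of_one c489_1 rfl rfl)
theorem u491 : Upto 491 := upto_succ u490 (rep_of_three c490_0 c490_1 c490_2 rfl rfl rfl)
theorem u492 : Upto 492 := upto_succ u491 (rep_of_three c491_0 c491_1 c491_2 rfl rfl rfl)
theorem u493 : Upto 493 := upto_succ u492 (rep_of_one c492_1 rfl rfl)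
theorem u494 : Upto 494 := upto_succ u493 (rep_of_three c493_0 c493_1 c493_2 rfl rfl rfl)
theorem u495 : Upto 495 := upto_succ u494 (rep_of_three c494_0 c494_1 c494_2 rfl rfl rfl)
theorem u496 : Upto 496 := upto_succ u495 (rep_of_one c495_1 rfl rfl)
theorem u497 : Upto 497 := upto_succ u496 (rep_of_three c496_0 c496_1 c496_2 rfl rfl rfl)
theorem u498 : Upto 498 := upto_succ u497 (rep_of_three c497_0 c497_1 c497_2 rfl rfl rfl)
theorem u499 : Upto 499 := upto_succ u498 (rep_of_one c498_1 rfl rfl)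
theorem u500 : Upto 500 := upto_succ u499 (rep_of_three c499_0 c499_1 c499_2 rfl rfl rfl)
theorem u501 : Upto 501 := upto_succ u500 (rep_of_three c500_0 c500_1 c500_2 rfl rfl rfl)
theorem u502 : Upto 502 := upto_succ u501 (rep_of_one c501_1 rfl rfl)
theorem u503 : Upto 503 := upto_succ u502 (rep_of_three c502_0 c502_1 c502_2 rfl rfl rfl)
theorem u504 : Upto 504 := upto_succ u503 (rep_of_three c503_0 c503_1 c503_2 rfl rfl rfl)
theorem u505 : Upto 505 := upto_succ u504 (rep_of_one c504_1 rfl rfl)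
theorem u506 : Upto 506 := upto_succ u505 (rep_of_three c505_0 c505_1 c505_2 rfl rfl rfl)
theorem u507 : Upto 507 := upto_succ u506 (rep_of_three c506_0 c506_1 c506_2 rfl rfl rfl)

end Pool.Agent.Lib.MP_568bdc_nt
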