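import Pool.Agent.Lib.MP_568bdc_nt.DiscWalk

/-! Soundness of the finite checker. -/

namespace Pool.Agent.Lib.MP_568bdc_nt

theorem outer_s01 (W : V3) : W.outer.s01 = W.s01.outer := by
  simp only [S6.ext_iff, V3.outer, S6.s01, V3.s01]; simp [mul_comm]

theorem outer_s12 (W : V3) : W.outer.s12 = W.s12.outer := by
  simp only [S6.ext_iff, V3.outer, S6.s12, V3.s12]; simp [mul_comm]

theorem outer_neg (W : V3) : W.neg.outer = W.outer := by
  simp only [S6.ext_iff, V3.outer, V3.neg]; simp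

theorem Step.o01 {X A X'} {W : V3} (h : Step X A X' W.outer) : Step X A X'.s01 W.s01.outer := by
  rw [← outer_s01]; exact h.q01

theorem Step.o12 {X A X'} {W : V3} (h : Step X A X' W.outer) : Step X A X'.s12 W.s12.outer := by
  rw [← outer_s12]; exact h.q12

theorem outer_base (Y : V3) (t : ℤ) (ht : 3 * t = -Y.x + Y.y + Y.z) :
    (V3.outer ⟨-Y.x - 2 * t, Y.y - 2 * t, Y.z - 2 * t⟩).sm 9 = Y.outer.d0.tm := by
  obtain ⟨x, y, z⟩ := Y
  simp only at ht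
  obtain rfl : x = y + z - 3 * t := by omega
  simp only [S6.ext_iff, V3.outer, S6.sm, S6.d0, S6.tm]
  refine ⟨by ring, by ring, by ring, by ring, by ring, by ring⟩

noncomputable def yv (r : ℕ) : V3 := ⟨(cU r : ℤ) - 1048576, (cV r : ℤ) - 1048576, (cW r : ℤ) - 1048576⟩

def Tgt (M : ℤ) (L C n g : ℕ) (X : V3) (A : S6) : Prop :=
  PRep M X ∧ (X.x + X.y + X.z) % 3 = 0 ∧ ∃ i, 1 ≤ i ∧ i < n ∧ cG (crec C i) = g ∧
    Cg L X (cX (crec C i)) (cY (crec C i)) (cZ (crec C i)) ∧ A = (yv (crec C i)).outer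

def wv (t u v w : ℕ) : V3 := ⟨(u : ℤ) + 1048576 - t, (v : ℤ) + 1048576 - t, (w : ℤ) + 1048576 - t⟩

section
variable {M : ℤ} {L C Tb P n g : ℕ}

theorem isCore_sound (hL : L ≤ 2047) {bound : ℕ}
    (H : ∀ i, 1 ≤ i → i < bound → Dead M L (cX (crec C i)) (cY (crec C i)) (cZ (crec C i))) :
    KS M L (isCore L C Tb P bound) := by
  have k1 : ∀ a b c, b ≤ L → c ≤ L → fnd C Tb P bound a b c = true → Dead M L a b c := by
    intro a b c hb hc h
    obtain ⟨i, h1, h2, h3, h4, h5⟩ := fnd_sound (by omega) (by omega) h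
    have := H i h1 h2
    rwa [h3, h4, h5] at this
  have k2 : ∀ a b c, a ≤ L → b ≤ L → c ≤ L → sort3 a b c (fnd C Tb P bound) = true → Dead M L a b c := by
    intro a b c ha hb hc h
    rcases sort3_sound h with h | h | h | h | h | h
    · exact k1 _ _ _ hb hc h
    · exact (k1 _ _ _ hc hb h).s12
    · exact (k1 _ _ _ ha hc h).s01
    · exact (k1 _ _ _ hc ha h).s12.s01
    · exact (k1 _ _ _ ha hb h).s01.s12
    · exact (k1 _ _ _ hb ha h).s01.s12.s01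
  intro x y z hx hy hz h
  rw [isCore, br_true] at h
  rcases h with ⟨-, h⟩ | ⟨-, h⟩
  · exact Dead.neg hx hy hz (k2 _ _ _ (Nat.sub_le _ _) (Nat.sub_le _ _) (Nat.sub_le _ _) h)
  · exact k2 _ _ _ hx hy hz h

theorem fnd6_tgt {t a b c u v w : ℕ} {X : V3} (hb : b ≤ 2047) (hc : c ≤ 2047)
    (h : fnd6 C Tb P n g t a b c u v w = true) (hX : PRep M X) (h3 : (X.x + X.y + X.z) % 3 = 0)
    (hg : Cg L X a b c) : Tgt M L C n g X (wv t u v w).outer := by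
  obtain ⟨i, h1, h2, h4, rfl, rfl, rfl, h5⟩ := fnd6_sound hb hc h
  refine ⟨hX, h3, i, h1, h2, h4, hg, ?_⟩
  rcases h5 with h5 | h5
  · rw [← outer_neg]
    have : (wv t u v w).neg = yv (crec C i) := by
      simp only [V3.ext_iff, wv, yv, V3.neg]; omega
    rw [this]
  · have : wv t u v w = yv (crec C i) := by
      simp only [V3.ext_iff, wv, yv]; omega
    rw [this]

theorem sort6_tgt {t a b c u v w : ℕ} {X X0 : V3} {A0 : S6} (ha : a ≤ 2047) (hb : b ≤ 2047) (hc : c ≤ 2047)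
    (h : sort6 a b c u v w (fnd6 C Tb P n g t) = true) (hX : PRep M X) (h3 : (X.x + X.y + X.z) % 3 = 0)
    (hg : Cg L X a b c) (hs : Step X0 A0 X (wv t u v w).outer) :
    ∃ X' A', Step X0 A0 X' A' ∧ Tgt M L C n g X' A' := by
  rcases sort6_sound h with h | h | h | h | h | h
  · exact ⟨_, _, hs, fnd6_tgt hb hc h hX h3 hg⟩
  · exact ⟨_, _, hs.o12, fnd6_tgt hc hb h hX.s12 (by simp only [V3.s12]; omega) hg.s12⟩
  · exact ⟨_, _, hs.o01, fnd6_tgt ha hc h hX.s01 (by simp only [V3.s01]; omega) hg.s01⟩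
  · exact ⟨_, _, hs.o01.o12, fnd6_tgt hc ha h hX.s01.s12 (by simp only [V3.s01, V3.s12]; omega) hg.s01.s12⟩
  · exact ⟨_, _, hs.o12.o01, fnd6_tgt ha hb h hX.s12.s01 (by simp only [V3.s01, V3.s12]; omega) hg.s12.s01⟩
  · exact ⟨_, _, hs.o01.o12.o01, fnd6_tgt hb ha h hX.s01.s12.s01 (by simp only [V3.s01, V3.s12]; omega)
      hg.s01.s12.s01⟩

theorem core_dir (hM : M % 3 = 2) (hL : L ≤ 2047) {R D} (hR : RS M L R) (hD : KS M L D) {x y z u v w : ℕ}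
    {X Y : V3} (hX : PRep M X) (h3 : (-X.x + X.y + X.z) % 3 = 0) (hg : Cg L X x y z) (hx : x ≤ L)
    (hu : u ≤ 2097152) (e1 : Y.x = u - 1048576) (e2 : Y.y = v - 1048576) (e3 : Y.z = w - 1048576)
    (h : R (coreK D L C Tb P n g (Nat.sub 2097152 u) v w) (Nat.sub L x) y z = true) :
    ∃ X' A', Step X Y.outer X' A' ∧ Tgt M L C n g X' A' := by
  have ht : 3 * ((-X.x + X.y + X.z) / 3) = X.f0.x + X.f0.y + X.f0.z := by simp only [V3.f0]; omega
  obtain ⟨a', b', d', h1, h2, h4, h5, h6⟩ := hR _ _ _ _ _ _ hX.f0 ht (hg.f0 hx) h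
  have hX' := hX.f0.rf hM ht
  have h3' : ((X.f0.rf ((-X.x + X.y + X.z) / 3)).x + (X.f0.rf ((-X.x + X.y + X.z) / 3)).y +
    (X.f0.rf ((-X.x + X.y + X.z) / 3)).z) % 3 = 0 := by simp only [V3.rf, V3.f0]; omega
  generalize hu' : Nat.sub 2097152 u = u' at h5
  have hu2 : u' + u = 2097152 := by rw [← hu', nsub]; omega
  rw [coreK, br_or] at h5
  rcases h5 with h5 | h5
  swap
  · exact (hD _ _ _ h1 h2 h4 h5 _ hX' h3' h6).elim
  rw [nxt, br_and, nbeq] at h5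
  obtain ⟨h7, h5⟩ := h5
  simp only [nadd, nmod, nmul, ndiv] at h7 h5
  have hs : Step X Y.outer (X.f0.rf ((-X.x + X.y + X.z) / 3)) (wv ((u' + v + w) / 3 * 2) u' v w).outer := by
    refine Step.base X _ _ _ (by omega) ?_
    rw [← outer_base Y (((u' + v + w) / 3 : ℕ) - 1048576) (by omega)]
    have : wv ((u' + v + w) / 3 * 2) u' v w = ⟨-Y.x - 2 * (((u' + v + w) / 3 : ℕ) - 1048576),
        Y.y - 2 * (((u' + v + w) / 3 : ℕ) - 1048576), Y.z - 2 * (((u' + v + w) / 3 : ℕ) - 1048576)⟩ := by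
      simp only [V3.ext_iff, wv]; omega
    rw [this]
  rw [br_true] at h5
  rcases h5 with ⟨-, h5⟩ | ⟨-, h5⟩
  · have b1 : Nat.sub L a' ≤ 2047 := (Nat.sub_le _ _).trans hL
    have b2 : Nat.sub L b' ≤ 2047 := (Nat.sub_le _ _).trans hL
    have b3 : Nat.sub L d' ≤ 2047 := (Nat.sub_le _ _).trans hL
    exact sort6_tgt b1 b2 b3 h5 hX'.neg (by simp only [V3.neg]; omega) (h6.neg h1 h2 h4) hs.nx
  · exact sort6_tgt (by omega) (by omega) (by omega) h5 hX' h3' h6 hs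

theorem dsq_eq (u : ℕ) : ((dsq u : ℕ) : ℤ) = ((u : ℤ) - 1048576) * ((u : ℤ) - 1048576) := by
  have e : dsq u = (u - 1048576 + (1048576 - u)) * (u - 1048576 + (1048576 - u)) := rfl
  rw [e]
  rcases le_total u 1048576 with h | h
  · have : ((u - 1048576 + (1048576 - u) : ℕ) : ℤ) = 1048576 - u := by omega
    rw [Nat.cast_mul, this]; ring
  · have : ((u - 1048576 + (1048576 - u) : ℕ) : ℤ) = u - 1048576 := by omega
    rw [Nat.cast_mul, this]

theorem cU_le (r : ℕ) : cU r ≤ 2097152 := (Nat.mod_lt _ (by norm_num)).le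
theorem cV_le (r : ℕ) : cV r ≤ 2097152 := (Nat.mod_lt _ (by norm_num)).le
theorem cW_le (r : ℕ) : cW r ≤ 2097152 := (Nat.mod_lt _ (by norm_num)).le

theorem chkR_spec {R D : _} {M4 i x y z u v w : ℕ} (h : chkR R D M4 L C Tb P n i g x y z u v w = true) :
    (g ≤ i ∧ 1 ≤ dsq u + dsq v + dsq w ∧ dsq u + dsq v + dsq w ≤ M4) ∧ (x ≤ L ∧ y ≤ L ∧ z ≤ L) ∧
    R (coreK D L C Tb P n g (Nat.sub 2097152 u) v w) (Nat.sub L x) y z = true ∧
    R (coreK D L C Tb P n g (Nat.sub 2097152 v) u w) (Nat.sub L y) x z = true ∧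
    R (coreK D L C Tb P n g (Nat.sub 2097152 w) u v) (Nat.sub L z) x y = true := by
  rw [chkR, and3_eq, and3_eq, and3_eq, and3_eq, nble, nble, nble, nble, nble, nble] at h
  exact h

theorem core_sound (hM : M % 3 = 2) (hL : L ≤ 2047) {R F} (hR : RS M L R)
    (hF : ∀ core K, KS M L core → KS M L K → KS M L (F core K)) {M4 : ℕ} (hM4 : (M4 : ℤ) < M)
    (H : ∀ i, i < n → chkC R F M4 L C Tb P n i = true) :
    ∀ i, 1 ≤ i → i < n → Dead M L (cX (crec C i)) (cY (crec C i)) (cZ (crec C i)) := by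
  have H1 : ∀ i, 1 ≤ i → i < n → (it50 (F (isCore L C Tb P (cG (crec C i)))) no3 fun D =>
      chkR R D M4 L C Tb P n i (cG (crec C i)) (cX (crec C i)) (cY (crec C i)) (cZ (crec C i)) (cU (crec C i))
        (cV (crec C i)) (cW (crec C i))) = true := by
    intro i h1 h2
    have := H i h2
    rw [chkC, br_or, nbeq, force_eq] at this
    exact this.resolve_left (by omega)
  have H2 : ∀ i, 1 ≤ i → i < n → cG (crec C i) ≤ i := by
    intro i h1 h2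
    obtain ⟨D, -, h⟩ := it50_sound (fun _ => True) (fun _ _ => trivial) trivial (H1 i h1 h2)
    exact (chkR_spec h).1.1
  have main : ∀ g i, 1 ≤ i → i < n → cG (crec C i) = g →
      Dead M L (cX (crec C i)) (cY (crec C i)) (cZ (crec C i)) := by
    intro g
    induction g using Nat.strong_induction_on with
    | _ g ih =>
      intro i0 h1 h2 hg X0 hX0 h30 hc0
      have hlow : KS M L (isCore L C Tb P g) := isCore_sound hL fun j j1 j2 =>
        ih _ (by have := H2 j j1 (by have := H2 i0 h1 h2; omega); omega) j j1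
          (by have := H2 i0 h1 h2; omega) rfl
      have hcl : ∀ X A, Tgt M L C n g X A → ∃ X' A', Step X A X' A' ∧ Tgt M L C n g X' A' := by
        rintro X A ⟨hX, h3, i, i1, i2, ig, hc, rfl⟩
        have := H1 i i1 i2
        rw [ig] at this
        obtain ⟨D, hD, h⟩ := it50_sound (KS M L) (fun K hK => hF _ K hlow hK)
          (fun a b c _ _ _ h => absurd h (by simp [no3])) this
        obtain ⟨-, ⟨hx, hy, hz⟩, r1, r2, r3⟩ := chkR_spec h
        have hd := dirs (X := X) (by rw [hX.1]; exact hM)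
        have hd' : (-X.x + X.y + X.z) % 3 = 0 ∨ (-X.y + X.x + X.z) % 3 = 0 ∨ (-X.z + X.x + X.y) % 3 = 0 := by
          tauto
        rcases hd' with e | e | e
        · exact core_dir hM hL hR hD hX e hc hx (cU_le _) rfl rfl rfl r1
        · obtain ⟨X', A', s1, s2⟩ := core_dir (Y := (yv (crec C i)).s01) hM hL hR hD hX.s01 e hc.s01 hy
            (cV_le _) rfl rfl rfl r2
          exact ⟨X', A', Step.p01 (by rw [outer_s01]; exact s1), s2⟩
        · obtain ⟨X', A', s1, s2⟩ := core_dir (Y := (yv (crec C i)).s12.s01) hM hL hR hD hX.s12.s01 e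
            hc.s12.s01 hz (cW_le _) rfl rfl rfl r3
          exact ⟨X', A', Step.p12 (Step.p01 (by rw [outer_s12, outer_s01]; exact s1)), s2⟩
      obtain ⟨α, β, hr⟩ := rigid (Tgt M L C n g) hcl (fun X A h => by rw [h.1.1]; exact hM)
        (X := X0) (A := (yv (crec C i0)).outer) ⟨hX0, h30, i0, h1, h2, hg, hc0, rfl⟩
      obtain ⟨D, -, h⟩ := it50_sound (fun _ => True) (fun _ _ => trivial) trivial (H1 i0 h1 h2)
      obtain ⟨⟨-, n1, n2⟩, -⟩ := chkR_spec h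
      have hn : (yv (crec C i0)).nrm = ((dsq (cU (crec C i0)) + dsq (cV (crec C i0)) + dsq (cW (crec C i0)) : ℕ) : ℤ) := by
        push_cast; rw [dsq_eq, dsq_eq, dsq_eq]; rfl
      have hM0 : X0.nrm ≠ 0 := by rw [hX0.1]; omega
      have := axis_le (mul_ne_zero (mul_ne_zero two_ne_zero hM0) hM0) hr hX0.2 (by omega)
      rw [hX0.1] at this
      omega
  exact fun i h1 h2 => main _ i h1 h2 rfl

end

theorem sq_cong {m L : ℕ} (hL : L = 4 * m ∨ (L = 2 * m ∧ m % 2 = 1)) {x : ℤ} {p : ℕ} (hx : x % 2 = 1)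
    (h : (L : ℤ) ∣ x - p) : ((p * p % (8 * m) : ℕ) : ℤ) = 8 * (x * x / 8 % m) + 1 := by
  obtain ⟨k, hk⟩ := h
  have hp : (p : ℤ) = x - L * k := by linarith
  have h1 : ∃ j : ℤ, (p : ℤ) * p = x * x + 8 * m * j := by
    rcases hL with rfl | ⟨rfl, hm⟩
    · exact ⟨k * (2 * m * k - x), by rw [hp]; push_cast; ring⟩
    · obtain ⟨j, hj⟩ : ∃ j, k * (m * k - x) = 2 * j := by
        rcases Int.even_or_odd' k with ⟨i, rfl | rfl⟩
        · exact ⟨i * (m * (2 * i) - x), by ring⟩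
        · obtain ⟨m', hm'⟩ : ∃ m' : ℤ, (m : ℤ) = 2 * m' + 1 := ⟨m / 2, by omega⟩
          obtain ⟨x', hx'⟩ : ∃ x', x = 2 * x' + 1 := ⟨x / 2, by omega⟩
          exact ⟨(2 * i + 1) * (2 * m' * i + m' + i - x'), by rw [hm', hx']; ring⟩
      exact ⟨j, by rw [hp]; push_cast; linear_combination 4 * (m : ℤ) * hj⟩
  obtain ⟨j, hj⟩ := h1
  have h2 := sq_odd hx
  push_cast
  rw [hj, Int.add_mul_emod_self_left]
  generalize x * x / 8 = q at *
  rw [h2]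
  rcases Nat.eq_zero_or_pos m with rfl | hm
  · simp
  have hm' : (0 : ℤ) < m := by exact_mod_cast hm
  have e1 := Int.emod_add_mul_ediv q m
  have e2 := Int.emod_nonneg q hm'.ne'
  have e3 := Int.emod_lt_of_pos q hm'
  have e4 : 8 * q + 1 = 8 * (q % m) + 1 + 8 * m * (q / m) := by linarith
  rw [e4, Int.add_mul_emod_self_left, Int.emod_eq_of_lt (by omega) (by omega)]

theorem res_cong {m L : ℕ} (hL : L = 4 * m ∨ (L = 2 * m ∧ m % 2 = 1)) {x : ℤ} {p : ℕ} (hx : x % 2 = 1)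
    (h : (L : ℤ) ∣ x - p) : ((p * p / 8 % m : ℕ) : ℤ) = x * x / 8 % m := by
  have h1 := sq_cong hL hx h
  have h2 : p * p / 8 % m = p * p % (8 * m) / 8 := (Nat.mod_mul_right_div_self _ _ _).symm
  rw [h2]
  omega

theorem sum_res {m s : ℕ} {n : ℤ} {X : V3} (hm : 0 < m) (h : X.nrm = 8 * (m * n + s) + 3) :
    (X.x % 2 = 1 ∧ X.y % 2 = 1 ∧ X.z % 2 = 1) ∧
    ∃ k : ℤ, X.x * X.x / 8 % m + X.y * X.y / 8 % m + X.z * X.z / 8 % m = s + m * k := by
  simp only [V3.nrm] at h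
  obtain ⟨h1, h2, h3⟩ := all_odd (x := X.x) (y := X.y) (z := X.z) (by omega)
  refine ⟨⟨h1, h2, h3⟩, n - X.x * X.x / 8 / m - X.y * X.y / 8 / m - X.z * X.z / 8 / m, ?_⟩
  have a1 := sq_odd h1
  have a2 := sq_odd h2
  have a3 := sq_odd h3
  have e1 := Int.emod_add_mul_ediv (X.x * X.x / 8) m
  have e2 := Int.emod_add_mul_ediv (X.y * X.y / 8) m
  have e3 := Int.emod_add_mul_ediv (X.z * X.z / 8) m
  rw [mul_sub, mul_sub, mul_sub]
  omega

theorem norm_coord {L : ℕ} (hL : 0 < L) (h2 : L % 2 = 0) {x : ℤ} (hx : x % 2 = 1) :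
    ∃ i : ℕ, i < (L + 2) / 4 ∧ ((L : ℤ) ∣ x - (2 * i + 1 : ℕ) ∨ (L : ℤ) ∣ -x - (2 * i + 1 : ℕ)) := by
  have hL' : (0 : ℤ) < L := by exact_mod_cast hL
  have e1 := Int.emod_add_mul_ediv x L
  have e2 := Int.emod_nonneg x hL'.ne'
  have e3 := Int.emod_lt_of_pos x hL'
  obtain ⟨l, hl⟩ : ∃ l : ℤ, (L : ℤ) = 2 * l := ⟨L / 2, by omega⟩
  have e4 : (L : ℤ) * (x / L) = 2 * (l * (x / L)) := by rw [← mul_assoc, ← hl]
  by_cases h : 2 * (x % L) ≤ L
  · refine ⟨(x % L / 2).toNat, by omega, Or.inl ⟨x / L, by omega⟩⟩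
  · refine ⟨((L - x % L) / 2).toNat, by omega, Or.inr ⟨-(x / L) - 1, ?_⟩⟩
    rw [mul_sub, mul_neg]; omega

theorem norm_rep {M : ℤ} {L : ℕ} (hL : 0 < L) (h2 : L % 2 = 0) {X : V3} (hX : PRep M X)
    (ho : X.x % 2 = 1 ∧ X.y % 2 = 1 ∧ X.z % 2 = 1) :
    ∃ (X' : V3) (i j k : ℕ), PRep M X' ∧ i < (L + 2) / 4 ∧ j < (L + 2) / 4 ∧ k < (L + 2) / 4 ∧
      Cg L X' (2 * i + 1) (2 * j + 1) (2 * k + 1) ∧ X'.x * X'.x = X.x * X.x ∧ X'.y * X'.y = X.y * X.y ∧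
      X'.z * X'.z = X.z * X.z := by
  obtain ⟨i, hi, h1⟩ := norm_coord hL h2 ho.1
  obtain ⟨j, hj, h3⟩ := norm_coord hL h2 ho.2.1
  obtain ⟨k, hk, h4⟩ := norm_coord hL h2 ho.2.2
  rcases h1 with h1 | h1 <;> rcases h3 with h3 | h3 <;> rcases h4 with h4 | h4
  · exact ⟨X, i, j, k, hX, hi, hj, hk, ⟨h1, h3, h4⟩, rfl, rfl, rfl⟩
  · exact ⟨X.s12.s01.f0.s01.s12, i, j, k, hX.s12.s01.f0.s01.s12, hi, hj, hk, ⟨h1, h3, h4⟩, rfl, rfl, neg_mul_neg _ _⟩
  · exact ⟨X.s01.f0.s01, i, j, k, hX.s01.f0.s01, hi, hj, hk, ⟨h1, h3, h4⟩, rfl, neg_mul_neg _ _, rfl⟩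
  · exact ⟨⟨X.x, -X.y, -X.z⟩, i, j, k, by simpa [V3.f0, V3.neg] using hX.f0.neg, hi, hj, hk, ⟨h1, h3, h4⟩, rfl,
      neg_mul_neg _ _, neg_mul_neg _ _⟩
  · exact ⟨X.f0, i, j, k, hX.f0, hi, hj, hk, ⟨h1, h3, h4⟩, neg_mul_neg _ _, rfl, rfl⟩
  · exact ⟨X.s12.s01.f0.s01.s12.f0, i, j, k, hX.s12.s01.f0.s01.s12.f0, hi, hj, hk, ⟨h1, h3, h4⟩,
      neg_mul_neg _ _, rfl, neg_mul_neg _ _⟩
  · exact ⟨X.s01.f0.s01.f0, i, j, k, hX.s01.f0.s01.f0, hi, hj, hk, ⟨h1, h3, h4⟩, neg_mul_neg _ _,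
      neg_mul_neg _ _, rfl⟩
  · exact ⟨X.neg, i, j, k, hX.neg, hi, hj, hk, ⟨h1, h3, h4⟩, neg_mul_neg _ _, neg_mul_neg _ _, neg_mul_neg _ _⟩

end Pool.Agent.Lib.MP_568bdc_nt
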