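import Mathlib.Data.Nat.Basic

/-! The finite checker used for small moduli. -/

namespace Pool.Agent.Lib.MP_568bdc_nt

inductive NL where
  | nil : NL
  | cons (v a : Nat) (tl : NL) : NL

noncomputable section

def force (x : Nat) (f : Nat → Bool) : Bool :=
  Nat.rec (motive := fun _ => Bool) false (fun n _ => f n) (Nat.succ x)

def allLt (f : Nat → Bool) (n : Nat) : Bool :=
  Nat.rec (motive := fun _ => Bool) true (fun i ih => Bool.rec (motive := fun _ => Bool) false ih (f i)) n

def it50 {α : Type} (F : α → α) (x : α) (k : α → Bool) : Bool :=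
  k (F (F (F (F (F (F (F (F (F (F (F (F (F (F (F (F (F (F (F (F (F (F (F (F (F (F (F (F (F (F (F (F (F (F (F (F (F (F (F (F (F (F (F (F (F (F (F (F (F (F x))))))))))))))))))))))))))))))))))))))))))))))))))

def no3 (_ _ _ : Nat) : Bool := false

def tstA (B lo Bq : Nat) (p q : Nat) (yes no : Bool) : Bool :=
  Bool.rec (motive := fun _ => Bool) yes no
    (Nat.beq (Nat.div Bq (Nat.sub (Nat.add (Nat.mod (Nat.mul p p) B) (Nat.mod (Nat.mul q q) B)) lo)) (nat_lit 0))

def tstB (B Bq : Nat) (p q : Nat) (yes no : Bool) : Bool :=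
  Bool.rec (motive := fun _ => Bool) no yes (Nat.ble (Nat.add (Nat.mod (Nat.mul p p) B) (Nat.mod (Nat.mul q q) B)) Bq)

def mkA (B lo Bq : Nat) (k : (Nat → Nat → Bool → Bool → Bool) → Bool) : Bool :=
  k (fun p q yes no => Bool.rec (motive := fun _ => Bool) yes no
    (Nat.beq (Nat.div Bq (Nat.sub (Nat.add (Nat.mod (Nat.mul p p) B) (Nat.mod (Nat.mul q q) B)) lo)) (nat_lit 0)))

def mkB (B Bq : Nat) (k : (Nat → Nat → Bool → Bool → Bool) → Bool) : Bool :=
  k (fun p q yes no => Bool.rec (motive := fun _ => Bool) no yes (Nat.ble (Nat.add (Nat.mod (Nat.mul p p) B) (Nat.mod (Nat.mul q q) B)) Bq))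

def mk1 (chq : Nat → Nat → Bool → Bool → Bool) (L c c2 : Nat)
    (k : (Nat → (Nat → Nat → Nat → Bool) → (Nat → Nat → Nat → Bool) → Nat → Nat → Nat → Bool) → ((Nat → Nat → Nat → Bool) → Nat → Nat → Nat → Bool) → Bool) : Bool :=
  (fun bad : (Nat → Nat → Nat → Bool) → Nat → Nat → Nat → Nat → Bool → Bool =>
  (fun tri : (Nat → Nat → Nat → Bool) → Nat → Nat → Nat → Nat → Nat → Nat → Bool =>
  (fun tri0 : (Nat → Nat → Nat → Bool) → Nat → Nat → Nat → Nat → Bool =>
  (fun vt : (Nat → Nat → Nat → Bool) → Nat → Nat → Nat → Nat → Nat → Nat → Nat → Bool =>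
  (fun vt0 : (Nat → Nat → Nat → Bool) → Nat → Nat → Nat → Nat → Bool =>
    k (fun Bm core K x y z => Bool.rec (motive := fun _ => Bool)
        (Bool.rec (motive := fun _ => Bool) (tri0 K x y z (Nat.mul (Nat.add (Nat.add x y) z) c)) true (core x y z))
        (tri0 K x y z (Nat.mul (Nat.add (Nat.add x y) z) c))
        (Nat.beq (Nat.land (Nat.shiftRight Bm (Nat.add (Nat.add x y) z)) (nat_lit 1)) (nat_lit 0)))
      (fun K x y z => vt0 K x y z (Nat.mul (Nat.add (Nat.add x y) z) c)))
    (fun K x y z Sc => vt K x y z Sc (Nat.add Sc (Nat.mul x c2)) (Nat.add Sc (Nat.mul y c2))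
      (Nat.add Sc (Nat.mul z c2))))
    (fun K x y z Sc u v w => chq (Nat.add y Sc) (Nat.add z Sc)
      (chq (Nat.add y u) (Nat.add z u)
        (chq (Nat.add x v) (Nat.add z v) true
          (chq (Nat.add x w) (Nat.add y w) true (bad K z x y w true)))
        ((fun nx : Bool => chq (Nat.add x v) (Nat.add z v) nx (bad K y x z v nx))
          (chq (Nat.add x w) (Nat.add y w) true (bad K z x y w true))))
      (tri K x y z u v w)))
    (fun K x y z Sc => tri K x y z (Nat.add Sc (Nat.mul x c2)) (Nat.add Sc (Nat.mul y c2))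
      (Nat.add Sc (Nat.mul z c2))))
    (fun K x y z u v w =>
      (fun n2 : Bool => chq (Nat.add y u) (Nat.add z u) n2 (bad K x y z u n2))
        ((fun nx : Bool => chq (Nat.add x v) (Nat.add z v) nx (bad K y x z v nx))
          (chq (Nat.add x w) (Nat.add y w) true (bad K z x y w true)))))
    (fun K a b d u next => Bool.rec (motive := fun _ => Bool) false next
      (K (Nat.mod (Nat.add (Nat.sub L a) u) L) (Nat.mod (Nat.add b u) L) (Nat.mod (Nat.add d u) L)))

def mk3 (chq : Nat → Nat → Bool → Bool → Bool) (L c c2 : Nat)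
    (k : (Nat → (Nat → Nat → Nat → Bool) → (Nat → Nat → Nat → Bool) → Nat → Nat → Nat → Bool) → ((Nat → Nat → Nat → Bool) → Nat → Nat → Nat → Bool) → Bool) : Bool :=
  (fun bad : (Nat → Nat → Nat → Bool) → Nat → Nat → Nat → Nat → Bool → Bool =>
  (fun tri : (Nat → Nat → Nat → Bool) → Nat → Nat → Nat → Nat → Nat → Nat → Bool =>
  (fun tri1 : (Nat → Nat → Nat → Bool) → Nat → Nat → Nat → Nat → Bool =>
  (fun tri0 : (Nat → Nat → Nat → Bool) → Nat → Nat → Nat → Bool =>
  (fun tr : (Nat → Nat → Nat → Bool) → Nat → Nat → Nat → Bool =>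
  (fun vt : Nat → Nat → Nat → Bool → Bool =>
  (fun vt0 : (Nat → Nat → Nat → Bool) → Nat → Nat → Nat → Bool =>
    k (fun Bm core K x y z => Bool.rec (motive := fun _ => Bool) (Bool.rec (motive := fun _ => Bool) (tr K x y z) true (core x y z)) (tr K x y z)
        (Nat.beq (Nat.land (Nat.shiftRight Bm (Nat.add (Nat.add x y) z)) (nat_lit 1)) (nat_lit 0)))
      (fun K x y z => Bool.rec (motive := fun _ => Bool)
        (Bool.rec (motive := fun _ => Bool) (vt0 K (Nat.sub L x) y z) (vt0 K x (Nat.sub L y) z) (Nat.beq (Nat.mod x (nat_lit 3)) (nat_lit 0)))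
        (vt0 K x y z) (Nat.beq (Nat.mod (Nat.add (Nat.add x y) z) (nat_lit 3)) (nat_lit 0))))
    (fun K x y z => vt y z (Nat.mul (Nat.div (Nat.add (Nat.add x y) z) (nat_lit 3)) c2) (tr K x y z)))
    (fun b d u no => chq (Nat.add b u) (Nat.add d u)
      (chq (Nat.add b (Nat.add u c)) (Nat.add d (Nat.add u c))
        (chq (Nat.add b (Nat.add (Nat.add u c) c)) (Nat.add d (Nat.add (Nat.add u c) c)) true no) no) no))
    (fun K x y z => Bool.rec (motive := fun _ => Bool)
      (Bool.rec (motive := fun _ => Bool) (tri0 K (Nat.sub L z) x y) (tri0 K (Nat.sub L y) x z) (Nat.beq (Nat.mod y (nat_lit 3)) (nat_lit 0)))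
      (tri0 K (Nat.sub L x) y z) (Nat.beq (Nat.mod x (nat_lit 3)) (nat_lit 0))))
    (fun K a b d => tri1 K a b d (Nat.mul (Nat.div (Nat.add (Nat.add a b) d) (nat_lit 3)) c2)))
    (fun K a b d u => tri K a b d u (Nat.add u c) (Nat.add (Nat.add u c) c)))
    (fun K a b d u v w =>
      (fun n2 : Bool => chq (Nat.add b u) (Nat.add d u) n2 (bad K a b d u n2))
        ((fun nx : Bool => chq (Nat.add b v) (Nat.add d v) nx (bad K a b d v nx))
          (chq (Nat.add b w) (Nat.add d w) true (bad K a b d w true)))))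
    (fun K a b d u next => Bool.rec (motive := fun _ => Bool) false next
      (K (Nat.mod (Nat.add a u) L) (Nat.mod (Nat.add b u) L) (Nat.mod (Nat.add d u) L)))

def ch (chq : Nat → Nat → Bool → Bool → Bool) (L : Nat) (K : Nat → Nat → Nat → Bool) (a b d u : Nat) (next : Bool) : Bool :=
  chq (Nat.add b u) (Nat.add d u) next
    (Bool.rec (motive := fun _ => Bool) false next (K (Nat.mod (Nat.add a u) L) (Nat.mod (Nat.add b u) L) (Nat.mod (Nat.add d u) L)))

def r1 (chq : Nat → Nat → Bool → Bool → Bool) (L c : Nat) (K : Nat → Nat → Nat → Bool) (a b d : Nat) : Bool :=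
  ch chq L K a b d (Nat.mul (Nat.add (Nat.add a b) d) c) true

def r3a (chq : Nat → Nat → Bool → Bool → Bool) (L c : Nat) (K : Nat → Nat → Nat → Bool) (a b d u : Nat) : Bool :=
  ch chq L K a b d u (ch chq L K a b d (Nat.add u c) (ch chq L K a b d (Nat.add (Nat.add u c) c) true))

def r3 (chq : Nat → Nat → Bool → Bool → Bool) (L c c2 : Nat) (K : Nat → Nat → Nat → Bool) (a b d : Nat) : Bool :=
  Bool.rec (motive := fun _ => Bool) true (r3a chq L c K a b d (Nat.mul (Nat.div (Nat.add (Nat.add a b) d) (nat_lit 3)) c2))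
    (Nat.beq (Nat.mod (Nat.add (Nat.add a b) d) (nat_lit 3)) (nat_lit 0))

def get11 (T i : Nat) : Nat := Nat.land (Nat.shiftRight T (Nat.mul i (nat_lit 11))) (nat_lit 2047)

def allB (nx : Nat) (ih : (Nat → Bool) → Nat → Bool) (f : Nat → Bool) (a : Nat) : Bool :=
  Bool.rec (motive := fun _ => Bool) false
    (Bool.rec (motive := fun _ => Bool) (ih f (Nat.land (Nat.shiftRight nx (Nat.mul a (nat_lit 11))) (nat_lit 2047))) true
      (Nat.beq (Nat.land (Nat.shiftRight nx (Nat.mul a (nat_lit 11))) (nat_lit 2047)) (nat_lit 0)))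
    (f a)

def noB (_ : Nat → Bool) (_ : Nat) : Bool := false

def anyB (nx : Nat) (t : Nat) (fuel : Nat) : Nat → Bool :=
  Nat.rec (motive := fun _ => Nat → Bool) (fun _ => false)
    (fun _ ih a => Bool.rec (motive := fun _ => Bool) (Bool.rec (motive := fun _ => Bool) (ih (get11 nx a)) false (Nat.beq a (nat_lit 0))) true (Nat.beq a t)) fuel

def consB (nx v : Nat) (k : NL → Bool) (fuel : Nat) : Nat → NL → Bool :=
  Nat.rec (motive := fun _ => Nat → NL → Bool) (fun _ _ => false)
    (fun _ ih a acc => Bool.rec (motive := fun _ => Bool) (force a fun a => ih (get11 nx a) (NL.cons v a acc)) (k acc) (Nat.beq a (nat_lit 0))) fuel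

def mkL (T nx : Nat) (k : NL → Bool) (n : Nat) : NL → Bool :=
  Nat.rec (motive := fun _ => NL → Bool) k
    (fun v ih acc => force (Nat.mul v (nat_lit 11)) fun v11 => consB nx v11 ih (nat_lit 51) (get11 T v) acc) n

def inner (T : Nat) (A : (Nat → Bool) → Nat → Bool) (V : Nat → Nat → Nat → Bool) (a t half : Nat) (l : NL) : Bool :=
  NL.rec (motive := fun _ => Bool) true
    (fun v b _ ih => Bool.rec (motive := fun _ => Bool) true
      (Bool.rec (motive := fun _ => Bool) (Bool.rec (motive := fun _ => Bool) false ih (A (V a b) (Nat.land (Nat.shiftRight T (Nat.sub t v)) (nat_lit 2047)))) ih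
        (Nat.beq (Nat.land (Nat.shiftRight T (Nat.sub t v)) (nat_lit 2047)) (nat_lit 0)))
      (Nat.ble v half)) l

def outer (T : Nat) (A : (Nat → Bool) → Nat → Bool) (V : Nat → Nat → Nat → Bool) (tg : Nat) (l : NL) : Bool :=
  NL.rec (motive := fun _ => Bool) true
    (fun v a tl ih => force (Nat.sub tg v) fun t => force (Nat.div t (nat_lit 2)) fun half =>
      Bool.rec (motive := fun _ => Bool) false ih (inner T A V a t half (NL.cons v a tl))) l

def enum (T nx : Nat) (A : (Nat → Bool) → Nat → Bool) (V : Nat → Nat → Nat → Bool) (tg : Nat) : Bool :=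
  force (Nat.mul tg (nat_lit 11)) fun tg11 =>
    mkL T nx (outer T A V tg11) (Nat.succ (Nat.div tg (nat_lit 2))) NL.nil

def build (m : Nat) (k : Nat → Nat → Nat → Bool) (n : Nat) : Nat → Nat → Nat → Bool :=
  Nat.rec (motive := fun _ => Nat → Nat → Nat → Bool) k
    (fun i ih hd hr nx => force (Nat.succ (Nat.add i i)) fun a =>
      (fun r old =>
      force (Nat.add (Nat.sub hd (Nat.shiftLeft old r)) (Nat.shiftLeft a r)) fun hd' =>
      force (Nat.add (Nat.sub hr (Nat.shiftLeft old (Nat.sub (Nat.mul (Nat.pred m) 11) r)))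
        (Nat.shiftLeft a (Nat.sub (Nat.mul (Nat.pred m) 11) r))) fun hr' =>
      force (Nat.add nx (Nat.shiftLeft old (Nat.mul a 11))) fun nx' => ih hd' hr' nx')
      (Nat.mul (Nat.mod (Nat.div (Nat.mul a a) 8) m) 11) (get11 hd (Nat.mod (Nat.div (Nat.mul a a) 8) m))) n

def tabOK (m hd hr nx i : Nat) : Bool :=
  force (Nat.succ (Nat.add i i)) fun a =>
    (fun r => Bool.rec (motive := fun _ => Bool) false (anyB nx a (nat_lit 50) (get11 hd r))
      (Nat.beq (get11 hd r) (get11 hr (Nat.sub (Nat.pred m) r)))) (Nat.mod (Nat.div (Nat.mul a a) 8) m)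

def sort3 (a b c : Nat) (k : Nat → Nat → Nat → Bool) : Bool :=
  Bool.rec (motive := fun _ => Bool) (Bool.rec (motive := fun _ => Bool) (Bool.rec (motive := fun _ => Bool) (k c b a) (k b c a) (Nat.ble b c)) (k b a c) (Nat.ble a c))
    (Bool.rec (motive := fun _ => Bool) (Bool.rec (motive := fun _ => Bool) (k c a b) (k a c b) (Nat.ble a c)) (k a b c) (Nat.ble b c))
    (Nat.ble a b)

def crec (C i : Nat) : Nat := Nat.land (Nat.shiftRight C (Nat.mul i 106)) 0x3ffffffffffffffffffffffffff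

def key (a b c : Nat) : Nat := Nat.add (Nat.add (Nat.mul a 4194304) (Nat.mul b 2048)) c

def idx (Tb P k : Nat) : Nat := Nat.land (Nat.shiftRight Tb (Nat.mul (Nat.mod k P) 10)) 1023

def fnd0 (bound k i r : Nat) : Bool :=
  Bool.rec (motive := fun _ => Bool) false (Bool.rec (motive := fun _ => Bool) false (Nat.beq r k) (Nat.ble 1 i)) (Nat.blt i bound)

def fnd1 (C bound k i : Nat) : Bool := fnd0 bound k i (Nat.mod (crec C i) 8589934592)

def fnd (C Tb P bound a b c : Nat) : Bool := fnd1 C bound (key a b c) (idx Tb P (key a b c))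

def isCore (L C Tb P bound x y z : Nat) : Bool :=
  Bool.rec (motive := fun _ => Bool) (sort3 (Nat.sub L x) (Nat.sub L y) (Nat.sub L z) (fnd C Tb P bound))
    (sort3 x y z (fnd C Tb P bound)) (Nat.ble (Nat.mul (Nat.add (Nat.add x y) z) 2) (Nat.mul L 3))

def cX (r : Nat) : Nat := Nat.div (Nat.mod r 8589934592) 4194304
def cY (r : Nat) : Nat := Nat.mod (Nat.div r 2048) 2048
def cZ (r : Nat) : Nat := Nat.mod r 2048
def cU (r : Nat) : Nat := Nat.mod (Nat.div r 8589934592) 2097152
def cV (r : Nat) : Nat := Nat.mod (Nat.div r 18014398509481984) 2097152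
def cW (r : Nat) : Nat := Nat.mod (Nat.div r 37778931862957161709568) 2097152
def cG (r : Nat) : Nat := Nat.div r 79228162514264337593543950336

def buildC (L C P : Nat) (k : Nat → Nat → Bool) (n : Nat) : Nat → Nat → Bool :=
  Nat.rec (motive := fun _ => Nat → Nat → Bool) k
    (fun i ih Tb Bm => (fun r =>
      force (Nat.add Tb (Nat.shiftLeft i (Nat.mul (Nat.mod (Nat.mod r 8589934592) P) 10))) fun Tb' =>
      (fun σ => force (Nat.lor (Nat.lor Bm (Nat.shiftLeft 1 σ)) (Nat.shiftLeft 1 (Nat.sub (Nat.mul L 3) σ)))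
        fun Bm' => ih Tb' Bm') (Nat.add (Nat.add (cX r) (cY r)) (cZ r))) (crec C i)) n

def sort6 (a b c u v w : Nat) (k : Nat → Nat → Nat → Nat → Nat → Nat → Bool) : Bool :=
  Bool.rec (motive := fun _ => Bool) (Bool.rec (motive := fun _ => Bool) (Bool.rec (motive := fun _ => Bool) (k c b a w v u) (k b c a v w u) (Nat.ble b c)) (k b a c v u w) (Nat.ble a c))
    (Bool.rec (motive := fun _ => Bool) (Bool.rec (motive := fun _ => Bool) (k c a b w u v) (k a c b u w v) (Nat.ble a c)) (k a b c u v w) (Nat.ble b c))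
    (Nat.ble a b)

def and3 (a b c : Bool) : Bool := Bool.rec (motive := fun _ => Bool) false (Bool.rec (motive := fun _ => Bool) false c b) a

def fnd7 (n g t k u v w i r0 g' u' v' w' β : Nat) : Bool :=
  and3 (and3 (Nat.blt i n) (Nat.ble 1 i) (Nat.beq r0 k)) (Nat.beq g' g)
    (Bool.rec (motive := fun _ => Bool) (and3 (Nat.beq (Nat.add u u') t) (Nat.beq (Nat.add v v') t) (Nat.beq (Nat.add w w') t)) true
      (and3 (Nat.beq (Nat.add u β) (Nat.add u' t)) (Nat.beq (Nat.add v β) (Nat.add v' t))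
        (Nat.beq (Nat.add w β) (Nat.add w' t))))

def fnd8 (n g t k u v w i r : Nat) : Bool :=
  fnd7 n g t k u v w i (Nat.mod r 8589934592) (cG r) (cU r) (cV r) (cW r) 2097152

def fnd9 (C n g t k u v w i : Nat) : Bool := fnd8 n g t k u v w i (crec C i)

def fnd6 (C Tb P n g t a b c u v w : Nat) : Bool := fnd9 C n g t (key a b c) u v w (idx Tb P (key a b c))

def nxt (L C Tb P n g u v w x y z : Nat) : Bool :=
  Bool.rec (motive := fun _ => Bool) false
    ((fun t => Bool.rec (motive := fun _ => Bool) (sort6 (Nat.sub L x) (Nat.sub L y) (Nat.sub L z) u v w (fnd6 C Tb P n g t))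
      (sort6 x y z u v w (fnd6 C Tb P n g t))
      (Nat.ble (Nat.mul (Nat.add (Nat.add x y) z) 2) (Nat.mul L 3)))
      (Nat.mul (Nat.div (Nat.add (Nat.add u v) w) 3) 2))
    (Nat.beq (Nat.mod (Nat.add (Nat.add u v) w) 3) 0)

def coreK (D : Nat → Nat → Nat → Bool) (L C Tb P n g u v w x y z : Nat) : Bool :=
  Bool.rec (motive := fun _ => Bool) (D x y z) true (nxt L C Tb P n g u v w x y z)

def dsq (u : Nat) : Nat :=
  Nat.mul (Nat.add (Nat.sub u 1048576) (Nat.sub 1048576 u)) (Nat.add (Nat.sub u 1048576) (Nat.sub 1048576 u))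

def chkR (R : (Nat → Nat → Nat → Bool) → Nat → Nat → Nat → Bool) (D : Nat → Nat → Nat → Bool) (M4 L C Tb P n i g x y z u v w : Nat) : Bool :=
  and3 (and3 (Nat.ble g i) (Nat.ble 1 (Nat.add (Nat.add (dsq u) (dsq v)) (dsq w)))
      (Nat.ble (Nat.add (Nat.add (dsq u) (dsq v)) (dsq w)) M4))
    (and3 (Nat.ble x L) (Nat.ble y L) (Nat.ble z L))
    (and3 (R (coreK D L C Tb P n g (Nat.sub 2097152 u) v w) (Nat.sub L x) y z)
      (R (coreK D L C Tb P n g (Nat.sub 2097152 v) u w) (Nat.sub L y) x z)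
      (R (coreK D L C Tb P n g (Nat.sub 2097152 w) u v) (Nat.sub L z) x y))

def chkC (R : (Nat → Nat → Nat → Bool) → Nat → Nat → Nat → Bool) (F : (Nat → Nat → Nat → Bool) → (Nat → Nat → Nat → Bool) → Nat → Nat → Nat → Bool) (M4 L C Tb P n i : Nat) : Bool :=
  Bool.rec (motive := fun _ => Bool) (force (crec C i) fun r => it50 (F (isCore L C Tb P (cG r))) no3 fun D =>
      chkR R D M4 L C Tb P n i (cG r) (cX r) (cY r) (cZ r) (cU r) (cV r) (cW r))
    true (Nat.beq i 0)

def chkMain (R : (Nat → Nat → Nat → Bool) → Nat → Nat → Nat → Bool) (F F' : Nat → (Nat → Nat → Nat → Bool) → (Nat → Nat → Nat → Bool) → Nat → Nat → Nat → Bool) (V V' : (Nat → Nat → Nat → Bool) → Nat → Nat → Nat → Bool) (m L s P n C : Nat) : Bool :=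
  buildC L C P (fun Tb Bm => allLt (chkC R (F Bm) (4 * (m * m * m * m)) L C Tb P n) n &&
    build m (fun hd hr nx => it50 (allB nx) noB fun A =>
      allLt (tabOK m hd hr nx) ((L + 2) / 4) &&
      (it50 (F Bm (isCore L C Tb P n)) no3 fun D =>
        (Nat.blt s m || enum hd nx A (V D) (s - m)) &&
        (Nat.blt s (2 * m) || enum hd nx A (V D) (s - 2 * m))) &&
      (it50 (F' Bm (isCore L C Tb P n)) no3 fun D =>
        (Nat.blt (2 * m) (s + 3) || enum hr nx A (V' D) (2 * m - (s + 3))) &&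
        (Nat.blt m (s + 3) || enum hr nx A (V' D) (m - (s + 3)))))
      ((L + 2) / 4) 0 0 0) n 0 0

def chk (m L s c P n C : Nat) : Bool :=
  Nat.ble 2 m && Nat.ble L 2047 && Nat.blt s (3 * m) &&
  (Nat.beq L (4 * m) || (Nat.beq L (2 * m) && Nat.beq (m % 2) 1)) &&
  force L fun L => force c fun c =>
  force (8 * m) fun B => force (8 * (s + 1 - m) + 1) fun lo => force (8 * s + 2 - lo) fun Bq =>
  force (8 * s + 2) fun Bq' => mkA B lo Bq fun G => mkB B Bq' fun G' =>
    Bool.rec (motive := fun _ => Bool)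
      (force ((L - 2) * c % L) fun c2 => Nat.beq ((3 * c + 2) % L) 0 &&
        mk1 G L c c2 fun F V => mk1 G' L c c2 fun F' V' => chkMain (r1 G L c) F F' V V' m L s P n C)
      (force (L - 2) fun c2 => Nat.beq (3 * c) L &&
        mk3 G L c c2 fun F V => mk3 G' L c c2 fun F' V' => chkMain (r3 G L c c2) F F' V V' m L s P n C)
      (Nat.beq (m % 3) 0)

end

end Pool.Agent.Lib.MP_568bdc_nt
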