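import Mathlib
import Pool.Agent.Lib.MP_568bdc_nt.DiscDef

/-! Soundness of the enumeration part of the finite checker. -/

namespace Pool.Agent.Lib.MP_568bdc_nt

theorem nadd (a b : ℕ) : Nat.add a b = a + b := rfl
theorem nsub (a b : ℕ) : Nat.sub a b = a - b := rfl
theorem nmul (a b : ℕ) : Nat.mul a b = a * b := rfl
theorem ndiv (a b : ℕ) : Nat.div a b = a / b := rfl
theorem nmod (a b : ℕ) : Nat.mod a b = a % b := rfl
theorem nbeq (a b : ℕ) : Nat.beq a b = true ↔ a = b := Nat.beq_eq ▸ Iff.rfl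
theorem nbeqf (a b : ℕ) : Nat.beq a b = false ↔ a ≠ b := by
  rw [← Bool.not_eq_true, nbeq]
theorem nble (a b : ℕ) : Nat.ble a b = true ↔ a ≤ b := Nat.ble_eq ▸ Iff.rfl
theorem nblef (a b : ℕ) : Nat.ble a b = false ↔ b < a := by
  rw [← Bool.not_eq_true, nble, not_le]
theorem nblt (a b : ℕ) : Nat.blt a b = true ↔ a < b := Nat.blt_eq ▸ Iff.rfl

theorem br_true (f t c : Bool) :
    (Bool.rec (motive := fun _ => Bool) f t c) = true ↔ (c = false ∧ f = true) ∨ (c = true ∧ t = true) := by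
  cases c <;> simp

theorem br_and (t c : Bool) :
    (Bool.rec (motive := fun _ => Bool) false t c) = true ↔ c = true ∧ t = true := by
  cases c <;> simp

theorem br_or (f c : Bool) :
    (Bool.rec (motive := fun _ => Bool) f true c) = true ↔ c = true ∨ f = true := by
  cases c <;> simp

theorem br_imp (t c : Bool) :
    (Bool.rec (motive := fun _ => Bool) true t c) = true ↔ (c = true → t = true) := by
  cases c <;> simp

theorem force_eq (x : ℕ) (f : ℕ → Bool) : force x f = f x := rfl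

theorem and3_eq (a b c : Bool) : and3 a b c = true ↔ a = true ∧ b = true ∧ c = true := by
  cases a <;> cases b <;> cases c <;> simp [and3]

theorem allLt_sound {f : ℕ → Bool} {n : ℕ} (h : allLt f n = true) : ∀ i, i < n → f i = true := by
  induction n with
  | zero => intro i hi; omega
  | succ n ih =>
    have h' : (Bool.rec (motive := fun _ => Bool) false (allLt f n) (f n)) = true := h
    rw [br_and] at h'
    intro i hi
    rcases Nat.lt_succ_iff_lt_or_eq.mp hi with h1 | rfl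
    · exact ih h'.2 i h1
    · exact h'.1

theorem it50_sound {α : Type} {F : α → α} {x : α} {k : α → Bool} (P : α → Prop)
    (hF : ∀ g, P g → P (F g)) (hx : P x) (h : it50 F x k = true) : ∃ g, P g ∧ k g = true := by
  refine ⟨_, ?_, h⟩
  iterate 50 apply hF
  exact hx

inductive InCh (nx : ℕ) : ℕ → ℕ → Prop
  | here (h : ℕ) : InCh nx h h
  | there (h a : ℕ) : get11 nx h ≠ 0 → InCh nx (get11 nx h) a → InCh nx h a

def ASound (nx : ℕ) (A : (ℕ → Bool) → ℕ → Bool) : Prop :=
  ∀ f h, A f h = true → ∀ a, InCh nx h a → f a = true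

theorem noB_sound (nx : ℕ) : ASound nx noB := by
  intro f h hh; simp [noB] at hh

theorem allB_sound (nx : ℕ) (A) (hA : ASound nx A) : ASound nx (allB nx A) := by
  intro f h hh a ha
  have h' : (Bool.rec (motive := fun _ => Bool) false
    (Bool.rec (motive := fun _ => Bool) (A f (get11 nx h)) true (Nat.beq (get11 nx h) 0)) (f h)) = true := hh
  rw [br_and, br_or, nbeq] at h'
  cases ha with
  | here => exact h'.1
  | there _ _ h1 h2 => exact hA f _ (h'.2.resolve_left h1) a h2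

theorem anyB_sound {nx t : ℕ} (ht : t ≠ 0) (fuel : ℕ) :
    ∀ a, anyB nx t fuel a = true → a ≠ 0 ∧ InCh nx a t := by
  induction fuel with
  | zero => intro a h; exact absurd h (by simp [anyB])
  | succ n ih =>
    intro a h
    have h' : (Bool.rec (motive := fun _ => Bool) (Bool.rec (motive := fun _ => Bool)
      (anyB nx t n (get11 nx a)) false (Nat.beq a 0)) true (Nat.beq a t)) = true := h
    rw [br_or, br_true, nbeq, nbeqf] at h'
    rcases h' with rfl | ⟨h1, h2⟩ | ⟨-, h2⟩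
    · exact ⟨ht, InCh.here _⟩
    · obtain ⟨h3, h4⟩ := ih _ h2
      exact ⟨h1, InCh.there _ _ h3 h4⟩
    · simp at h2

def NL.Mem (v a : ℕ) : NL → Prop
  | .nil => False
  | .cons w b tl => (v = w ∧ a = b) ∨ NL.Mem v a tl

def NL.Srt : NL → Prop
  | .nil => True
  | .cons w _ tl => (∀ v a, NL.Mem v a tl → w ≤ v) ∧ NL.Srt tl

theorem consB_sound {nx v : ℕ} {k : NL → Bool} (fuel : ℕ) :
    ∀ h acc, consB nx v k fuel h acc = true → acc.Srt → (∀ w a, acc.Mem w a → v ≤ w) →
      ∃ l, k l = true ∧ l.Srt ∧ (∀ w a, l.Mem w a → v ≤ w) ∧ (∀ w a, acc.Mem w a → l.Mem w a) ∧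
        (h ≠ 0 → ∀ a, InCh nx h a → l.Mem v a) := by
  induction fuel with
  | zero => intro h acc hh; exact absurd hh (by simp [consB])
  | succ n ih =>
    intro h acc hh hs hl
    have h' : (Bool.rec (motive := fun _ => Bool) (consB nx v k n (get11 nx h) (NL.cons v h acc))
      (k acc) (Nat.beq h 0)) = true := hh
    rw [br_true, nbeq, nbeqf] at h'
    rcases h' with ⟨h1, h2⟩ | ⟨h1, h2⟩
    · obtain ⟨l, a1, a2, a3, a4, a5⟩ := ih _ _ h2 ⟨hl, hs⟩ (by
        rintro w a (⟨rfl, -⟩ | h3)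
        · exact le_rfl
        · exact hl _ _ h3)
      refine ⟨l, a1, a2, a3, fun w a h3 => a4 w a (Or.inr h3), fun _ a ha => ?_⟩
      cases ha with
      | here => exact a4 _ _ (Or.inl ⟨rfl, rfl⟩)
      | there _ _ h3 h4 => exact a5 h3 a h4
    · exact ⟨acc, h2, hs, hl, fun _ _ h => h, fun h => absurd h1 h⟩

theorem mkL_sound {T nx : ℕ} {k : NL → Bool} (n : ℕ) :
    ∀ acc, mkL T nx k n acc = true → acc.Srt → (∀ w a, acc.Mem w a → n * 11 ≤ w) →
      ∃ l, k l = true ∧ l.Srt ∧ (∀ w a, acc.Mem w a → l.Mem w a) ∧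
        (∀ v, v < n → get11 T v ≠ 0 → ∀ a, InCh nx (get11 T v) a → l.Mem (v * 11) a) := by
  induction n with
  | zero => intro acc h hs _; exact ⟨acc, h, hs, fun _ _ h => h, fun v hv => absurd hv (by omega)⟩
  | succ n ih =>
    intro acc h hs hl
    have h' : consB nx (n * 11) (mkL T nx k n) 51 (get11 T n) acc = true := h
    obtain ⟨l1, a1, a2, a3, a4, a5⟩ := consB_sound _ _ _ h' hs (fun w a hm => by have := hl w a hm; omega)
    obtain ⟨l, b1, b2, b3, b4⟩ := ih _ a1 a2 a3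
    refine ⟨l, b1, b2, fun w a hm => b3 _ _ (a4 _ _ hm), fun v hv h0 a ha => ?_⟩
    rcases Nat.lt_succ_iff_lt_or_eq.mp hv with h1 | rfl
    · exact b4 v h1 h0 a ha
    · exact b3 _ _ (a5 h0 a ha)

def getR (T x : ℕ) : ℕ := Nat.land (Nat.shiftRight T x) (nat_lit 2047)

theorem inner_sound {T nx : ℕ} {A} (hA : ASound nx A) {V : ℕ → ℕ → ℕ → Bool} {a t half : ℕ} (l : NL) :
    inner T A V a t half l = true → l.Srt → ∀ v b, l.Mem v b → v ≤ half →
      getR T (t - v) ≠ 0 →
      ∀ c, InCh nx (getR T (t - v)) c → V a b c = true := by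
  induction l with
  | nil => intro _ _ v b hm; exact absurd hm id
  | cons w b0 tl ih =>
    intro h hs v b hm hv h0 c hc
    have h' : (Bool.rec (motive := fun _ => Bool) true
      (Bool.rec (motive := fun _ => Bool)
        (Bool.rec (motive := fun _ => Bool) false (inner T A V a t half tl)
          (A (V a b0) (getR T (t - w)))) (inner T A V a t half tl)
        (Nat.beq (getR T (t - w)) 0)) (Nat.ble w half)) = true := h
    rw [br_imp, br_true, br_and, nbeq, nbeqf, nble] at h'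
    rcases hm with ⟨rfl, rfl⟩ | hm
    · rcases h' hv with ⟨-, h2, -⟩ | ⟨h1, -⟩
      · exact hA _ _ h2 c hc
      · exact absurd h1 h0
    · have hw := hs.1 _ _ hm
      rcases h' (by omega) with ⟨-, -, h2⟩ | ⟨-, h2⟩ <;> exact ih h2 hs.2 v b hm hv h0 c hc

theorem outer_sound {T nx : ℕ} {A} (hA : ASound nx A) {V : ℕ → ℕ → ℕ → Bool} {tg : ℕ} (l : NL) :
    outer T A V tg l = true → l.Srt → ∀ v1 a v2 b, l.Mem v1 a → l.Mem v2 b → v1 ≤ v2 → v1 + 2 * v2 ≤ tg →
      getR T (tg - v1 - v2) ≠ 0 →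
      ∀ c, InCh nx (getR T (tg - v1 - v2)) c → V a b c = true ∨ V b a c = true := by
  induction l with
  | nil => intro _ _ v1 a v2 b hm; exact absurd hm id
  | cons w a0 tl ih =>
    intro h hs v1 a v2 b hm1 hm2 h12 ht h0 c hc
    have h' : (Bool.rec (motive := fun _ => Bool) false (outer T A V tg tl)
      (inner T A V a0 (tg - w) ((tg - w) / 2) (NL.cons w a0 tl))) = true := h
    rw [br_and] at h'
    rcases hm1 with ⟨rfl, rfl⟩ | hm1
    · exact Or.inl (inner_sound hA _ h'.1 hs v2 b hm2 (by omega) h0 c hc)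
    · rcases hm2 with ⟨rfl, rfl⟩ | hm2
      · have := hs.1 _ _ hm1
        obtain rfl : v1 = v2 := by omega
        exact Or.inr (inner_sound hA _ h'.1 hs v1 a (Or.inr hm1) (by omega) h0 c hc)
      · exact ih h'.2 hs.2 v1 a v2 b hm1 hm2 h12 ht h0 c hc

theorem get11_eq (T k : ℕ) : getR T (k * 11) = get11 T k :=
  congrArg (getR T) (rfl : k * 11 = Nat.mul k (nat_lit 11))

theorem enum_sorted {T nx : ℕ} {A} (hA : ASound nx A) {V : ℕ → ℕ → ℕ → Bool} {tg : ℕ}
    (h : enum T nx A V tg = true) {a b c ka kb kc : ℕ}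
    (ha : get11 T ka ≠ 0 ∧ InCh nx (get11 T ka) a) (hb : get11 T kb ≠ 0 ∧ InCh nx (get11 T kb) b)
    (hc : get11 T kc ≠ 0 ∧ InCh nx (get11 T kc) c) (h1 : ka ≤ kb) (h2 : kb ≤ kc) (hs : ka + kb + kc = tg) :
    V a b c = true ∨ V b a c = true := by
  rw [enum, force_eq] at h
  have h' : mkL T nx (outer T A V (tg * 11)) (tg / 2 + 1) NL.nil = true := h
  obtain ⟨l, a1, a2, -, a4⟩ := mkL_sound _ _ h' trivial (fun _ _ h => absurd h id)
  have e : tg * 11 - ka * 11 - kb * 11 = kc * 11 := by omega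
  refine outer_sound hA l a1 a2 (ka * 11) a (kb * 11) b (a4 ka (by omega) ha.1 a ha.2)
    (a4 kb (by omega) hb.1 b hb.2) (by omega) (by omega) ?_ c ?_
  · rw [e, get11_eq]; exact hc.1
  · rw [e, get11_eq]; exact hc.2

theorem enum_sound {T nx : ℕ} {A} (hA : ASound nx A) {V : ℕ → ℕ → ℕ → Bool} {tg : ℕ}
    (h : enum T nx A V tg = true) (P : ℕ → ℕ → ℕ → Prop) (D : ℕ → Prop)
    (hV : ∀ a b c, D a → D b → D c → V a b c = true → P a b c)
    (p1 : ∀ a b c, P a b c → P b a c) (p2 : ∀ a b c, P a b c → P a c b) (κ : ℕ → ℕ)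
    (hκ : ∀ a, D a → get11 T (κ a) ≠ 0 ∧ InCh nx (get11 T (κ a)) a) {a b c : ℕ}
    (ha : D a) (hb : D b) (hc : D c) (hs : κ a + κ b + κ c = tg) : P a b c := by
  have key : ∀ a b c, D a → D b → D c → κ a + κ b + κ c = tg → κ a ≤ κ b → κ b ≤ κ c → P a b c := by
    intro a b c ha hb hc hs h1 h2
    rcases enum_sorted hA h (hκ a ha) (hκ b hb) (hκ c hc) h1 h2 hs with h3 | h3
    · exact hV _ _ _ ha hb hc h3
    · exact p1 _ _ _ (hV _ _ _ hb ha hc h3)
  rcases le_total (κ a) (κ b) with h1 | h1 <;> rcases le_total (κ b) (κ c) with h2 | h2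
  · exact key a b c ha hb hc hs h1 h2
  · rcases le_total (κ a) (κ c) with h3 | h3
    · exact p2 _ _ _ (key a c b ha hc hb (by omega) h3 h2)
    · exact p2 _ _ _ (p1 _ _ _ (key c a b hc ha hb (by omega) h3 h1))
  · rcases le_total (κ a) (κ c) with h3 | h3
    · exact p1 _ _ _ (key b a c hb ha hc (by omega) h1 h3)
    · exact p1 _ _ _ (p2 _ _ _ (key b c a hb hc ha (by omega) h2 h3))
  · exact p1 _ _ _ (p2 _ _ _ (p1 _ _ _ (key c b a hc hb ha (by omega) h2 h1)))

theorem build_sound {m : ℕ} {k : ℕ → ℕ → ℕ → Bool} (n : ℕ) :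
    ∀ a b c, build m k n a b c = true → ∃ a b c, k a b c = true := by
  induction n with
  | zero => intro a b c h; exact ⟨a, b, c, h⟩
  | succ n ih => intro a b c h; exact ih _ _ _ h

theorem buildC_sound {L C P : ℕ} {k : ℕ → ℕ → Bool} (n : ℕ) :
    ∀ a b, buildC L C P k n a b = true → ∃ a b, k a b = true := by
  induction n with
  | zero => intro a b h; exact ⟨a, b, h⟩
  | succ n ih => intro a b h; exact ih _ _ h

theorem tabOK_sound {m hd hr nx i : ℕ} (h : tabOK m hd hr nx i = true) :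
    (get11 hd ((2 * i + 1) * (2 * i + 1) / 8 % m) ≠ 0 ∧
      InCh nx (get11 hd ((2 * i + 1) * (2 * i + 1) / 8 % m)) (2 * i + 1)) ∧
    get11 hd ((2 * i + 1) * (2 * i + 1) / 8 % m) = get11 hr (m - 1 - (2 * i + 1) * (2 * i + 1) / 8 % m) := by
  have e : 2 * i + 1 = i + i + 1 := by ring
  rw [e]
  have h' : (Bool.rec (motive := fun _ => Bool) false
    (anyB nx (i + i + 1) 50 (get11 hd ((i + i + 1) * (i + i + 1) / 8 % m)))
    (Nat.beq (get11 hd ((i + i + 1) * (i + i + 1) / 8 % m))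
      (get11 hr (m - 1 - (i + i + 1) * (i + i + 1) / 8 % m)))) = true := h
  rw [br_and, nbeq] at h'
  exact ⟨anyB_sound (by omega) _ _ h'.2, h'.1⟩

theorem sort3_sound {a b c : ℕ} {k : ℕ → ℕ → ℕ → Bool} (h : sort3 a b c k = true) :
    k a b c = true ∨ k a c b = true ∨ k b a c = true ∨ k b c a = true ∨ k c a b = true ∨ k c b a = true := by
  simp only [sort3, br_true] at h
  tauto

theorem sort6_sound {a b c u v w : ℕ} {k : ℕ → ℕ → ℕ → ℕ → ℕ → ℕ → Bool} (h : sort6 a b c u v w k = true) :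
    k a b c u v w = true ∨ k a c b u w v = true ∨ k b a c v u w = true ∨ k b c a v w u = true ∨
      k c a b w u v = true ∨ k c b a w v u = true := by
  simp only [sort6, br_true] at h
  tauto

theorem key_dec {r a b c : ℕ} (hb : b ≤ 2047) (hc : c ≤ 2047) (h : Nat.mod r 8589934592 = key a b c) :
    cX r = a ∧ cY r = b ∧ cZ r = c := by
  simp only [key, cX, cY, cZ, nadd, nmul, nmod, ndiv] at *
  omega

theorem fnd0_sound {bound k i r : ℕ} (h : fnd0 bound k i r = true) : i < bound ∧ 1 ≤ i ∧ r = k := by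
  simp only [fnd0, br_and, nblt, nble, nbeq] at h
  exact h

theorem fnd7_sound {n g t k u v w i r0 g' u' v' w' β : ℕ} (h : fnd7 n g t k u v w i r0 g' u' v' w' β = true) :
    (i < n ∧ 1 ≤ i ∧ r0 = k) ∧ g' = g ∧ ((u + β = u' + t ∧ v + β = v' + t ∧ w + β = w' + t) ∨
      (u + u' = t ∧ v + v' = t ∧ w + w' = t)) := by
  simp only [fnd7, and3_eq, br_or, nblt, nble, nbeq, nadd] at h
  exact h

theorem fnd_sound {C Tb P bound a b c : ℕ} (hb : b ≤ 2047) (hc : c ≤ 2047) (h : fnd C Tb P bound a b c = true) :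
    ∃ i, 1 ≤ i ∧ i < bound ∧ cX (crec C i) = a ∧ cY (crec C i) = b ∧ cZ (crec C i) = c := by
  have h1 : fnd1 C bound (key a b c) (idx Tb P (key a b c)) = true := h
  generalize idx Tb P (key a b c) = i at h1
  have h2 : fnd0 bound (key a b c) i (Nat.mod (crec C i) 8589934592) = true := h1
  obtain ⟨h3, h4, h5⟩ := fnd0_sound h2
  exact ⟨i, h4, h3, key_dec hb hc h5⟩

theorem fnd6_sound {C Tb P n g t a b c u v w : ℕ} (hb : b ≤ 2047) (hc : c ≤ 2047)
    (h : fnd6 C Tb P n g t a b c u v w = true) :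
    ∃ i, 1 ≤ i ∧ i < n ∧ cG (crec C i) = g ∧ cX (crec C i) = a ∧ cY (crec C i) = b ∧ cZ (crec C i) = c ∧
      ((u + cU (crec C i) = t ∧ v + cV (crec C i) = t ∧ w + cW (crec C i) = t) ∨
       (u + 2097152 = cU (crec C i) + t ∧ v + 2097152 = cV (crec C i) + t ∧ w + 2097152 = cW (crec C i) + t)) := by
  have h0 : fnd9 C n g t (key a b c) u v w (idx Tb P (key a b c)) = true := h
  generalize idx Tb P (key a b c) = i at h0
  have h6 : fnd8 n g t (key a b c) u v w i (crec C i) = true := h0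
  have h7 : fnd7 n g t (key a b c) u v w i (Nat.mod (crec C i) 8589934592) (cG (crec C i)) (cU (crec C i))
    (cV (crec C i)) (cW (crec C i)) 2097152 = true := h6
  obtain ⟨⟨h1, h2, h3⟩, h4, h5⟩ := fnd7_sound h7
  obtain ⟨k1, k2, k3⟩ := key_dec hb hc h3
  exact ⟨i, h2, h1, h4, k1, k2, k3, h5.symm⟩

end Pool.Agent.Lib.MP_568bdc_nt
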