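import Pool.Agent.Lib.MP_568bdc_nt.DiscCore
import Pool.Agent.Lib.MP_568bdc_nt.Basic

/-! Soundness of the finite checker: main statement. -/

namespace Pool.Agent.Lib.MP_568bdc_nt

def rsum (m : ℕ) (X : V3) : ℤ := X.x * X.x / 8 % m + X.y * X.y / 8 % m + X.z * X.z / 8 % m

theorem VD.s01 {M L a b c} (h : VD M L a b c) : VD M L b a c := fun X h1 h3 => h X.s01 h1.s01 h3.s01
theorem VD.s12 {M L a b c} (h : VD M L a b c) : VD M L a c b := fun X h1 h3 => h X.s12 h1.s12 h3.s12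

section
variable {m L s : ℕ} {n' M : ℤ}

theorem gsA (hm : 0 < m) (hL : L = 4 * m ∨ (L = 2 * m ∧ m % 2 = 1)) (hM : M = 8 * (m * n' + s) + 3)
    (hb : AllBad m s M) {B lo Bq : ℕ} (hB : B = 8 * m) (hlo : lo = 8 * (s + 1 - m) + 1)
    (hq : Bq = 8 * s + 2 - lo) : GS M L (tstA B lo Bq) := by
  refine ⟨fun p q yes no h => ?_, fun p q yes no X hX hp hq' h => ?_⟩
  · rw [tstA, br_true] at h; tauto
  · rw [tstA, br_true, nbeqf] at h
    rcases h with ⟨h, -⟩ | ⟨-, h⟩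
    swap
    · exact h
    exfalso
    obtain ⟨⟨o1, o2, o3⟩, k, hk⟩ := sum_res hm (hX.1.trans hM)
    have e2 := sq_cong hL o2 hp
    have e3 := sq_cong hL o3 hq'
    rw [← hB] at e2 e3
    simp only [nadd, nsub, nmul, nmod, ndiv] at h
    generalize p * p % B = u at *
    generalize q * q % B = v at *
    have h1 : u + v - lo ≠ 0 := by rintro h0; rw [h0] at h; simp at h
    have h2 : u + v - lo ≤ Bq := by
      by_contra h3
      exact h (Nat.div_eq_of_lt (by omega))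
    have hm' : (0 : ℤ) < m := by exact_mod_cast hm
    have a1 := Int.emod_nonneg (X.x * X.x / 8) hm'.ne'
    have a2 := Int.emod_lt_of_pos (X.x * X.x / 8) hm'
    have a3 := Int.emod_nonneg (X.y * X.y / 8) hm'.ne'
    have a4 := Int.emod_nonneg (X.z * X.z / 8) hm'.ne'
    have hne := hb X.x X.y X.z hX.1
    generalize X.x * X.x / 8 % m = a at *
    generalize X.y * X.y / 8 % m = b at *
    generalize X.z * X.z / 8 % m = c at *
    have b1 : b + c ≤ s := by omega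
    have b2 : (s : ℤ) + 1 - m ≤ b + c := by omega
    rcases lt_trichotomy k 0 with h0 | h0 | h0
    · nlinarith
    · subst h0; omega
    · nlinarith

theorem gsB (hm : 0 < m) (hL : L = 4 * m ∨ (L = 2 * m ∧ m % 2 = 1)) (hM : M = 8 * (m * n' + s) + 3)
    (h1 : ∀ X, PRep M X → s + m ≤ rsum m X) {B Bq : ℕ} (hB : B = 8 * m) (hq : Bq = 8 * s + 2) :
    GS M L (tstB B Bq) := by
  refine ⟨fun p q yes no h => ?_, fun p q yes no X hX hp hq' h => ?_⟩
  · rw [tstB, br_true] at h; tauto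
  · rw [tstB, br_true, nble] at h
    rcases h with ⟨-, h⟩ | ⟨h, -⟩
    · exact h
    exfalso
    obtain ⟨⟨o1, o2, o3⟩, -⟩ := sum_res hm (hX.1.trans hM)
    have e2 := sq_cong hL o2 hp
    have e3 := sq_cong hL o3 hq'
    rw [← hB] at e2 e3
    simp only [nadd, nmul, nmod] at h
    have hm' : (0 : ℤ) < m := by exact_mod_cast hm
    have a2 := Int.emod_lt_of_pos (X.x * X.x / 8) hm'
    have := h1 X hX
    simp only [rsum] at this
    omega

theorem enum_vd (hm : 0 < m) (hL : L = 4 * m ∨ (L = 2 * m ∧ m % 2 = 1)) (hM : M = 8 * (m * n' + s) + 3)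
    {T nx A V tg} (hA : ASound nx A) (h : enum T nx A V tg = true)
    (hV : ∀ a b c, a ≤ L → b ≤ L → c ≤ L → V a b c = true → VD M L a b c) (κ : ℕ → ℕ)
    (hκ : ∀ i, i < (L + 2) / 4 → get11 T (κ ((2 * i + 1) * (2 * i + 1) / 8 % m)) ≠ 0 ∧
      InCh nx (get11 T (κ ((2 * i + 1) * (2 * i + 1) / 8 % m))) (2 * i + 1))
    {X : V3} (hX : PRep M X)
    (hs : ∀ a b c : ℕ, a < m → b < m → c < m → (a : ℤ) + b + c = rsum m X → κ a + κ b + κ c = tg) : False := by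
  obtain ⟨ho, -⟩ := sum_res hm (hX.1.trans hM)
  obtain ⟨X', i, j, k, hX', hi, hj, hk, hc, e1, e2, e3⟩ := norm_rep (L := L) (by omega) (by omega) hX ho
  obtain ⟨⟨o1, o2, o3⟩, -⟩ := sum_res hm (hX'.1.trans hM)
  have r1 := res_cong hL o1 hc.1
  have r2 := res_cong hL o2 hc.2.1
  have r3 := res_cong hL o3 hc.2.2
  refine enum_sound hA h (VD M L) (fun a => ∃ i, i < (L + 2) / 4 ∧ a = 2 * i + 1)
    (fun a b c ha hb hc => hV a b c ?_ ?_ ?_) (fun _ _ _ => VD.s01) (fun _ _ _ => VD.s12)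
    (fun a => κ (a * a / 8 % m)) ?_ ⟨i, hi, rfl⟩ ⟨j, hj, rfl⟩ ⟨k, hk, rfl⟩ ?_ X' hX' hc
  · obtain ⟨i, h1, rfl⟩ := ha; omega
  · obtain ⟨i, h1, rfl⟩ := hb; omega
  · obtain ⟨i, h1, rfl⟩ := hc; omega
  · rintro a ⟨i, h1, rfl⟩; exact hκ i h1
  · refine hs _ _ _ (Nat.mod_lt _ hm) (Nat.mod_lt _ hm) (Nat.mod_lt _ hm) ?_
    rw [r1, r2, r3, e1, e2, e3]; rfl

theorem chkMain_spec (hm : 0 < m) (hL2 : L ≤ 2047) (hs : s < 3 * m) (hL : L = 4 * m ∨ (L = 2 * m ∧ m % 2 = 1))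
    (hM : M = 8 * (m * n' + s) + 3) (hM3 : M % 3 = 2) (hb : AllBad m s M)
    (hbig : ((4 * (m * m * m * m) : ℕ) : ℤ) < M) {R F F' V V' P n C} (hR : RS M L R) (hF : FS M L F)
    (hV : VS M L V) (h : chkMain R F F' V V' m L s P n C = true) :
    (∀ X, PRep M X → s + m ≤ rsum m X) ∧ (FS M L F' → VS M L V' → ∀ X, PRep M X → False) := by
  obtain ⟨Tb, Bm, h1⟩ := buildC_sound _ _ _ h
  rw [Bool.and_eq_true] at h1
  obtain ⟨h1, h2⟩ := h1
  obtain ⟨hd, hr, nx, h2⟩ := build_sound _ _ _ _ h2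
  obtain ⟨A, hA, h2⟩ := it50_sound (ASound nx) (allB_sound nx) (noB_sound nx) h2
  rw [Bool.and_eq_true, Bool.and_eq_true] at h2
  obtain ⟨⟨h2, h3⟩, h4⟩ := h2
  have hcore : KS M L (isCore L C Tb P n) :=
    isCore_sound hL2 (core_sound hM3 hL2 hR (hF Bm) hbig (allLt_sound h1))
  have hno : KS M L no3 := fun a b c _ _ _ h => absurd h (by simp [no3])
  have htab := fun i hi => tabOK_sound (allLt_sound h2 i hi)
  have hm' : (0 : ℤ) < m := by exact_mod_cast hm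
  have hrs : ∀ X, PRep M X → 0 ≤ rsum m X ∧ rsum m X + 3 ≤ 3 * m ∧ ∃ k : ℤ, rsum m X = s + m * k := by
    intro X hX
    have a1 := Int.emod_nonneg (X.x * X.x / 8) hm'.ne'
    have a2 := Int.emod_lt_of_pos (X.x * X.x / 8) hm'
    have a3 := Int.emod_nonneg (X.y * X.y / 8) hm'.ne'
    have a4 := Int.emod_lt_of_pos (X.y * X.y / 8) hm'
    have a5 := Int.emod_nonneg (X.z * X.z / 8) hm'.ne'
    have a6 := Int.emod_lt_of_pos (X.z * X.z / 8) hm'
    refine ⟨by simp only [rsum]; omega, by simp only [rsum]; omega, (sum_res hm (hX.1.trans hM)).2⟩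
  have p1 : ∀ X, PRep M X → s + m ≤ rsum m X := by
    intro X hX
    obtain ⟨D, hD, h3⟩ := it50_sound (KS M L) (fun K hK => hF Bm _ K hcore hK) hno h3
    rw [Bool.and_eq_true, Bool.or_eq_true, Bool.or_eq_true, nblt, nblt] at h3
    obtain ⟨a1, a2, k, hk⟩ := hrs X hX
    have hne : rsum m X ≠ s := hb X.x X.y X.z hX.1
    have : 1 ≤ k ∨ k = 0 ∨ k = -1 ∨ k = -2 ∨ k ≤ -3 := by omega
    rcases this with h0 | rfl | rfl | rfl | h0
    · nlinarith
    · omega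
    · exact (enum_vd hm hL hM hA (h3.1.resolve_left (by omega)) (hV D hD) id (fun i hi => (htab i hi).1) hX
        (fun a b c _ _ _ e => by simp only [id]; omega)).elim
    · exact (enum_vd hm hL hM hA (h3.2.resolve_left (by omega)) (hV D hD) id (fun i hi => (htab i hi).1) hX
        (fun a b c _ _ _ e => by simp only [id]; omega)).elim
    · exfalso; nlinarith
  refine ⟨p1, fun hF' hV' X hX => ?_⟩
  obtain ⟨D, hD, h4⟩ := it50_sound (KS M L) (fun K hK => hF' Bm _ K hcore hK) hno h4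
  rw [Bool.and_eq_true, Bool.or_eq_true, Bool.or_eq_true, nblt, nblt] at h4
  obtain ⟨a1, a2, k, hk⟩ := hrs X hX
  have a3 := p1 X hX
  have htab' := fun i hi => (htab i hi).2 ▸ (htab i hi).1
  have : k ≤ 0 ∨ k = 1 ∨ k = 2 ∨ 3 ≤ k := by omega
  rcases this with h0 | rfl | rfl | h0
  · nlinarith
  · exact enum_vd hm hL hM hA (h4.1.resolve_left (by omega)) (hV' D hD) (fun r => m - 1 - r) htab' hX
      (fun a b c _ _ _ e => by omega)
  · exact enum_vd hm hL hM hA (h4.2.resolve_left (by omega)) (hV' D hD) (fun r => m - 1 - r) htab' hX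
      (fun a b c _ _ _ e => by omega)
  · nlinarith

end

theorem mk1_ex {G L c c2 k} (h : mk1 G L c c2 k = true) : ∃ F V, k F V = true := ⟨_, _, h⟩
theorem mk3_ex {G L c c2 k} (h : mk3 G L c c2 k = true) : ∃ F V, k F V = true := ⟨_, _, h⟩
theorem mkA_eq (B lo Bq k) : mkA B lo Bq k = k (tstA B lo Bq) := rfl
theorem mkB_eq (B Bq k) : mkB B Bq k = k (tstB B Bq) := rfl

theorem chk_sound {m L s c P n C : ℕ} (h : chk m L s c P n C = true) (n0 : ℕ) (h3 : (m * n0 + s) % 3 = 1) :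
    RepN m n0 := by
  by_contra hn
  rw [chk, Bool.and_eq_true, Bool.and_eq_true, Bool.and_eq_true, Bool.and_eq_true, Bool.or_eq_true,
    Bool.and_eq_true, nble, nble, nblt, nbeq, nbeq, nbeq, force_eq, force_eq, force_eq, force_eq, force_eq,
    force_eq, mkA_eq, mkB_eq, br_true, force_eq, force_eq, Bool.and_eq_true, Bool.and_eq_true, nbeq, nbeq,
    nbeq, nbeqf] at h
  obtain ⟨⟨⟨⟨hm, hL2⟩, hs⟩, hL⟩, h⟩ := h
  have hb := allBad_of_not_rep (s := s) (by omega) hn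
  have hbig := big_of_not_rep (s := s) hm hn
  have hM3 : (8 * ((m : ℤ) * n0 + s) + 3) % 3 = 2 := by
    have : (((m * n0 + s) % 3 : ℕ) : ℤ) = 1 := by rw [h3]; rfl
    push_cast at this
    omega
  have hbig' : ((4 * (m * m * m * m) : ℕ) : ℤ) < 8 * ((m : ℤ) * n0 + s) + 3 := by exact_mod_cast hbig
  obtain ⟨x, y, z, a, b, d, e1, e2⟩ := three_sq_prim (8 * (m * n0 + s) + 3) (by omega)
  have hX : PRep (8 * ((m : ℤ) * n0 + s) + 3) ⟨x, y, z⟩ := ⟨by rw [V3.nrm, e1]; push_cast; ring, a, b, d, e2⟩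
  have hG := gsA (by omega) hL rfl hb rfl rfl rfl
  have hG' := fun h1 => gsB (by omega) hL (n' := n0) (s := s) rfl h1 rfl rfl
  rcases h with ⟨-, h1, h⟩ | ⟨-, h1, h⟩
  · have hc3 : (L : ℤ) ∣ 3 * c + 2 := by exact_mod_cast Nat.dvd_of_mod_eq_zero h1
    have hc2 : (L : ℤ) ∣ (((L - 2) * c % L : ℕ) : ℤ) + 2 * c := by
      have e := Nat.div_add_mod ((L - 2) * c) L
      have e' : ((L : ℤ)) * (((L - 2) * c / L : ℕ) : ℤ) + (((L - 2) * c % L : ℕ) : ℤ) = (L - 2) * c := by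
        rw [← Nat.cast_mul, ← Nat.cast_add, e, Nat.cast_mul, Nat.cast_sub (by omega)]; rfl
      exact ⟨c - (((L - 2) * c / L : ℕ) : ℤ), by linarith⟩
    obtain ⟨F, V, hF, hV, h⟩ := mk1_sound hM3 (by omega) hG hc3 hc2 h
    have hR := r1_sound hM3 (by omega) hG hc3
    obtain ⟨F0, V0, h0⟩ := mk1_ex h
    have p1 := (chkMain_spec (by omega) hL2 hs hL rfl hM3 hb hbig' hR hF hV h0).1
    obtain ⟨F', V', hF', hV', h⟩ := mk1_sound hM3 (by omega) (hG' p1) hc3 hc2 h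
    exact (chkMain_spec (by omega) hL2 hs hL rfl hM3 hb hbig' hR hF hV h).2 hF' hV' _ hX
  · obtain ⟨F, V, hF, hV, h⟩ := mk3_sound hM3 (by omega) hG h1 h
    have hR := r3_sound hM3 (by omega) hG h1
    obtain ⟨F0, V0, h0⟩ := mk3_ex h
    have p1 := (chkMain_spec (by omega) hL2 hs hL rfl hM3 hb hbig' hR hF hV h0).1
    obtain ⟨F', V', hF', hV', h⟩ := mk3_sound hM3 (by omega) (hG' p1) h1 h
    exact (chkMain_spec (by omega) hL2 hs hL rfl hM3 hb hbig' hR hF hV h).2 hF' hV' _ hX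

theorem rep_of_one {m L s c P n C : ℕ} (h : chk m L s c P n C = true) (h3 : m % 3 = 0) (hs : s % 3 = 1)
    (n0 : ℕ) : RepN m n0 :=
  chk_sound h n0 (by rw [Nat.add_mod, Nat.mul_mod, h3, hs]; simp)

theorem rep_of_three {m L0 s0 c0 P0 n0 C0 L1 s1 c1 P1 n1 C1 L2 s2 c2 P2 n2 C2 : ℕ}
    (h0 : chk m L0 s0 c0 P0 n0 C0 = true) (h1 : chk m L1 s1 c1 P1 n1 C1 = true)
    (h2 : chk m L2 s2 c2 P2 n2 C2 = true) (e0 : s0 % 3 = 0) (e1 : s1 % 3 = 1) (e2 : s2 % 3 = 2)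
    (n : ℕ) : RepN m n := by
  have : m * n % 3 = 0 ∨ m * n % 3 = 1 ∨ m * n % 3 = 2 := by omega
  rcases this with h | h | h
  · exact chk_sound h1 n (by omega)
  · exact chk_sound h0 n (by omega)
  · exact chk_sound h2 n (by omega)

end Pool.Agent.Lib.MP_568bdc_nt
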