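import Pool.Agent.Lib.MP_568bdc_nt.Descent
import Pool.Agent.Lib.MP_568bdc_nt.DiscEnum

/-! Soundness of the walk part of the finite checker. -/

namespace Pool.Agent.Lib.MP_568bdc_nt

def PRep (M : ℤ) (X : V3) : Prop := X.nrm = M ∧ X.Prim

def Cg (L : ℕ) (X : V3) (a b c : ℕ) : Prop := (L : ℤ) ∣ X.x - a ∧ (L : ℤ) ∣ X.y - b ∧ (L : ℤ) ∣ X.z - c

def Dead (M : ℤ) (L a b c : ℕ) : Prop := ∀ X, PRep M X → (X.x + X.y + X.z) % 3 = 0 → Cg L X a b c → False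

def VD (M : ℤ) (L a b c : ℕ) : Prop := ∀ X, PRep M X → Cg L X a b c → False

def KS (M : ℤ) (L : ℕ) (K : ℕ → ℕ → ℕ → Bool) : Prop :=
  ∀ a b c, a ≤ L → b ≤ L → c ≤ L → K a b c = true → Dead M L a b c

def GS (M : ℤ) (L : ℕ) (G : ℕ → ℕ → Bool → Bool → Bool) : Prop :=
  (∀ p q yes no, G p q yes no = true → yes = true ∨ no = true) ∧
  (∀ (p q : ℕ) yes no X, PRep M X → (L : ℤ) ∣ X.y - p → (L : ℤ) ∣ X.z - q → G p q yes no = true → no = true)

def V3.f0 (X : V3) : V3 := ⟨-X.x, X.y, X.z⟩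
def V3.rf (X : V3) (t : ℤ) : V3 := ⟨X.x - 2 * t, X.y - 2 * t, X.z - 2 * t⟩

def RS (M : ℤ) (L : ℕ) (R : (ℕ → ℕ → ℕ → Bool) → ℕ → ℕ → ℕ → Bool) : Prop :=
  ∀ K a b d Z t, PRep M Z → 3 * t = Z.x + Z.y + Z.z → Cg L Z a b d → R K a b d = true →
    ∃ a' b' d', a' ≤ L ∧ b' ≤ L ∧ d' ≤ L ∧ K a' b' d' = true ∧ Cg L (Z.rf t) a' b' d'

def FS (M : ℤ) (L : ℕ) (F : ℕ → (ℕ → ℕ → ℕ → Bool) → (ℕ → ℕ → ℕ → Bool) → ℕ → ℕ → ℕ → Bool) : Prop :=
  ∀ Bm core K, KS M L core → KS M L K → KS M L (F Bm core K)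

def VS (M : ℤ) (L : ℕ) (V : (ℕ → ℕ → ℕ → Bool) → ℕ → ℕ → ℕ → Bool) : Prop :=
  ∀ K, KS M L K → ∀ a b c, a ≤ L → b ≤ L → c ≤ L → V K a b c = true → VD M L a b c

theorem PRep.s01 {M X} (h : PRep M X) : PRep M X.s01 := by
  obtain ⟨h1, a, b, c, h2⟩ := h
  exact ⟨by rw [← h1]; simp only [V3.nrm, V3.s01]; ring, b, a, c, by simp only [V3.s01]; linarith⟩

theorem PRep.s12 {M X} (h : PRep M X) : PRep M X.s12 := by
  obtain ⟨h1, a, b, c, h2⟩ := h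
  exact ⟨by rw [← h1]; simp only [V3.nrm, V3.s12]; ring, a, c, b, by simp only [V3.s12]; linarith⟩

theorem PRep.neg {M X} (h : PRep M X) : PRep M X.neg := by
  obtain ⟨h1, a, b, c, h2⟩ := h
  exact ⟨by rw [← h1]; simp only [V3.nrm, V3.neg]; ring, -a, -b, -c, by simp only [V3.neg]; linarith⟩

theorem PRep.f0 {M X} (h : PRep M X) : PRep M X.f0 := by
  obtain ⟨h1, a, b, c, h2⟩ := h
  exact ⟨by rw [← h1]; simp only [V3.nrm, V3.f0]; ring, -a, b, c, by simp only [V3.f0]; linarith⟩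

theorem PRep.rf {M X t} (hM : M % 3 = 2) (h : PRep M X) (ht : 3 * t = X.x + X.y + X.z) : PRep M (X.rf t) := by
  obtain ⟨h1, a, b, c, h2⟩ := h
  obtain ⟨x, y, z⟩ := X
  simp only [V3.nrm] at h1 h2 ht
  obtain rfl : x = 3 * t - y - z := by omega
  have hn : (V3.rf ⟨3 * t - y - z, y, z⟩ t).nrm = M := by rw [← h1]; simp only [V3.nrm, V3.rf]; ring
  refine ⟨hn, ?_⟩
  obtain ⟨q, hq⟩ : ∃ q, M = 3 * q + 2 := ⟨M / 3, by omega⟩
  refine ⟨(q + 1) * (3 * a - 2 * (a + b + c)) - (t - y - z), (q + 1) * (3 * b - 2 * (a + b + c)) - (y - 2 * t),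
    (q + 1) * (3 * c - 2 * (a + b + c)) - (z - 2 * t), ?_⟩
  simp only [V3.rf]
  linear_combination 3 * (q + 1) * h2 - h1 - hq

theorem Cg.s01 {L X a b c} (h : Cg L X a b c) : Cg L X.s01 b a c := ⟨h.2.1, h.1, h.2.2⟩
theorem Cg.s12 {L X a b c} (h : Cg L X a b c) : Cg L X.s12 a c b := ⟨h.1, h.2.2, h.2.1⟩

theorem dvd_flip {L a : ℕ} {x : ℤ} (ha : a ≤ L) (h : (L : ℤ) ∣ x - a) : (L : ℤ) ∣ -x - (L - a : ℕ) := by
  rw [Nat.cast_sub ha]
  have : -x - ((L : ℤ) - a) = -(x - a) - L := by ring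
  rw [this]
  exact dvd_sub (dvd_neg.mpr h) dvd_rfl

theorem Cg.f0 {L X a b c} (ha : a ≤ L) (h : Cg L X a b c) : Cg L X.f0 (L - a) b c :=
  ⟨dvd_flip ha h.1, h.2.1, h.2.2⟩

theorem Cg.neg {L X a b c} (ha : a ≤ L) (hb : b ≤ L) (hc : c ≤ L) (h : Cg L X a b c) :
    Cg L X.neg (L - a) (L - b) (L - c) := ⟨dvd_flip ha h.1, dvd_flip hb h.2.1, dvd_flip hc h.2.2⟩

theorem Dead.s01 {M L a b c} (h : Dead M L b a c) : Dead M L a b c := fun X h1 h2 h3 =>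
  h X.s01 h1.s01 (by simp only [V3.s01]; omega) h3.s01

theorem Dead.s12 {M L a b c} (h : Dead M L a c b) : Dead M L a b c := fun X h1 h2 h3 =>
  h X.s12 h1.s12 (by simp only [V3.s12]; omega) h3.s12

theorem Dead.neg {M L a b c} (ha : a ≤ L) (hb : b ≤ L) (hc : c ≤ L) (h : Dead M L (L - a) (L - b) (L - c)) :
    Dead M L a b c := fun X h1 h2 h3 =>
  h X.neg h1.neg (by simp only [V3.neg]; omega) (h3.neg ha hb hc)

theorem dvd_md {L a u : ℕ} {x t : ℤ} (h : (L : ℤ) ∣ x - a) (hu : (L : ℤ) ∣ u + 2 * t) :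
    (L : ℤ) ∣ x - 2 * t - ((a + u : ℕ) : ℤ) := by
  have : x - 2 * t - ((a + u : ℕ) : ℤ) = (x - a) - (u + 2 * t) := by push_cast; ring
  rw [this]; exact dvd_sub h hu

theorem dvd_md2 {L a : ℕ} {x : ℤ} (h : (L : ℤ) ∣ x - a) : (L : ℤ) ∣ x - ((a % L : ℕ) : ℤ) := by
  have : x - ((a % L : ℕ) : ℤ) = (x - a) + L * (a / L : ℕ) := by
    have := Nat.div_add_mod a L
    have h2 : (a : ℤ) = L * (a / L : ℕ) + (a % L : ℕ) := by exact_mod_cast this.symm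
    linarith
  rw [this]; exact dvd_add h (dvd_mul_right _ _)

section
variable {M : ℤ} {L : ℕ} {G : ℕ → ℕ → Bool → Bool → Bool}

theorem ch_next (hG : GS M L G) {K a b d u next} (h : ch G L K a b d u next = true) : next = true := by
  rcases hG.1 _ _ _ _ h with h1 | h1
  · exact h1
  · rw [br_and] at h1; exact h1.2

theorem ch_step (hM : M % 3 = 2) (hL : 0 < L) (hG : GS M L G) {K a b d u next Z t}
    (h : ch G L K a b d u next = true) (hZ : PRep M Z) (ht : 3 * t = Z.x + Z.y + Z.z) (hc : Cg L Z a b d)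
    (hu : (L : ℤ) ∣ u + 2 * t) :
    ∃ a' b' d', a' ≤ L ∧ b' ≤ L ∧ d' ≤ L ∧ K a' b' d' = true ∧ Cg L (Z.rf t) a' b' d' := by
  have h1 := hG.2 _ _ _ _ (Z.rf t) (hZ.rf hM ht) (dvd_md hc.2.1 hu) (dvd_md hc.2.2 hu) h
  rw [br_and] at h1
  exact ⟨_, _, _, (Nat.mod_lt _ hL).le, (Nat.mod_lt _ hL).le, (Nat.mod_lt _ hL).le, h1.1,
    dvd_md2 (dvd_md hc.1 hu), dvd_md2 (dvd_md hc.2.1 hu), dvd_md2 (dvd_md hc.2.2 hu)⟩

theorem ch_dead (hM : M % 3 = 2) (hL : 0 < L) (hG : GS M L G) {K a b d u next Z t} (hK : KS M L K)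
    (h : ch G L K a b d u next = true) (hZ : PRep M Z) (ht : 3 * t = Z.x + Z.y + Z.z) (hc : Cg L Z a b d)
    (hu : (L : ℤ) ∣ u + 2 * t) : False := by
  obtain ⟨a', b', d', h1, h2, h3, h4, h5⟩ := ch_step hM hL hG h hZ ht hc hu
  exact hK _ _ _ h1 h2 h3 h4 _ (hZ.rf hM ht) (by simp only [V3.rf]; omega) h5

theorem gq_no (hM : M % 3 = 2) (hG : GS M L G) {a b d u yes no Z t}
    (h : G (b + u) (d + u) yes no = true) (hZ : PRep M Z) (ht : 3 * t = Z.x + Z.y + Z.z) (hc : Cg L Z a b d)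
    (hu : (L : ℤ) ∣ u + 2 * t) : no = true :=
  hG.2 _ _ _ _ (Z.rf t) (hZ.rf hM ht) (dvd_md hc.2.1 hu) (dvd_md hc.2.2 hu) h

theorem u_zero {c a b d : ℕ} {Z : V3} {t : ℤ} (hc3 : (L : ℤ) ∣ 3 * c + 2) (ht : 3 * t = Z.x + Z.y + Z.z)
    (hc : Cg L Z a b d) : (L : ℤ) ∣ (((a + b + d) * c : ℕ) : ℤ) + 2 * t := by
  have : (((a + b + d) * c : ℕ) : ℤ) + 2 * t = (3 * c + 2) * t - ((Z.x - a) + (Z.y - b) + (Z.z - d)) * c := by
    push_cast; linear_combination (-(c : ℤ)) * ht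
  rw [this]
  exact dvd_sub (hc3.mul_right _) ((dvd_add (dvd_add hc.1 hc.2.1) hc.2.2).mul_right _)

theorem u_one {c c2 S a b d : ℕ} {X : V3} {t : ℤ} (hc3 : (L : ℤ) ∣ 3 * c + 2) (hc2 : (L : ℤ) ∣ c2 + 2 * c)
    (hS : S = a + b + d) (ht : 3 * t = -X.x + X.y + X.z)
    (hc : Cg L X a b d) : (L : ℤ) ∣ ((S * c + a * c2 : ℕ) : ℤ) + 2 * t := by
  have : ((S * c + a * c2 : ℕ) : ℤ) + 2 * t = (3 * c + 2) * t - (-(X.x - a) + (X.y - b) + (X.z - d)) * c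
      + (c2 + 2 * c) * a := by
    rw [hS]; push_cast; linear_combination (-(c : ℤ)) * ht
  rw [this]
  exact dvd_add (dvd_sub (hc3.mul_right _)
    ((dvd_add (dvd_add (dvd_neg.mpr hc.1) hc.2.1) hc.2.2).mul_right _)) (hc2.mul_right _)

theorem r1_sound (hM : M % 3 = 2) (hL : 0 < L) (hG : GS M L G) {c : ℕ} (hc3 : (L : ℤ) ∣ 3 * c + 2) :
    RS M L (r1 G L c) := fun _ _ _ _ _ _ hZ ht hc h => ch_step hM hL hG h hZ ht hc (u_zero hc3 ht hc)

theorem u_three {c a b d : ℕ} {Z : V3} {t : ℤ} (hL : 2 ≤ L) (hc3 : 3 * c = L) (ht : 3 * t = Z.x + Z.y + Z.z)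
    (hc : Cg L Z a b d) : (a + b + d) % 3 = 0 ∧
      ((L : ℤ) ∣ (((a + b + d) / 3 * (L - 2) : ℕ) : ℤ) + 2 * t ∨
       (L : ℤ) ∣ (((a + b + d) / 3 * (L - 2) + c : ℕ) : ℤ) + 2 * t ∨
       (L : ℤ) ∣ (((a + b + d) / 3 * (L - 2) + c + c : ℕ) : ℤ) + 2 * t) := by
  obtain ⟨k, hk⟩ := dvd_add (dvd_add hc.1 hc.2.1) hc.2.2
  have hL' : (L : ℤ) = 3 * c := by exact_mod_cast hc3.symm
  have e1 : ((a + b + d : ℕ) : ℤ) = 3 * (t - c * k) := by push_cast; rw [hL'] at hk; linarith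
  have e2 : (a + b + d) % 3 = 0 := by omega
  have e3 : (((a + b + d) / 3 : ℕ) : ℤ) = t - c * k := by omega
  refine ⟨e2, ?_⟩
  have : k % 3 = 0 ∨ k % 3 = 1 ∨ k % 3 = 2 := by omega
  obtain ⟨j, hj⟩ : ∃ j, k = 3 * j + k % 3 := ⟨k / 3, by omega⟩
  rcases this with h | h | h <;> rw [h] at hj
  · left
    refine ⟨t - c * k + 2 * j, ?_⟩
    rw [Nat.cast_mul, e3, Nat.cast_sub hL, hL', hj]; push_cast; ring
  · right; left
    refine ⟨t - c * k + 2 * j + 1, ?_⟩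
    rw [Nat.cast_add, Nat.cast_mul, e3, Nat.cast_sub hL, hL', hj]; push_cast; ring
  · right; right
    refine ⟨t - c * k + 2 * j + 2, ?_⟩
    rw [Nat.cast_add, Nat.cast_add, Nat.cast_mul, e3, Nat.cast_sub hL, hL', hj]; push_cast; ring

theorem r3a_step (hM : M % 3 = 2) (hL : 2 ≤ L) (hG : GS M L G) {c : ℕ} (hc3 : 3 * c = L) {K a b d Z t}
    (hZ : PRep M Z) (ht : 3 * t = Z.x + Z.y + Z.z) (hc : Cg L Z a b d)
    (h : r3a G L c K a b d ((a + b + d) / 3 * (L - 2)) = true) :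
    ∃ a' b' d', a' ≤ L ∧ b' ≤ L ∧ d' ≤ L ∧ K a' b' d' = true ∧ Cg L (Z.rf t) a' b' d' := by
  have h2 := ch_next hG h
  have h3 := ch_next hG h2
  rcases (u_three hL hc3 ht hc).2 with hu | hu | hu
  · exact ch_step hM (by omega) hG h hZ ht hc hu
  · exact ch_step hM (by omega) hG h2 hZ ht hc hu
  · exact ch_step hM (by omega) hG h3 hZ ht hc hu

theorem r3_sound (hM : M % 3 = 2) (hL : 2 ≤ L) (hG : GS M L G) {c : ℕ} (hc3 : 3 * c = L) :
    RS M L (r3 G L c (L - 2)) := by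
  intro K a b d Z t hZ ht hc h
  have h' : (Bool.rec (motive := fun _ => Bool) true (r3a G L c K a b d ((a + b + d) / 3 * (L - 2))) (Nat.beq ((a + b + d) % 3) 0)) = true := h
  rw [br_imp, nbeq] at h'
  exact r3a_step hM hL hG hc3 hZ ht hc (h' (u_three hL hc3 ht hc).1)

theorem dirs {X : V3} (h : X.nrm % 3 = 2) :
    ((X.x + X.y + X.z) % 3 = 0 ∧ ((-X.x + X.y + X.z) % 3 = 0 ∨ (-X.y + X.x + X.z) % 3 = 0 ∨ (-X.z + X.x + X.y) % 3 = 0)) ∨
    ((X.x + X.y + X.z) % 3 ≠ 0 ∧ (-X.x + X.y + X.z) % 3 = 0 ∧ ((-X.y + X.x + X.z) % 3 = 0 ∨ (-X.z + X.x + X.y) % 3 = 0)) ∨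
    ((X.x + X.y + X.z) % 3 ≠ 0 ∧ (-X.x + X.y + X.z) % 3 ≠ 0 ∧ (-X.y + X.x + X.z) % 3 = 0 ∧ (-X.z + X.x + X.y) % 3 = 0) := by
  have h1 := sq_mod3 X.x
  have h2 := sq_mod3 X.y
  have h3 := sq_mod3 X.z
  simp only [V3.nrm] at h
  have a1 : X.x % 3 = 0 ∨ X.x % 3 = 1 ∨ X.x % 3 = 2 := by omega
  have a2 : X.y % 3 = 0 ∨ X.y % 3 = 1 ∨ X.y % 3 = 2 := by omega
  have a3 : X.z % 3 = 0 ∨ X.z % 3 = 1 ∨ X.z % 3 = 2 := by omega
  rcases a1 with a1 | a1 | a1 <;> rcases a2 with a2 | a2 | a2 <;> rcases a3 with a3 | a3 | a3 <;> omega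

noncomputable def tri1 (G : ℕ → ℕ → Bool → Bool → Bool) (L c c2 : ℕ) (K : ℕ → ℕ → ℕ → Bool) (x y z : ℕ) : Bool :=
  ch G L K (L - x) y z ((x + y + z) * c + x * c2) (ch G L K (L - y) x z ((x + y + z) * c + y * c2)
    (ch G L K (L - z) x y ((x + y + z) * c + z * c2) true))

theorem dir1 (hM : M % 3 = 2) (hL : 0 < L) (hG : GS M L G) {c c2 : ℕ} (hc3 : (L : ℤ) ∣ 3 * c + 2)
    (hc2 : (L : ℤ) ∣ c2 + 2 * c) {K x y z S next X} (hK : KS M L K) (hx : x ≤ L) (hS : S = x + y + z)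
    (h : ch G L K (L - x) y z (S * c + x * c2) next = true) (hX : PRep M X) (hc : Cg L X x y z)
    (h3 : (-X.x + X.y + X.z) % 3 = 0) : False :=
  ch_dead (t := (-X.x + X.y + X.z) / 3) hM hL hG hK h hX.f0 (by simp only [V3.f0]; omega) (hc.f0 hx)
    (u_one hc3 hc2 hS (by omega) hc)

theorem dirq (hM : M % 3 = 2) (hG : GS M L G) {c c2 : ℕ} (hc3 : (L : ℤ) ∣ 3 * c + 2)
    (hc2 : (L : ℤ) ∣ c2 + 2 * c) {x y z S yes no X} (hx : x ≤ L) (hS : S = x + y + z)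
    (h : G (y + (S * c + x * c2)) (z + (S * c + x * c2)) yes no = true) (hX : PRep M X) (hc : Cg L X x y z)
    (h3 : (-X.x + X.y + X.z) % 3 = 0) : no = true :=
  gq_no (t := (-X.x + X.y + X.z) / 3) hM hG h hX.f0 (by simp only [V3.f0]; omega) (hc.f0 hx)
    (u_one hc3 hc2 hS (by omega) hc)

theorem mk1_sound (hM : M % 3 = 2) (hL : 0 < L) (hG : GS M L G) {c c2 : ℕ} (hc3 : (L : ℤ) ∣ 3 * c + 2)
    (hc2 : (L : ℤ) ∣ c2 + 2 * c) {k} (h : mk1 G L c c2 k = true) : ∃ F V, FS M L F ∧ VS M L V ∧ k F V = true := by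
  have d3 : ∀ {K x y z next X}, KS M L K → z ≤ L →
      ch G L K (L - z) x y ((x + y + z) * c + z * c2) next = true → PRep M X → Cg L X x y z →
      (-X.z + X.x + X.y) % 3 = 0 → False := fun hK hz h hX hc h3 =>
    dir1 hM hL hG hc3 hc2 hK hz (by ring) h hX.s12.s01 hc.s12.s01 h3
  have d2 : ∀ {K x y z next X}, KS M L K → y ≤ L →
      ch G L K (L - y) x z ((x + y + z) * c + y * c2) next = true → PRep M X → Cg L X x y z →
      (-X.y + X.x + X.z) % 3 = 0 → False := fun hK hy h hX hc h3 =>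
    dir1 hM hL hG hc3 hc2 hK hy (by ring) h hX.s01 hc.s01 h3
  have tri : ∀ {K x y z X}, KS M L K → x ≤ L → y ≤ L → z ≤ L → tri1 G L c c2 K x y z = true → PRep M X →
      Cg L X x y z → ((-X.x + X.y + X.z) % 3 = 0 ∨ (-X.y + X.x + X.z) % 3 = 0 ∨ (-X.z + X.x + X.y) % 3 = 0) →
      False := by
    intro K x y z X hK hx hy hz h hX hc h3
    have h2 := ch_next hG h
    rcases h3 with h3 | h3 | h3
    · exact dir1 hM hL hG hc3 hc2 hK hx rfl h hX hc h3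
    · exact d2 hK hy h2 hX hc h3
    · exact d3 hK hz (ch_next hG h2) hX hc h3
  refine ⟨fun Bm core K x y z => Bool.rec (motive := fun _ => Bool) (Bool.rec (motive := fun _ => Bool) (tri1 G L c c2 K x y z) true (core x y z)) (tri1 G L c c2 K x y z)
      (Nat.beq (Nat.land (Nat.shiftRight Bm (x + y + z)) 1) 0),
    fun K x y z => G (y + (x + y + z) * c) (z + (x + y + z) * c)
      (G (y + ((x + y + z) * c + x * c2)) (z + ((x + y + z) * c + x * c2))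
        (G (x + ((x + y + z) * c + y * c2)) (z + ((x + y + z) * c + y * c2)) true
          (ch G L K (L - z) x y ((x + y + z) * c + z * c2) true))
        (ch G L K (L - y) x z ((x + y + z) * c + y * c2) (ch G L K (L - z) x y ((x + y + z) * c + z * c2) true)))
      (tri1 G L c c2 K x y z), ?_, ?_, h⟩
  · intro Bm core K hcore hK x y z hx hy hz h X hX h3 hc
    have hd := dirs (X := X) (by rw [hX.1]; exact hM)
    simp only [br_true] at h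
    rcases h with ⟨-, ⟨-, h⟩ | ⟨h, -⟩⟩ | ⟨-, h⟩
    · exact tri hK hx hy hz h hX hc (by omega)
    · exact hcore _ _ _ hx hy hz h X hX h3 hc
    · exact tri hK hx hy hz h hX hc (by omega)
  · intro K hK x y z hx hy hz h X hX hc
    rcases dirs (X := X) (by rw [hX.1]; exact hM) with ⟨e0, e1⟩ | ⟨-, e1, e2⟩ | ⟨-, -, e2, e3⟩
    · exact tri hK hx hy hz (gq_no (t := (X.x + X.y + X.z) / 3) hM hG h hX (by omega) hc
        (u_zero hc3 (by omega) hc)) hX hc e1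
    · rcases hG.1 _ _ _ _ h with h | h
      · have h1 := dirq hM hG hc3 hc2 hx rfl h hX hc e1
        rcases e2 with e2 | e2
        · exact d2 hK hy h1 hX hc e2
        · exact d3 hK hz (ch_next hG h1) hX hc e2
      · exact tri hK hx hy hz h hX hc (Or.inl e1)
    · rcases hG.1 _ _ _ _ h with h | h
      · rcases hG.1 _ _ _ _ h with h | h
        · exact d3 hK hz (dirq hM hG hc3 hc2 hy (by ring) h hX.s01 hc.s01 e2) hX hc e3
        · exact d2 hK hy h hX hc e2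
      · exact tri hK hx hy hz h hX hc (Or.inr (Or.inl e2))

noncomputable def tr3 (G : ℕ → ℕ → Bool → Bool → Bool) (L c : ℕ) (K : ℕ → ℕ → ℕ → Bool) (x y z : ℕ) : Bool :=
  Bool.rec (motive := fun _ => Bool) (Bool.rec (motive := fun _ => Bool) (r3a G L c K (L - z) x y ((L - z + x + y) / 3 * (L - 2)))
      (r3a G L c K (L - y) x z ((L - y + x + z) / 3 * (L - 2))) (Nat.beq (y % 3) 0))
    (r3a G L c K (L - x) y z ((L - x + y + z) / 3 * (L - 2))) (Nat.beq (x % 3) 0)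

noncomputable def vt3 (G : ℕ → ℕ → Bool → Bool → Bool) (L c : ℕ) (K : ℕ → ℕ → ℕ → Bool) (x y z : ℕ) : Bool :=
  G (y + (x + y + z) / 3 * (L - 2)) (z + (x + y + z) / 3 * (L - 2))
    (G (y + ((x + y + z) / 3 * (L - 2) + c)) (z + ((x + y + z) / 3 * (L - 2) + c))
      (G (y + ((x + y + z) / 3 * (L - 2) + c + c)) (z + ((x + y + z) / 3 * (L - 2) + c + c)) true
        (tr3 G L c K x y z)) (tr3 G L c K x y z)) (tr3 G L c K x y z)

theorem mod3_of {c a : ℕ} {x : ℤ} (hc3 : 3 * c = L) (h : (L : ℤ) ∣ x - a) : x % 3 = (a % 3 : ℕ) := by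
  obtain ⟨k, hk⟩ := h
  have hL' : (L : ℤ) = 3 * c := by exact_mod_cast hc3.symm
  rw [hL', mul_assoc] at hk
  omega

theorem mk3_sound (hM : M % 3 = 2) (hL : 2 ≤ L) (hG : GS M L G) {c : ℕ} (hc3 : 3 * c = L)
    {k} (h : mk3 G L c (L - 2) k = true) : ∃ F V, FS M L F ∧ VS M L V ∧ k F V = true := by
  have d1 : ∀ {K x y z X}, KS M L K → x ≤ L →
      r3a G L c K (L - x) y z ((L - x + y + z) / 3 * (L - 2)) = true → PRep M X → Cg L X x y z →
      (-X.x + X.y + X.z) % 3 = 0 → False := by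
    intro K x y z X hK hx h hX hc h3
    have ht : 3 * ((-X.x + X.y + X.z) / 3) = X.f0.x + X.f0.y + X.f0.z := by simp only [V3.f0]; omega
    obtain ⟨a', b', d', h1, h2, h3, h4, h5⟩ := r3a_step hM hL hG hc3 hX.f0 ht (hc.f0 hx) h
    exact hK _ _ _ h1 h2 h3 h4 _ (hX.f0.rf hM ht) (by simp only [V3.rf, V3.f0]; omega) h5
  have tr : ∀ {K}, KS M L K → KS M L (tr3 G L c K) := by
    intro K hK x y z hx hy hz h X hX h3 hc
    have m1 := mod3_of hc3 hc.1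
    have m2 := mod3_of hc3 hc.2.1
    have hd := dirs (X := X) (by rw [hX.1]; exact hM)
    simp only [tr3, br_true, nbeq, nbeqf] at h
    rcases h with ⟨e1, ⟨e2, h⟩ | ⟨e2, h⟩⟩ | ⟨e1, h⟩
    · exact d1 hK hz h hX.s12.s01 hc.s12.s01 (by simp only [V3.s01, V3.s12]; omega)
    · exact d1 hK hy h hX.s01 hc.s01 (by simp only [V3.s01]; omega)
    · exact d1 hK hx h hX hc (by omega)
  have vt : ∀ {K}, KS M L K → KS M L (vt3 G L c K) := by
    intro K hK x y z hx hy hz h X hX h3 hc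
    refine tr hK x y z hx hy hz ?_ X hX h3 hc
    have ht : 3 * ((X.x + X.y + X.z) / 3) = X.x + X.y + X.z := by omega
    rcases (u_three hL hc3 ht hc).2 with hu | hu | hu
    · exact gq_no hM hG h hX ht hc hu
    · rcases hG.1 _ _ _ _ h with h | h
      · exact gq_no hM hG h hX ht hc hu
      · exact h
    · rcases hG.1 _ _ _ _ h with h | h
      · rcases hG.1 _ _ _ _ h with h | h
        · exact gq_no hM hG h hX ht hc hu
        · exact h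
      · exact h
  refine ⟨fun Bm core K x y z => Bool.rec (motive := fun _ => Bool) (Bool.rec (motive := fun _ => Bool) (tr3 G L c K x y z) true (core x y z)) (tr3 G L c K x y z)
      (Nat.beq (Nat.land (Nat.shiftRight Bm (x + y + z)) 1) 0),
    fun K x y z => Bool.rec (motive := fun _ => Bool) (Bool.rec (motive := fun _ => Bool) (vt3 G L c K (L - x) y z) (vt3 G L c K x (L - y) z) (Nat.beq (x % 3) 0))
      (vt3 G L c K x y z) (Nat.beq ((x + y + z) % 3) 0), ?_, ?_, h⟩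
  · intro Bm core K hcore hK x y z hx hy hz h
    simp only [br_true] at h
    rcases h with ⟨-, ⟨-, h⟩ | ⟨h, -⟩⟩ | ⟨-, h⟩
    · exact tr hK _ _ _ hx hy hz h
    · exact hcore _ _ _ hx hy hz h
    · exact tr hK _ _ _ hx hy hz h
  · intro K hK x y z hx hy hz h X hX hc
    have m1 := mod3_of hc3 hc.1
    have m2 := mod3_of hc3 hc.2.1
    have m3 := mod3_of hc3 hc.2.2
    have hd := dirs (X := X) (by rw [hX.1]; exact hM)
    simp only [br_true, nbeq, nbeqf] at h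
    rcases h with ⟨e1, ⟨e2, h⟩ | ⟨e2, h⟩⟩ | ⟨e1, h⟩
    · exact vt hK _ _ _ (by omega) hy hz h X.f0 hX.f0 (by simp only [V3.f0]; omega) (hc.f0 hx)
    · exact vt hK _ _ _ hx (by omega) hz h X.s01.f0.s01 hX.s01.f0.s01
        (by simp only [V3.f0, V3.s01]; omega) (hc.s01.f0 hy).s01
    · exact vt hK _ _ _ hx hy hz h X hX (by omega) hc

end

end Pool.Agent.Lib.MP_568bdc_nt
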