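import Mathlib

/-! Primitive representations by three squares of integers congruent to 3 mod 8. -/

namespace Pool.Agent.Lib.MP_568bdc_nt

/-- The Gram matrix `(a,b,c,d,e,f)` is realised by three integer vectors. -/
def Gram (a b c d e f : ℤ) : Prop :=
  ∃ u0 u1 u2 v0 v1 v2 w0 w1 w2 : ℤ,
    u0 * u0 + u1 * u1 + u2 * u2 = a ∧ v0 * v0 + v1 * v1 + v2 * v2 = b ∧
    w0 * w0 + w1 * w1 + w2 * w2 = c ∧ u0 * v0 + u1 * v1 + u2 * v2 = d ∧
    u0 * w0 + u1 * w1 + u2 * w2 = e ∧ v0 * w0 + v1 * w1 + v2 * w2 = f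

/-- Positive definite of determinant one. -/
def PD1 (a b c d e f : ℤ) : Prop :=
  (∀ x y z : ℤ, ¬ (x = 0 ∧ y = 0 ∧ z = 0) →
    0 < a * x * x + b * y * y + c * z * z + 2 * d * x * y + 2 * e * x * z + 2 * f * y * z) ∧
  a * b * c + 2 * d * e * f - a * f * f - b * e * e - c * d * d = 1

theorem Gram.sw12 {a b c d e f : ℤ} (h : Gram b a c d f e) : Gram a b c d e f := by
  obtain ⟨u0, u1, u2, v0, v1, v2, w0, w1, w2, h1, h2, h3, h4, h5, h6⟩ := h
  exact ⟨v0, v1, v2, u0, u1, u2, w0, w1, w2, h2, h1, h3, by linarith, h6, h5⟩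

theorem Gram.sw23 {a b c d e f : ℤ} (h : Gram a c b e d f) : Gram a b c d e f := by
  obtain ⟨u0, u1, u2, v0, v1, v2, w0, w1, w2, h1, h2, h3, h4, h5, h6⟩ := h
  exact ⟨u0, u1, u2, w0, w1, w2, v0, v1, v2, h1, h3, h2, h5, h4, by linarith⟩

theorem PD1.sw12 {a b c d e f : ℤ} (h : PD1 a b c d e f) : PD1 b a c d f e := by
  refine ⟨fun x y z hz => ?_, by linarith [h.2]⟩
  have := h.1 y x z (by tauto)
  linarith

theorem PD1.sw23 {a b c d e f : ℤ} (h : PD1 a b c d e f) : PD1 a c b e d f := by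
  refine ⟨fun x y z hz => ?_, by linarith [h.2]⟩
  have := h.1 x z y (by tauto)
  linarith

theorem PD1.op {a b c d e f : ℤ} (h : PD1 a b c d e f) (p q r : ℤ) :
    PD1 a (b + 2 * p * d + p * p * a) (c + q * q * a + r * r * b + 2 * q * e + 2 * r * f + 2 * q * r * d)
      (d + p * a) (e + q * a + r * d) (f + q * d + r * b + p * e + p * q * a + p * r * d) := by
  refine ⟨fun x y z hz => ?_, by linear_combination h.2⟩
  have := h.1 (x + p * y + q * z) (y + r * z) z (by
    rintro ⟨h1, h2, h3⟩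
    apply hz
    subst h3
    have hy : y = 0 := by linarith
    subst hy
    exact ⟨by linarith, rfl, rfl⟩)
  linarith

theorem Gram.op {a b c d e f : ℤ} (p q r : ℤ)
    (h : Gram a (b + 2 * p * d + p * p * a) (c + q * q * a + r * r * b + 2 * q * e + 2 * r * f + 2 * q * r * d)
      (d + p * a) (e + q * a + r * d) (f + q * d + r * b + p * e + p * q * a + p * r * d)) :
    Gram a b c d e f := by
  obtain ⟨u0, u1, u2, v0, v1, v2, w0, w1, w2, h1, h2, h3, h4, h5, h6⟩ := h
  refine ⟨u0, u1, u2, v0 - p * u0, v1 - p * u1, v2 - p * u2, w0 - q * u0 - r * (v0 - p * u0),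
    w1 - q * u1 - r * (v1 - p * u1), w2 - q * u2 - r * (v2 - p * u2), h1, ?_, ?_, ?_, ?_, ?_⟩
  · linear_combination h2 - 2 * p * h4 + p * p * h1
  · linear_combination h3 + (q - r * p) * (q - r * p) * h1 + r * r * h2 - 2 * (q - r * p) * h5
      - 2 * r * h6 + 2 * (q - r * p) * r * h4
  · linear_combination h4 - p * h1
  · linear_combination h5 - (q - r * p) * h1 - r * h4
  · linear_combination h6 - p * h5 - (q - r * p) * h4 - r * h2 + p * (q - r * p) * h1 + p * r * h4

theorem PD1.pos {a b c d e f : ℤ} (h : PD1 a b c d e f) : 0 < a ∧ 0 < b ∧ 0 < c := by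
  have h1 := h.1 1 0 0 (by simp)
  have h2 := h.1 0 1 0 (by simp)
  have h3 := h.1 0 0 1 (by simp)
  refine ⟨by linarith, by linarith, by linarith⟩

theorem red_bound {a b c D E F : ℤ} (ha : 0 < a) (hab : a ≤ b) (hbc : b ≤ c) (hD : 0 ≤ D) (hE : 0 ≤ E)
    (hF : 0 ≤ F) (h1 : 2 * D ≤ a) (h2 : 2 * E ≤ a) (h3 : 2 * F ≤ b) (h4 : 2 * (D + E + F) ≤ a + b) :
    a * b * c ≤ 4 * (a * b * c - 2 * D * E * F - a * F * F - b * E * E - c * D * D) := by
  have hb : 0 < b := by linarith
  have e1 : 4 * (D * D) ≤ a * b := by nlinarith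
  have e2 : 0 ≤ (3 * (a * b) - 4 * (D * D)) * (c - b) := by
    apply mul_nonneg <;> nlinarith
  have e3 : 2 * (b * (D * D)) ≤ a * b * D := by nlinarith [mul_nonneg hb.le hD]
  have e4 : 2 * (b * (E * E)) ≤ a * b * E := by nlinarith [mul_nonneg hb.le hE]
  have e5 : 2 * (a * (F * F)) ≤ a * b * F := by nlinarith [mul_nonneg ha.le hF]
  have e6 : 2 * (a * b * (D + E + F)) ≤ a * b * (2 * b) := by
    have : 0 < a * b := mul_pos ha hb
    nlinarith
  have e7 : 4 * (D * E) ≤ a * b := by nlinarith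
  have e8 : 8 * (D * E * F) ≤ a * b * b := by nlinarith [mul_nonneg hD hE]
  nlinarith

theorem red_bound' {a b c D E F : ℤ} (ha : 0 < a) (hab : a ≤ b) (hbc : b ≤ c) (hD : 0 ≤ D) (hE : 0 ≤ E)
    (hF : 0 ≤ F) (h1 : 2 * D ≤ a) (h2 : 2 * E ≤ a) (h3 : 2 * F ≤ b) :
    a * b * c ≤ 4 * (a * b * c - a * F * F - b * E * E - c * D * D) := by
  have hb : 0 < b := by linarith
  have hc : 0 < c := by linarith
  have e1 : 4 * (D * D) ≤ a * b := by nlinarith
  have e2 : 4 * (E * E) ≤ a * c := by nlinarith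
  have e3 : 4 * (F * F) ≤ b * c := by nlinarith
  nlinarith [mul_le_mul_of_nonneg_left e1 hc.le, mul_le_mul_of_nonneg_left e2 hb.le,
    mul_le_mul_of_nonneg_left e3 ha.le]

theorem gram_sorted {a b c d e f : ℤ} (h : PD1 a b c d e f) (hab : a ≤ b) (hbc : b ≤ c)
    (ih : ∀ a' b' c' d' e' f' : ℤ, PD1 a' b' c' d' e' f' → a' + b' + c' < a + b + c →
      Gram a' b' c' d' e' f') : Gram a b c d e f := by
  obtain ⟨ha, hb, hc⟩ := h.pos
  have key : ∀ p q r : ℤ, 2 * p * d + p * p * a + q * q * a + r * r * b + 2 * q * e + 2 * r * f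
      + 2 * q * r * d < 0 → Gram a b c d e f := fun p q r hlt =>
    Gram.op p q r (ih _ _ _ _ _ _ (h.op p q r) (by linarith))
  by_contra hne
  have k : ∀ p q r : ℤ, 0 ≤ 2 * p * d + p * p * a + q * q * a + r * r * b + 2 * q * e + 2 * r * f
      + 2 * q * r * d := fun p q r => not_lt.mp fun hlt => hne (key p q r hlt)
  have k1 := k 1 0 0
  have k2 := k (-1) 0 0
  have k3 := k 0 1 0
  have k4 := k 0 (-1) 0
  have k5 := k 0 0 1
  have k6 := k 0 0 (-1)
  have k7 := k 0 1 1
  have k8 := k 0 1 (-1)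
  have k9 := k 0 (-1) 1
  have k10 := k 0 (-1) (-1)
  have hdet := h.2
  have hD : 2 * |d| ≤ a := by rcases abs_cases d with ⟨h1, _⟩ | ⟨h1, _⟩ <;> rw [h1] <;> linarith
  have hE : 2 * |e| ≤ a := by rcases abs_cases e with ⟨h1, _⟩ | ⟨h1, _⟩ <;> rw [h1] <;> linarith
  have hF : 2 * |f| ≤ b := by rcases abs_cases f with ⟨h1, _⟩ | ⟨h1, _⟩ <;> rw [h1] <;> linarith
  have sd : |d| * |d| = d * d := abs_mul_abs_self d
  have se : |e| * |e| = e * e := abs_mul_abs_self e
  have sf : |f| * |f| = f * f := abs_mul_abs_self f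
  have habc : a * b * c ≤ 4 := by
    by_cases hs : 0 ≤ d * e * f
    · have := red_bound' ha hab hbc (abs_nonneg d) (abs_nonneg e) (abs_nonneg f) hD hE hF
      have t1 : a * |f| * |f| = a * f * f := by rw [mul_assoc, sf, mul_assoc]
      have t2 : b * |e| * |e| = b * e * e := by rw [mul_assoc, se, mul_assoc]
      have t3 : c * |d| * |d| = c * d * d := by rw [mul_assoc, sd, mul_assoc]
      rw [t1, t2, t3] at this
      linarith
    · have hsum : 2 * (|d| + |e| + |f|) ≤ a + b := by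
        rcases abs_cases d with ⟨h1, h1'⟩ | ⟨h1, h1'⟩ <;> rcases abs_cases e with ⟨h2, h2'⟩ | ⟨h2, h2'⟩ <;>
          rcases abs_cases f with ⟨h3, h3'⟩ | ⟨h3, h3'⟩ <;> rw [h1, h2, h3] <;>
          first
          | linarith
          | (exfalso; apply hs; first
              | exact mul_nonneg (mul_nonneg h1' h2') h3'
              | exact mul_nonneg_of_nonpos_of_nonpos (mul_nonpos_of_nonneg_of_nonpos h1' h2'.le) h3'.le
              | exact mul_nonneg_of_nonpos_of_nonpos (mul_nonpos_of_nonpos_of_nonneg h1'.le h2') h3'.le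
              | exact mul_nonneg (mul_nonneg_of_nonpos_of_nonpos h1'.le h2'.le) h3')
      have := red_bound ha hab hbc (abs_nonneg d) (abs_nonneg e) (abs_nonneg f) hD hE hF hsum
      have t0 : |d| * |e| * |f| = -(d * e * f) := by
        rw [← abs_mul, ← abs_mul, abs_of_neg (not_le.mp hs)]
      have t1 : a * |f| * |f| = a * f * f := by rw [mul_assoc, sf, mul_assoc]
      have t2 : b * |e| * |e| = b * e * e := by rw [mul_assoc, se, mul_assoc]
      have t3 : c * |d| * |d| = c * d * d := by rw [mul_assoc, sd, mul_assoc]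
      have t4 : 2 * |d| * |e| * |f| = -(2 * d * e * f) := by linarith
      rw [t1, t2, t3, t4] at this
      linarith
  have ha1 : a = 1 := by
    by_contra hn
    have h2 : 2 ≤ a := by omega
    have : 2 * 2 ≤ a * b := by nlinarith
    nlinarith
  subst ha1
  have hd0 : d = 0 := by omega
  have he0 : e = 0 := by omega
  subst hd0 he0
  have hbc1 : b * c = 1 := by
    have : 4 * (f * f) ≤ b * c := by nlinarith [abs_nonneg f]
    have h5 : 0 < b * c := mul_pos hb hc
    have : 3 * (b * c) ≤ 4 := by nlinarith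
    omega
  have hb1 : b = 1 := by nlinarith
  subst hb1
  have hc1 : c = 1 := by linarith
  have hf0 : f = 0 := by omega
  subst hc1 hf0
  exact hne ⟨1, 0, 0, 0, 1, 0, 0, 0, 1, by norm_num, by norm_num, by norm_num, by norm_num,
    by norm_num, by norm_num⟩

theorem gram_all (N : ℕ) : ∀ a b c d e f : ℤ, PD1 a b c d e f → a + b + c < N → Gram a b c d e f := by
  induction N with
  | zero => intro a b c d e f h hN; obtain ⟨ha, hb, hc⟩ := h.pos; simp at hN; linarith
  | succ N ih =>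
    intro a b c d e f h hN
    have ih' : ∀ t : ℤ, t = a + b + c → ∀ a' b' c' d' e' f' : ℤ, PD1 a' b' c' d' e' f' →
        a' + b' + c' < t → Gram a' b' c' d' e' f' := fun t ht a' b' c' d' e' f' h' hl =>
      ih _ _ _ _ _ _ h' (by push_cast at hN; linarith)
    rcases le_total a b with h1 | h1 <;> rcases le_total b c with h2 | h2
    · exact gram_sorted h h1 h2 (ih' _ rfl)
    · rcases le_total a c with h3 | h3
      · exact (gram_sorted h.sw23 h3 h2 (ih' _ (by ring))).sw23
      · exact (gram_sorted h.sw23.sw12 h3 h1 (ih' _ (by ring))).sw12.sw23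
    · rcases le_total a c with h3 | h3
      · exact (gram_sorted h.sw12 h1 h3 (ih' _ (by ring))).sw12
      · exact (gram_sorted h.sw12.sw23 h2 h3 (ih' _ (by ring))).sw23.sw12
    · exact (gram_sorted h.sw12.sw23.sw12 h2 h1 (ih' _ (by ring))).sw12.sw23.sw12

theorem three_sq_prim (n : ℕ) (hn : n % 8 = 3) :
    ∃ x y z a b c : ℤ, x * x + y * y + z * z = n ∧ a * x + b * y + c * z = 1 := by
  obtain ⟨k, hk⟩ : ∃ k, n = 8 * k + 3 := ⟨n / 8, by omega⟩
  have hco : (4 * k + 1).Coprime (4 * n) := by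
    apply Nat.Coprime.mul_right
    · have : Nat.Coprime (4 * k + 1) (2 ^ 2) := by
        apply Nat.Coprime.pow_right
        rw [Nat.coprime_two_right]
        exact ⟨2 * k, by ring⟩
      exact this
    · have : n = 1 + (4 * k + 1) * 2 := by omega
      rw [this, Nat.coprime_add_mul_left_right]
      simp
  obtain ⟨p, hpgt, hp, hmod⟩ := Nat.forall_exists_prime_gt_and_modEq (4 * k + 1) (q := 4 * n) (by omega) hco
  obtain ⟨j, hj⟩ : ∃ j, p = 4 * n * j + (4 * k + 1) := by
    have := (Nat.modEq_iff_dvd' hpgt.le).mp hmod.symm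
    obtain ⟨j, hj⟩ := this
    exact ⟨j, by omega⟩
  have : Fact p.Prime := ⟨hp⟩
  set d : ℕ := 8 * j + 1 with hd
  have hpd : 2 * p + 1 = d * n := by rw [hj, hd, hk]; ring
  have hp4 : p % 4 = 1 := by
    rw [hj, mul_assoc]; omega
  have hpodd : Odd p := by rw [Nat.odd_iff]; omega
  have hdodd : Odd d := ⟨4 * j, by omega⟩
  have j1 : jacobiSym (-1) d = 1 := by
    rw [jacobiSym.at_neg_one hdodd, ZMod.χ₄_nat_one_mod_four (by omega)]
  have j2 : jacobiSym 2 d = 1 := by
    rw [jacobiSym.at_two hdodd, ZMod.χ₈_nat_eq_if_mod_eight]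
    have : d % 8 = 1 := by omega
    have h2 : d % 2 = 1 := by omega
    simp [this, h2]
  have j3 : jacobiSym (2 * p) d = 1 := by
    rw [← j1]
    apply jacobiSym.mod_left'
    have : (2 * p : ℤ) = -1 + d * n := by
      have : ((2 * p + 1 : ℕ) : ℤ) = ((d * n : ℕ) : ℤ) := by rw [hpd]
      push_cast at this; linarith
    rw [this, Int.add_mul_emod_self_left]
  have j4 : jacobiSym p d = 1 := by
    rw [jacobiSym.mul_left, j2, one_mul] at j3; exact j3
  have j5 : jacobiSym (-(d : ℤ)) p = 1 := by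
    rw [jacobiSym.neg _ hpodd, ZMod.χ₄_nat_one_mod_four hp4, one_mul,
      ← jacobiSym.quadratic_reciprocity_one_mod_four hp4 hdodd, j4]
  obtain ⟨r, hr⟩ := ZMod.isSquare_of_jacobiSym_eq_one j5
  obtain ⟨x0, hx0⟩ : ∃ x0 : ℤ, (p : ℤ) ∣ x0 * x0 + d := by
    refine ⟨(r.val : ℤ), ?_⟩
    rw [← ZMod.intCast_zmod_eq_zero_iff_dvd]
    push_cast
    rw [ZMod.natCast_zmod_val, ← hr]
    push_cast
    ring
  obtain ⟨x, hx⟩ : ∃ x : ℤ, (2 * p : ℤ) ∣ x * x + d := by
    have hcop : IsCoprime (2 : ℤ) p := by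
      have : Nat.Coprime 2 p := (Nat.coprime_two_left).mpr hpodd
      exact_mod_cast Nat.isCoprime_iff_coprime.mpr this
    obtain ⟨q, hq⟩ := hpodd
    rcases Int.even_or_odd' x0 with ⟨t, ht | ht⟩
    · refine ⟨x0 + p, hcop.mul_dvd ?_ ?_⟩
      · refine ⟨2 * (t + q) * (t + q) + 2 * (t + q) + 4 * j + 1, ?_⟩
        rw [ht, hq, hd]; push_cast; ring
      · have : (x0 + p) * (x0 + p) + d = (x0 * x0 + d) + p * (2 * x0 + p) := by ring
        rw [this]
        exact dvd_add hx0 (dvd_mul_right _ _)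
    · refine ⟨x0, hcop.mul_dvd ?_ hx0⟩
      refine ⟨2 * t * t + 2 * t + 4 * j + 1, ?_⟩
      rw [ht, hd]; push_cast; ring
  obtain ⟨a, ha⟩ := hx
  have hpd' : (2 * p + 1 : ℤ) = d * n := by exact_mod_cast hpd
  have hd0 : (0 : ℤ) < d := by positivity
  have hp0 : (0 : ℤ) < p := by exact_mod_cast hp.pos
  have ha0 : 0 < a := by
    by_contra hneg
    have : (2 * p : ℤ) * a ≤ 0 := mul_nonpos_of_nonneg_of_nonpos (by linarith) (not_lt.mp hneg)
    nlinarith [mul_self_nonneg x]
  have hPD : PD1 a (2 * p) n x 1 0 := by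
    refine ⟨fun X Y Z hz => ?_, by linear_combination (-(n : ℤ)) * ha - hpd'⟩
    have id1 : a * d * (a * X * X + 2 * p * Y * Y + n * Z * Z + 2 * x * X * Y + 2 * 1 * X * Z + 2 * 0 * Y * Z)
        = d * ((a * X + x * Y + Z) * (a * X + x * Y + Z)) + (d * Y - x * Z) * (d * Y - x * Z)
          + a * (Z * Z) := by
      linear_combination (-(d : ℤ) * Y * Y - Z * Z) * ha - a * Z * Z * hpd'
    have had : 0 < a * d := mul_pos ha0 hd0
    by_contra hq
    have hq' := mul_nonpos_of_nonneg_of_nonpos had.le (not_lt.mp hq)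
    rw [id1] at hq'
    have s1 := mul_nonneg hd0.le (mul_self_nonneg (a * X + x * Y + Z))
    have s2 := mul_self_nonneg (d * Y - x * Z)
    have s3 := mul_nonneg ha0.le (mul_self_nonneg Z)
    have z0 : Z = 0 := by
      have : a * (Z * Z) = 0 := by linarith
      rcases mul_eq_zero.mp this with h | h
      · linarith
      · exact mul_self_eq_zero.mp h
    have y0 : Y = 0 := by
      have : (d * Y - x * Z) * (d * Y - x * Z) = 0 := by linarith
      have := mul_self_eq_zero.mp this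
      rw [z0] at this
      have : (d : ℤ) * Y = 0 := by linarith
      rcases mul_eq_zero.mp this with h | h
      · linarith
      · exact h
    have x0' : X = 0 := by
      have : (d : ℤ) * ((a * X + x * Y + Z) * (a * X + x * Y + Z)) = 0 := by linarith
      rcases mul_eq_zero.mp this with h | h
      · linarith
      · have := mul_self_eq_zero.mp h
        rw [z0, y0] at this
        have : a * X = 0 := by linarith
        rcases mul_eq_zero.mp this with h | h
        · linarith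
        · exact h
    exact hz ⟨x0', y0, z0⟩
  obtain ⟨u0, u1, u2, v0, v1, v2, w0, w1, w2, -, -, h3, -, h5, -⟩ :=
    gram_all ((a + 2 * p + n).toNat + 1) _ _ _ _ _ _ hPD (by push_cast; omega)
  exact ⟨w0, w1, w2, u0, u1, u2, h3, h5⟩

end Pool.Agent.Lib.MP_568bdc_nt
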